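import Mathlib
import Pool.Agent.R503.N.Ph

/-! Phases for two moduli with a common factor `g` and unrelated classes modulo `g`
(adapted from `Pool.Agent.R503.N.Ph`). -/

set_option autoImplicit false

open Finset

namespace Pool.Agent.Helper91K1.T

open Pool.Agent.Y826.Z Pool.Agent.Y870.Z Pool.Agent.R503.N

/-- residue indicator -/
noncomputable def rc (q : ℕ) (c x : ℤ) : ℂ := iC ((x : ZMod q) = (c : ZMod q))

lemma rc_per (q : ℕ) (c : ℤ) {x y : ℤ} (h : (q : ℤ) ∣ x - y) : rc q c x = rc q c y := cl_per q c h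

lemma rc_ind (q : ℕ) (c x : ℤ) : ((ind ((q : ℤ) ∣ x - c) : ℝ) : ℂ) = rc q c x := by
  rw [iC_ind]
  apply iC_congr
  rw [ZMod.intCast_eq_intCast_iff_dvd_sub, ← dvd_neg, neg_sub]

lemma rc_norm (q : ℕ) (c x : ℤ) : ‖rc q c x‖ ≤ 1 := iC_norm _

/-- the part with the modulus `g w1 w2` -/
noncomputable def GP (g w1 w2 : ℕ) (γ1 γ2 d1 d2 t x m : ℤ) : ℂ :=
  rc g γ1 (m * x) * rc g γ2 (m * (x + t)) * (rc w1 d1 (m * x) * rc w2 d2 (m * (x + t)))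

lemma GP_per_m (g w1 w2 : ℕ) (γ1 γ2 d1 d2 t x m : ℤ) :
    GP g w1 w2 γ1 γ2 d1 d2 t x (m + ((g * w1 * w2 : ℕ) : ℤ)) = GP g w1 w2 γ1 γ2 d1 d2 t x m := by
  unfold GP
  congr 1
  · congr 1
    · exact rc_per g γ1 ⟨w1 * w2 * x, by push_cast; ring⟩
    · exact rc_per g γ2 ⟨w1 * w2 * (x + t), by push_cast; ring⟩
  · congr 1
    · exact rc_per w1 d1 ⟨g * w2 * x, by push_cast; ring⟩
    · exact rc_per w2 d2 ⟨g * w1 * (x + t), by push_cast; ring⟩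

lemma GP_per_x (g w1 w2 : ℕ) (γ1 γ2 d1 d2 t x m : ℤ) :
    GP g w1 w2 γ1 γ2 d1 d2 t (x + ((g * w1 * w2 : ℕ) : ℤ)) m = GP g w1 w2 γ1 γ2 d1 d2 t x m := by
  unfold GP
  congr 1
  · congr 1
    · exact rc_per g γ1 ⟨w1 * w2 * m, by push_cast; ring⟩
    · exact rc_per g γ2 ⟨w1 * w2 * m, by push_cast; ring⟩
  · congr 1
    · exact rc_per w1 d1 ⟨g * w2 * m, by push_cast; ring⟩
    · exact rc_per w2 d2 ⟨g * w1 * m, by push_cast; ring⟩

lemma GP_norm (g w1 w2 : ℕ) (γ1 γ2 d1 d2 t x : ℤ) (hg : 0 < g) (h1 : 0 < w1) (h2 : 0 < w2)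
    (c1 : g.Coprime w1) (c2 : (g * w1).Coprime w2) (hγ1 : IsCoprime γ1 (g : ℤ)) (hd1 : IsCoprime d1 (w1 : ℤ))
    (hd2 : IsCoprime d2 (w2 : ℤ)) :
    ∑ m ∈ range (g * w1 * w2), ‖GP g w1 w2 γ1 γ2 d1 d2 t x m‖ ≤ 1 := by
  have e1 : ∑ m ∈ range (g * w1 * w2), (‖rc g γ1 ((m : ℤ) * x)‖ * ‖rc w1 d1 ((m : ℤ) * x)‖) *
        ‖rc w2 d2 ((m : ℤ) * (x + t))‖ =
      ((∑ m ∈ range g, ‖rc g γ1 ((m : ℤ) * x)‖) * ∑ m ∈ range w1, ‖rc w1 d1 ((m : ℤ) * x)‖) *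
        ∑ m ∈ range w2, ‖rc w2 d2 ((m : ℤ) * (x + t))‖ := by
    rw [← sum_crt g w1 hg h1 c1 (fun m => ‖rc g γ1 (m * x)‖)
      (fun m => ‖rc w1 d1 (m * x)‖)
      (fun m => congrArg _ (rc_per g γ1 ⟨x, by ring⟩))
      (fun m => congrArg _ (rc_per w1 d1 ⟨x, by ring⟩))]
    rw [← sum_crt (g * w1) w2 (Nat.mul_pos hg h1) h2 c2
      (fun m => ‖rc g γ1 (m * x)‖ * ‖rc w1 d1 (m * x)‖)
      (fun m => ‖rc w2 d2 (m * (x + t))‖)
      (fun m => by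
        congr 1
        · exact congrArg _ (rc_per g γ1 ⟨w1 * x, by push_cast; ring⟩)
        · exact congrArg _ (rc_per w1 d1 ⟨g * x, by push_cast; ring⟩))
      (fun m => congrArg _ (rc_per w2 d2 ⟨x + t, by ring⟩))]
  have e0 : ∑ m ∈ range (g * w1 * w2), ‖GP g w1 w2 γ1 γ2 d1 d2 t x m‖ ≤
      ∑ m ∈ range (g * w1 * w2), (‖rc g γ1 ((m : ℤ) * x)‖ * ‖rc w1 d1 ((m : ℤ) * x)‖) *
        ‖rc w2 d2 ((m : ℤ) * (x + t))‖ := by
    refine sum_le_sum fun m _ => ?_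
    unfold GP
    rw [norm_mul, norm_mul, norm_mul]
    have a1 := norm_nonneg (rc g γ1 ((m : ℤ) * x))
    have a2 := rc_norm g γ2 ((m : ℤ) * (x + t))
    have a3 := norm_nonneg (rc w1 d1 ((m : ℤ) * x))
    have a4 := norm_nonneg (rc w2 d2 ((m : ℤ) * (x + t)))
    calc ‖rc g γ1 ((m : ℤ) * x)‖ * ‖rc g γ2 ((m : ℤ) * (x + t))‖ *
          (‖rc w1 d1 ((m : ℤ) * x)‖ * ‖rc w2 d2 ((m : ℤ) * (x + t))‖)
        ≤ ‖rc g γ1 ((m : ℤ) * x)‖ * 1 *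
          (‖rc w1 d1 ((m : ℤ) * x)‖ * ‖rc w2 d2 ((m : ℤ) * (x + t))‖) := by gcongr
      _ = _ := by ring
  refine e0.trans ?_
  rw [e1]
  have b1 := sum_norm_le (fun m => iC_norm_eq _) (cl_sum g hg γ1 hγ1 x)
  have b3 := sum_norm_le (fun m => iC_norm_eq _) (cl_sum w1 h1 d1 hd1 x)
  have b4 := sum_norm_le (fun m => iC_norm_eq _) (cl_sum w2 h2 d2 hd2 (x + t))
  refine mul_le_one₀ (mul_le_one₀ b1 (sum_nonneg fun _ _ => norm_nonneg _) b3)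
    (sum_nonneg fun _ _ => norm_nonneg _) b4

/-- the conditions on the periodic factor -/
def GoodG (g w1 w2 : ℕ) (γ1 d1 d2 : ℤ) : Prop :=
  0 < g ∧ 0 < w1 ∧ 0 < w2 ∧ g.Coprime w1 ∧ (g * w1).Coprime w2 ∧ IsCoprime γ1 (g : ℤ) ∧ IsCoprime d1 (w1 : ℤ) ∧
    IsCoprime d2 (w2 : ℤ)

open Classical in
/-- the periodic factor -/
noncomputable def ZG (g D0 w1 w2 : ℕ) (γ1 γ2 d1 d2 t k x : ℤ) : ℂ :=
  if GoodG g w1 w2 γ1 d1 d2 then
    ∑ m ∈ range (g * w1 * w2), GP g w1 w2 γ1 γ2 d1 d2 t x m *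
      ec (g * w1 * w2) ((k : ZMod (g * w1 * w2)) *
        ((∏ p ∈ D0.primeFactors, p : ℕ) : ZMod (g * w1 * w2))⁻¹ *
        ((m : ℕ) : ZMod (g * w1 * w2)))
  else 0

lemma ZG_norm (g D0 w1 w2 : ℕ) (γ1 γ2 d1 d2 t k x : ℤ) : ‖ZG g D0 w1 w2 γ1 γ2 d1 d2 t k x‖ ≤ 1 := by
  unfold ZG
  split_ifs with hs
  · obtain ⟨g1, g2, g3, g4, g5, g6, g7, g8⟩ := hs
    have : NeZero (g * w1 * w2) := ⟨by positivity⟩
    refine (norm_sum_le _ _).trans (le_trans ?_ (GP_norm g w1 w2 γ1 γ2 d1 d2 t x g1 g2 g3 g4 g5 g6 g7 g8))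
    refine sum_le_sum fun m _ => ?_
    rw [norm_mul, Pool.Agent.Y870.Z.ec_norm, mul_one]
  · simp

lemma ZG_per (g D0 w1 w2 : ℕ) (γ1 γ2 d1 d2 t k x : ℤ) :
    ZG g D0 w1 w2 γ1 γ2 d1 d2 t k (x + ((g * w1 * w2 : ℕ) : ℤ)) = ZG g D0 w1 w2 γ1 γ2 d1 d2 t k x := by
  unfold ZG
  simp only [GP_per_x]

/-- the classes at the primes of `r u1 u2` -/
noncomputable def AG (h c1 c2 : ℤ) (r u1 : ℕ) (p : ℕ) : ZMod p :=
  if p ∣ r then (h : ZMod p) else if p ∣ u1 then (c1 : ZMod p) else (c2 : ZMod p)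

lemma cast_ne {c : ℤ} {u : ℕ} (hc : IsCoprime c (u : ℤ)) {p : ℕ} (hp : p.Prime) (hd : p ∣ u) :
    (c : ZMod p) ≠ 0 := by
  intro h0
  have h1 := (ZMod.intCast_zmod_eq_zero_iff_dvd c p).1 h0
  have h2 : (p : ℤ) ∣ (u : ℤ) := Int.natCast_dvd_natCast.2 hd
  have h3 := hc.isUnit_of_dvd' h1 h2
  have h4 := Int.isUnit_iff.1 h3
  have := hp.one_lt
  omega

lemma AG_ne {h c1 c2 : ℤ} {r u1 u2 : ℕ} (hh : IsCoprime h (r : ℤ)) (hc1 : IsCoprime c1 (u1 : ℤ))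
    (hc2 : IsCoprime c2 (u2 : ℤ)) (p : ℕ) (hp : p.Prime) (hd : p ∣ r * u1 * u2) : AG h c1 c2 r u1 p ≠ 0 := by
  unfold AG
  split_ifs with h1 h2
  · exact cast_ne hh hp h1
  · exact cast_ne hc1 hp h2
  · refine cast_ne hc2 hp ?_
    rcases (Nat.Prime.dvd_mul hp).1 hd with h3 | h3
    · rcases (Nat.Prime.dvd_mul hp).1 h3 with h4 | h4
      · exact absurd h4 h1
      · exact absurd h4 h2
    · exact h3

/-- the function of `m` -/
noncomputable def FG (g r u1 u2 w1 w2 : ℕ) (h c1 c2 γ1 γ2 d1 d2 : ℤ) (t x1 m : ℤ) : ℂ :=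
  rc r h (m * x1) * rc u1 c1 (m * x1) * rc u2 c2 (m * (x1 + t)) * GP g w1 w2 γ1 γ2 d1 d2 t x1 m

lemma FG_per (g r u1 u2 w1 w2 : ℕ) (h c1 c2 γ1 γ2 d1 d2 : ℤ) (t x1 m : ℤ) :
    FG g r u1 u2 w1 w2 h c1 c2 γ1 γ2 d1 d2 t x1 (m + ((g * r * u1 * u2 * w1 * w2 : ℕ) : ℤ)) =
      FG g r u1 u2 w1 w2 h c1 c2 γ1 γ2 d1 d2 t x1 m := by
  unfold FG GP
  congr 1
  · congr 1
    · congr 1
      · exact rc_per r h ⟨g * u1 * u2 * w1 * w2 * x1, by push_cast; ring⟩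
      · exact rc_per u1 c1 ⟨g * r * u2 * w1 * w2 * x1, by push_cast; ring⟩
    · exact rc_per u2 c2 ⟨g * r * u1 * w1 * w2 * (x1 + t), by push_cast; ring⟩
  · congr 1
    · congr 1
      · exact rc_per g γ1 ⟨r * u1 * u2 * w1 * w2 * x1, by push_cast; ring⟩
      · exact rc_per g γ2 ⟨r * u1 * u2 * w1 * w2 * (x1 + t), by push_cast; ring⟩
    · congr 1
      · exact rc_per w1 d1 ⟨g * r * u1 * u2 * w2 * x1, by push_cast; ring⟩
      · exact rc_per w2 d2 ⟨g * r * u1 * u2 * w1 * (x1 + t), by push_cast; ring⟩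

/-- expansion into local conditions -/
lemma FG_expand (g r u1 u2 w1 w2 : ℕ) (h c1 c2 γ1 γ2 d1 d2 : ℤ) (t x1 m : ℤ)
    (hs : Squarefree (g * r * u1 * u2 * w1 * w2)) :
    FG g r u1 u2 w1 w2 h c1 c2 γ1 γ2 d1 d2 t x1 m = GP g w1 w2 γ1 γ2 d1 d2 t x1 m *
        ∏ p ∈ (r * u1 * u2).primeFactors,
          loc p (AG h c1 c2 r u1 p) (m * (if p ∣ u2 then x1 + t else x1)) := by
  have s6 : Squarefree (g * r * u1 * u2 * w1) := hs.squarefree_of_dvd (dvd_mul_right _ _)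
  have s5 : Squarefree (g * r * u1 * u2) := s6.squarefree_of_dvd (dvd_mul_right _ _)
  have s4 : Squarefree (g * r * u1) := s5.squarefree_of_dvd (dvd_mul_right _ _)
  have s3 : Squarefree (g * r) := s4.squarefree_of_dvd (dvd_mul_right _ _)
  have sr : Squarefree r := s3.squarefree_of_dvd (dvd_mul_left _ _)
  have su1 : Squarefree u1 := s4.squarefree_of_dvd (dvd_mul_left _ _)
  have su2 : Squarefree u2 := s5.squarefree_of_dvd (dvd_mul_left _ _)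
  have c1' : r.Coprime u1 :=
    Nat.Coprime.coprime_dvd_left (dvd_mul_left _ _) (Nat.coprime_of_squarefree_mul s4)
  have c2' : (r * u1).Coprime u2 := by
    refine Nat.Coprime.coprime_dvd_left ?_ (Nat.coprime_of_squarefree_mul s5)
    exact ⟨g, by ring⟩
  unfold FG rc
  rw [res_prod r sr, res_prod u1 su1, res_prod u2 su2]
  rw [prod_split c1' c2']
  have nd : ∀ {A B : ℕ}, A.Coprime B → ∀ p ∈ A.primeFactors, ¬ p ∣ B := by
    intro A B hAB p hp hpB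
    exact (Nat.prime_of_mem_primeFactors hp).one_lt.ne'
      (Nat.eq_one_of_dvd_coprimes hAB (Nat.dvd_of_mem_primeFactors hp) hpB)
  have c3 : r.Coprime u2 := Nat.Coprime.coprime_dvd_left (dvd_mul_right _ _) c2'
  have c4 : u1.Coprime u2 := Nat.Coprime.coprime_dvd_left (dvd_mul_left _ _) c2'
  have e1 : ∏ p ∈ r.primeFactors, loc p (AG h c1 c2 r u1 p) (m * (if p ∣ u2 then x1 + t else x1)) =
      ∏ p ∈ r.primeFactors, loc p (h : ZMod p) (m * x1) := by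
    refine Finset.prod_congr rfl fun p hp => ?_
    rw [AG, if_pos (Nat.dvd_of_mem_primeFactors hp), if_neg (nd c3 p hp)]
  have e2 : ∏ p ∈ u1.primeFactors, loc p (AG h c1 c2 r u1 p) (m * (if p ∣ u2 then x1 + t else x1)) =
      ∏ p ∈ u1.primeFactors, loc p (c1 : ZMod p) (m * x1) := by
    refine Finset.prod_congr rfl fun p hp => ?_
    rw [AG, if_neg (nd c1'.symm p hp), if_pos (Nat.dvd_of_mem_primeFactors hp), if_neg (nd c4 p hp)]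
  have e3 : ∏ p ∈ u2.primeFactors, loc p (AG h c1 c2 r u1 p) (m * (if p ∣ u2 then x1 + t else x1)) =
      ∏ p ∈ u2.primeFactors, loc p (c2 : ZMod p) (m * (x1 + t)) := by
    refine Finset.prod_congr rfl fun p hp => ?_
    rw [AG, if_neg (nd c3.symm p hp), if_neg (nd c4.symm p hp), if_pos (Nat.dvd_of_mem_primeFactors hp)]
  rw [e1, e2, e3]
  ring

/-- the sum over `m` in terms of phases -/
theorem phaseG (g r u1 u2 w1 w2 : ℕ) (h c1 c2 γ1 γ2 d1 d2 : ℤ) (t : ℤ) (M : ℕ)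
    (hs : Squarefree (g * r * u1 * u2 * w1 * w2))
    (hh : IsCoprime h (r : ℤ)) (hc1 : IsCoprime c1 (u1 : ℤ)) (hc2 : IsCoprime c2 (u2 : ℤ))
    (hγ1 : IsCoprime γ1 (g : ℤ)) (hd1 : IsCoprime d1 (w1 : ℤ)) (hd2 : IsCoprime d2 (w2 : ℤ)) (n : ℕ) :
    ∑ m ∈ Ioc M (2 * M), FG g r u1 u2 w1 w2 h c1 c2 γ1 γ2 d1 d2 t n m =
      Ih M (g * r * u1 * u2 * w1 * w2) 0 *
        ∑ j ∈ range (g * r * u1 * u2 * w1 * w2), FG g r u1 u2 w1 w2 h c1 c2 γ1 γ2 d1 d2 t n j +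
      ∑ k ∈ freq (g * r * u1 * u2 * w1 * w2),
          Ih M (g * r * u1 * u2 * w1 * w2) k * ZG g (r * u1 * u2) w1 w2 γ1 γ2 d1 d2 t k n *
          PH (r * u1 * u2).primeFactors
            (fun p => (k : ZMod p) * ((g * r * u1 * u2 * w1 * w2 / p : ℕ) : ZMod p)⁻¹ * AG h c1 c2 r u1 p)
            (fun p => if p ∣ u2 then (t : ZMod p) else 0) n := by
  have hq0 : 0 < g * r * u1 * u2 * w1 * w2 := Nat.pos_of_ne_zero hs.ne_zero
  have : NeZero (g * r * u1 * u2 * w1 * w2) := ⟨hq0.ne'⟩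
  rw [fourier _ M hq0 (FG g r u1 u2 w1 w2 h c1 c2 γ1 γ2 d1 d2 t n)
      (FG_per g r u1 u2 w1 w2 h c1 c2 γ1 γ2 d1 d2 t n),
    freq0_eq _ hq0, Finset.sum_insert (zero_notin_freq _)]
  have e1 : ∑ j ∈ range (g * r * u1 * u2 * w1 * w2), FG g r u1 u2 w1 w2 h c1 c2 γ1 γ2 d1 d2 t n j *
      ec (g * r * u1 * u2 * w1 * w2)
        ((((0 : ℤ)) : ZMod (g * r * u1 * u2 * w1 * w2)) * ((j : ℕ) : ZMod _)) =
      ∑ j ∈ range (g * r * u1 * u2 * w1 * w2), FG g r u1 u2 w1 w2 h c1 c2 γ1 γ2 d1 d2 t n j := by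
    refine Finset.sum_congr rfl fun j _ => ?_
    rw [Int.cast_zero, zero_mul, ec_zero, mul_one]
  rw [e1]
  congr 1
  refine Finset.sum_congr rfl fun k _ => ?_
  refine Eq.trans ?_ (mul_assoc (Ih M (g * r * u1 * u2 * w1 * w2) k) _ _).symm
  congr 1
  have hq1s : Squarefree (g * w1 * w2) := hs.squarefree_of_dvd ⟨r * u1 * u2, by ring⟩
  have hd2s : Squarefree (r * u1 * u2) := hs.squarefree_of_dvd ⟨g * w1 * w2, by ring⟩
  have hqq : g * r * u1 * u2 * w1 * w2 =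
      (g * w1 * w2) * ∏ p ∈ (r * u1 * u2).primeFactors, p := by
    rw [prod_pf hd2s]; ring
  have hcc : ∀ p ∈ (r * u1 * u2).primeFactors, Nat.Coprime (g * w1 * w2) p := by
    intro p hp
    have h1 : Squarefree ((g * w1 * w2) * (r * u1 * u2)) := hs.squarefree_of_dvd ⟨1, by ring⟩
    exact Nat.Coprime.coprime_dvd_right (Nat.dvd_of_mem_primeFactors hp) (Nat.coprime_of_squarefree_mul h1)
  have h3 := sum_crt_primes' (r * u1 * u2).primeFactors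
    (fun p hp => Nat.prime_of_mem_primeFactors hp) (g * w1 * w2)
    (Nat.pos_of_ne_zero hq1s.ne_zero) hcc (GP g w1 w2 γ1 γ2 d1 d2 t n)
    (fun m => GP_per_m g w1 w2 γ1 γ2 d1 d2 t n m)
    (fun p m => loc p (AG h c1 c2 r u1 p) (m * (if p ∣ u2 then (n : ℤ) + t else (n : ℤ))))
    (fun p _ m => loc_per p _ ⟨(if p ∣ u2 then (n : ℤ) + t else (n : ℤ)), by ring⟩) k _ hqq
  rw [Finset.sum_congr rfl (fun j _ => by rw [FG_expand g r u1 u2 w1 w2 h c1 c2 γ1 γ2 d1 d2 t n j hs])]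
  rw [h3]
  have s12 : Squarefree (g * w1) := hq1s.squarefree_of_dvd (dvd_mul_right _ _)
  have hgood : GoodG g w1 w2 γ1 d1 d2 :=
    ⟨Nat.pos_of_ne_zero (s12.squarefree_of_dvd (dvd_mul_right _ _)).ne_zero,
      Nat.pos_of_ne_zero (s12.squarefree_of_dvd (dvd_mul_left _ _)).ne_zero,
      Nat.pos_of_ne_zero (hq1s.squarefree_of_dvd (dvd_mul_left _ _)).ne_zero,
      Nat.coprime_of_squarefree_mul s12, Nat.coprime_of_squarefree_mul hq1s, hγ1, hd1, hd2⟩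
  congr 1
  · rw [ZG, if_pos hgood]
  · unfold PH
    refine Finset.prod_congr rfl fun p hp => ?_
    have hpp := Nat.prime_of_mem_primeFactors hp
    refine loc_sum p hpp (AG h c1 c2 r u1 p) (if p ∣ u2 then (t : ZMod p) else 0) _
      (AG_ne hh hc1 hc2 p hpp (Nat.dvd_of_mem_primeFactors hp)) n _ ?_
    split_ifs
    · push_cast; rfl
    · simp

end Pool.Agent.Helper91K1.T
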