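import Mathlib
import Pool.Agent.R503.N.OA
import Pool.Agent.Helper91K1.T.PhG

/-! The off-diagonal terms for fixed outer variables and two moduli with a common factor
(adapted from `Pool.Agent.R503.N.OA`). -/

set_option autoImplicit false

open Finset Filter

namespace Pool.Agent.Helper91K1.T

open Pool.Agent.Y826.Z Pool.Agent.Y535.ZP Pool.Agent.R503.N
open Pool.Agent.Y870.Z (sqf_dvd Ih_eq ec_zero)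

/-- the real version of `FG` -/
noncomputable def Fr (g r u1 u2 w1 w2 : ℕ) (h c1 c2 γ1 γ2 d1 d2 : ℤ) (n1 n2 m : ℕ) : ℝ :=
  ind ((r : ℤ) ∣ ((m * n1 : ℕ) : ℤ) - h) * ind ((u1 : ℤ) ∣ ((m * n1 : ℕ) : ℤ) - c1) *
    ind ((u2 : ℤ) ∣ ((m * n2 : ℕ) : ℤ) - c2) *
    (ind ((g : ℤ) ∣ ((m * n1 : ℕ) : ℤ) - γ1) * ind ((g : ℤ) ∣ ((m * n2 : ℕ) : ℤ) - γ2) *
      (ind ((w1 : ℤ) ∣ ((m * n1 : ℕ) : ℤ) - d1) * ind ((w2 : ℤ) ∣ ((m * n2 : ℕ) : ℤ) - d2)))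

lemma Fr_FG (g r u1 u2 w1 w2 : ℕ) (h c1 c2 γ1 γ2 d1 d2 : ℤ) (n1 n2 m : ℕ) (t : ℤ) (hn : (n2 : ℤ) = n1 + t) :
    ((Fr g r u1 u2 w1 w2 h c1 c2 γ1 γ2 d1 d2 n1 n2 m : ℝ) : ℂ) =
      FG g r u1 u2 w1 w2 h c1 c2 γ1 γ2 d1 d2 t n1 m := by
  unfold Fr FG GP
  have e1 : ((m * n1 : ℕ) : ℤ) = (m : ℤ) * n1 := by push_cast; ring
  have e2 : ((m * n2 : ℕ) : ℤ) = (m : ℤ) * (n1 + t) := by rw [← hn]; push_cast; ring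
  rw [← e1, ← e2]
  push_cast
  simp only [← rc_ind]

lemma Fr_nonneg (g r u1 u2 w1 w2 : ℕ) (h c1 c2 γ1 γ2 d1 d2 : ℤ) (n1 n2 m : ℕ) :
    0 ≤ Fr g r u1 u2 w1 w2 h c1 c2 γ1 γ2 d1 d2 n1 n2 m := by
  unfold Fr
  have := fun P => Pool.Agent.Y535.ZP.ind_nonneg P
  exact mul_nonneg (mul_nonneg (mul_nonneg (this _) (this _)) (this _))
    (mul_nonneg (mul_nonneg (this _) (this _)) (mul_nonneg (this _) (this _)))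

lemma ind_cases (P : Prop) : (P ∧ ind P = 1) ∨ (¬ P ∧ ind P = 0) := by
  unfold ind
  by_cases h : P
  · exact Or.inl ⟨h, by simp [h]⟩
  · exact Or.inr ⟨h, by simp [h]⟩

lemma Fr_cases (g r u1 u2 w1 w2 : ℕ) (h c1 c2 γ1 γ2 d1 d2 : ℤ) (n1 n2 m : ℕ) :
    Fr g r u1 u2 w1 w2 h c1 c2 γ1 γ2 d1 d2 n1 n2 m = 0 ∨
    (Fr g r u1 u2 w1 w2 h c1 c2 γ1 γ2 d1 d2 n1 n2 m = 1 ∧ (r : ℤ) ∣ ((m * n1 : ℕ) : ℤ) - h ∧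
      (u1 : ℤ) ∣ ((m * n1 : ℕ) : ℤ) - c1 ∧ (u2 : ℤ) ∣ ((m * n2 : ℕ) : ℤ) - c2 ∧
      (g : ℤ) ∣ ((m * n1 : ℕ) : ℤ) - γ1 ∧ (g : ℤ) ∣ ((m * n2 : ℕ) : ℤ) - γ2 ∧
      (w1 : ℤ) ∣ ((m * n1 : ℕ) : ℤ) - d1 ∧ (w2 : ℤ) ∣ ((m * n2 : ℕ) : ℤ) - d2) := by
  unfold Fr
  rcases ind_cases ((r : ℤ) ∣ ((m * n1 : ℕ) : ℤ) - h) with ⟨a1, b1⟩ | ⟨a1, b1⟩
  swap
  · left; rw [b1]; ring
  rcases ind_cases ((u1 : ℤ) ∣ ((m * n1 : ℕ) : ℤ) - c1) with ⟨a2, b2⟩ | ⟨a2, b2⟩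
  swap
  · left; rw [b2]; ring
  rcases ind_cases ((u2 : ℤ) ∣ ((m * n2 : ℕ) : ℤ) - c2) with ⟨a3, b3⟩ | ⟨a3, b3⟩
  swap
  · left; rw [b3]; ring
  rcases ind_cases ((g : ℤ) ∣ ((m * n1 : ℕ) : ℤ) - γ1) with ⟨a4, b4⟩ | ⟨a4, b4⟩
  swap
  · left; rw [b4]; ring
  rcases ind_cases ((g : ℤ) ∣ ((m * n2 : ℕ) : ℤ) - γ2) with ⟨a5, b5⟩ | ⟨a5, b5⟩
  swap
  · left; rw [b5]; ring
  rcases ind_cases ((w1 : ℤ) ∣ ((m * n1 : ℕ) : ℤ) - d1) with ⟨a6, b6⟩ | ⟨a6, b6⟩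
  swap
  · left; rw [b6]; ring
  rcases ind_cases ((w2 : ℤ) ∣ ((m * n2 : ℕ) : ℤ) - d2) with ⟨a7, b7⟩ | ⟨a7, b7⟩
  swap
  · left; rw [b7]; ring
  right
  refine ⟨?_, a1, a2, a3, a4, a5, a6, a7⟩
  rw [b1, b2, b3, b4, b5, b6, b7]
  norm_num

lemma inj_cls {q : ℕ} {c : ℤ} (hc : IsCoprime c (q : ℤ)) {p : ℕ} (hp : p.Prime) (hpq : p ∣ q) {j j' n : ℕ}
    (h1 : (q : ℤ) ∣ ((j * n : ℕ) : ℤ) - c) (h2 : (q : ℤ) ∣ ((j' * n : ℕ) : ℤ) - c) : (p : ℤ) ∣ (j : ℤ) - j' := by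
  have hpq' : (p : ℤ) ∣ (q : ℤ) := Int.natCast_dvd_natCast.2 hpq
  have h3 := dvd_sub (hpq'.trans h1) (hpq'.trans h2)
  have e : ((j * n : ℕ) : ℤ) - c - (((j' * n : ℕ) : ℤ) - c) = ((j : ℤ) - j') * n := by push_cast; ring
  rw [e] at h3
  rcases (Nat.prime_iff_prime_int.1 hp).dvd_or_dvd h3 with h4 | h4
  · exact h4
  · exfalso
    have h5 : (p : ℤ) ∣ ((j * n : ℕ) : ℤ) := by push_cast; exact Dvd.dvd.mul_left h4 _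
    have h6 : (p : ℤ) ∣ c := by
      have := dvd_sub h5 (hpq'.trans h1)
      rwa [sub_sub_cancel] at this
    have h7 := hc.isUnit_of_dvd' h6 hpq'
    have h8 := Int.isUnit_iff.1 h7
    have := hp.one_lt
    omega

/-- the zero frequency -/
lemma Fr_sum (g r u1 u2 w1 w2 : ℕ) (h c1 c2 γ1 γ2 d1 d2 : ℤ) (hs : Squarefree (g * r * u1 * u2 * w1 * w2))
    (hh : IsCoprime h (r : ℤ)) (hc1 : IsCoprime c1 (u1 : ℤ)) (hc2 : IsCoprime c2 (u2 : ℤ))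
    (hγ1 : IsCoprime γ1 (g : ℤ)) (hd1 : IsCoprime d1 (w1 : ℤ)) (hd2 : IsCoprime d2 (w2 : ℤ)) (n1 n2 : ℕ) :
    0 ≤ ∑ j ∈ range (g * r * u1 * u2 * w1 * w2), Fr g r u1 u2 w1 w2 h c1 c2 γ1 γ2 d1 d2 n1 n2 j ∧
    ∑ j ∈ range (g * r * u1 * u2 * w1 * w2), Fr g r u1 u2 w1 w2 h c1 c2 γ1 γ2 d1 d2 n1 n2 j ≤
      ind ((g : ℤ) ∣ γ1 * n2 - γ2 * n1) := by
  refine ⟨sum_nonneg fun _ _ => Fr_nonneg _ _ _ _ _ _ _ _ _ _ _ _ _ _ _ _, ?_⟩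
  by_cases hex : ∃ j ∈ range (g * r * u1 * u2 * w1 * w2), Fr g r u1 u2 w1 w2 h c1 c2 γ1 γ2 d1 d2 n1 n2 j ≠ 0
  swap
  · push Not at hex
    rw [sum_eq_zero hex]
    exact Pool.Agent.Y535.ZP.ind_nonneg _
  obtain ⟨j, hj, hj0⟩ := hex
  obtain ⟨f1, a1, a2, a3, a4, a5, a6, a7⟩ :=
    (Fr_cases g r u1 u2 w1 w2 h c1 c2 γ1 γ2 d1 d2 n1 n2 j).resolve_left hj0
  have hP : (g : ℤ) ∣ γ1 * n2 - γ2 * n1 := by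
    have h1 := dvd_sub (Dvd.dvd.mul_left a5 (n1 : ℤ)) (Dvd.dvd.mul_left a4 (n2 : ℤ))
    have e : (n1 : ℤ) * (((j * n2 : ℕ) : ℤ) - γ2) - (n2 : ℤ) * (((j * n1 : ℕ) : ℤ) - γ1) = γ1 * n2 - γ2 * n1 := by
      push_cast; ring
    rwa [e] at h1
  have hind : ind ((g : ℤ) ∣ γ1 * n2 - γ2 * n1) = 1 := by unfold ind; rw [if_pos hP]
  rw [hind, sum_eq_single_of_mem j hj, f1]
  intro j' hj' hne
  rcases Fr_cases g r u1 u2 w1 w2 h c1 c2 γ1 γ2 d1 d2 n1 n2 j' with h0 | ⟨-, b1, b2, b3, b4, b5, b6, b7⟩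
  · exact h0
  exfalso
  apply hne
  rw [mem_range] at hj hj'
  have hdvd : ((g * r * u1 * u2 * w1 * w2 : ℕ) : ℤ) ∣ (j' : ℤ) - j := by
    rw [sqf_dvd _ hs]
    intro p hp
    have hpp := Nat.prime_of_mem_primeFactors hp
    have hd := Nat.dvd_of_mem_primeFactors hp
    rcases (hpp.dvd_mul).1 hd with hd | hd
    · rcases (hpp.dvd_mul).1 hd with hd | hd
      · rcases (hpp.dvd_mul).1 hd with hd | hd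
        · rcases (hpp.dvd_mul).1 hd with hd | hd
          · rcases (hpp.dvd_mul).1 hd with hd | hd
            · exact inj_cls hγ1 hpp hd b4 a4
            · exact inj_cls hh hpp hd b1 a1
          · exact inj_cls hc1 hpp hd b2 a2
        · exact inj_cls hc2 hpp hd b3 a3
      · exact inj_cls hd1 hpp hd b6 a6
    · exact inj_cls hd2 hpp hd b7 a7
  have h4 := Int.eq_zero_of_abs_lt_dvd hdvd (by rw [abs_lt]; constructor <;> omega)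
  omega

lemma Ih_zero (M q : ℕ) (hq : 0 < q) : Ih M q 0 = ((M / q : ℝ) : ℂ) := by
  have : NeZero q := ⟨hq.ne'⟩
  rw [Ih_eq M q hq 0]
  have e : ∑ m ∈ Ioc M (2 * M), ec q (-(((0 : ℤ) : ZMod q) * ((m : ℕ) : ZMod q))) = (M : ℂ) := by
    have h1 : ∀ m ∈ Ioc M (2 * M), ec q (-(((0 : ℤ) : ZMod q) * ((m : ℕ) : ZMod q))) = 1 := by
      intro m _
      rw [Int.cast_zero, zero_mul, neg_zero, ec_zero]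
    rw [sum_congr rfl h1, sum_const, Nat.card_Ioc, nsmul_eq_mul, mul_one]
    have h2 : 2 * M - M = M := by omega
    rw [h2]
  rw [e]
  push_cast
  ring

/-- the sum over `m` minus the zero frequency -/
noncomputable def En (M g r u1 u2 w1 w2 : ℕ) (h c1 c2 γ1 γ2 d1 d2 : ℤ) (n1 n2 : ℕ) : ℝ :=
  ∑ m ∈ Ioc M (2 * M), Fr g r u1 u2 w1 w2 h c1 c2 γ1 γ2 d1 d2 n1 n2 m -
    (M / ((g * r * u1 * u2 * w1 * w2 : ℕ) : ℝ)) *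
      ∑ j ∈ range (g * r * u1 * u2 * w1 * w2), Fr g r u1 u2 w1 w2 h c1 c2 γ1 γ2 d1 d2 n1 n2 j

lemma En_phase (M g r u1 u2 w1 w2 : ℕ) (h c1 c2 γ1 γ2 d1 d2 : ℤ) (n1 n2 : ℕ) (t : ℤ) (hn : (n2 : ℤ) = n1 + t)
    (hs : Squarefree (g * r * u1 * u2 * w1 * w2))
    (hh : IsCoprime h (r : ℤ)) (hc1 : IsCoprime c1 (u1 : ℤ)) (hc2 : IsCoprime c2 (u2 : ℤ))
    (hγ1 : IsCoprime γ1 (g : ℤ)) (hd1 : IsCoprime d1 (w1 : ℤ)) (hd2 : IsCoprime d2 (w2 : ℤ)) :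
    ((En M g r u1 u2 w1 w2 h c1 c2 γ1 γ2 d1 d2 n1 n2 : ℝ) : ℂ) =
      ∑ k ∈ freq (g * r * u1 * u2 * w1 * w2),
          Ih M (g * r * u1 * u2 * w1 * w2) k * ZG g (r * u1 * u2) w1 w2 γ1 γ2 d1 d2 t k n1 *
          PH (r * u1 * u2).primeFactors
            (fun p => (k : ZMod p) * ((g * r * u1 * u2 * w1 * w2 / p : ℕ) : ZMod p)⁻¹ * AG h c1 c2 r u1 p)
            (fun p => if p ∣ u2 then (t : ZMod p) else 0) n1 := by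
  have h1 := phaseG g r u1 u2 w1 w2 h c1 c2 γ1 γ2 d1 d2 t M hs hh hc1 hc2 hγ1 hd1 hd2 n1
  rw [Ih_zero M _ (Nat.pos_of_ne_zero hs.ne_zero)] at h1
  have h2 : ∀ m : ℕ, FG g r u1 u2 w1 w2 h c1 c2 γ1 γ2 d1 d2 t n1 m =
      ((Fr g r u1 u2 w1 w2 h c1 c2 γ1 γ2 d1 d2 n1 n2 m : ℝ) : ℂ) := fun m => (Fr_FG _ _ _ _ _ _ _ _ _ _ _ _ _ _ _ _ t hn).symm
  simp only [h2] at h1
  unfold En
  rw [Complex.ofReal_sub, Complex.ofReal_sum, Complex.ofReal_mul, Complex.ofReal_sum, h1]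
  push_cast
  ring

theorem oaG (ε : ℝ) (hε : 0 < ε) : ∃ C : ℝ, 1 ≤ C ∧
    ∀ (X : ℝ) (M N : ℕ) (g r u1 u2 e1 e2 : ℕ) (h c1 c2 : ℤ) (l : ℤ) (SV : Finset Tp)
      (γ1 γ2 d1 d2 : Tp → ℤ) (κ : Tp → Tp → ℝ) (V1 q0 b0 : ℝ) (β : ℕ → ℝ),
    1 ≤ X → 1 ≤ N → (N : ℝ) ≤ X → (M : ℝ) ≤ X →
    IsCoprime h (r : ℤ) → IsCoprime c1 (u1 : ℤ) → IsCoprime c2 (u2 : ℤ) →
    (∀ v ∈ SV, (Pr v : ℝ) ≤ V1) → (g * e1 * e2 : ℝ) * V1 ^ 4 ≤ N → 0 < q0 → (∀ v1 v2, |κ v1 v2| ≤ 1) →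
    (∀ v1 ∈ SV, ∀ v2 ∈ SV, κ v1 v2 ≠ 0 →
      Squarefree (g * r * u1 * u2 * (e1 * Pr v1) * (e2 * Pr v2)) ∧ IsCoprime (γ1 v1) (g : ℤ) ∧
      IsCoprime (d1 v1) ((e1 * Pr v1 : ℕ) : ℤ) ∧ IsCoprime (d2 v2) ((e2 * Pr v2 : ℕ) : ℤ) ∧
      q0 ≤ ((g * r * u1 * u2 * (e1 * Pr v1) * (e2 * Pr v2) : ℕ) : ℝ) ∧
      ((g * r * u1 * u2 * (e1 * Pr v1) * (e2 * Pr v2) : ℕ) : ℝ) ≤ X) →
    (∀ n ∈ Ioc N (2 * N), |β n| ≤ b0) →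
    |∑ v1 ∈ SV, ∑ v2 ∈ SV, κ v1 v2 * ∑ n1 ∈ Ioc N (2 * N), ∑ n2 ∈ Ioc N (2 * N),
        ind ((n2 : ℤ) = n1 + l * (r : ℤ)) * (β n1 * β n2 *
          En M g r u1 u2 (e1 * Pr v1) (e2 * Pr v2) h c1 c2 (γ1 v1) (γ2 v2) (d1 v1) (d2 v2) n1 n2)| ≤
      C * X ^ ε * b0 ^ 2 * ∑ i ∈ range (Nat.log 2 ⌊X⌋₊ + 2), min (M / q0) (1 / (2 : ℝ) ^ i) *
        Real.sqrt (N * (N * (((Ix i SV ×ˢ Ix i SV).filter (fun p => Dt p.1 p.2 = 0)).card : ℝ) +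
          ∑ p ∈ (Ix i SV ×ˢ Ix i SV).filter (fun p => Dt p.1 p.2 ≠ 0),
            Bd N ((g * e1 * e2 : ℝ) * V1 ^ 4) ((r * u1 * u2 : ℕ) : ℝ)
              (Int.gcd (Dt p.1 p.2) ((r * u1 * u2 : ℕ) : ℤ)))) := by
  classical
  obtain ⟨C, hC, hV⟩ := s_vdc ε hε
  refine ⟨Real.sqrt C, ?_, ?_⟩
  · rw [show (1 : ℝ) = Real.sqrt 1 by simp]; exact Real.sqrt_le_sqrt hC
  intro X M N g r u1 u2 e1 e2 h c1 c2 l SV γ1 γ2 d1 d2 κ V1 q0 b0 β hX hN hNX hMX hhr hc1 hc2 hSV hW hq0 hκ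
    hκ2 hβ
  have hb0 : 0 ≤ b0 := (abs_nonneg _).trans (hβ (N + 1) (by rw [mem_Ioc]; omega))
  set t : ℤ := l * (r : ℤ) with ht
  set c : (p : ℕ) → ZMod p := fun p => if p ∣ u2 then ((t : ℤ) : ZMod p) else 0 with hc
  set BB : ℕ → ℝ := Bf N β t with hBB
  have hBBle : ∀ n ∈ Ioc N (2 * N), |BB n| ≤ b0 ^ 2 := fun n hn => Bf_le N β t b0 hb0 hβ n hn
  set T0 : ℕ := g * e1 * e2 with hT0
  set Pi : ℕ := r * u1 * u2 with hPi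
  have hq : ∀ v1 v2 : Tp, g * r * u1 * u2 * (e1 * Pr v1) * (e2 * Pr v2) =
      T0 * Pi * (Pr v1 * Pr v2) := by
    intro v1 v2
    rw [hT0, hPi]; ring
  have hT0c : (g * e1 * e2 : ℝ) = (T0 : ℝ) := by rw [hT0]; push_cast; ring
  rw [hT0c] at hW
  simp only [hq] at hκ2
  rw [hT0c]
  have hZp : ∀ (v1 v2 : Tp) (k x : ℤ), ZG g Pi (e1 * Pr v1) (e2 * Pr v2) (γ1 v1) (γ2 v2) (d1 v1) (d2 v2) t k
      (x + ((T0 * (Pr v1 * Pr v2) : ℕ) : ℤ)) =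
      ZG g Pi (e1 * Pr v1) (e2 * Pr v2) (γ1 v1) (γ2 v2) (d1 v1) (d2 v2) t k x := by
    intro v1 v2 k x
    rw [← ZG_per g Pi (e1 * Pr v1) (e2 * Pr v2) (γ1 v1) (γ2 v2) (d1 v1) (d2 v2) t k x]
    congr 3
    rw [hT0]; ring
  by_cases hne : ∃ v1 ∈ SV, ∃ v2 ∈ SV, κ v1 v2 ≠ 0
  swap
  · push Not at hne
    have h0 : ∑ v1 ∈ SV, ∑ v2 ∈ SV, κ v1 v2 * ∑ n1 ∈ Ioc N (2 * N), ∑ n2 ∈ Ioc N (2 * N),
        ind ((n2 : ℤ) = n1 + t) * (β n1 * β n2 *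
          En M g r u1 u2 (e1 * Pr v1) (e2 * Pr v2) h c1 c2 (γ1 v1) (γ2 v2) (d1 v1) (d2 v2) n1 n2) = 0 :=
      sum_eq_zero fun v1 h1 => sum_eq_zero fun v2 h2 => by rw [hne v1 h1 v2 h2, zero_mul]
    rw [h0, abs_zero]
    have hX0 : (0 : ℝ) ≤ X ^ ε := Real.rpow_nonneg (by linarith) ε
    have hb2 : 0 ≤ b0 ^ 2 := sq_nonneg _
    refine mul_nonneg (by positivity) (sum_nonneg fun i _ => mul_nonneg ?_ (Real.sqrt_nonneg _))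
    exact le_min (by positivity) (by positivity)
  have hPine : ∀ p : ℕ, p.Prime → p ∣ Pi → AG h c1 c2 r u1 p ≠ 0 := fun p hp hd =>
    AG_ne hhr hc1 hc2 p hp hd
  have hmain := one hε hC hV T0 Pi M N X V1 q0 b0 (fun p => AG h c1 c2 r u1 p) c
      (fun v1 v2 => ZG g Pi (e1 * Pr v1) (e2 * Pr v2) (γ1 v1) (γ2 v2) (d1 v1) (d2 v2) t) SV κ BB
      hX hN hNX hSV hPine (fun v1 v2 => ZG_norm g Pi (e1 * Pr v1) (e2 * Pr v2) (γ1 v1) (γ2 v2) (d1 v1) (d2 v2) t)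
      hZp hW hq0 hκ
      (fun v1 h1 v2 h2 h3 => ⟨(hκ2 v1 h1 v2 h2 h3).1, (hκ2 v1 h1 v2 h2 h3).2.2.2.2.1,
        (hκ2 v1 h1 v2 h2 h3).2.2.2.2.2⟩) hBBle
  set T := ∑ v1 ∈ SV, ∑ v2 ∈ SV, κ v1 v2 * ∑ n1 ∈ Ioc N (2 * N), ∑ n2 ∈ Ioc N (2 * N),
      ind ((n2 : ℤ) = n1 + t) * (β n1 * β n2 *
          En M g r u1 u2 (e1 * Pr v1) (e2 * Pr v2) h c1 c2 (γ1 v1) (γ2 v2) (d1 v1) (d2 v2) n1 n2) with hT
  have hTE : (T : ℂ) = ∑ v1 ∈ SV, ∑ v2 ∈ SV, (κ v1 v2 : ℂ) *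
      ∑ k ∈ freq (T0 * Pi * (Pr v1 * Pr v2)), Ih M (T0 * Pi * (Pr v1 * Pr v2)) k *
        ∑ n ∈ Ioc N (2 * N), (BB n : ℂ) *
          (ZG g Pi (e1 * Pr v1) (e2 * Pr v2) (γ1 v1) (γ2 v2) (d1 v1) (d2 v2) t k (n : ℤ) *
          PH Pi.primeFactors
          (fun p => (k : ZMod p) *
            ((T0 * Pi * (Pr v1 * Pr v2) / p : ℕ) : ZMod p)⁻¹ * AG h c1 c2 r u1 p)
          c (n : ℤ)) := by
    rw [hT]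
    push_cast
    apply sum_congr rfl; intro v1 hv1
    apply sum_congr rfl; intro v2 hv2
    by_cases hk : κ v1 v2 = 0
    · rw [hk]; simp
    congr 1
    have e5 : ∑ k ∈ freq (T0 * Pi * (Pr v1 * Pr v2)), Ih M (T0 * Pi * (Pr v1 * Pr v2)) k *
        ∑ n ∈ Ioc N (2 * N), (BB n : ℂ) *
          (ZG g Pi (e1 * Pr v1) (e2 * Pr v2) (γ1 v1) (γ2 v2) (d1 v1) (d2 v2) t k (n : ℤ) *
          PH Pi.primeFactors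
          (fun p => (k : ZMod p) *
            ((T0 * Pi * (Pr v1 * Pr v2) / p : ℕ) : ZMod p)⁻¹ * AG h c1 c2 r u1 p)
          c (n : ℤ)) = ∑ n ∈ Ioc N (2 * N), (BB n : ℂ) * ∑ k ∈ freq (T0 * Pi * (Pr v1 * Pr v2)),
          Ih M (T0 * Pi * (Pr v1 * Pr v2)) k *
          ZG g Pi (e1 * Pr v1) (e2 * Pr v2) (γ1 v1) (γ2 v2) (d1 v1) (d2 v2) t k (n : ℤ) *
          PH Pi.primeFactors
          (fun p => (k : ZMod p) *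
            ((T0 * Pi * (Pr v1 * Pr v2) / p : ℕ) : ZMod p)⁻¹ * AG h c1 c2 r u1 p)
          c (n : ℤ) := by
      simp only [mul_sum]
      rw [sum_comm]
      refine sum_congr rfl fun n _ => sum_congr rfl fun k _ => ?_
      ring
    rw [e5]
    apply sum_congr rfl; intro n1 hn1
    obtain ⟨hsq, hg1, hd1, hd2, -, -⟩ := hκ2 v1 hv1 v2 hv2 hk
    simp only [hBB, Bf]
    push_cast
    rw [sum_mul]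
    apply sum_congr rfl; intro n2 hn2
    by_cases hn : (n2 : ℤ) = n1 + t
    · have hr := En_phase M g r u1 u2 (e1 * Pr v1) (e2 * Pr v2) h c1 c2 (γ1 v1) (γ2 v2) (d1 v1) (d2 v2) n1 n2 t hn
        (by rw [hq]; exact hsq) hhr hc1 hc2 hg1 hd1 hd2
      simp only [hq] at hr
      rw [hr]
      ring
    · have : ind ((n2 : ℤ) = n1 + t) = 0 := by unfold ind; rw [if_neg hn]
      rw [this]; simp
  have h1 : |T| = ‖(T : ℂ)‖ := by rw [Complex.norm_real, Real.norm_eq_abs]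
  rw [h1, hTE]
  exact hmain

end Pool.Agent.Helper91K1.T
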