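import Mathlib
import Pool.Agent.R503.N.OffB
import Pool.Agent.Helper91K1.T.OaG

/-! Off-diagonal terms for one left modulus and pairs of moduli with a common factor `g`
(adapted from `Pool.Agent.R503.N.OffB`). -/

set_option autoImplicit false

open Finset Filter

namespace Pool.Agent.Helper91K1.T

open Pool.Agent.Y826.Z Pool.Agent.Y826.Z.OB Pool.Agent.R503.N

section
variable (g r M N : ℕ) (h : ℤ) (SO : Finset (ℕ × ℕ)) (SV : Finset Tp) (eo uo : ℕ × ℕ → ℕ)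
  (κ : ℕ × ℕ → ℕ × ℕ → Tp → Tp → ℝ)
  (cu : ℕ × ℕ → ℤ) (γ dv : ℕ × ℕ → Tp → ℤ) (β : ℕ → ℝ)

/-- the error term of a pair -/
noncomputable def enn (o1 o2 : ℕ × ℕ) (v1 v2 : Tp) (n1 n2 : ℕ) : ℝ :=
  En M g r (uo o1) (uo o2) (eo o1 * Pr v1) (eo o2 * Pr v2) h (cu o1) (cu o2) (γ o1 v1) (γ o2 v2)
    (dv o1 v1) (dv o2 v2) n1 n2

/-- the sum for fixed outer variables -/
noncomputable def TG (o1 o2 : ℕ × ℕ) (l : ℤ) : ℝ :=
  ∑ v1 ∈ SV, ∑ v2 ∈ SV, κ o1 o2 v1 v2 * ∑ n1 ∈ Ioc N (2 * N), ∑ n2 ∈ Ioc N (2 * N),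
    ind ((n2 : ℤ) = n1 + l * (r : ℤ)) * (β n1 * β n2 * enn g r M h eo uo cu γ dv o1 o2 v1 v2 n1 n2)

/-- the sum over all the pairs with the common factor `g` -/
noncomputable def SoffG : ℝ :=
  ∑ o1 ∈ SO, ∑ o2 ∈ SO, ∑ v1 ∈ SV, ∑ v2 ∈ SV, κ o1 o2 v1 v2 *
    ∑ n1 ∈ Ioc N (2 * N), ∑ n2 ∈ Ioc N (2 * N),
    ind (n1 ≠ n2 ∧ n1 ≡ n2 [MOD r]) * (β n1 * β n2 * enn g r M h eo uo cu γ dv o1 o2 v1 v2 n1 n2)

lemma soffG_eq (L : ℕ) (h1 : 0 < r) (h2 : N / r ≤ L) :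
    SoffG g r M N h SO SV eo uo κ cu γ dv β =
      ∑ o1 ∈ SO, ∑ o2 ∈ SO, ∑ l ∈ Ls L, TG g r M N h SV eo uo κ cu γ dv β o1 o2 l := by
  unfold SoffG
  refine Finset.sum_congr rfl fun o1 _ => Finset.sum_congr rfl fun o2 _ => ?_
  unfold TG
  symm
  rw [Finset.sum_comm]
  refine Finset.sum_congr rfl fun v1 _ => ?_
  rw [Finset.sum_comm]
  refine Finset.sum_congr rfl fun v2 _ => ?_
  rw [← Finset.mul_sum]
  congr 1
  rw [Finset.sum_comm]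
  refine Finset.sum_congr rfl fun n1 hn1 => ?_
  rw [Finset.sum_comm]
  refine Finset.sum_congr rfl fun n2 hn2 => ?_
  rw [← Finset.sum_mul, ind_sum N r L h1 h2 n1 n2 hn1 hn2]

lemma soffG_le (L : ℕ) (h1 : 0 < r) (h2 : N / r ≤ L) (G : ℕ × ℕ → ℕ × ℕ → ℝ)
    (hG : ∀ o1 ∈ SO, ∀ o2 ∈ SO, ∀ l : ℤ, |TG g r M N h SV eo uo κ cu γ dv β o1 o2 l| ≤ G o1 o2) :
    |SoffG g r M N h SO SV eo uo κ cu γ dv β| ≤ (2 * L) * ∑ o1 ∈ SO, ∑ o2 ∈ SO, G o1 o2 := by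
  rw [soffG_eq g r M N h SO SV eo uo κ cu γ dv β L h1 h2]
  rw [Finset.mul_sum]
  refine (Finset.abs_sum_le_sum_abs _ _).trans (Finset.sum_le_sum fun u1 hu1 => ?_)
  rw [Finset.mul_sum]
  refine (Finset.abs_sum_le_sum_abs _ _).trans (Finset.sum_le_sum fun u2 hu2 => ?_)
  refine (Finset.abs_sum_le_sum_abs _ _).trans ?_
  refine (Finset.sum_le_sum fun l _ => hG u1 hu1 u2 hu2 l).trans ?_
  rw [Finset.sum_const, nsmul_eq_mul]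
  exact mul_le_mul_of_nonneg_right (card_Ls L) (le_trans (abs_nonneg _) (hG u1 hu1 u2 hu2 0))

end

/-- the bound for fixed outer variables -/
def OAG (g r M N : ℕ) (h : ℤ) (X C Λ : ℝ) (SV : Finset Tp) (β : ℕ → ℝ) : Prop :=
  ∀ (u1 u2 e1 e2 : ℕ) (c1 c2 : ℤ) (l : ℤ) (γ1 γ2 d1 d2 : Tp → ℤ) (κ : Tp → Tp → ℝ) (V1 q0 b0 : ℝ),
    IsCoprime c1 (u1 : ℤ) → IsCoprime c2 (u2 : ℤ) →
    (∀ v ∈ SV, (Pr v : ℝ) ≤ V1) → (g * e1 * e2 : ℝ) * V1 ^ 4 ≤ N → 0 < q0 → (∀ v1 v2, |κ v1 v2| ≤ 1) →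
    (∀ v1 ∈ SV, ∀ v2 ∈ SV, κ v1 v2 ≠ 0 →
      Squarefree (g * r * u1 * u2 * (e1 * Pr v1) * (e2 * Pr v2)) ∧ IsCoprime (γ1 v1) (g : ℤ) ∧
      IsCoprime (d1 v1) ((e1 * Pr v1 : ℕ) : ℤ) ∧ IsCoprime (d2 v2) ((e2 * Pr v2 : ℕ) : ℤ) ∧
      q0 ≤ ((g * r * u1 * u2 * (e1 * Pr v1) * (e2 * Pr v2) : ℕ) : ℝ) ∧
      ((g * r * u1 * u2 * (e1 * Pr v1) * (e2 * Pr v2) : ℕ) : ℝ) ≤ X) →
    (∀ n ∈ Ioc N (2 * N), |β n| ≤ b0) →
    |∑ v1 ∈ SV, ∑ v2 ∈ SV, κ v1 v2 * ∑ n1 ∈ Ioc N (2 * N), ∑ n2 ∈ Ioc N (2 * N),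
        ind ((n2 : ℤ) = n1 + l * (r : ℤ)) * (β n1 * β n2 *
          En M g r u1 u2 (e1 * Pr v1) (e2 * Pr v2) h c1 c2 (γ1 v1) (γ2 v2) (d1 v1) (d2 v2) n1 n2)| ≤
      C * Λ * b0 ^ 2 * ∑ i ∈ range (Nat.log 2 ⌊X⌋₊ + 2), min (M / q0) (1 / (2 : ℝ) ^ i) *
        Real.sqrt (N * (N * (((Ix i SV ×ˢ Ix i SV).filter (fun p => Dt p.1 p.2 = 0)).card : ℝ) +
          ∑ p ∈ (Ix i SV ×ˢ Ix i SV).filter (fun p => Dt p.1 p.2 ≠ 0),
            Bd N ((g * e1 * e2 : ℝ) * V1 ^ 4) ((r * u1 * u2 : ℕ) : ℝ)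
              (Int.gcd (Dt p.1 p.2) ((r * u1 * u2 : ℕ) : ℤ))))

/-- the radicand -/
noncomputable def FRG (g r N : ℕ) (V1 : ℝ) (SV : Finset Tp) (eo uo : ℕ × ℕ → ℕ) (i : ℕ) (o : (ℕ × ℕ) × (ℕ × ℕ)) : ℝ :=
  N * (N * (((Ix i SV ×ˢ Ix i SV).filter (fun p => Dt p.1 p.2 = 0)).card : ℝ) +
          ∑ p ∈ (Ix i SV ×ˢ Ix i SV).filter (fun p => Dt p.1 p.2 ≠ 0),
            Bd N ((g * (eo o.1) * (eo o.2) : ℝ) * V1 ^ 4) ((r * uo o.1 * uo o.2 : ℕ) : ℝ)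
              (Int.gcd (Dt p.1 p.2) ((r * uo o.1 * uo o.2 : ℕ) : ℤ)))

lemma FRG_nonneg (g r N : ℕ) (V1 : ℝ) (SV : Finset Tp) (eo uo : ℕ × ℕ → ℕ) (i : ℕ)
    (o : (ℕ × ℕ) × (ℕ × ℕ)) : 0 ≤ FRG g r N V1 SV eo uo i o := by
  unfold FRG
  apply mul_nonneg (Nat.cast_nonneg _)
  apply add_nonneg (by positivity)
  exact Finset.sum_nonneg fun p _ => Bd_nonneg _ _ _ _ (Nat.cast_nonneg _) (Nat.cast_nonneg _)

/-- the sum over the outer variables of the square roots -/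
lemma sum_sqrt_FRG (a r N : ℕ) (Λ T U V E B Q Z P : ℝ) (SO : Finset (ℕ × ℕ)) (SV : Finset Tp)
    (eo uo : ℕ × ℕ → ℕ) (i : ℕ) (ha : 0 < a) (hr : 0 < r) (hΛ : 1 ≤ Λ) (hT : 0 < T) (hU : 0 < U) (hV : 0 < V) (hE : 0 < E)
    (hE4 : E ^ 4 = r * U ^ 2)
    (hPe : ∀ o ∈ SO, (eo o : ℝ) ≤ T * Λ) (hPu : ∀ o ∈ SO, (uo o : ℝ) ≤ U * Λ)
    (hPu2 : ∀ o ∈ SO, U / Λ ≤ uo o)
    (hB : B = Real.sqrt (N * (a * T ^ 2 * V ^ 4)) + Real.sqrt N * E + N / E)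
    (hZ : (((Ix i SV ×ˢ Ix i SV).filter (fun p => Dt p.1 p.2 = 0)).card : ℝ) ≤ Z)
    (hP : ∑ p ∈ (Ix i SV ×ˢ Ix i SV).filter (fun p => Dt p.1 p.2 ≠ 0), (Nat.gcd (Dt p.1 p.2).natAbs r : ℝ) ≤ P)
    (hQ0 : 0 ≤ Q)
    (hQ : ∀ D : ℕ, D ≠ 0 → (D = 1 ∨ ∃ p ∈ Ix i SV ×ˢ Ix i SV, D = (Dt p.1 p.2).natAbs) →
      ∑ o ∈ SO ×ˢ SO, ((Nat.gcd D (uo o.1) : ℝ) * (Nat.gcd D (uo o.2) : ℝ)) ≤ Q) :
    ∑ o ∈ SO ×ˢ SO, Real.sqrt (FRG a r N (V * Λ) SV eo uo i o) ≤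
      Q * Real.sqrt (N * (N * Z + P * (Λ ^ 4 * B))) := by
  have hΛ0 : 0 < Λ := by linarith
  have har : (0 : ℝ) < a := by exact_mod_cast ha
  have hrr : (0 : ℝ) < r := by exact_mod_cast hr
  have hB0 : 0 ≤ B := by rw [hB]; positivity
  have hN0 : (0 : ℝ) ≤ N := Nat.cast_nonneg N
  have hZ0 : 0 ≤ Z := le_trans (Nat.cast_nonneg _) hZ
  have hP0 : 0 ≤ P := le_trans (Finset.sum_nonneg fun _ _ => Nat.cast_nonneg _) hP
  have hcard : ((SO ×ˢ SO).card : ℝ) ≤ Q := by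
    refine le_trans ?_ (hQ 1 one_ne_zero (Or.inl rfl))
    simp
  refine sum_sqrt_le _ _ (fun o _ => FRG_nonneg _ _ _ _ _ _ _ _ _) Q _ hQ0 (by positivity) hcard ?_
  unfold FRG
  rw [← Finset.mul_sum, Finset.sum_add_distrib, Finset.sum_const, nsmul_eq_mul, Finset.sum_comm]
  have h1 : ∀ p ∈ (Ix i SV ×ˢ Ix i SV).filter (fun p => Dt p.1 p.2 ≠ 0),
      ∑ o ∈ SO ×ˢ SO, Bd N ((a * (eo o.1) * (eo o.2) : ℝ) * (V * Λ) ^ 4) ((r * uo o.1 * uo o.2 : ℕ) : ℝ)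
              (Int.gcd (Dt p.1 p.2) ((r * uo o.1 * uo o.2 : ℕ) : ℤ)) ≤
            (Nat.gcd (Dt p.1 p.2).natAbs r : ℝ) * (Λ ^ 4 * B * Q) := by
    intro p hp
    rw [Finset.mem_filter] at hp
    have hD0 : (Dt p.1 p.2).natAbs ≠ 0 := Int.natAbs_ne_zero.2 hp.2
    have h2 : ∀ o ∈ SO ×ˢ SO,
        Bd N ((a * (eo o.1) * (eo o.2) : ℝ) * (V * Λ) ^ 4) ((r * uo o.1 * uo o.2 : ℕ) : ℝ)
              (Int.gcd (Dt p.1 p.2) ((r * uo o.1 * uo o.2 : ℕ) : ℤ)) ≤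
        Λ ^ 4 * B * ((Nat.gcd (Dt p.1 p.2).natAbs r : ℝ) *
          ((Nat.gcd (Dt p.1 p.2).natAbs (uo o.1) : ℝ) * (Nat.gcd (Dt p.1 p.2).natAbs (uo o.2) : ℝ))) := by
      intro o ho
      rw [Finset.mem_product] at ho
      have hb := Pool.Agent.Y814.Z.Bd_le N Λ a r T U V E B 1 a (eo o.1) (eo o.2) r (uo o.1) (uo o.2) (Dt p.1 p.2).natAbs
        (Dt p.1 p.2) rfl hD0 hΛ har hrr hT hU hV hE hE4 (by simpa using hΛ)
        (le_mul_of_one_le_right har.le hΛ) (hPe _ ho.1) (hPe _ ho.2) (le_mul_of_one_le_right hrr.le hΛ)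
        (div_le_self hrr.le hΛ) (hPu _ ho.1) (hPu2 _ ho.1) (hPu _ ho.2) (hPu2 _ ho.2) hB
      simp only [Nat.cast_one, one_mul] at hb
      exact hb
    refine (Finset.sum_le_sum h2).trans ?_
    rw [← Finset.mul_sum, ← Finset.mul_sum]
    have h3 := hQ _ hD0 (Or.inr ⟨p, hp.1, rfl⟩)
    calc Λ ^ 4 * B * ((Nat.gcd (Dt p.1 p.2).natAbs r : ℝ) * ∑ o ∈ SO ×ˢ SO,
          ((Nat.gcd (Dt p.1 p.2).natAbs (uo o.1) : ℝ) * (Nat.gcd (Dt p.1 p.2).natAbs (uo o.2) : ℝ)))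
        ≤ Λ ^ 4 * B * ((Nat.gcd (Dt p.1 p.2).natAbs r : ℝ) * Q) := by gcongr
      _ = _ := by ring
  have h3 := Finset.sum_le_sum h1
  rw [← Finset.sum_mul] at h3
  have h4 : (∑ p ∈ (Ix i SV ×ˢ Ix i SV).filter (fun p => Dt p.1 p.2 ≠ 0), (Nat.gcd (Dt p.1 p.2).natAbs r : ℝ)) *
      (Λ ^ 4 * B * Q) ≤ P * (Λ ^ 4 * B * Q) := mul_le_mul_of_nonneg_right hP (by positivity)
  have h5 : ((SO ×ˢ SO).card : ℝ) *
      (N * (((Ix i SV ×ˢ Ix i SV).filter (fun p => Dt p.1 p.2 = 0)).card : ℝ)) ≤ Q * (N * Z) :=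
    mul_le_mul hcard (mul_le_mul_of_nonneg_left hZ hN0) (by positivity) hQ0
  calc (N : ℝ) * (_ + _) ≤ N * (Q * (N * Z) + P * (Λ ^ 4 * B * Q)) :=
        mul_le_mul_of_nonneg_left (add_le_add h5 (h3.trans h4)) hN0
    _ = Q * (N * (N * Z + P * (Λ ^ 4 * B))) := by ring

/-- the error terms of the pairs with the common factor `a` -/
theorem off_g (a r M N : ℕ) (h : ℤ) (SO : Finset (ℕ × ℕ)) (SV : Finset Tp) (eo uo : ℕ × ℕ → ℕ)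
    (κ : ℕ × ℕ → ℕ × ℕ → Tp → Tp → ℝ)
    (cu : ℕ × ℕ → ℤ) (γ dv : ℕ × ℕ → Tp → ℤ) (β : ℕ → ℝ)
    (Λ X C T U V H : ℝ) (hX : 256 ≤ X) (hΛ : 4 ≤ Λ) (hΛX : Λ ^ 2 ≤ X)
    (hC1 : 1 ≤ C) (hCΛ : C ≤ Λ) (hI : ((Nat.log 2 ⌊X ^ 3⌋₊ + 2 : ℕ) : ℝ) ≤ Λ)
    (hτ : ∀ n : ℕ, n ≠ 0 → (n : ℝ) ≤ X ^ 10 → tau n ^ 2 ≤ Λ)
    (hMN : (M : ℝ) * N ≤ 16 * X) (hM : 0 < M) (hN : 0 < N) (ha : 0 < a) (hr : 0 < r)
    (hT : 0 < T) (hU : 0 < U) (hV : 0 < V)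
    (hH1 : 1 ≤ H) (hH : a * r * T ^ 2 * U ^ 2 * V ^ 2 / M ≤ H)
    (s2 : a * r * T ^ 2 * U ^ 2 * Λ ^ 1000 ≤ M)
    (s3 : a * T ^ 2 * V ^ 4 * H ^ 4 * Λ ^ 1000 ≤ N) (s4 : r * U ^ 2 * H ^ 8 * Λ ^ 1000 ≤ (N : ℝ) ^ 2)
    (s5 : H ^ 8 * Λ ^ 1000 ≤ r * U ^ 2)
    (hcb : ∀ o1 o2 v1 v2, |κ o1 o2 v1 v2| ≤ 1)
    (hcs : ∀ o1 o2 v1 v2, κ o1 o2 v1 v2 ≠ 0 →
      Squarefree (a * r * uo o1 * uo o2 * (eo o1 * Pr v1) * (eo o2 * Pr v2)) ∧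
      IsCoprime (cu o1) ((uo o1 : ℕ) : ℤ) ∧ IsCoprime (cu o2) ((uo o2 : ℕ) : ℤ) ∧ IsCoprime (γ o1 v1) (a : ℤ) ∧
      IsCoprime (dv o1 v1) ((eo o1 * Pr v1 : ℕ) : ℤ) ∧ IsCoprime (dv o2 v2) ((eo o2 * Pr v2 : ℕ) : ℤ))
    (nE : ∀ o ∈ SO, 0 < o.1) (nU : ∀ o ∈ SO, 0 < o.2) (heo : ∀ o ∈ SO, eo o ≤ o.1) (huo : ∀ o ∈ SO, uo o ∣ o.2)
    (hPe : ∀ o ∈ SO, (o.1 : ℝ) ≤ T * Λ) (hPe2 : ∀ o ∈ SO, T / Λ ≤ eo o)
    (hPu : ∀ o ∈ SO, (o.2 : ℝ) ≤ U * Λ) (hPu2 : ∀ o ∈ SO, U / Λ ≤ uo o)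
    (hPv : ∀ v ∈ SV, (Pr v : ℝ) ≤ V * Λ) (hPv2 : ∀ v ∈ SV, V / Λ ≤ Pr v)
    (hβ : ∀ n ∈ Ioc N (2 * N), |β n| ≤ Λ)
    (hOA : OAG a r M N h (X ^ 3) C Λ SV β) :
    |SoffG a r M N h SO SV eo uo κ cu γ dv β| ≤ Λ⁻¹ * (M * (N : ℝ) ^ 2 / (a * (r : ℝ) ^ 2)) := by
  classical
  have hPe' : ∀ o ∈ SO, (eo o : ℝ) ≤ T * Λ := fun o ho =>
    (Nat.cast_le.2 (heo o ho)).trans (hPe o ho)
  have hPu' : ∀ o ∈ SO, (uo o : ℝ) ≤ U * Λ := fun o ho =>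
    (Nat.cast_le.2 (Nat.le_of_dvd (nU o ho) (huo o ho))).trans (hPu o ho)
  have hΛ0 : 0 < Λ := by linarith
  have hΛ1 : 1 ≤ Λ := by linarith
  have hMr : (0 : ℝ) < M := by exact_mod_cast hM
  have hNr : (0 : ℝ) < N := by exact_mod_cast hN
  have har : (0 : ℝ) < a := by exact_mod_cast ha
  have hrr : (0 : ℝ) < r := by exact_mod_cast hr
  have ha1 : (1 : ℝ) ≤ a := by exact_mod_cast ha
  have hr1 : (1 : ℝ) ≤ r := by exact_mod_cast hr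
  have hM1 : (1 : ℝ) ≤ M := by exact_mod_cast hM
  have hN1 : (1 : ℝ) ≤ N := by exact_mod_cast hN
  have hRHS : 0 ≤ Λ⁻¹ * (M * (N : ℝ) ^ 2 / (a * (r : ℝ) ^ 2)) := by positivity
  by_cases hne : SO.Nonempty ∧ SV.Nonempty
  swap
  · have h0 : SoffG a r M N h SO SV eo uo κ cu γ dv β = 0 := by
      unfold SoffG
      by_cases h1 : SO.Nonempty
      · have h4 : ¬ SV.Nonempty := fun h4 => hne ⟨h1, h4⟩
        rw [Finset.not_nonempty_iff_eq_empty] at h4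
        subst h4
        simp
      · rw [Finset.not_nonempty_iff_eq_empty] at h1
        subst h1
        simp
    rw [h0, abs_zero]
    exact hRHS
  obtain ⟨⟨o0, ho0⟩, ⟨v0, hv0⟩⟩ := hne
  have pos_of : ∀ {t : ℝ} {n : ℕ}, 0 < t → t ≤ (n : ℝ) → 0 < n := by
    intro t n ht htn
    have : (0 : ℝ) < n := lt_of_lt_of_le ht htn
    exact_mod_cast this
  have nV : ∀ v ∈ SV, Pr v ≠ 0 := fun v hv => (pos_of (by positivity) (hPv2 v hv)).ne'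
  have lT : 1 ≤ T * Λ := by
    have : (1 : ℝ) ≤ o0.1 := by exact_mod_cast nE o0 ho0
    exact this.trans (hPe o0 ho0)
  have lU : 1 ≤ U * Λ := by
    have : (1 : ℝ) ≤ o0.2 := by exact_mod_cast nU o0 ho0
    exact this.trans (hPu o0 ho0)
  have hle : ∀ {m n : ℕ}, m ≤ n → Λ ^ m ≤ Λ ^ n := fun h => pow_le_pow_right₀ hΛ1 h
  have lT2 : 1 ≤ (T * Λ) ^ 2 := one_le_pow₀ lT
  have lU2 : 1 ≤ (U * Λ) ^ 2 := one_le_pow₀ lU
  have tar : (a * r : ℝ) ≤ M := by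
    calc (a * r : ℝ) = a * r * 1 * 1 := by ring
      _ ≤ a * r * (T * Λ) ^ 2 * (U * Λ) ^ 2 := by gcongr
      _ = a * r * T ^ 2 * U ^ 2 * Λ ^ 4 := by ring
      _ ≤ a * r * T ^ 2 * U ^ 2 * Λ ^ 1000 :=
          mul_le_mul_of_nonneg_left (hle (by norm_num)) (by positivity)
      _ ≤ M := s2
  have tU : U ^ 2 ≤ M := by
    calc U ^ 2 = 1 * 1 * 1 * U ^ 2 := by ring
      _ ≤ a * r * (T * Λ) ^ 2 * U ^ 2 := by gcongr
      _ = a * r * T ^ 2 * U ^ 2 * Λ ^ 2 := by ring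
      _ ≤ a * r * T ^ 2 * U ^ 2 * Λ ^ 1000 :=
          mul_le_mul_of_nonneg_left (hle (by norm_num)) (by positivity)
      _ ≤ M := s2
  have tT : T ^ 2 ≤ M := by
    calc T ^ 2 = 1 * 1 * 1 * T ^ 2 := by ring
      _ ≤ a * r * (U * Λ) ^ 2 * T ^ 2 := by gcongr
      _ = a * r * T ^ 2 * U ^ 2 * Λ ^ 2 := by ring
      _ ≤ a * r * T ^ 2 * U ^ 2 * Λ ^ 1000 :=
          mul_le_mul_of_nonneg_left (hle (by norm_num)) (by positivity)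
      _ ≤ M := s2
  have tV : V ^ 4 ≤ N := by
    have hH4 : 1 ≤ H ^ 4 := one_le_pow₀ hH1
    have h3 : Λ ^ 2 ≤ Λ ^ 1000 := hle (by norm_num)
    calc V ^ 4 = 1 * 1 * V ^ 4 := by ring
      _ ≤ a * (T * Λ) ^ 2 * V ^ 4 := by gcongr
      _ = a * T ^ 2 * V ^ 4 * 1 * Λ ^ 2 := by ring
      _ ≤ a * T ^ 2 * V ^ 4 * H ^ 4 * Λ ^ 1000 := by gcongr
      _ ≤ N := s3
  have hX0 : 0 < X := by linarith only [hX]
  have hX1 : 1 ≤ X := by linarith only [hX]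
  have hΛX' : Λ ≤ X := by
    calc Λ = Λ ^ 1 := (pow_one _).symm
      _ ≤ Λ ^ 2 := hle (by norm_num)
      _ ≤ X := hΛX
  have hN16 : (N : ℝ) ≤ 16 * X := by
    calc (N : ℝ) = 1 * N := (one_mul _).symm
      _ ≤ M * N := mul_le_mul_of_nonneg_right hM1 hNr.le
      _ ≤ 16 * X := hMN
  have hM16 : (M : ℝ) ≤ 16 * X := by
    calc (M : ℝ) = M * 1 := (mul_one _).symm
      _ ≤ M * N := mul_le_mul_of_nonneg_left hN1 hMr.le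
      _ ≤ 16 * X := hMN
  have h17 : 1 + 16 * X ≤ X ^ 2 := by nlinarith only [hX]
  have hNX2 : (N : ℝ) ≤ X ^ 2 := by linarith only [hN16, h17]
  have hMX2 : (M : ℝ) ≤ X ^ 2 := by linarith only [hM16, h17]
  have hXle : ∀ {m n : ℕ}, m ≤ n → X ^ m ≤ X ^ n := fun h => pow_le_pow_right₀ hX1 h
  have b3 : X ^ 3 ≤ X ^ 10 := hXle (by norm_num)
  have b1 : X ≤ X ^ 10 := by
    calc X = X ^ 1 := (pow_one X).symm
      _ ≤ X ^ 10 := hXle (by norm_num)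
  have b2 : X ^ 2 ≤ X ^ 10 := hXle (by norm_num)
  have brr : (r : ℝ) ≤ X ^ 10 := by
    calc (r : ℝ) = 1 * r := (one_mul _).symm
      _ ≤ a * r := by gcongr
      _ ≤ M := tar
      _ ≤ X ^ 10 := hMX2.trans b2
  have bV2 : V ^ 2 ≤ X := by
    have h1 : (V ^ 2) ^ 2 ≤ X ^ 2 := by
      calc (V ^ 2) ^ 2 = V ^ 4 := by ring
        _ ≤ (N : ℝ) := tV
        _ ≤ X ^ 2 := hNX2
    exact le_of_sq h1 (by positivity)
  have bVL : (V * Λ) ^ 2 ≤ X ^ 2 := by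
    calc (V * Λ) ^ 2 = V ^ 2 * Λ ^ 2 := by ring
      _ ≤ X * X := mul_le_mul bV2 hΛX (by positivity) (by positivity)
      _ = X ^ 2 := by ring
  have bV : V * Λ ≤ X := le_of_sq bVL (by positivity)
  -- divisor bounds
  have τ1 : ∀ n : ℕ, n ≠ 0 → (n : ℝ) ≤ X ^ 10 → tau n ≤ Λ := fun n h1 h2 => by
    calc tau n = tau n ^ 1 := (pow_one _).symm
      _ ≤ tau n ^ 2 := pow_le_pow_right₀ (tau_ge_one h1) (by omega)
      _ ≤ Λ := hτ n h1 h2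
  have cV : (SV.card : ℝ) ≤ V * Λ ^ 2 := by
    have := card_tuple SV (V * Λ) Λ (by positivity) hΛ0.le hPv nV (fun n h1 h2 => by
      rw [pow_one]
      exact τ1 n h1 (by linarith only [h2, bV, b1]))
    calc (SV.card : ℝ) ≤ Λ * (V * Λ) := this
      _ = V * Λ ^ 2 := by ring
  -- the sums of the greatest common divisors
  set Q : ℝ := (T * U * Λ ^ 3) ^ 2 with hQdef
  have hQ0 : 0 ≤ Q := by rw [hQdef]; positivity
  have hQ' : ∀ D : ℕ, D ≠ 0 → (D : ℝ) ≤ X ^ 10 →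
      ∑ o ∈ SO ×ˢ SO, ((Nat.gcd D (uo o.1) : ℝ) * (Nat.gcd D (uo o.2) : ℝ)) ≤ Q := by
    intro D hD hDX
    have g0 : ∑ o ∈ SO, (Nat.gcd D (uo o) : ℝ) ≤ ∑ o ∈ SO, (Nat.gcd D o.2 : ℝ) := by
      refine Finset.sum_le_sum fun o ho => ?_
      exact_mod_cast Nat.le_of_dvd (Nat.gcd_pos_of_pos_left _ (Nat.pos_of_ne_zero hD))
        (Nat.gcd_dvd_gcd_of_dvd_right D (huo o ho))
    have g1 : ∑ o ∈ SO, (Nat.gcd D (uo o) : ℝ) ≤ T * U * Λ ^ 3 := by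
      refine g0.trans ?_
      have hsub : SO ⊆ Icc 1 ⌊T * Λ⌋₊ ×ˢ Icc 1 ⌊U * Λ⌋₊ := by
        intro o ho
        rw [Finset.mem_product, Finset.mem_Icc, Finset.mem_Icc]
        exact ⟨⟨nE o ho, Nat.le_floor (hPe o ho)⟩, ⟨nU o ho, Nat.le_floor (hPu o ho)⟩⟩
      refine (Finset.sum_le_sum_of_subset_of_nonneg hsub (fun _ _ _ => Nat.cast_nonneg _)).trans ?_
      rw [Finset.sum_product]
      simp only [Finset.sum_const, nsmul_eq_mul, Nat.card_Icc, Nat.add_sub_cancel]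
      have g2 := sum_gcd D hD (U * Λ) (by positivity)
      have g3 : (⌊T * Λ⌋₊ : ℝ) ≤ T * Λ := Nat.floor_le (by positivity)
      have g4 : tau D * (U * Λ) ≤ Λ * (U * Λ) := mul_le_mul_of_nonneg_right (τ1 D hD hDX) (by positivity)
      calc (⌊T * Λ⌋₊ : ℝ) * ∑ n ∈ Icc 1 ⌊U * Λ⌋₊, (Nat.gcd D n : ℝ) ≤ (T * Λ) * (Λ * (U * Λ)) := by
            apply mul_le_mul g3 (g2.trans g4) (Finset.sum_nonneg fun _ _ => Nat.cast_nonneg _) (by positivity)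
        _ = T * U * Λ ^ 3 := by ring
    have g5 : 0 ≤ ∑ o ∈ SO, (Nat.gcd D (uo o) : ℝ) := Finset.sum_nonneg fun _ _ => Nat.cast_nonneg _
    rw [Finset.sum_product]
    simp only
    have g6 : ∑ x ∈ SO, ∑ y ∈ SO, ((Nat.gcd D (uo x) : ℝ) * (Nat.gcd D (uo y) : ℝ)) =
        (∑ x ∈ SO, (Nat.gcd D (uo x) : ℝ)) ^ 2 := by
      rw [sq, Finset.sum_mul_sum]
    rw [g6, hQdef]
    gcongr
  -- the fourth root
  set E : ℝ := (r * U ^ 2) ^ (1 / 4 : ℝ) with hEdef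
  have hE0 : 0 < E := by rw [hEdef]; positivity
  have hE4 : E ^ 4 = r * U ^ 2 := by
    rw [hEdef, ← Real.rpow_natCast, ← Real.rpow_mul (by positivity)]
    norm_num
  set B : ℝ := Real.sqrt (N * (a * T ^ 2 * V ^ 4)) + Real.sqrt N * E + N / E with hBdef
  have hB0 : 0 ≤ B := by rw [hBdef]; positivity
  set q0 : ℝ := a * r * T ^ 2 * U ^ 2 * V ^ 2 / Λ ^ 8 with hq0def
  have hq0 : 0 < q0 := by rw [hq0def]; positivity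
  set Ym : ℝ := (M / q0) * ((N : ℝ) ^ 2 * V ^ 2 * Λ ^ 7) + N * V ^ 4 * Λ ^ 16 * B with hYm
  have hYm0 : 0 ≤ Ym := by rw [hYm]; positivity
  have hX3 : (1 : ℝ) ≤ X ^ 3 := one_le_pow₀ hX1
  -- number of shifts
  set L : ℕ := N / r with hLdef
  have hLle : (L : ℝ) ≤ N / r := by
    have := @Nat.cast_div_le ℝ _ _ _ N r
    rw [hLdef]
    exact this
  -- fixed outer variables
  set GG : ℕ × ℕ → ℕ × ℕ → ℝ := fun o1 o2 =>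
    C * Λ * Λ ^ 2 * ∑ i ∈ range (Nat.log 2 ⌊X ^ 3⌋₊ + 2), min (M / q0) (1 / (2 : ℝ) ^ i) *
      Real.sqrt (FRG a r N (V * Λ) SV eo uo i (o1, o2)) with hGdef
  have hwpos : ∀ i : ℕ, 0 ≤ min ((M : ℝ) / q0) (1 / (2 : ℝ) ^ i) := fun i =>
    le_min (by positivity) (by positivity)
  have hG0 : ∀ o1 o2, 0 ≤ GG o1 o2 := by
    intro o1 o2
    rw [hGdef]
    have : 0 ≤ ∑ i ∈ range (Nat.log 2 ⌊X ^ 3⌋₊ + 2), min (M / q0) (1 / (2 : ℝ) ^ i) *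
      Real.sqrt (FRG a r N (V * Λ) SV eo uo i (o1, o2)) :=
      Finset.sum_nonneg fun i _ => mul_nonneg (hwpos i) (Real.sqrt_nonneg _)
    positivity
  have hG : ∀ o1 ∈ SO, ∀ o2 ∈ SO, ∀ l : ℤ,
      |TG a r M N h SV eo uo κ cu γ dv β o1 o2 l| ≤ GG o1 o2 := by
    intro o1 ho1 o2 ho2 l
    by_cases hex : ∃ v1 ∈ SV, ∃ v2 ∈ SV, κ o1 o2 v1 v2 ≠ 0
    · obtain ⟨w1, hw1, w2, hw2, hkw⟩ := hex
      have hsw := hcs o1 o2 w1 w2 hkw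
      have hV1 : (a * eo o1 * eo o2 : ℝ) * (V * Λ) ^ 4 ≤ N := by
        have hH4 : 1 ≤ H ^ 4 := one_le_pow₀ hH1
        have h6 : Λ ^ 6 ≤ Λ ^ 1000 := hle (by norm_num)
        calc (a * eo o1 * eo o2 : ℝ) * (V * Λ) ^ 4 ≤
              (a * (T * Λ) * (T * Λ)) * (V * Λ) ^ 4 := by
              have g2 := hPe' o1 ho1
              have g3 := hPe' o2 ho2
              gcongr
          _ = a * T ^ 2 * V ^ 4 * 1 * Λ ^ 6 := by ring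
          _ ≤ a * T ^ 2 * V ^ 4 * H ^ 4 * Λ ^ 1000 := by gcongr
          _ ≤ N := s3
      have hbound := hOA (uo o1) (uo o2) (eo o1) (eo o2) (cu o1) (cu o2) l (γ o1) (γ o2) (dv o1) (dv o2)
        (κ o1 o2) (V * Λ) q0 Λ hsw.2.1 hsw.2.2.1 hPv hV1 hq0 (hcb o1 o2) (by
          intro v1 hv1 v2 hv2 hk
          have hs := hcs o1 o2 v1 v2 hk
          have hcast : ((a * r * uo o1 * uo o2 * (eo o1 * Pr v1) * (eo o2 * Pr v2) : ℕ) : ℝ) =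
              (a : ℝ) * r * uo o1 * uo o2 * (eo o1 * Pr v1) * (eo o2 * Pr v2) := by
            push_cast
            ring
          have g3 := hPu2 o1 ho1
          have g4 := hPu2 o2 ho2
          have g5 := hPv2 v1 hv1
          have g6 := hPv2 v2 hv2
          have g7 := hPe2 o1 ho1
          have g8 := hPe2 o2 ho2
          have k3 := hPu' o1 ho1
          have k4 := hPu' o2 ho2
          have k5 := hPv v1 hv1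
          have k6 := hPv v2 hv2
          have k7 := hPe' o1 ho1
          have k8 := hPe' o2 ho2
          refine ⟨hs.1, hs.2.2.2.1, hs.2.2.2.2.1, hs.2.2.2.2.2, ?_, ?_⟩
          · rw [hcast]
            calc q0 ≤ a * r * T ^ 2 * U ^ 2 * V ^ 2 / Λ ^ 6 := by
                  rw [hq0def]
                  exact div_le_div_of_nonneg_left (by positivity) (by positivity) (hle (by norm_num))
              _ = a * r * (U / Λ) * (U / Λ) * ((T / Λ) * (V / Λ)) * ((T / Λ) * (V / Λ)) := by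
                  field_simp
              _ ≤ _ := by gcongr
          · rw [hcast]
            have hV2 : V ^ 2 ≤ 1 + N := by
              have h1 : V ^ 2 ≤ 1 + V ^ 4 := by nlinarith only [sq_nonneg (V ^ 2 - 1), sq_nonneg (V ^ 2)]
              linarith only [h1, tV]
            calc (a : ℝ) * r * uo o1 * uo o2 * (eo o1 * Pr v1) * (eo o2 * Pr v2) ≤
                  a * r * (U * Λ) * (U * Λ) * ((T * Λ) * (V * Λ)) * ((T * Λ) * (V * Λ)) := by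
                  gcongr
              _ = (a * r * T ^ 2 * U ^ 2 * Λ ^ 6) * V ^ 2 := by ring
              _ ≤ (a * r * T ^ 2 * U ^ 2 * Λ ^ 1000) * V ^ 2 := by
                  have h7 : Λ ^ 6 ≤ Λ ^ 1000 := hle (by norm_num)
                  gcongr
              _ ≤ M * (1 + N) := by gcongr
              _ = M + M * N := by ring
              _ ≤ 16 * X + 16 * X := by linarith only [hM16, hMN]
              _ = 32 * X := by ring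
              _ ≤ X ^ 2 * X := by
                  apply mul_le_mul_of_nonneg_right _ hX0.le
                  linarith only [hX, h17]
              _ = X ^ 3 := by ring)
        hβ
      exact hbound
    · push Not at hex
      have h0 : TG a r M N h SV eo uo κ cu γ dv β o1 o2 l = 0 := by
        unfold TG
        refine Finset.sum_eq_zero fun v1 hv1 => Finset.sum_eq_zero fun v2 hv2 => ?_
        rw [hex v1 hv1 v2 hv2, zero_mul]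
      rw [h0, abs_zero]
      exact hG0 _ _
  have hmain := soffG_le a r M N h SO SV eo uo κ cu γ dv β L hr le_rfl GG hG
  -- the sum of G
  have hsumG : ∑ o1 ∈ SO, ∑ o2 ∈ SO, GG o1 o2 ≤ Λ ^ 5 * Q * (2 * Real.sqrt Ym) := by
    have h1 : ∑ o1 ∈ SO, ∑ o2 ∈ SO, GG o1 o2 = C * Λ * Λ ^ 2 * ∑ i ∈ range (Nat.log 2 ⌊X ^ 3⌋₊ + 2),
        min (M / q0) (1 / (2 : ℝ) ^ i) * ∑ o ∈ SO ×ˢ SO, Real.sqrt (FRG a r N (V * Λ) SV eo uo i o) := by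
      rw [← Finset.sum_product' (f := fun o1 o2 => GG o1 o2)]
      rw [hGdef]
      simp only
      rw [← Finset.mul_sum, Finset.sum_comm]
      congr 1
      refine Finset.sum_congr rfl fun i _ => ?_
      rw [Finset.mul_sum]
    rw [h1]
    have h2 : ∀ i ∈ range (Nat.log 2 ⌊X ^ 3⌋₊ + 2),
        min (M / q0) (1 / (2 : ℝ) ^ i) * ∑ o ∈ SO ×ˢ SO, Real.sqrt (FRG a r N (V * Λ) SV eo uo i o) ≤
        Q * (2 * Real.sqrt Ym) := by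
      intro i hi
      have h2i := two_pow_le (X ^ 3) hX3 i hi
      have hcv2 : (SV.card : ℝ) ^ 2 ≤ (V * Λ ^ 2) ^ 2 := by gcongr
      have hnle : 2 * (2 ^ (i + 1) * (V * Λ) ^ 2) ≤ X ^ 10 := by
        calc 2 * (2 ^ (i + 1) * (V * Λ) ^ 2) ≤ 2 * ((4 * X ^ 3) * X ^ 2) := by gcongr
          _ = 8 * X ^ 5 := by ring
          _ ≤ X * X ^ 5 := by
              have : (8 : ℝ) ≤ X := by linarith only [hX]
              gcongr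
          _ = X ^ 6 := by ring
          _ ≤ X ^ 10 := hXle (by norm_num)
      have hpos : 0 ≤ 2 ^ (i + 1) * (V * Λ) ^ 2 := by positivity
      have hZ : (((Ix i SV ×ˢ Ix i SV).filter (fun p => Dt p.1 p.2 = 0)).card : ℝ) ≤
          2 ^ (i + 2) * (V * Λ ^ 2) ^ 2 * Λ := by
        have h3 := card_Dt_zero i SV (V * Λ) Λ nV hPv (fun n h4 h5 => by
          rw [mul_one]
          exact hτ n h4 (by linarith only [hpos, h5, hnle]))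
        refine h3.trans ?_
        gcongr
      have hP : ∑ p ∈ (Ix i SV ×ˢ Ix i SV).filter (fun p => Dt p.1 p.2 ≠ 0),
          (Nat.gcd (Dt p.1 p.2).natAbs r : ℝ) ≤ 2 * (2 ^ (i + 2) * (V * Λ ^ 2) ^ 2) ^ 2 := by
        have h3 := sum_Dt i SV (V * Λ) Λ nV hPv (fun n h4 h5 => hτ n h4 (by linarith only [hpos, h5, hnle]))
          (fun D => (Nat.gcd D r : ℝ)) (fun _ => Nat.cast_nonneg _)
        refine h3.trans ?_
        have h4 : ∑ D ∈ Icc 1 ⌊2 * (2 ^ (i + 1) * (V * Λ) ^ 2)⌋₊, (Nat.gcd D r : ℝ) ≤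
            Λ * (2 * (2 ^ (i + 1) * (V * Λ) ^ 2)) := by
          have h5 := sum_gcd r hr.ne' (2 * (2 ^ (i + 1) * (V * Λ) ^ 2)) (by positivity)
          have h6 : ∑ D ∈ Icc 1 ⌊2 * (2 ^ (i + 1) * (V * Λ) ^ 2)⌋₊, (Nat.gcd D r : ℝ) =
              ∑ D ∈ Icc 1 ⌊2 * (2 ^ (i + 1) * (V * Λ) ^ 2)⌋₊, (Nat.gcd r D : ℝ) :=
            Finset.sum_congr rfl fun D _ => by rw [Nat.gcd_comm]
          rw [h6]
          refine h5.trans (mul_le_mul_of_nonneg_right (τ1 r hr.ne' brr) (by positivity))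
        calc Λ * (2 ^ (i + 2) * (SV.card : ℝ) ^ 2) * (2 * ∑ D ∈ Icc 1 ⌊2 * (2 ^ (i + 1) * (V * Λ) ^ 2)⌋₊,
              (Nat.gcd D r : ℝ)) ≤
            Λ * (2 ^ (i + 2) * (V * Λ ^ 2) ^ 2) * (2 * (Λ * (2 * (2 ^ (i + 1) * (V * Λ) ^ 2)))) := by
              gcongr
          _ = 2 * (2 ^ (i + 2) * (V * Λ ^ 2) ^ 2) ^ 2 := by ring
      have h5 := sum_sqrt_FRG a r N Λ T U V E B Q (2 ^ (i + 2) * (V * Λ ^ 2) ^ 2 * Λ)
        (2 * (2 ^ (i + 2) * (V * Λ ^ 2) ^ 2) ^ 2) SO SV eo uo i ha hr hΛ1 hT hU hV hE0 hE4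
        hPe' hPu' hPu2 hBdef hZ hP hQ0 (by
          intro D hD hDd
          apply hQ' D hD
          rcases hDd with h6 | ⟨p, hp, h6⟩
          · rw [h6]
            push_cast
            exact one_le_pow₀ hX1
          · rw [h6]
            exact (Dt_le i SV (V * Λ) hPv p hp).trans hnle)
      have h6 := Pool.Agent.Y814.Z.wt_le M N V Λ (2 * B) q0 i hMr.le hNr.le hV.le hΛ (by positivity) hq0
      have h7 : Real.sqrt ((M / q0) * ((N : ℝ) ^ 2 * V ^ 2 * Λ ^ 7) + N * V ^ 4 * Λ ^ 16 * (2 * B)) ≤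
          2 * Real.sqrt Ym := by
        have h8 : (M / q0) * ((N : ℝ) ^ 2 * V ^ 2 * Λ ^ 7) + N * V ^ 4 * Λ ^ 16 * (2 * B) ≤ 2 ^ 2 * Ym := by
          have p1 : 0 ≤ (M / q0) * ((N : ℝ) ^ 2 * V ^ 2 * Λ ^ 7) := by positivity
          have p2 : 0 ≤ N * V ^ 4 * Λ ^ 16 * B := by positivity
          rw [hYm]
          linarith only [p1, p2]
        calc _ ≤ Real.sqrt (2 ^ 2 * Ym) := Real.sqrt_le_sqrt h8
          _ = 2 * Real.sqrt Ym := by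
            rw [Real.sqrt_mul (by norm_num), Real.sqrt_sq (by norm_num)]
      calc min (M / q0) (1 / (2 : ℝ) ^ i) * ∑ o ∈ SO ×ˢ SO, Real.sqrt (FRG a r N (V * Λ) SV eo uo i o)
          ≤ min (M / q0) (1 / (2 : ℝ) ^ i) * (Q * Real.sqrt (N * (N * (2 ^ (i + 2) * (V * Λ ^ 2) ^ 2 * Λ) +
            2 * (2 ^ (i + 2) * (V * Λ ^ 2) ^ 2) ^ 2 * (Λ ^ 4 * B)))) :=
            mul_le_mul_of_nonneg_left h5 (hwpos i)
        _ = Q * (min (M / q0) (1 / (2 : ℝ) ^ i) * Real.sqrt (N * (N * (2 ^ (i + 2) * (V * Λ ^ 2) ^ 2 * Λ) +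
            (2 ^ (i + 2) * (V * Λ ^ 2) ^ 2) ^ 2 * (Λ ^ 4 * (2 * B))))) := by ring_nf
        _ ≤ Q * (2 * Real.sqrt Ym) := mul_le_mul_of_nonneg_left (h6.trans h7) hQ0
    have h3 := Finset.sum_le_sum h2
    rw [Finset.sum_const, Finset.card_range, nsmul_eq_mul] at h3
    have hQY : 0 ≤ Q * (2 * Real.sqrt Ym) := by positivity
    calc C * Λ * Λ ^ 2 * ∑ i ∈ range (Nat.log 2 ⌊X ^ 3⌋₊ + 2),
        min (M / q0) (1 / (2 : ℝ) ^ i) * ∑ o ∈ SO ×ˢ SO, Real.sqrt (FRG a r N (V * Λ) SV eo uo i o)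
        ≤ C * Λ * Λ ^ 2 * (((Nat.log 2 ⌊X ^ 3⌋₊ + 2 : ℕ) : ℝ) * (Q * (2 * Real.sqrt Ym))) :=
          mul_le_mul_of_nonneg_left h3 (by positivity)
      _ ≤ Λ * Λ * Λ ^ 2 * (Λ * (Q * (2 * Real.sqrt Ym))) := by gcongr
      _ = Λ ^ 5 * Q * (2 * Real.sqrt Ym) := by ring
  have hfin := Pool.Agent.Y814.Z.fin_ineq M N a r T U V E B H Λ q0 hMr hNr har hrr hT hU hV hE0 hE4 hΛ hBdef hH1
    hH hq0def s2 s3 s4 s5
  have hsq0 : 0 ≤ Real.sqrt Ym := Real.sqrt_nonneg _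
  calc |SoffG a r M N h SO SV eo uo κ cu γ dv β| ≤ (2 * L) * ∑ o1 ∈ SO, ∑ o2 ∈ SO, GG o1 o2 := hmain
    _ ≤ (2 * (N / r)) * (Λ ^ 5 * Q * (2 * Real.sqrt Ym)) := by
        have : 0 ≤ ∑ o1 ∈ SO, ∑ o2 ∈ SO, GG o1 o2 :=
          Finset.sum_nonneg fun o _ => Finset.sum_nonneg fun o' _ => hG0 o o'
        gcongr
    _ = 4 * (Λ ^ 11 * (N * (T ^ 2 * U ^ 2)) * Real.sqrt Ym) / r := by
        rw [hQdef]
        field_simp
        ring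
    _ ≤ Λ * (Λ ^ 23 * (N * (T ^ 2 * U ^ 2)) * Real.sqrt Ym) / r := by
        have h9 : Λ ^ 11 ≤ Λ ^ 23 := hle (by norm_num)
        gcongr
    _ = Λ⁻¹ * ((Λ ^ 25 * (N * (T ^ 2 * U ^ 2)) * Real.sqrt Ym) / r) := by
        field_simp
    _ ≤ Λ⁻¹ * ((M * (N : ℝ) ^ 2 / (a * r)) / r) := by
        gcongr
    _ = _ := by
        field_simp

end Pool.Agent.Helper91K1.T
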