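import Mathlib
import Pool.Agent.R503.N.TrC
import Pool.Agent.R503.N.Cut
import Pool.Agent.R503.N.Pi

/-! Counting pairs `n1, n2` with two congruences. -/

set_option autoImplicit false

open Finset

namespace Pool.Agent.Helper91K1.T

open Pool.Agent.Y826.Z Pool.Agent.Y826.Z.OB Pool.Agent.R503.N

lemma card_Ls_dvd (L g : ℕ) (hg : 0 < g) :
    ∑ l ∈ Ls L, ind ((g : ℤ) ∣ l) ≤ 2 * ((L : ℝ) / g) := by
  classical
  have e : ∑ l ∈ Ls L, ind ((g : ℤ) ∣ l) = (((Ls L).filter (fun l => (g : ℤ) ∣ l)).card : ℝ) := by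
    rw [← sum_boole]
    refine sum_congr rfl fun x _ => ?_
    unfold ind
    by_cases hx : (g : ℤ) ∣ x <;> simp [hx]
  rw [e]
  have h1 : (Ls L).filter (fun l => (g : ℤ) ∣ l) ⊆ (Ls (L / g)).image (fun k => (g : ℤ) * k) := by
    intro l hl
    rw [mem_filter] at hl
    obtain ⟨h1, k, hk⟩ := hl
    unfold Ls at h1
    rw [mem_filter, mem_Icc] at h1
    rw [mem_image]
    refine ⟨k, ?_, hk.symm⟩
    unfold Ls
    rw [mem_filter, mem_Icc]
    have hgz : (0 : ℤ) < g := by exact_mod_cast hg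
    have hk0 : k ≠ 0 := by
      rintro rfl
      rw [mul_zero] at hk
      exact h1.2 hk
    have h2 : (g : ℤ) * k ≤ L := by rw [← hk]; exact h1.1.2
    have h3 : -(L : ℤ) ≤ (g : ℤ) * k := by rw [← hk]; exact h1.1.1
    push_cast
    refine ⟨⟨?_, ?_⟩, hk0⟩
    · rw [neg_le]
      apply (Int.le_ediv_iff_mul_le hgz).2
      nlinarith
    · apply (Int.le_ediv_iff_mul_le hgz).2
      nlinarith
  have h2 := (card_le_card h1).trans card_image_le
  have h3 := card_Ls (L / g)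
  have h4 : ((L / g : ℕ) : ℝ) ≤ (L : ℝ) / g := Nat.cast_div_le
  calc (((Ls L).filter (fun l => (g : ℤ) ∣ l)).card : ℝ) ≤ ((Ls (L / g)).card : ℝ) := by exact_mod_cast h2
    _ ≤ 2 * ((L / g : ℕ) : ℝ) := h3
    _ ≤ 2 * ((L : ℝ) / g) := by linarith

/-- pairs of different integers, congruent mod `r`, with a linear congruence mod `g` -/
lemma cnt_pairs (N r g : ℕ) (hr : 0 < r) (hg : Squarefree g) (hrg : r.Coprime g) (c1 c2 : ℤ)
    (h1 : IsCoprime c1 (g : ℤ)) :
    ∑ n1 ∈ Ioc N (2 * N), ∑ n2 ∈ Ioc N (2 * N), ind (n1 ≠ n2 ∧ n1 ≡ n2 [MOD r]) *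
      ind ((g : ℤ) ∣ c1 * n2 - c2 * n1) ≤ 2 * ((N : ℝ) ^ 2 / (r * g) + N / r) := by
  classical
  have hg0 : 0 < g := Nat.pos_of_ne_zero hg.ne_zero
  have hrr : (0 : ℝ) < r := by exact_mod_cast hr
  have hgr : (0 : ℝ) < g := by exact_mod_cast hg0
  set L := N / r with hL
  set g0 := Int.gcd (c1 - c2) g with hg0def
  have hg00 : 0 < g0 := Int.gcd_pos_of_ne_zero_right _ (by exact_mod_cast hg0.ne')
  have hg0g : g0 ∣ g := by
    have := Int.gcd_dvd_right (c1 - c2) (g : ℤ)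
    exact_mod_cast this
  have hg0c : (g0 : ℤ) ∣ c1 - c2 := Int.gcd_dvd_left _ _
  obtain ⟨g1, hg1⟩ := hg0g
  have hg10 : 0 < g1 := Nat.pos_of_ne_zero (by rintro rfl; omega)
  -- expansion of the first congruence
  have e1 : ∀ n1 ∈ Ioc N (2 * N), ∀ n2 ∈ Ioc N (2 * N), ind (n1 ≠ n2 ∧ n1 ≡ n2 [MOD r]) *
      ind ((g : ℤ) ∣ c1 * n2 - c2 * n1) =
      ∑ l ∈ Ls L, ind ((n2 : ℤ) = n1 + l * (r : ℤ)) * ind ((g : ℤ) ∣ (c1 - c2) * n1 + c1 * (l * r)) := by
    intro n1 hn1 n2 hn2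
    rw [ind_sum N r L hr le_rfl n1 n2 hn1 hn2, sum_mul]
    refine sum_congr rfl fun l _ => ?_
    by_cases h : (n2 : ℤ) = n1 + l * (r : ℤ)
    · rw [h]
      congr 3
      ring
    · rw [ind_false h, zero_mul, zero_mul]
  rw [sum_congr rfl fun n1 hn1 => sum_congr rfl fun n2 hn2 => e1 n1 hn1 n2 hn2]
  have e2 : ∀ n1 ∈ Ioc N (2 * N), ∑ n2 ∈ Ioc N (2 * N), ∑ l ∈ Ls L, ind ((n2 : ℤ) = n1 + l * (r : ℤ)) *
      ind ((g : ℤ) ∣ (c1 - c2) * n1 + c1 * (l * r)) ≤
      ∑ l ∈ Ls L, ind ((g : ℤ) ∣ (c1 - c2) * n1 + c1 * (l * r)) := by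
    intro n1 _
    rw [sum_comm]
    refine sum_le_sum fun l _ => ?_
    rw [← sum_mul]
    have h3 : ∑ n2 ∈ Ioc N (2 * N), ind ((n2 : ℤ) = n1 + l * (r : ℤ)) ≤ 1 := by
      have h4 : ∀ n2 ∈ Ioc N (2 * N), ind ((n2 : ℤ) = n1 + l * (r : ℤ)) =
          if n2 = ((n1 : ℤ) + l * (r : ℤ)).toNat then (ind ((n2 : ℤ) = n1 + l * (r : ℤ))) else 0 := by
        intro n2 _
        split_ifs with h
        · rfl
        · rw [ind_false]
          intro h4
          apply h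
          rw [← h4]; simp
      rw [sum_congr rfl h4, sum_ite_eq']
      split_ifs
      · exact ind_le_one _
      · exact zero_le_one
    exact (mul_le_mul_of_nonneg_right h3 (ind_nonneg _)).trans (le_of_eq (one_mul _))
  refine (sum_le_sum e2).trans ?_
  rw [sum_comm]
  have e3 : ∀ l ∈ Ls L, ∑ n1 ∈ Ioc N (2 * N), ind ((g : ℤ) ∣ (c1 - c2) * n1 + c1 * (l * r)) ≤
      ind ((g0 : ℤ) ∣ l) * ((N : ℝ) / g1 + 1) := by
    intro l _
    by_cases hl : (g0 : ℤ) ∣ l
    · rw [ind_true hl, one_mul]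
      have e4 : ∑ n1 ∈ Ioc N (2 * N), ind ((g : ℤ) ∣ (c1 - c2) * n1 + c1 * (l * r)) =
          (((Ioc N (2 * N)).filter (fun n1 : ℕ => (g : ℤ) ∣ (c1 - c2) * n1 + c1 * (l * r))).card : ℝ) := by
        rw [← sum_boole]
        refine sum_congr rfl fun x _ => ?_
        unfold ind
        by_cases hx : (g : ℤ) ∣ (c1 - c2) * x + c1 * (l * r) <;> simp [hx]
      rw [e4]
      have h5 := card_cls' N (2 * N) g1 hg10 _
        (filter_subset (fun n1 : ℕ => (g : ℤ) ∣ (c1 - c2) * n1 + c1 * (l * r)) (Ioc N (2 * N))) (by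
          intro x hx y hy
          rw [mem_filter] at hx hy
          have h6 := dvd_sub hx.2 hy.2
          have e5 : (c1 - c2) * (x : ℤ) + c1 * (l * r) - ((c1 - c2) * (y : ℤ) + c1 * (l * r)) =
              (c1 - c2) * ((x : ℤ) - y) := by ring
          rw [e5] at h6
          have hsq1 : Squarefree g1 := hg.squarefree_of_dvd ⟨g0, by rw [hg1]; ring⟩
          apply dvd_of_primes g1 hsq1
          intro p hp hpg
          have hpg' : (p : ℤ) ∣ (g : ℤ) := Int.natCast_dvd_natCast.2 (hpg.trans ⟨g0, by rw [hg1]; ring⟩)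
          rcases (Nat.prime_iff_prime_int.1 hp).dvd_or_dvd (hpg'.trans h6) with h7 | h7
          · exfalso
            have h8 : p ∣ g0 := by
              have := Int.dvd_gcd h7 hpg'
              exact_mod_cast this
            have h9 : p * p ∣ g := by rw [hg1]; exact Nat.mul_dvd_mul h8 hpg
            have h10 := hg p h9
            exact hp.one_lt.ne' (Nat.isUnit_iff.1 h10)
          · exact h7)
      have h6 : ((2 * N - N : ℕ) : ℝ) = N := by
        congr 1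
        omega
      rw [h6] at h5
      exact h5
    · rw [ind_false hl, zero_mul]
      apply le_of_eq
      refine sum_eq_zero fun n1 _ => ind_false ?_
      intro h5
      apply hl
      have hgz : (g0 : ℤ) ∣ (g : ℤ) := Int.natCast_dvd_natCast.2 ⟨g1, hg1⟩
      have h6 : (g0 : ℤ) ∣ (c1 - c2) * n1 := Dvd.dvd.mul_right hg0c _
      have h7 := dvd_sub (hgz.trans h5) h6
      have e5 : (c1 - c2) * (n1 : ℤ) + c1 * (l * r) - (c1 - c2) * (n1 : ℤ) = (c1 * r) * l := by ring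
      rw [e5] at h7
      have h8 : IsCoprime (g0 : ℤ) (c1 * r) := by
        apply IsCoprime.mul_right
        · exact (h1.of_isCoprime_of_dvd_right hgz).symm
        · rw [Nat.isCoprime_iff_coprime]
          exact (hrg.coprime_dvd_right ⟨g1, hg1⟩).symm
      exact h8.dvd_of_dvd_mul_left h7
  refine (sum_le_sum e3).trans ?_
  rw [← sum_mul]
  have h2 := card_Ls_dvd L g0 hg00
  have hLN : (L : ℝ) ≤ (N : ℝ) / r := by rw [hL]; exact Nat.cast_div_le
  have hg0r : (1 : ℝ) ≤ g0 := by exact_mod_cast hg00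
  have hg1r : (0 : ℝ) < g1 := by exact_mod_cast hg10
  have hgg : (g : ℝ) = g0 * g1 := by rw [hg1]; push_cast; ring
  calc (∑ l ∈ Ls L, ind ((g0 : ℤ) ∣ l)) * ((N : ℝ) / g1 + 1) ≤ (2 * (((N : ℝ) / r) / g0)) * ((N : ℝ) / g1 + 1) := by
        apply mul_le_mul_of_nonneg_right _ (by positivity)
        refine h2.trans ?_
        gcongr
    _ = 2 * ((N : ℝ) ^ 2 / (r * (g0 * g1)) + (N / r) / g0) := by
        field_simp
    _ ≤ 2 * ((N : ℝ) ^ 2 / (r * g) + N / r) := by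
        rw [hgg]
        have : (N : ℝ) / r / g0 ≤ N / r := div_le_self (by positivity) hg0r
        gcongr

end Pool.Agent.Helper91K1.T
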