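import Mathlib
import Pool.Agent.R503.N.TrC
import Pool.Agent.Helper91K1.T.Cnt

/-! The second moment with classes depending on the modulus: the decomposition. -/

set_option autoImplicit false

open Finset

namespace Pool.Agent.Helper91K1.T

open Pool.Agent.Y826.Z Pool.Agent.Y826.Z.OB Pool.Agent.R503.N

/-- the second moment with classes depending on the modulus -/
noncomputable def SStc (r M N : ℕ) (h : ℤ) (c : ℕ → ℤ) (T : Finset ℕ) (κ β : ℕ → ℝ) : ℝ :=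
  ∑ m ∈ Ioc M (2 * M), (∑ t ∈ T, κ t * ∑ n ∈ Ioc N (2 * N), β n *
    (Pl r h (m * n) * Dc t (c t) ((m * n : ℕ) : ℤ))) ^ 2

/-- its main part -/
noncomputable def Sofc (r M N : ℕ) (h : ℤ) (c : ℕ → ℤ) (T : Finset ℕ) (κ β : ℕ → ℝ) : ℝ :=
  ∑ t1 ∈ T, ∑ t2 ∈ T, (ind (t1.Coprime t2) * (κ t1 * κ t2)) * ∑ n1 ∈ Ioc N (2 * N), ∑ n2 ∈ Ioc N (2 * N),
    ind (n1 ≠ n2 ∧ n1 ≡ n2 [MOD r]) * (β n1 * β n2 * ∑ m ∈ Ioc M (2 * M), Pl r h (m * n1) *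
      Dc t1 (c t1) ((m * n1 : ℕ) : ℤ) * Dc t2 (c t2) ((m * n2 : ℕ) : ℤ))

/-- the indicator of the three classes -/
noncomputable def Phi (r t1 t2 : ℕ) (h c1 c2 : ℤ) (n1 n2 m : ℕ) : ℝ :=
  Pl r h (m * n1) * (ind ((t1 : ℤ) ∣ ((m * n1 : ℕ) : ℤ) - c1) * ind ((t2 : ℤ) ∣ ((m * n2 : ℕ) : ℤ) - c2))

lemma Phi_nonneg (r t1 t2 : ℕ) (h c1 c2 : ℤ) (n1 n2 m : ℕ) : 0 ≤ Phi r t1 t2 h c1 c2 n1 n2 m :=
  mul_nonneg (Pl_nonneg _ _ _) (mul_nonneg (ind_nonneg _) (ind_nonneg _))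

/-- pairs of moduli with a common factor -/
noncomputable def Cc (r M N : ℕ) (h : ℤ) (c : ℕ → ℤ) (T : Finset ℕ) (κ β : ℕ → ℝ) : ℝ :=
  ∑ t1 ∈ T, ∑ t2 ∈ T, (ind (¬ t1.Coprime t2) * (κ t1 * κ t2)) * ∑ n1 ∈ Ioc N (2 * N), ∑ n2 ∈ Ioc N (2 * N),
    ind (n1 ≠ n2 ∧ n1 ≡ n2 [MOD r]) * (β n1 * β n2 * ∑ m ∈ Ioc M (2 * M), Phi r t1 t2 h (c t1) (c t2) n1 n2 m)

lemma reord (T I J : Finset ℕ) (a b d : ℕ → ℕ → ℝ) (F : ℕ → ℕ → ℕ → ℕ → ℕ → ℝ) :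
    ∑ t1 ∈ T, ∑ t2 ∈ T, a t1 t2 * ∑ n1 ∈ I, ∑ n2 ∈ I, b n1 n2 * (d n1 n2 * ∑ m ∈ J, F t1 t2 n1 n2 m) =
    ∑ m ∈ J, ∑ n1 ∈ I, ∑ n2 ∈ I, ∑ t1 ∈ T, ∑ t2 ∈ T, a t1 t2 * (b n1 n2 * (d n1 n2 * F t1 t2 n1 n2 m)) := by
  have h1 : ∀ m ∈ J, ∑ n1 ∈ I, ∑ n2 ∈ I, ∑ t1 ∈ T, ∑ t2 ∈ T, a t1 t2 * (b n1 n2 * (d n1 n2 * F t1 t2 n1 n2 m)) =
      ∑ t1 ∈ T, ∑ t2 ∈ T, ∑ n1 ∈ I, ∑ n2 ∈ I, a t1 t2 * (b n1 n2 * (d n1 n2 * F t1 t2 n1 n2 m)) :=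
    fun m _ => by rw [sum4_comm]
  symm
  rw [sum_congr rfl h1, sum_comm]
  refine sum_congr rfl fun t1 _ => ?_
  rw [sum_comm]
  refine sum_congr rfl fun t2 _ => ?_
  rw [mul_sum, sum_comm]
  refine sum_congr rfl fun n1 _ => ?_
  rw [mul_sum, sum_comm]
  refine sum_congr rfl fun n2 _ => ?_
  rw [mul_sum, mul_sum, mul_sum]

lemma reord2 (I J P : Finset ℕ) (a : ℝ) (X : ℕ → ℕ → ℝ) (Y : ℕ → ℕ → ℕ → ℕ → ℝ) :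
    ∑ m ∈ J, ∑ n1 ∈ I, ∑ n2 ∈ I, a * (ind (n1 = n2) * X m n1 + ∑ p ∈ P, Y p m n1 n2) =
    a * (∑ m ∈ J, ∑ n ∈ I, X m n + ∑ p ∈ P, ∑ m ∈ J, ∑ n1 ∈ I, ∑ n2 ∈ I, Y p m n1 n2) := by
  simp only [← mul_sum, sum_add_distrib]
  congr 1
  congr 1
  · refine sum_congr rfl fun m _ => sum_congr rfl fun n1 hn1 => ?_
    rw [← sum_mul]
    have : ∑ n2 ∈ I, ind (n1 = n2) = 1 := by
      unfold ind
      rw [sum_eq_single n1]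
      · simp
      · intro b _ hb
        rw [if_neg (Ne.symm hb)]
      · intro h; exact absurd hn1 h
    rw [this, one_mul]
  · symm
    rw [sum_comm]
    refine sum_congr rfl fun m _ => ?_
    rw [sum_comm]
    refine sum_congr rfl fun n1 _ => ?_
    exact sum_comm

lemma SStc_eq (r M N : ℕ) (h : ℤ) (c : ℕ → ℤ) (T : Finset ℕ) (κ β : ℕ → ℝ) :
    SStc r M N h c T κ β = ∑ m ∈ Ioc M (2 * M), ∑ n1 ∈ Ioc N (2 * N), ∑ n2 ∈ Ioc N (2 * N),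
      ∑ t1 ∈ T, ∑ t2 ∈ T, (Pl r h (m * n1) * Pl r h (m * n2)) * (κ t1 * κ t2 * (β n1 * β n2) *
        (Dc t1 (c t1) ((m * n1 : ℕ) : ℤ) * Dc t2 (c t2) ((m * n2 : ℕ) : ℤ))) := by
  unfold SStc
  refine sum_congr rfl fun m _ => ?_
  rw [← sum4_comm]
  rw [pow_two, sum_mul_sum]
  refine sum_congr rfl fun t1 _ => sum_congr rfl fun t2 _ => ?_
  rw [mul_mul_mul_comm, sum_mul_sum, mul_sum]
  refine sum_congr rfl fun n1 _ => ?_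
  rw [mul_sum]
  refine sum_congr rfl fun n2 _ => ?_
  ring

lemma DD_sub (t1 t2 : ℕ) (c1 c2 x1 x2 : ℤ) :
    |Dc t1 c1 x1 * Dc t2 c2 x2 - ind ((t1 : ℤ) ∣ x1 - c1) * ind ((t2 : ℤ) ∣ x2 - c2)| ≤
      ind ((t1 : ℤ) ∣ x1 - c1) * (1 / (Nat.totient t2 : ℝ)) + (1 / (Nat.totient t1 : ℝ)) * ind ((t2 : ℤ) ∣ x2 - c2) +
      (1 / (Nat.totient t1 : ℝ)) * (1 / (Nat.totient t2 : ℝ)) := by
  unfold Dc
  have a1 := ind_nonneg ((t1 : ℤ) ∣ x1 - c1)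
  have a2 := ind_nonneg ((t2 : ℤ) ∣ x2 - c2)
  have k1 := ind_nonneg (IsCoprime x1 (t1 : ℤ))
  have k2 := ind_nonneg (IsCoprime x2 (t2 : ℤ))
  have l1 := ind_le_one (IsCoprime x1 (t1 : ℤ))
  have l2 := ind_le_one (IsCoprime x2 (t2 : ℤ))
  have f1 : (0 : ℝ) ≤ 1 / (Nat.totient t1 : ℝ) := by positivity
  have f2 : (0 : ℝ) ≤ 1 / (Nat.totient t2 : ℝ) := by positivity
  set I1 := ind ((t1 : ℤ) ∣ x1 - c1)
  set I2 := ind ((t2 : ℤ) ∣ x2 - c2)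
  set K1 := ind (IsCoprime x1 (t1 : ℤ))
  set K2 := ind (IsCoprime x2 (t2 : ℤ))
  set F1 := 1 / (Nat.totient t1 : ℝ)
  set F2 := 1 / (Nat.totient t2 : ℝ)
  have e : (I1 - F1 * K1) * (I2 - F2 * K2) - I1 * I2 = -(I1 * (F2 * K2)) + -((F1 * K1) * I2) +
      (F1 * K1) * (F2 * K2) := by ring
  rw [e]
  have b1 : F1 * K1 ≤ F1 := mul_le_of_le_one_right f1 l1
  have b2 : F2 * K2 ≤ F2 := mul_le_of_le_one_right f2 l2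
  have b10 : 0 ≤ F1 * K1 := mul_nonneg f1 k1
  have b20 : 0 ≤ F2 * K2 := mul_nonneg f2 k2
  refine (abs_add_le _ _).trans (add_le_add ((abs_add_le _ _).trans (add_le_add ?_ ?_)) ?_)
  · rw [abs_neg, abs_of_nonneg (mul_nonneg a1 b20)]
    exact mul_le_mul_of_nonneg_left b2 a1
  · rw [abs_neg, abs_of_nonneg (mul_nonneg b10 a2)]
    exact mul_le_mul_of_nonneg_right b1 a2
  · rw [abs_of_nonneg (mul_nonneg b10 b20)]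
    exact mul_le_mul b1 b2 b20 f1

/-- the sum of the absolute values -/
noncomputable def B1 (T : Finset ℕ) (c : ℕ → ℤ) (x : ℕ) : ℝ := ∑ t ∈ T, |Dc t (c t) (x : ℤ)|

/-- the moduli divisible by `p` -/
noncomputable def Ap (T : Finset ℕ) (c : ℕ → ℤ) (p : ℕ) (x : ℕ) : ℝ :=
  ∑ t ∈ T, ind (p ∣ t) * ind ((t : ℤ) ∣ (x : ℤ) - c t)

noncomputable def bp (T : Finset ℕ) (p : ℕ) : ℝ := ∑ t ∈ T, ind (p ∣ t) * (1 / (Nat.totient t : ℝ))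

/-- the pointwise bound -/
lemma pt_bd (r G Q : ℕ) (h : ℤ) (hh : IsCoprime h (r : ℤ)) (m n1 n2 t1 t2 : ℕ) (h2 : 0 < t2)
    (hQ : t2 ≤ Q) (hG : ∀ p : ℕ, p.Prime → p ∣ t1 → G < p) (K DD II R dd : ℝ) (hK : |DD| ≤ dd)
    (hR : |DD - II| ≤ R) (ℓ : ℝ) (hKl : |K| ≤ ℓ ^ 2) :
    |(Pl r h (m * n1) * Pl r h (m * n2)) * (K * DD) -
      (ind (t1.Coprime t2) * (ind (n1 ≠ n2 ∧ n1 ≡ n2 [MOD r]) * (K * (Pl r h (m * n1) * DD)))) -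
      (ind (¬ t1.Coprime t2) * (ind (n1 ≠ n2 ∧ n1 ≡ n2 [MOD r]) * (K * (Pl r h (m * n1) * II))))| ≤
      ℓ ^ 2 * (Pl r h (m * n1) * (ind (n1 = n2) * dd + ind (n1 ≠ n2 ∧ n1 ≡ n2 [MOD r]) *
        ((∑ p ∈ (Ioc G Q).filter Nat.Prime, ind (p ∣ t1) * ind (p ∣ t2)) * R))) := by
  rw [Pl_mul r h hh]
  have hP := Pl_nonneg r h (m * n1)
  have hR0 : 0 ≤ R := (abs_nonneg _).trans hR
  have hdd0 : 0 ≤ dd := (abs_nonneg _).trans hK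
  have hS : 0 ≤ ∑ p ∈ (Ioc G Q).filter Nat.Prime, ind (p ∣ t1) * ind (p ∣ t2) :=
    sum_nonneg fun _ _ => mul_nonneg (ind_nonneg _) (ind_nonneg _)
  by_cases e1 : n1 = n2
  · subst e1
    have e2 : ¬ (n1 ≠ n1 ∧ n1 ≡ n1 [MOD r]) := fun h => h.1 rfl
    rw [ind_false e2, ind_true (Nat.ModEq.refl n1), ind_true (rfl : n1 = n1)]
    simp only [mul_one, one_mul, mul_zero, zero_mul, sub_zero, add_zero]
    rw [abs_mul, abs_mul, abs_of_nonneg hP]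
    calc Pl r h (m * n1) * (|K| * |DD|) ≤ Pl r h (m * n1) * (ℓ ^ 2 * dd) := by gcongr
      _ = _ := by ring
  · by_cases e2 : n1 ≡ n2 [MOD r]
    · rw [ind_true e2, ind_true (⟨e1, e2⟩ : n1 ≠ n2 ∧ n1 ≡ n2 [MOD r]), ind_false e1]
      by_cases e3 : t1.Coprime t2
      · rw [ind_true e3, ind_false (not_not.2 e3)]
        have e4 : Pl r h (m * n1) * 1 * (K * DD) - 1 * (1 * (K * (Pl r h (m * n1) * DD))) -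
            0 * (1 * (K * (Pl r h (m * n1) * II))) = 0 := by ring
        rw [e4, abs_zero]
        positivity
      · rw [ind_false e3, ind_true e3]
        have e4 : Pl r h (m * n1) * 1 * (K * DD) - 0 * (1 * (K * (Pl r h (m * n1) * DD))) -
            1 * (1 * (K * (Pl r h (m * n1) * II))) = Pl r h (m * n1) * (K * (DD - II)) := by ring
        rw [e4, abs_mul, abs_mul, abs_of_nonneg hP]
        obtain ⟨p, hp, a1, a2⟩ := Nat.Prime.not_coprime_iff_dvd.1 e3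
        have hmem : p ∈ (Ioc G Q).filter Nat.Prime := by
          rw [mem_filter, mem_Ioc]
          exact ⟨⟨hG p hp a1, (Nat.le_of_dvd h2 a2).trans hQ⟩, hp⟩
        have h1 : 1 ≤ ∑ p ∈ (Ioc G Q).filter Nat.Prime, ind (p ∣ t1) * ind (p ∣ t2) := by
          refine le_trans ?_ (single_le_sum (f := fun p => ind (p ∣ t1) * ind (p ∣ t2))
            (fun _ _ => mul_nonneg (ind_nonneg _) (ind_nonneg _)) hmem)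
          rw [ind_true a1, ind_true a2, one_mul]
        calc Pl r h (m * n1) * (|K| * |DD - II|) ≤ Pl r h (m * n1) * (ℓ ^ 2 * R) := by gcongr
          _ = ℓ ^ 2 * (Pl r h (m * n1) * (0 * dd + 1 * (1 * R))) := by ring
          _ ≤ _ := by gcongr
    · have e3 : ¬ (n1 ≠ n2 ∧ n1 ≡ n2 [MOD r]) := fun h => e2 h.2
      rw [ind_false e2, ind_false e3, ind_false e1]
      simp

/-- the first bound -/
lemma diffc (r M N G Q : ℕ) (h : ℤ) (c : ℕ → ℤ) (T : Finset ℕ) (κ β : ℕ → ℝ) (ℓ : ℝ) (hℓ : 0 ≤ ℓ)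
    (hh : IsCoprime h (r : ℤ)) (hT : ∀ t ∈ T, 0 < t ∧ t ≤ Q) (hG : ∀ t ∈ T, ∀ p : ℕ, p.Prime → p ∣ t → G < p)
    (hκ : ∀ t, |κ t| ≤ 1) (hβ : ∀ n ∈ Ioc N (2 * N), |β n| ≤ ℓ) :
    |SStc r M N h c T κ β - Sofc r M N h c T κ β - Cc r M N h c T κ β| ≤
      ℓ ^ 2 * (∑ m ∈ Ioc M (2 * M), ∑ n ∈ Ioc N (2 * N), Pl r h (m * n) * B1 T c (m * n) ^ 2 +
        ∑ p ∈ (Ioc G Q).filter Nat.Prime, ∑ m ∈ Ioc M (2 * M), ∑ n1 ∈ Ioc N (2 * N), ∑ n2 ∈ Ioc N (2 * N),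
          Pl r h (m * n1) * (ind (n1 ≠ n2 ∧ n1 ≡ n2 [MOD r]) *
            (Ap T c p (m * n1) * bp T p + bp T p * Ap T c p (m * n2) + bp T p * bp T p))) := by
  classical
  set R : ℕ → ℕ → ℕ → ℕ → ℕ → ℝ := fun t1 t2 n1 n2 m =>
    ind ((t1 : ℤ) ∣ ((m * n1 : ℕ) : ℤ) - c t1) * (1 / (Nat.totient t2 : ℝ)) +
      (1 / (Nat.totient t1 : ℝ)) * ind ((t2 : ℤ) ∣ ((m * n2 : ℕ) : ℤ) - c t2) +
      (1 / (Nat.totient t1 : ℝ)) * (1 / (Nat.totient t2 : ℝ)) with hRdef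
  have key : ∀ m ∈ Ioc M (2 * M), ∀ n1 ∈ Ioc N (2 * N), ∀ n2 ∈ Ioc N (2 * N),
      |∑ t1 ∈ T, ∑ t2 ∈ T, (Pl r h (m * n1) * Pl r h (m * n2)) * (κ t1 * κ t2 * (β n1 * β n2) *
        (Dc t1 (c t1) ((m * n1 : ℕ) : ℤ) * Dc t2 (c t2) ((m * n2 : ℕ) : ℤ))) -
       ∑ t1 ∈ T, ∑ t2 ∈ T, (ind (t1.Coprime t2) * (κ t1 * κ t2)) * (ind (n1 ≠ n2 ∧ n1 ≡ n2 [MOD r]) *
        (β n1 * β n2 * (Pl r h (m * n1) *
      Dc t1 (c t1) ((m * n1 : ℕ) : ℤ) * Dc t2 (c t2) ((m * n2 : ℕ) : ℤ)))) -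
       ∑ t1 ∈ T, ∑ t2 ∈ T, (ind (¬ t1.Coprime t2) * (κ t1 * κ t2)) * (ind (n1 ≠ n2 ∧ n1 ≡ n2 [MOD r]) *
        (β n1 * β n2 * Phi r t1 t2 h (c t1) (c t2) n1 n2 m))| ≤
      ℓ ^ 2 * (ind (n1 = n2) * (Pl r h (m * n1) * B1 T c (m * n1) ^ 2) +
        ∑ p ∈ (Ioc G Q).filter Nat.Prime, Pl r h (m * n1) * (ind (n1 ≠ n2 ∧ n1 ≡ n2 [MOD r]) *
          (Ap T c p (m * n1) * bp T p + bp T p * Ap T c p (m * n2) + bp T p * bp T p))) := by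
    intro m _ n1 hn1 n2 hn2
    rw [← sum_sub_distrib, ← sum_sub_distrib]
    refine (abs_sum_le_sum_abs _ _).trans ?_
    have b1 : ∀ t1 ∈ T, |∑ t2 ∈ T, (Pl r h (m * n1) * Pl r h (m * n2)) * (κ t1 * κ t2 * (β n1 * β n2) *
        (Dc t1 (c t1) ((m * n1 : ℕ) : ℤ) * Dc t2 (c t2) ((m * n2 : ℕ) : ℤ))) -
       ∑ t2 ∈ T, (ind (t1.Coprime t2) * (κ t1 * κ t2)) * (ind (n1 ≠ n2 ∧ n1 ≡ n2 [MOD r]) *
        (β n1 * β n2 * (Pl r h (m * n1) *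
      Dc t1 (c t1) ((m * n1 : ℕ) : ℤ) * Dc t2 (c t2) ((m * n2 : ℕ) : ℤ)))) -
       ∑ t2 ∈ T, (ind (¬ t1.Coprime t2) * (κ t1 * κ t2)) * (ind (n1 ≠ n2 ∧ n1 ≡ n2 [MOD r]) *
        (β n1 * β n2 * Phi r t1 t2 h (c t1) (c t2) n1 n2 m))| ≤
        ∑ t2 ∈ T, ℓ ^ 2 * (Pl r h (m * n1) * (ind (n1 = n2) *
          (|Dc t1 (c t1) ((m * n1 : ℕ) : ℤ)| * |Dc t2 (c t2) ((m * n2 : ℕ) : ℤ)|) +
          ind (n1 ≠ n2 ∧ n1 ≡ n2 [MOD r]) *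
          ((∑ p ∈ (Ioc G Q).filter Nat.Prime, ind (p ∣ t1) * ind (p ∣ t2)) * R t1 t2 n1 n2 m))) := by
      intro t1 ht1
      rw [← sum_sub_distrib, ← sum_sub_distrib]
      refine (abs_sum_le_sum_abs _ _).trans (sum_le_sum fun t2 ht2 => ?_)
      have d1 : |κ t1| * |κ t2| ≤ 1 := mul_le_one₀ (hκ _) (abs_nonneg _) (hκ _)
      have d2 : |β n1| * |β n2| ≤ ℓ * ℓ := mul_le_mul (hβ _ hn1) (hβ _ hn2) (abs_nonneg _) hℓ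
      have d3 : |κ t1 * κ t2 * (β n1 * β n2)| ≤ ℓ ^ 2 := by
        rw [abs_mul, abs_mul, abs_mul]
        calc |κ t1| * |κ t2| * (|β n1| * |β n2|) ≤ 1 * (ℓ * ℓ) :=
              mul_le_mul d1 d2 (by positivity) zero_le_one
          _ = ℓ ^ 2 := by ring
      have hb := pt_bd r G Q h hh m n1 n2 t1 t2 (hT t2 ht2).1 (hT t2 ht2).2 (hG t1 ht1)
        (κ t1 * κ t2 * (β n1 * β n2))
        (Dc t1 (c t1) ((m * n1 : ℕ) : ℤ) * Dc t2 (c t2) ((m * n2 : ℕ) : ℤ))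
        (ind ((t1 : ℤ) ∣ ((m * n1 : ℕ) : ℤ) - c t1) * ind ((t2 : ℤ) ∣ ((m * n2 : ℕ) : ℤ) - c t2))
        (R t1 t2 n1 n2 m) (|Dc t1 (c t1) ((m * n1 : ℕ) : ℤ)| * |Dc t2 (c t2) ((m * n2 : ℕ) : ℤ)|)
        (le_of_eq (abs_mul _ _)) (DD_sub _ _ _ _ _ _) ℓ d3
      refine le_trans (le_of_eq ?_) hb
      congr 1
      unfold Phi
      ring
    refine (sum_le_sum b1).trans (le_of_eq ?_)
    have e2 : ind (n1 = n2) * (Pl r h (m * n1) * B1 T c (m * n1) ^ 2) =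
        ind (n1 = n2) * (Pl r h (m * n1) * (B1 T c (m * n1) * B1 T c (m * n2))) := by
      by_cases e : n1 = n2
      · subst e; rw [pow_two]
      · rw [ind_false e, zero_mul, zero_mul]
    rw [e2]
    have e1 : B1 T c (m * n1) * B1 T c (m * n2) = ∑ t1 ∈ T, ∑ t2 ∈ T,
        (|Dc t1 (c t1) ((m * n1 : ℕ) : ℤ)| * |Dc t2 (c t2) ((m * n2 : ℕ) : ℤ)|) := by
      unfold B1
      rw [sum_mul_sum]
    have e3 : ∀ p, Ap T c p (m * n1) * bp T p + bp T p * Ap T c p (m * n2) + bp T p * bp T p =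
        ∑ t1 ∈ T, ∑ t2 ∈ T, (ind (p ∣ t1) * ind (p ∣ t2)) * R t1 t2 n1 n2 m := by
      intro p
      unfold Ap bp
      rw [sum_mul_sum, sum_mul_sum, sum_mul_sum, ← sum_add_distrib, ← sum_add_distrib]
      refine sum_congr rfl fun t1 _ => ?_
      rw [← sum_add_distrib, ← sum_add_distrib]
      refine sum_congr rfl fun t2 _ => ?_
      rw [hRdef]
      ring
    rw [e1]
    simp only [e3]
    have e4 : ∑ p ∈ (Ioc G Q).filter Nat.Prime, Pl r h (m * n1) * (ind (n1 ≠ n2 ∧ n1 ≡ n2 [MOD r]) *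
        ∑ t1 ∈ T, ∑ t2 ∈ T, (ind (p ∣ t1) * ind (p ∣ t2)) * R t1 t2 n1 n2 m) =
        ∑ t1 ∈ T, ∑ t2 ∈ T, Pl r h (m * n1) * (ind (n1 ≠ n2 ∧ n1 ≡ n2 [MOD r]) *
          ((∑ p ∈ (Ioc G Q).filter Nat.Prime, ind (p ∣ t1) * ind (p ∣ t2)) * R t1 t2 n1 n2 m)) := by
      simp only [mul_sum, sum_mul]
      rw [sum_comm]
      refine sum_congr rfl fun t1 _ => ?_
      rw [sum_comm]
    rw [e4]
    have e8 : ∀ t1 t2 : ℕ, ℓ ^ 2 * (Pl r h (m * n1) * (ind (n1 = n2) *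
          (|Dc t1 (c t1) ((m * n1 : ℕ) : ℤ)| * |Dc t2 (c t2) ((m * n2 : ℕ) : ℤ)|) +
          ind (n1 ≠ n2 ∧ n1 ≡ n2 [MOD r]) *
          ((∑ p ∈ (Ioc G Q).filter Nat.Prime, ind (p ∣ t1) * ind (p ∣ t2)) * R t1 t2 n1 n2 m))) =
        (ℓ ^ 2 * (Pl r h (m * n1) * ind (n1 = n2))) *
          (|Dc t1 (c t1) ((m * n1 : ℕ) : ℤ)| * |Dc t2 (c t2) ((m * n2 : ℕ) : ℤ)|) +
        (ℓ ^ 2 * (Pl r h (m * n1) * ind (n1 ≠ n2 ∧ n1 ≡ n2 [MOD r]))) *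
          ((∑ p ∈ (Ioc G Q).filter Nat.Prime, ind (p ∣ t1) * ind (p ∣ t2)) * R t1 t2 n1 n2 m) := by
      intro t1 t2
      ring
    simp only [e8, sum_add_distrib]
    simp only [← mul_sum]
    ring
  have e5 : Sofc r M N h c T κ β = ∑ m ∈ Ioc M (2 * M), ∑ n1 ∈ Ioc N (2 * N), ∑ n2 ∈ Ioc N (2 * N),
      ∑ t1 ∈ T, ∑ t2 ∈ T, (ind (t1.Coprime t2) * (κ t1 * κ t2)) * (ind (n1 ≠ n2 ∧ n1 ≡ n2 [MOD r]) *
        (β n1 * β n2 * (Pl r h (m * n1) *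
      Dc t1 (c t1) ((m * n1 : ℕ) : ℤ) * Dc t2 (c t2) ((m * n2 : ℕ) : ℤ)))) := by
    unfold Sofc
    exact reord T _ _ (fun t1 t2 => ind (t1.Coprime t2) * (κ t1 * κ t2))
      (fun n1 n2 => ind (n1 ≠ n2 ∧ n1 ≡ n2 [MOD r])) (fun n1 n2 => β n1 * β n2)
      (fun t1 t2 n1 n2 m => Pl r h (m * n1) *
      Dc t1 (c t1) ((m * n1 : ℕ) : ℤ) * Dc t2 (c t2) ((m * n2 : ℕ) : ℤ))
  have e6 : Cc r M N h c T κ β = ∑ m ∈ Ioc M (2 * M), ∑ n1 ∈ Ioc N (2 * N), ∑ n2 ∈ Ioc N (2 * N),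
      ∑ t1 ∈ T, ∑ t2 ∈ T, (ind (¬ t1.Coprime t2) * (κ t1 * κ t2)) * (ind (n1 ≠ n2 ∧ n1 ≡ n2 [MOD r]) *
        (β n1 * β n2 * Phi r t1 t2 h (c t1) (c t2) n1 n2 m)) := by
    unfold Cc
    exact reord T _ _ (fun t1 t2 => ind (¬ t1.Coprime t2) * (κ t1 * κ t2))
      (fun n1 n2 => ind (n1 ≠ n2 ∧ n1 ≡ n2 [MOD r])) (fun n1 n2 => β n1 * β n2)
      (fun t1 t2 n1 n2 m => Phi r t1 t2 h (c t1) (c t2) n1 n2 m)
  rw [SStc_eq, e5, e6, ← sum_sub_distrib, ← sum_sub_distrib]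
  refine (abs_sum_le_sum_abs _ _).trans ?_
  have k1 : ∀ m ∈ Ioc M (2 * M), |∑ n1 ∈ Ioc N (2 * N), ∑ n2 ∈ Ioc N (2 * N),
      ∑ t1 ∈ T, ∑ t2 ∈ T, (Pl r h (m * n1) * Pl r h (m * n2)) * (κ t1 * κ t2 * (β n1 * β n2) *
        (Dc t1 (c t1) ((m * n1 : ℕ) : ℤ) * Dc t2 (c t2) ((m * n2 : ℕ) : ℤ))) -
      ∑ n1 ∈ Ioc N (2 * N), ∑ n2 ∈ Ioc N (2 * N), ∑ t1 ∈ T, ∑ t2 ∈ T,
        (ind (t1.Coprime t2) * (κ t1 * κ t2)) * (ind (n1 ≠ n2 ∧ n1 ≡ n2 [MOD r]) *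
        (β n1 * β n2 * (Pl r h (m * n1) *
      Dc t1 (c t1) ((m * n1 : ℕ) : ℤ) * Dc t2 (c t2) ((m * n2 : ℕ) : ℤ)))) -
      ∑ n1 ∈ Ioc N (2 * N), ∑ n2 ∈ Ioc N (2 * N), ∑ t1 ∈ T, ∑ t2 ∈ T,
        (ind (¬ t1.Coprime t2) * (κ t1 * κ t2)) * (ind (n1 ≠ n2 ∧ n1 ≡ n2 [MOD r]) *
        (β n1 * β n2 * Phi r t1 t2 h (c t1) (c t2) n1 n2 m))| ≤
      ∑ n1 ∈ Ioc N (2 * N), ∑ n2 ∈ Ioc N (2 * N),
        ℓ ^ 2 * (ind (n1 = n2) * (Pl r h (m * n1) * B1 T c (m * n1) ^ 2) +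
        ∑ p ∈ (Ioc G Q).filter Nat.Prime, Pl r h (m * n1) * (ind (n1 ≠ n2 ∧ n1 ≡ n2 [MOD r]) *
          (Ap T c p (m * n1) * bp T p + bp T p * Ap T c p (m * n2) + bp T p * bp T p))) := by
    intro m hm
    rw [← sum_sub_distrib, ← sum_sub_distrib]
    refine (abs_sum_le_sum_abs _ _).trans (sum_le_sum fun n1 hn1 => ?_)
    rw [← sum_sub_distrib, ← sum_sub_distrib]
    exact (abs_sum_le_sum_abs _ _).trans (sum_le_sum fun n2 hn2 => key m hm n1 hn1 n2 hn2)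
  refine (sum_le_sum k1).trans (le_of_eq ?_)
  exact reord2 (Ioc N (2 * N)) (Ioc M (2 * M)) ((Ioc G Q).filter Nat.Prime) (ℓ ^ 2)
    (fun m n => Pl r h (m * n) * B1 T c (m * n) ^ 2)
    (fun p m n1 n2 => Pl r h (m * n1) * (ind (n1 ≠ n2 ∧ n1 ≡ n2 [MOD r]) *
          (Ap T c p (m * n1) * bp T p + bp T p * Ap T c p (m * n2) + bp T p * bp T p)))

end Pool.Agent.Helper91K1.T
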