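import Mathlib
import Pool.Agent.Helper91K1.T.TrG1

/-! The second moment with classes depending on the modulus: equal `n` and the cross terms. -/

set_option autoImplicit false

open Finset

namespace Pool.Agent.Helper91K1.T

open Pool.Agent.Y826.Z Pool.Agent.Y826.Z.OB Pool.Agent.R503.N

lemma B1_nonneg (T : Finset ℕ) (c : ℕ → ℤ) (x : ℕ) : 0 ≤ B1 T c x :=
  sum_nonneg fun _ _ => abs_nonneg _

lemma B1_le (T : Finset ℕ) (c : ℕ → ℤ) (x : ℕ) :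
    B1 T c x ≤ Act T c x + ∑ t ∈ T, (1 / (Nat.totient t : ℝ)) := by
  unfold B1 Act
  rw [← sum_add_distrib]
  exact sum_le_sum fun t _ => Dc_abs t (c t) _

lemma Ap_eq (T : Finset ℕ) (c : ℕ → ℤ) (p x : ℕ) : Ap T c p x = Act (T.filter (fun t => p ∣ t)) c x := by
  unfold Ap Act
  rw [sum_filter]
  refine sum_congr rfl fun t _ => ?_
  by_cases h : p ∣ t
  · rw [ind_true h, one_mul, if_pos h]
  · rw [ind_false h, zero_mul, if_neg h]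

lemma bp_eq (T : Finset ℕ) (p : ℕ) : bp T p = ∑ t ∈ T.filter (fun t => p ∣ t), (1 / (Nat.totient t : ℝ)) := by
  unfold bp
  rw [sum_filter]
  refine sum_congr rfl fun t _ => ?_
  by_cases h : p ∣ t
  · rw [ind_true h, one_mul, if_pos h]
  · rw [ind_false h, zero_mul, if_neg h]

/-- equal `n` -/
lemma diagc {r M N Q : ℕ} {ℓ : ℝ} (P : Par r M N Q ℓ) (h : ℤ) (c : ℕ → ℤ) (T : Finset ℕ)
    (hT : ∀ t ∈ T, 0 < t ∧ t ≤ Q) (hcop : ∀ t ∈ T, r.Coprime t) :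
    ∑ m ∈ Ioc M (2 * M), ∑ n ∈ Ioc N (2 * N), Pl r h (m * n) * B1 T c (m * n) ^ 2 ≤
      20 * ℓ ^ 5 * (M * N / r) := by
  classical
  have hr : (0 : ℝ) < r := by exact_mod_cast P.r0
  have hℓ : 0 < ℓ := lt_of_lt_of_le one_pos P.l1
  have hMN : (0 : ℝ) ≤ M * N := by positivity
  set b := ∑ t ∈ T, (1 / (Nat.totient t : ℝ)) with hb
  have hb0 : 0 ≤ b := sum_nonneg fun _ _ => by positivity
  have hS : ∀ t ∈ T, 0 < t ∧ t ≤ Q ∧ 1 ∣ t := fun t ht => ⟨(hT t ht).1, (hT t ht).2, one_dvd _⟩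
  have hbl : b ≤ ℓ ^ 2 := by
    have := sum_phi T 1 Q ℓ one_pos hS P.t1 P.lQ
    rw [Nat.cast_one, div_one] at this
    exact this
  have h1 : ∀ x, B1 T c x ^ 2 ≤ 2 * Act T c x ^ 2 + 2 * b ^ 2 := by
    intro x
    have h2 := B1_le T c x
    rw [← hb] at h2
    have h3 := B1_nonneg T c x
    calc B1 T c x ^ 2 ≤ (Act T c x + b) ^ 2 := pow_le_pow_left₀ h3 h2 2
      _ ≤ _ := by nlinarith [sq_nonneg (Act T c x - b)]
  have h2 : ∑ m ∈ Ioc M (2 * M), ∑ n ∈ Ioc N (2 * N), Pl r h (m * n) * B1 T c (m * n) ^ 2 ≤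
      2 * ∑ m ∈ Ioc M (2 * M), ∑ n ∈ Ioc N (2 * N), Pl r h (m * n) * Act T c (m * n) ^ 2 +
      2 * b ^ 2 * ∑ m ∈ Ioc M (2 * M), ∑ n ∈ Ioc N (2 * N), Pl r h (m * n) := by
    simp only [mul_sum, ← sum_add_distrib]
    refine sum_le_sum fun m _ => sum_le_sum fun n _ => ?_
    calc Pl r h (m * n) * B1 T c (m * n) ^ 2
        ≤ Pl r h (m * n) * (2 * Act T c (m * n) ^ 2 + 2 * b ^ 2) :=
          mul_le_mul_of_nonneg_left (h1 _) (Pl_nonneg _ _ _)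
      _ = _ := by ring
  refine h2.trans ?_
  have h3 := Z2_le P h c T 1 one_pos hS hcop
  have h4 := Z0_le P h
  have h00 : 0 ≤ ∑ m ∈ Ioc M (2 * M), ∑ n ∈ Ioc N (2 * N), Pl r h (m * n) :=
    sum_nonneg fun _ _ => sum_nonneg fun _ _ => Pl_nonneg _ _ _
  simp only [Nat.cast_one, mul_one] at h3
  have h5 : ℓ ^ 3 ≤ ℓ ^ 5 := pow_le_pow_right₀ P.l1 (by norm_num)
  calc _ ≤ 2 * (5 * ℓ ^ 3 * (M * N / r)) + 2 * (ℓ ^ 2) ^ 2 * (5 * ℓ * (M * N / r)) := by gcongr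
    _ = 10 * ℓ ^ 3 * (M * N / r) + 10 * ℓ ^ 5 * (M * N / r) := by ring
    _ ≤ 10 * ℓ ^ 5 * (M * N / r) + 10 * ℓ ^ 5 * (M * N / r) := by gcongr
    _ = _ := by ring

/-- the cross terms -/
lemma crossc {r M N Q : ℕ} {ℓ : ℝ} (P : Par r M N Q ℓ) (h : ℤ) (c : ℕ → ℤ) (hh : IsCoprime h (r : ℤ)) (T : Finset ℕ)
    (hT : ∀ t ∈ T, 0 < t ∧ t ≤ Q) (hcop : ∀ t ∈ T, r.Coprime t)
    (p : ℕ) (hp : p.Prime) :
    ∑ m ∈ Ioc M (2 * M), ∑ n1 ∈ Ioc N (2 * N), ∑ n2 ∈ Ioc N (2 * N),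
          Pl r h (m * n1) * (ind (n1 ≠ n2 ∧ n1 ≡ n2 [MOD r]) *
            (Ap T c p (m * n1) * bp T p + bp T p * Ap T c p (m * n2) + bp T p * bp T p)) ≤
      15 * ℓ ^ 5 * (M * (N : ℝ) ^ 2 / (r : ℝ) ^ 2) * ((p : ℝ) ^ 2)⁻¹ := by
  classical
  have hr : (0 : ℝ) < r := by exact_mod_cast P.r0
  have hpp : (0 : ℝ) < p := by exact_mod_cast hp.pos
  have hℓ : 0 < ℓ := lt_of_lt_of_le one_pos P.l1
  have hMN : (0 : ℝ) ≤ M * N := by positivity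
  have hN0 : (0 : ℝ) ≤ N := Nat.cast_nonneg N
  simp only [Ap_eq, bp_eq]
  set S := T.filter (fun t => p ∣ t) with hSdef
  set b := ∑ t ∈ S, (1 / (Nat.totient t : ℝ)) with hb
  have hb0 : 0 ≤ b := sum_nonneg fun _ _ => by positivity
  have hS : ∀ t ∈ S, 0 < t ∧ t ≤ Q ∧ p ∣ t := by
    intro t ht
    rw [hSdef, mem_filter] at ht
    exact ⟨(hT t ht.1).1, (hT t ht.1).2, ht.2⟩
  have hScop : ∀ t ∈ S, r.Coprime t := by
    intro t ht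
    rw [hSdef, mem_filter] at ht
    exact hcop t ht.1
  have hbl : b ≤ ℓ ^ 2 / p := sum_phi S p Q ℓ hp.pos hS P.t1 P.lQ
  set A := Act S c with hA
  have hA0 : ∀ x, 0 ≤ A x := fun x => Act_nonneg S _ x
  -- symmetry
  have hsymE : ∀ q a b' : ℕ, ind (a ≠ b' ∧ a ≡ b' [MOD q]) = ind (b' ≠ a ∧ b' ≡ a [MOD q]) := by
    intro q a b'
    congr 1
    rw [eq_iff_iff]
    constructor
    · rintro ⟨h1, h2⟩; exact ⟨h1.symm, h2.symm⟩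
    · rintro ⟨h1, h2⟩; exact ⟨h1.symm, h2.symm⟩
  have hPE : ∀ q, r ∣ q → ∀ m n1 n2 : ℕ, ind (n1 ≠ n2 ∧ n1 ≡ n2 [MOD q]) * Pl r h (m * n1) =
      ind (n1 ≠ n2 ∧ n1 ≡ n2 [MOD q]) * Pl r h (m * n2) := by
    intro q hq m n1 n2
    by_cases e : n1 ≠ n2 ∧ n1 ≡ n2 [MOD q]
    · have e2 : n1 ≡ n2 [MOD r] := e.2.of_dvd hq
      congr 1
      unfold Pl
      congr 1
      rw [eq_iff_iff]
      constructor
      · intro h1; exact (cls_iff r h hh m n1 n2 h1).2 e2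
      · intro h1; exact (cls_iff r h hh m n2 n1 h1).2 e2.symm
    · rw [ind_false e, zero_mul, zero_mul]
  have hs : ∀ q, 0 < q → r ∣ q → ∀ m : ℕ, ∀ f : ℕ → ℝ, (∀ n, 0 ≤ f n) →
      (∑ n1 ∈ Ioc N (2 * N), ∑ n2 ∈ Ioc N (2 * N), Pl r h (m * n1) *
        (ind (n1 ≠ n2 ∧ n1 ≡ n2 [MOD q]) * f n1) ≤ (N / q) * ∑ n ∈ Ioc N (2 * N), Pl r h (m * n) * f n) ∧
      (∑ n1 ∈ Ioc N (2 * N), ∑ n2 ∈ Ioc N (2 * N), Pl r h (m * n1) *
        (ind (n1 ≠ n2 ∧ n1 ≡ n2 [MOD q]) * f n2) ≤ (N / q) * ∑ n ∈ Ioc N (2 * N), Pl r h (m * n) * f n) := by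
    intro q hq hrq m f hf
    have h1 : ∑ n1 ∈ Ioc N (2 * N), ∑ n2 ∈ Ioc N (2 * N), Pl r h (m * n1) *
        (ind (n1 ≠ n2 ∧ n1 ≡ n2 [MOD q]) * f n1) ≤ (N / q) * ∑ n ∈ Ioc N (2 * N), Pl r h (m * n) * f n := by
      rw [mul_sum]
      refine sum_le_sum fun n1 hn1 => ?_
      have h2 : ∑ n2 ∈ Ioc N (2 * N), Pl r h (m * n1) * (ind (n1 ≠ n2 ∧ n1 ≡ n2 [MOD q]) * f n1) =
          (∑ n2 ∈ Ioc N (2 * N), ind (n1 ≠ n2 ∧ n1 ≡ n2 [MOD q])) * (Pl r h (m * n1) * f n1) := by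
        rw [sum_mul]
        refine sum_congr rfl fun n2 _ => ?_
        ring
      rw [h2]
      exact mul_le_mul_of_nonneg_right (sum_ne N q hq n1 hn1) (mul_nonneg (Pl_nonneg _ _ _) (hf _))
    refine ⟨h1, ?_⟩
    rw [sym_sum (Ioc N (2 * N)) (fun a b' => ind (a ≠ b' ∧ a ≡ b' [MOD q])) (fun n => Pl r h (m * n)) f
      (hsymE q) (fun a _ b' _ => hPE q hrq m a b')]
    exact h1
  -- for fixed `m`
  have hm : ∀ m ∈ Ioc M (2 * M), ∑ n1 ∈ Ioc N (2 * N), ∑ n2 ∈ Ioc N (2 * N),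
      Pl r h (m * n1) * (ind (n1 ≠ n2 ∧ n1 ≡ n2 [MOD r]) * (A (m * n1) * b + b * A (m * n2) + b * b)) ≤
      (N / r) * (2 * b * ∑ n ∈ Ioc N (2 * N), Pl r h (m * n) * A (m * n) +
        b ^ 2 * ∑ n ∈ Ioc N (2 * N), Pl r h (m * n)) := by
    intro m _
    have e0 : ∀ n1 n2 : ℕ, Pl r h (m * n1) * (ind (n1 ≠ n2 ∧ n1 ≡ n2 [MOD r]) *
        (A (m * n1) * b + b * A (m * n2) + b * b)) =
      (b * (Pl r h (m * n1) * (ind (n1 ≠ n2 ∧ n1 ≡ n2 [MOD r]) * A (m * n1))) +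
       b * (Pl r h (m * n1) * (ind (n1 ≠ n2 ∧ n1 ≡ n2 [MOD r]) * A (m * n2))) +
       b ^ 2 * (Pl r h (m * n1) * (ind (n1 ≠ n2 ∧ n1 ≡ n2 [MOD r]) * 1))) := by
      intro n1 n2
      ring
    simp only [e0]
    simp only [sum_add_distrib, ← mul_sum]
    have g2 := (hs r P.r0 dvd_rfl m (fun n => A (m * n)) (fun _ => hA0 _))
    have g3 := (hs r P.r0 dvd_rfl m (fun _ => 1) (fun _ => zero_le_one)).1
    simp only [← mul_sum] at g2 g3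
    simp only [mul_one] at g3 ⊢
    have g4 := mul_le_mul_of_nonneg_left g2.1 hb0
    have g5 := mul_le_mul_of_nonneg_left g2.2 hb0
    have g6 := mul_le_mul_of_nonneg_left g3 (sq_nonneg b)
    linarith [g4, g5, g6]
  refine (sum_le_sum hm).trans ?_
  simp only [sum_add_distrib, ← mul_sum]
  have k2 := Z2_le P h c S p hp.pos hS hScop
  have k1 := (Z1_le_Z2 r M N h c S).trans k2
  have k0 := Z0_le P h
  have h00 : 0 ≤ ∑ m ∈ Ioc M (2 * M), ∑ n ∈ Ioc N (2 * N), Pl r h (m * n) :=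
    sum_nonneg fun _ _ => sum_nonneg fun _ _ => Pl_nonneg _ _ _
  have h01 : 0 ≤ ∑ m ∈ Ioc M (2 * M), ∑ n ∈ Ioc N (2 * N), Pl r h (m * n) * A (m * n) :=
    sum_nonneg fun _ _ => sum_nonneg fun _ _ => mul_nonneg (Pl_nonneg _ _ _) (hA0 _)
  rw [← hA] at k1 k2
  calc _ ≤ (N / r) * (2 * (ℓ ^ 2 / p) * (5 * ℓ ^ 3 * (M * N / (r * p))) + (ℓ ^ 2 / p) ^ 2 * (5 * ℓ * (M * N / r))) := by
        gcongr
    _ = _ := by
        field_simp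
        ring

/-- the first bound, summed -/
lemma diffc2 {r M N Q G : ℕ} {ℓ : ℝ} (P : Par r M N Q ℓ) (h : ℤ) (c : ℕ → ℤ) (hh : IsCoprime h (r : ℤ))
    (T : Finset ℕ)
    (κ β : ℕ → ℝ) (hT : ∀ t ∈ T, 0 < t ∧ t ≤ Q) (hcop : ∀ t ∈ T, r.Coprime t)
    (hG0 : 0 < G) (hG : ∀ t ∈ T, ∀ p : ℕ, p.Prime → p ∣ t → G < p)
    (hrG : (r : ℝ) * G ≤ N) (hκ : ∀ t, |κ t| ≤ 1) (hβ : ∀ n ∈ Ioc N (2 * N), |β n| ≤ ℓ) :
    |SStc r M N h c T κ β - Sofc r M N h c T κ β - Cc r M N h c T κ β| ≤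
      35 * ℓ ^ 7 * (M * (N : ℝ) ^ 2 / (r : ℝ) ^ 2) / G := by
  have hr : (0 : ℝ) < r := by exact_mod_cast P.r0
  have hℓ : 0 < ℓ := lt_of_lt_of_le one_pos P.l1
  have hGr : (0 : ℝ) < G := by exact_mod_cast hG0
  have h1 := diffc r M N G Q h c T κ β ℓ hℓ.le hh hT hG hκ hβ
  refine h1.trans ?_
  have h2 := diagc P h c T hT hcop
  have h3 : ∑ p ∈ (Ioc G Q).filter Nat.Prime, ∑ m ∈ Ioc M (2 * M), ∑ n1 ∈ Ioc N (2 * N), ∑ n2 ∈ Ioc N (2 * N),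
          Pl r h (m * n1) * (ind (n1 ≠ n2 ∧ n1 ≡ n2 [MOD r]) *
            (Ap T c p (m * n1) * bp T p + bp T p * Ap T c p (m * n2) + bp T p * bp T p)) ≤
      ∑ p ∈ (Ioc G Q).filter Nat.Prime, 15 * ℓ ^ 5 * (M * (N : ℝ) ^ 2 / (r : ℝ) ^ 2) * ((p : ℝ) ^ 2)⁻¹ :=
    sum_le_sum fun p hp => crossc P h c hh T hT hcop p (mem_filter.1 hp).2
  have h4 : ∑ p ∈ (Ioc G Q).filter Nat.Prime, ((p : ℝ) ^ 2)⁻¹ ≤ (G : ℝ)⁻¹ := by
    refine (sum_le_sum_of_subset_of_nonneg (filter_subset _ _) (fun _ _ _ => by positivity)).trans ?_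
    by_cases hGQ : G ≤ Q
    · refine (sum_Ioc_inv_sq_le_sub hG0.ne' hGQ).trans ?_
      have : (0 : ℝ) ≤ (Q : ℝ)⁻¹ := by positivity
      linarith
    · rw [Ioc_eq_empty (by omega), sum_empty]
      positivity
  rw [← mul_sum] at h3
  have h5 : (M * N / r : ℝ) ≤ (M * (N : ℝ) ^ 2 / (r : ℝ) ^ 2) / G := by
    rw [div_div, div_le_div_iff₀ hr (by positivity)]
    have hM : (0 : ℝ) ≤ M := Nat.cast_nonneg M
    have hN : (0 : ℝ) ≤ N := Nat.cast_nonneg N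
    calc (M : ℝ) * N * ((r : ℝ) ^ 2 * G) = (M * N * r) * (r * G) := by ring
      _ ≤ (M * N * r) * N := by gcongr
      _ = _ := by ring
  calc _ ≤ ℓ ^ 2 * (20 * ℓ ^ 5 * ((M * (N : ℝ) ^ 2 / (r : ℝ) ^ 2) / G) +
        15 * ℓ ^ 5 * (M * (N : ℝ) ^ 2 / (r : ℝ) ^ 2) * (G : ℝ)⁻¹) := by
        apply mul_le_mul_of_nonneg_left _ (by positivity)
        apply add_le_add
        · exact h2.trans (mul_le_mul_of_nonneg_left h5 (by positivity))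
        · exact h3.trans (mul_le_mul_of_nonneg_left h4 (by positivity))
    _ = _ := by ring

end Pool.Agent.Helper91K1.T
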