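import Mathlib
import Pool.Agent.Helper91K1.T.TrG2
import Pool.Agent.Helper91K1.T.OaG

/-! The second moment with classes depending on the modulus: pairs of moduli with a common factor. -/

set_option autoImplicit false

open Finset

namespace Pool.Agent.Helper91K1.T

open Pool.Agent.Y826.Z Pool.Agent.Y826.Z.OB Pool.Agent.R503.N

lemma ind_cases' (P : Prop) : (P ∧ ind P = 1) ∨ (¬ P ∧ ind P = 0) := by
  by_cases h : P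
  · exact Or.inl ⟨h, ind_true h⟩
  · exact Or.inr ⟨h, ind_false h⟩

lemma Phi_cases (r t1 t2 : ℕ) (h c1 c2 : ℤ) (n1 n2 m : ℕ) : Phi r t1 t2 h c1 c2 n1 n2 m = 0 ∨
    (Phi r t1 t2 h c1 c2 n1 n2 m = 1 ∧ (r : ℤ) ∣ ((m * n1 : ℕ) : ℤ) - h ∧ (t1 : ℤ) ∣ ((m * n1 : ℕ) : ℤ) - c1 ∧
      (t2 : ℤ) ∣ ((m * n2 : ℕ) : ℤ) - c2) := by
  unfold Phi Pl
  rcases ind_cases' ((r : ℤ) ∣ ((m * n1 : ℕ) : ℤ) - h) with ⟨a1, b1⟩ | ⟨a1, b1⟩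
  swap
  · left; rw [b1, zero_mul]
  rcases ind_cases' ((t1 : ℤ) ∣ ((m * n1 : ℕ) : ℤ) - c1) with ⟨a2, b2⟩ | ⟨a2, b2⟩
  swap
  · left; rw [b2, zero_mul, mul_zero]
  rcases ind_cases' ((t2 : ℤ) ∣ ((m * n2 : ℕ) : ℤ) - c2) with ⟨a3, b3⟩ | ⟨a3, b3⟩
  swap
  · left; rw [b3, mul_zero, mul_zero]
  right
  refine ⟨?_, a1, a2, a3⟩
  rw [b1, b2, b3]
  norm_num

lemma Phi_cls {r t1 t2 : ℕ} {h c1 c2 : ℤ} (hs : Squarefree (r * Nat.lcm t1 t2)) (hh : IsCoprime h (r : ℤ))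
    (h1 : IsCoprime c1 (t1 : ℤ)) (h2 : IsCoprime c2 (t2 : ℤ)) {n1 n2 m m' : ℕ}
    (a : Phi r t1 t2 h c1 c2 n1 n2 m ≠ 0) (b : Phi r t1 t2 h c1 c2 n1 n2 m' ≠ 0) :
    ((r * Nat.lcm t1 t2 : ℕ) : ℤ) ∣ (m : ℤ) - m' := by
  obtain ⟨-, a1, a2, a3⟩ := (Phi_cases r t1 t2 h c1 c2 n1 n2 m).resolve_left a
  obtain ⟨-, b1, b2, b3⟩ := (Phi_cases r t1 t2 h c1 c2 n1 n2 m').resolve_left b
  apply dvd_of_primes _ hs
  intro p hp hd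
  rcases (hp.dvd_mul).1 hd with hd | hd
  · exact inj_cls hh hp hd a1 b1
  · have h3 : p ∣ t1 * t2 := hd.trans (Nat.lcm_dvd_mul _ _)
    rcases (hp.dvd_mul).1 h3 with h4 | h4
    · exact inj_cls h1 hp h4 a2 b2
    · exact inj_cls h2 hp h4 a3 b3

lemma Phi_g {r t1 t2 : ℕ} {h c1 c2 : ℤ} {n1 n2 m : ℕ} (a : Phi r t1 t2 h c1 c2 n1 n2 m ≠ 0) :
    ((Nat.gcd t1 t2 : ℕ) : ℤ) ∣ c1 * n2 - c2 * n1 := by
  obtain ⟨-, a1, a2, a3⟩ := (Phi_cases r t1 t2 h c1 c2 n1 n2 m).resolve_left a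
  have g1 : ((Nat.gcd t1 t2 : ℕ) : ℤ) ∣ ((m * n1 : ℕ) : ℤ) - c1 :=
    (Int.natCast_dvd_natCast.2 (Nat.gcd_dvd_left _ _)).trans a2
  have g2 : ((Nat.gcd t1 t2 : ℕ) : ℤ) ∣ ((m * n2 : ℕ) : ℤ) - c2 :=
    (Int.natCast_dvd_natCast.2 (Nat.gcd_dvd_right _ _)).trans a3
  have h1 := dvd_sub (Dvd.dvd.mul_left g2 (n1 : ℤ)) (Dvd.dvd.mul_left g1 (n2 : ℤ))
  have e : (n1 : ℤ) * (((m * n2 : ℕ) : ℤ) - c2) - (n2 : ℤ) * (((m * n1 : ℕ) : ℤ) - c1) = c1 * n2 - c2 * n1 := by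
    push_cast; ring
  rwa [e] at h1

lemma Phi_sum_card (F : Finset ℕ) (r t1 t2 : ℕ) (h c1 c2 : ℤ) (n1 n2 : ℕ) :
    ∑ m ∈ F, Phi r t1 t2 h c1 c2 n1 n2 m ≤ ((F.filter (fun m => Phi r t1 t2 h c1 c2 n1 n2 m ≠ 0)).card : ℝ) := by
  rw [← sum_filter_ne_zero, ← nsmul_one, ← sum_const]
  refine sum_le_sum fun m _ => ?_
  rcases Phi_cases r t1 t2 h c1 c2 n1 n2 m with h0 | ⟨h0, -⟩ <;> rw [h0]
  norm_num

/-- the sum over `m` -/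
lemma Phi_sum {r t1 t2 : ℕ} {h c1 c2 : ℤ} (hs : Squarefree (r * Nat.lcm t1 t2)) (hh : IsCoprime h (r : ℤ))
    (h1 : IsCoprime c1 (t1 : ℤ)) (h2 : IsCoprime c2 (t2 : ℤ)) (M n1 n2 : ℕ) :
    ∑ m ∈ Ioc M (2 * M), Phi r t1 t2 h c1 c2 n1 n2 m ≤
      (M / ((r * Nat.lcm t1 t2 : ℕ) : ℝ) + 1) * ind (((Nat.gcd t1 t2 : ℕ) : ℤ) ∣ c1 * n2 - c2 * n1) := by
  classical
  by_cases hg : ((Nat.gcd t1 t2 : ℕ) : ℤ) ∣ c1 * n2 - c2 * n1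
  · rw [ind_true hg, mul_one]
    refine (Phi_sum_card _ _ _ _ _ _ _ _ _).trans ?_
    have := card_cls' M (2 * M) (r * Nat.lcm t1 t2) (Nat.pos_of_ne_zero hs.ne_zero) _
      (filter_subset (fun m => Phi r t1 t2 h c1 c2 n1 n2 m ≠ 0) (Ioc M (2 * M)))
      (fun x hx y hy => Phi_cls hs hh h1 h2 (mem_filter.1 hx).2 (mem_filter.1 hy).2)
    have e : 2 * M - M = M := by omega
    rwa [e] at this
  · rw [ind_false hg, mul_zero]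
    apply le_of_eq
    refine sum_eq_zero fun m _ => ?_
    by_contra h0
    exact hg (Phi_g h0)

/-- the sum over a period -/
lemma Phi_per {r t1 t2 : ℕ} {h c1 c2 : ℤ} (hs : Squarefree (r * Nat.lcm t1 t2)) (hh : IsCoprime h (r : ℤ))
    (h1 : IsCoprime c1 (t1 : ℤ)) (h2 : IsCoprime c2 (t2 : ℤ)) (n1 n2 : ℕ) :
    ∑ j ∈ range (r * Nat.lcm t1 t2), Phi r t1 t2 h c1 c2 n1 n2 j ≤
      ind (((Nat.gcd t1 t2 : ℕ) : ℤ) ∣ c1 * n2 - c2 * n1) := by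
  classical
  by_cases hg : ((Nat.gcd t1 t2 : ℕ) : ℤ) ∣ c1 * n2 - c2 * n1
  · rw [ind_true hg]
    refine (Phi_sum_card _ _ _ _ _ _ _ _ _).trans ?_
    have h3 : ((range (r * Nat.lcm t1 t2)).filter (fun m => Phi r t1 t2 h c1 c2 n1 n2 m ≠ 0)).card ≤ 1 := by
      rw [card_le_one]
      intro x hx y hy
      rw [mem_filter, mem_range] at hx hy
      have h4 := Phi_cls hs hh h1 h2 hx.2 hy.2
      have h5 := Int.eq_zero_of_abs_lt_dvd h4 (by rw [abs_lt]; constructor <;> omega)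
      omega
    exact_mod_cast h3
  · rw [ind_false hg]
    apply le_of_eq
    refine sum_eq_zero fun m _ => ?_
    by_contra h0
    exact hg (Phi_g h0)

/-- the error term of a pair -/
noncomputable def EnP (M r t1 t2 : ℕ) (h c1 c2 : ℤ) (n1 n2 : ℕ) : ℝ :=
  ∑ m ∈ Ioc M (2 * M), Phi r t1 t2 h c1 c2 n1 n2 m -
    (M / ((r * Nat.lcm t1 t2 : ℕ) : ℝ)) * ∑ j ∈ range (r * Nat.lcm t1 t2), Phi r t1 t2 h c1 c2 n1 n2 j

/-- the error terms of the pairs with the greatest common divisor `g` -/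
noncomputable def EG (r M N : ℕ) (h : ℤ) (c : ℕ → ℤ) (T : Finset ℕ) (κ β : ℕ → ℝ) (g : ℕ) : ℝ :=
  ∑ t1 ∈ T, ∑ t2 ∈ T, (ind (Nat.gcd t1 t2 = g) * (κ t1 * κ t2)) * ∑ n1 ∈ Ioc N (2 * N), ∑ n2 ∈ Ioc N (2 * N),
    ind (n1 ≠ n2 ∧ n1 ≡ n2 [MOD r]) * (β n1 * β n2 * EnP M r t1 t2 h (c t1) (c t2) n1 n2)

open Classical in
/-- the remaining part -/
noncomputable def Jr (G1 M r t1 t2 : ℕ) (h c1 c2 : ℤ) (n1 n2 : ℕ) : ℝ :=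
  if Nat.gcd t1 t2 ≤ G1 then
    (M / ((r * Nat.lcm t1 t2 : ℕ) : ℝ)) * ∑ j ∈ range (r * Nat.lcm t1 t2), Phi r t1 t2 h c1 c2 n1 n2 j
  else ∑ m ∈ Ioc M (2 * M), Phi r t1 t2 h c1 c2 n1 n2 m

lemma Cc_split (G1 r M N : ℕ) (h : ℤ) (c : ℕ → ℤ) (T : Finset ℕ) (κ β : ℕ → ℝ) (hT : ∀ t ∈ T, 0 < t) :
    Cc r M N h c T κ β = ∑ g ∈ Ioc 1 G1, EG r M N h c T κ β g +
      ∑ t1 ∈ T, ∑ t2 ∈ T, (ind (¬ t1.Coprime t2) * (κ t1 * κ t2)) * ∑ n1 ∈ Ioc N (2 * N), ∑ n2 ∈ Ioc N (2 * N),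
    ind (n1 ≠ n2 ∧ n1 ≡ n2 [MOD r]) * (β n1 * β n2 * Jr G1 M r t1 t2 h (c t1) (c t2) n1 n2) := by
  classical
  have e1 : ∑ g ∈ Ioc 1 G1, EG r M N h c T κ β g = ∑ t1 ∈ T, ∑ t2 ∈ T, (∑ g ∈ Ioc 1 G1, ind (Nat.gcd t1 t2 = g)) *
      ((κ t1 * κ t2) * ∑ n1 ∈ Ioc N (2 * N), ∑ n2 ∈ Ioc N (2 * N),
    ind (n1 ≠ n2 ∧ n1 ≡ n2 [MOD r]) * (β n1 * β n2 * EnP M r t1 t2 h (c t1) (c t2) n1 n2)) := by
    unfold EG
    rw [sum_comm]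
    refine sum_congr rfl fun t1 _ => ?_
    rw [sum_comm]
    refine sum_congr rfl fun t2 _ => ?_
    rw [sum_mul]
    refine sum_congr rfl fun g _ => ?_
    ring
  rw [e1, ← sum_add_distrib]
  unfold Cc
  refine sum_congr rfl fun t1 ht1 => ?_
  rw [← sum_add_distrib]
  refine sum_congr rfl fun t2 ht2 => ?_
  have hpos : 0 < Nat.gcd t1 t2 := Nat.gcd_pos_of_pos_left _ (hT t1 ht1)
  by_cases hc : t1.Coprime t2
  · have h0 : ∑ g ∈ Ioc 1 G1, ind (Nat.gcd t1 t2 = g) = 0 := by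
      refine sum_eq_zero fun g hg => ind_false ?_
      rw [mem_Ioc] at hg
      have : Nat.gcd t1 t2 = 1 := hc
      omega
    rw [h0, ind_false (not_not.2 hc)]
    ring
  · rw [ind_true hc]
    have hne : Nat.gcd t1 t2 ≠ 1 := hc
    by_cases hle : Nat.gcd t1 t2 ≤ G1
    · have h0 : ∑ g ∈ Ioc 1 G1, ind (Nat.gcd t1 t2 = g) = 1 := by
        rw [sum_eq_single (Nat.gcd t1 t2)]
        · exact ind_true rfl
        · intro b _ hb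
          exact ind_false (Ne.symm hb)
        · intro hn
          exact absurd (mem_Ioc.2 ⟨by omega, hle⟩) hn
      rw [h0]
      have e2 : ∀ n1 n2, Jr G1 M r t1 t2 h (c t1) (c t2) n1 n2 =
          (M / ((r * Nat.lcm t1 t2 : ℕ) : ℝ)) * ∑ j ∈ range (r * Nat.lcm t1 t2), Phi r t1 t2 h (c t1) (c t2) n1 n2 j := by
        intro n1 n2
        unfold Jr
        rw [if_pos hle]
      simp only [e2]
      unfold EnP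
      have e3 : ∀ n1 n2 : ℕ, ind (n1 ≠ n2 ∧ n1 ≡ n2 [MOD r]) * (β n1 * β n2 *
          ∑ m ∈ Ioc M (2 * M), Phi r t1 t2 h (c t1) (c t2) n1 n2 m) =
          ind (n1 ≠ n2 ∧ n1 ≡ n2 [MOD r]) * (β n1 * β n2 *
            (∑ m ∈ Ioc M (2 * M), Phi r t1 t2 h (c t1) (c t2) n1 n2 m -
            (M / ((r * Nat.lcm t1 t2 : ℕ) : ℝ)) *
              ∑ j ∈ range (r * Nat.lcm t1 t2), Phi r t1 t2 h (c t1) (c t2) n1 n2 j)) +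
          ind (n1 ≠ n2 ∧ n1 ≡ n2 [MOD r]) * (β n1 * β n2 * ((M / ((r * Nat.lcm t1 t2 : ℕ) : ℝ)) *
              ∑ j ∈ range (r * Nat.lcm t1 t2), Phi r t1 t2 h (c t1) (c t2) n1 n2 j)) := by
        intro n1 n2
        ring
      simp only [e3, sum_add_distrib]
      ring
    · have h0 : ∑ g ∈ Ioc 1 G1, ind (Nat.gcd t1 t2 = g) = 0 := by
        refine sum_eq_zero fun g hg => ind_false ?_
        rw [mem_Ioc] at hg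
        omega
      rw [h0]
      have e2 : ∀ n1 n2, Jr G1 M r t1 t2 h (c t1) (c t2) n1 n2 =
          ∑ m ∈ Ioc M (2 * M), Phi r t1 t2 h (c t1) (c t2) n1 n2 m := by
        intro n1 n2
        unfold Jr
        rw [if_neg hle]
      simp only [e2]
      ring

lemma Jr_le {r t1 t2 : ℕ} {h c1 c2 : ℤ} (hs : Squarefree (r * Nat.lcm t1 t2)) (hh : IsCoprime h (r : ℤ))
    (h1 : IsCoprime c1 (t1 : ℤ)) (h2 : IsCoprime c2 (t2 : ℤ)) (G1 M n1 n2 : ℕ) :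
    0 ≤ Jr G1 M r t1 t2 h c1 c2 n1 n2 ∧ Jr G1 M r t1 t2 h c1 c2 n1 n2 ≤
      (M / ((r * Nat.lcm t1 t2 : ℕ) : ℝ) + ind (G1 < Nat.gcd t1 t2)) *
        ind (((Nat.gcd t1 t2 : ℕ) : ℤ) ∣ c1 * n2 - c2 * n1) := by
  classical
  have hq : (0 : ℝ) < ((r * Nat.lcm t1 t2 : ℕ) : ℝ) := by exact_mod_cast Nat.pos_of_ne_zero hs.ne_zero
  have hMq : (0 : ℝ) ≤ M / ((r * Nat.lcm t1 t2 : ℕ) : ℝ) := by positivity
  have hind := ind_nonneg (((Nat.gcd t1 t2 : ℕ) : ℤ) ∣ c1 * n2 - c2 * n1)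
  unfold Jr
  split_ifs with hle
  · have h3 := Phi_per hs hh h1 h2 n1 n2
    have h4 : 0 ≤ ∑ j ∈ range (r * Nat.lcm t1 t2), Phi r t1 t2 h c1 c2 n1 n2 j :=
      sum_nonneg fun _ _ => Phi_nonneg _ _ _ _ _ _ _ _ _
    refine ⟨mul_nonneg hMq h4, ?_⟩
    rw [ind_false (not_lt.2 hle), add_zero]
    exact mul_le_mul_of_nonneg_left h3 hMq
  · refine ⟨sum_nonneg fun _ _ => Phi_nonneg _ _ _ _ _ _ _ _ _, ?_⟩
    rw [ind_true (not_le.1 hle)]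
    exact Phi_sum hs hh h1 h2 M n1 n2

/-- sums of reciprocals over pairs with a common factor -/
lemma sum_ncop {r M N Q : ℕ} {ℓ : ℝ} (P : Par r M N Q ℓ) (T : Finset ℕ) (G : ℕ)
    (hT : ∀ t ∈ T, 0 < t ∧ t ≤ Q)
    (hG0 : 0 < G) (hG : ∀ t ∈ T, ∀ p : ℕ, p.Prime → p ∣ t → G < p) :
    ∑ t1 ∈ T, ∑ t2 ∈ T, ind (¬ t1.Coprime t2) * (1 / ((t1 : ℝ) * t2)) ≤ ℓ ^ 2 * (G : ℝ)⁻¹ := by
  classical
  have hℓ : 0 < ℓ := lt_of_lt_of_le one_pos P.l1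
  have h1 : ∀ t1 ∈ T, ∀ t2 ∈ T, ind (¬ t1.Coprime t2) * (1 / ((t1 : ℝ) * t2)) ≤
      ∑ p ∈ (Ioc G Q).filter Nat.Prime, (ind (p ∣ t1) * (1 / (t1 : ℝ))) * (ind (p ∣ t2) * (1 / (t2 : ℝ))) := by
    intro t1 ht1 t2 ht2
    have hnn : ∀ p ∈ (Ioc G Q).filter Nat.Prime,
        0 ≤ (ind (p ∣ t1) * (1 / (t1 : ℝ))) * (ind (p ∣ t2) * (1 / (t2 : ℝ))) := fun p _ =>
      mul_nonneg (mul_nonneg (ind_nonneg _) (by positivity)) (mul_nonneg (ind_nonneg _) (by positivity))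
    by_cases e3 : t1.Coprime t2
    · rw [ind_false (not_not.2 e3), zero_mul]
      exact sum_nonneg hnn
    · obtain ⟨p, hp, a1, a2⟩ := Nat.Prime.not_coprime_iff_dvd.1 e3
      have hmem : p ∈ (Ioc G Q).filter Nat.Prime := by
        rw [mem_filter, mem_Ioc]
        exact ⟨⟨hG t1 ht1 p hp a1, (Nat.le_of_dvd (hT t2 ht2).1 a2).trans (hT t2 ht2).2⟩, hp⟩
      refine le_trans (le_of_eq ?_) (single_le_sum hnn hmem)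
      rw [ind_true e3, ind_true a1, ind_true a2, one_mul, one_mul, one_mul, one_div_mul_one_div]
  refine (sum_le_sum fun t1 ht1 => sum_le_sum fun t2 ht2 => h1 t1 ht1 t2 ht2).trans ?_
  have e : ∑ t1 ∈ T, ∑ t2 ∈ T, ∑ p ∈ (Ioc G Q).filter Nat.Prime,
      (ind (p ∣ t1) * (1 / (t1 : ℝ))) * (ind (p ∣ t2) * (1 / (t2 : ℝ))) =
      ∑ p ∈ (Ioc G Q).filter Nat.Prime, (∑ t ∈ T, ind (p ∣ t) * (1 / (t : ℝ))) ^ 2 := by
    have : ∀ p ∈ (Ioc G Q).filter Nat.Prime, (∑ t ∈ T, ind (p ∣ t) * (1 / (t : ℝ))) ^ 2 =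
        ∑ t1 ∈ T, ∑ t2 ∈ T, (ind (p ∣ t1) * (1 / (t1 : ℝ))) * (ind (p ∣ t2) * (1 / (t2 : ℝ))) := by
      intro p _
      rw [pow_two, sum_mul_sum]
    rw [sum_congr rfl this]
    symm
    rw [sum_comm]
    refine sum_congr rfl fun t1 _ => ?_
    rw [sum_comm]
  rw [e]
  have h2 : ∀ p ∈ (Ioc G Q).filter Nat.Prime, (∑ t ∈ T, ind (p ∣ t) * (1 / (t : ℝ))) ^ 2 ≤
      ℓ ^ 2 * ((p : ℝ) ^ 2)⁻¹ := by
    intro p hp
    rw [mem_filter] at hp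
    have hpp : (0 : ℝ) < p := by exact_mod_cast hp.2.pos
    have e2 : ∑ t ∈ T, ind (p ∣ t) * (1 / (t : ℝ)) = ∑ t ∈ T.filter (fun t => p ∣ t), (1 / (t : ℝ)) := by
      rw [sum_filter]
      refine sum_congr rfl fun t _ => ?_
      by_cases h : p ∣ t
      · rw [ind_true h, one_mul, if_pos h]
      · rw [ind_false h, zero_mul, if_neg h]
    rw [e2]
    have h3 := sum_mult p Q hp.2.pos (T.filter (fun t => p ∣ t)) (fun t ht => by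
      rw [mem_filter] at ht
      exact ⟨(hT t ht.1).1, (hT t ht.1).2, ht.2⟩)
    have h4 : ∑ t ∈ T.filter (fun t => p ∣ t), (1 / (t : ℝ)) ≤ ℓ / p :=
      h3.trans (div_le_div_of_nonneg_right P.lQ hpp.le)
    calc (∑ t ∈ T.filter (fun t => p ∣ t), (1 / (t : ℝ))) ^ 2 ≤ (ℓ / p) ^ 2 :=
          pow_le_pow_left₀ (sum_nonneg fun _ _ => by positivity) h4 2
      _ = _ := by rw [div_pow, div_eq_mul_inv]
  refine (sum_le_sum h2).trans ?_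
  rw [← mul_sum]
  apply mul_le_mul_of_nonneg_left _ (by positivity)
  refine (sum_le_sum_of_subset_of_nonneg (filter_subset _ _) (fun _ _ _ => by positivity)).trans ?_
  by_cases hGQ : G ≤ Q
  · refine (sum_Ioc_inv_sq_le_sub hG0.ne' hGQ).trans ?_
    have : (0 : ℝ) ≤ (Q : ℝ)⁻¹ := by positivity
    linarith
  · rw [Ioc_eq_empty (by omega), sum_empty]
    positivity

/-- pairs with a large common factor -/
lemma sum_big (T : Finset ℕ) (Q G1 : ℕ) (hG1 : 0 < G1) (hT : ∀ t ∈ T, 0 < t ∧ t ≤ Q) :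
    ∑ t1 ∈ T, ∑ t2 ∈ T, ind (G1 < Nat.gcd t1 t2) * (1 / (Nat.gcd t1 t2 : ℝ)) ≤ (Q : ℝ) ^ 2 / (G1 : ℝ) ^ 2 ∧
    ∑ t1 ∈ T, ∑ t2 ∈ T, ind (G1 < Nat.gcd t1 t2) ≤ (Q : ℝ) ^ 2 / G1 := by
  classical
  have hG1r : (0 : ℝ) < G1 := by exact_mod_cast hG1
  -- general bound
  have key : ∀ f : ℕ → ℝ, (∀ g, 0 ≤ f g) → ∑ t1 ∈ T, ∑ t2 ∈ T, ind (G1 < Nat.gcd t1 t2) * f (Nat.gcd t1 t2) ≤
      ∑ g ∈ Ioc G1 Q, f g * ((Q : ℝ) / g) ^ 2 := by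
    intro f hf
    have h1 : ∀ t1 ∈ T, ∀ t2 ∈ T, ind (G1 < Nat.gcd t1 t2) * f (Nat.gcd t1 t2) ≤
        ∑ g ∈ Ioc G1 Q, f g * (ind (g ∣ t1) * ind (g ∣ t2)) := by
      intro t1 ht1 t2 ht2
      have hnn : ∀ g ∈ Ioc G1 Q, 0 ≤ f g * (ind (g ∣ t1) * ind (g ∣ t2)) := fun g _ =>
        mul_nonneg (hf g) (mul_nonneg (ind_nonneg _) (ind_nonneg _))
      by_cases hg : G1 < Nat.gcd t1 t2
      · have hmem : Nat.gcd t1 t2 ∈ Ioc G1 Q := by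
          rw [mem_Ioc]
          exact ⟨hg, (Nat.le_of_dvd (hT t1 ht1).1 (Nat.gcd_dvd_left _ _)).trans (hT t1 ht1).2⟩
        refine le_trans (le_of_eq ?_) (single_le_sum hnn hmem)
        rw [ind_true hg, ind_true (Nat.gcd_dvd_left _ _), ind_true (Nat.gcd_dvd_right _ _)]
        ring
      · rw [ind_false hg, zero_mul]
        exact sum_nonneg hnn
    refine (sum_le_sum fun t1 ht1 => sum_le_sum fun t2 ht2 => h1 t1 ht1 t2 ht2).trans ?_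
    have e : ∑ t1 ∈ T, ∑ t2 ∈ T, ∑ g ∈ Ioc G1 Q, f g * (ind (g ∣ t1) * ind (g ∣ t2)) =
        ∑ g ∈ Ioc G1 Q, f g * (∑ t ∈ T, ind (g ∣ t)) ^ 2 := by
      have : ∀ g ∈ Ioc G1 Q, f g * (∑ t ∈ T, ind (g ∣ t)) ^ 2 =
          ∑ t1 ∈ T, ∑ t2 ∈ T, f g * (ind (g ∣ t1) * ind (g ∣ t2)) := by
        intro g _
        rw [pow_two, sum_mul_sum, mul_sum]
        refine sum_congr rfl fun t1 _ => ?_
        rw [mul_sum]
      rw [sum_congr rfl this]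
      symm
      rw [sum_comm]
      refine sum_congr rfl fun t1 _ => ?_
      rw [sum_comm]
    rw [e]
    refine sum_le_sum fun g hg => ?_
    rw [mem_Ioc] at hg
    have hg0 : 0 < g := by omega
    apply mul_le_mul_of_nonneg_left _ (hf g)
    have e2 : ∑ t ∈ T, ind (g ∣ t) = ((T.filter (fun t => g ∣ t)).card : ℝ) := by
      rw [← sum_boole]
      refine sum_congr rfl fun t _ => ?_
      unfold ind
      by_cases h : g ∣ t <;> simp [h]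
    rw [e2]
    apply pow_le_pow_left₀ (Nat.cast_nonneg _)
    exact card_mult g Q hg0 _ (fun t ht => by
      rw [mem_filter] at ht
      exact ⟨(hT t ht.1).1, (hT t ht.1).2, ht.2⟩)
  have hsq : ∑ g ∈ Ioc G1 Q, ((g : ℝ) ^ 2)⁻¹ ≤ (G1 : ℝ)⁻¹ := by
    by_cases hGQ : G1 ≤ Q
    · refine (sum_Ioc_inv_sq_le_sub hG1.ne' hGQ).trans ?_
      have : (0 : ℝ) ≤ (Q : ℝ)⁻¹ := by positivity
      linarith
    · rw [Ioc_eq_empty (by omega), sum_empty]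
      positivity
  constructor
  · refine (key (fun g => 1 / (g : ℝ)) (fun g => by positivity)).trans ?_
    have h2 : ∀ g ∈ Ioc G1 Q, 1 / (g : ℝ) * ((Q : ℝ) / g) ^ 2 ≤ ((Q : ℝ) ^ 2 / G1) * ((g : ℝ) ^ 2)⁻¹ := by
      intro g hg
      rw [mem_Ioc] at hg
      have hgr : (0 : ℝ) < g := by exact_mod_cast (by omega : 0 < g)
      have h3 : (G1 : ℝ) ≤ g := by exact_mod_cast hg.1.le
      calc 1 / (g : ℝ) * ((Q : ℝ) / g) ^ 2 = ((Q : ℝ) ^ 2 * ((g : ℝ) ^ 2)⁻¹) * (1 / (g : ℝ)) := by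
            field_simp
        _ ≤ ((Q : ℝ) ^ 2 * ((g : ℝ) ^ 2)⁻¹) * (1 / (G1 : ℝ)) := by
            apply mul_le_mul_of_nonneg_left _ (by positivity)
            exact one_div_le_one_div_of_le hG1r h3
        _ = _ := by ring
    refine (sum_le_sum h2).trans ?_
    rw [← mul_sum]
    calc ((Q : ℝ) ^ 2 / G1) * ∑ g ∈ Ioc G1 Q, ((g : ℝ) ^ 2)⁻¹ ≤ ((Q : ℝ) ^ 2 / G1) * (G1 : ℝ)⁻¹ :=
          mul_le_mul_of_nonneg_left hsq (by positivity)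
      _ = _ := by field_simp
  · have h1 := key (fun _ => 1) (fun _ => zero_le_one)
    simp only [mul_one, one_mul] at h1
    refine h1.trans ?_
    have e : ∑ g ∈ Ioc G1 Q, ((Q : ℝ) / g) ^ 2 = (Q : ℝ) ^ 2 * ∑ g ∈ Ioc G1 Q, ((g : ℝ) ^ 2)⁻¹ := by
      rw [mul_sum]
      refine sum_congr rfl fun g _ => ?_
      rw [div_pow, div_eq_mul_inv]
    rw [e, div_eq_mul_inv]
    exact mul_le_mul_of_nonneg_left hsq (by positivity)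

/-- the remaining part is small -/
lemma Jr_sum {r M N Q G G1 : ℕ} {ℓ Λ : ℝ} (P : Par r M N Q ℓ) (h : ℤ) (c : ℕ → ℤ) (hh : IsCoprime h (r : ℤ))
    (T : Finset ℕ) (κ β : ℕ → ℝ) (hT : ∀ t ∈ T, 0 < t ∧ t ≤ Q) (hsf : ∀ t ∈ T, Squarefree (r * t))
    (hc : ∀ t ∈ T, IsCoprime (c t) (t : ℤ))
    (hG0 : 0 < G) (hG : ∀ t ∈ T, ∀ p : ℕ, p.Prime → p ∣ t → G < p) (hG1 : 0 < G1) (hΛ : 0 < Λ)
    (hQ1 : (r : ℝ) * (Q : ℝ) ^ 2 * Λ ≤ (G1 : ℝ) ^ 2 * M) (hG1N : G1 ≤ N)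
    (hrG : (r : ℝ) * G ≤ N) (hκ : ∀ t, |κ t| ≤ 1) (hβ : ∀ n ∈ Ioc N (2 * N), |β n| ≤ ℓ) :
    |∑ t1 ∈ T, ∑ t2 ∈ T, (ind (¬ t1.Coprime t2) * (κ t1 * κ t2)) * ∑ n1 ∈ Ioc N (2 * N), ∑ n2 ∈ Ioc N (2 * N),
    ind (n1 ≠ n2 ∧ n1 ≡ n2 [MOD r]) * (β n1 * β n2 * Jr G1 M r t1 t2 h (c t1) (c t2) n1 n2)| ≤
      4 * ℓ ^ 4 * (M * (N : ℝ) ^ 2 / (r : ℝ) ^ 2) / G + 4 * ℓ ^ 2 * Λ⁻¹ * (M * (N : ℝ) ^ 2 / (r : ℝ) ^ 2) := by
  classical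
  have hr : (0 : ℝ) < r := by exact_mod_cast P.r0
  have hr1 : (1 : ℝ) ≤ r := by exact_mod_cast P.r0
  have hℓ : 0 < ℓ := lt_of_lt_of_le one_pos P.l1
  have hGr : (0 : ℝ) < G := by exact_mod_cast hG0
  have hG1r : (0 : ℝ) < G1 := by exact_mod_cast hG1
  have hN0 : (0 : ℝ) < N := by exact_mod_cast P.N0
  have hM0 : (0 : ℝ) < M := by exact_mod_cast P.M0
  have hst : ∀ t ∈ T, r.Coprime t ∧ Squarefree r ∧ Squarefree t := fun t ht => Nat.squarefree_mul_iff.1 (hsf t ht)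
  have hlcm : ∀ t1 ∈ T, ∀ t2 ∈ T, Squarefree (r * Nat.lcm t1 t2) := by
    intro t1 ht1 t2 ht2
    rw [Nat.squarefree_mul_iff]
    refine ⟨?_, (hst t1 ht1).2.1, ?_⟩
    · exact Nat.Coprime.coprime_dvd_right (Nat.lcm_dvd_mul _ _)
        (Nat.Coprime.mul_right (hst t1 ht1).1 (hst t2 ht2).1)
    · rw [Nat.squarefree_iff_prime_squarefree]
      intro p hp hd
      have hne1 := (hT t1 ht1).1.ne'
      have hne2 := (hT t2 ht2).1.ne'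
      have h2 : 2 ≤ (Nat.lcm t1 t2).factorization p := by
        rw [← hp.pow_dvd_iff_le_factorization (Nat.lcm_ne_zero hne1 hne2), pow_two]
        exact hd
      rw [Nat.factorization_lcm hne1 hne2, Finsupp.sup_apply] at h2
      have h3 := (Nat.squarefree_iff_factorization_le_one hne1).1 (hst t1 ht1).2.2 p
      have h4 := (Nat.squarefree_iff_factorization_le_one hne2).1 (hst t2 ht2).2.2 p
      have h5 : t1.factorization p ⊔ t2.factorization p ≤ 1 := sup_le h3 h4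
      omega
  -- one pair
  have h1 : ∀ t1 ∈ T, ∀ t2 ∈ T, |(ind (¬ t1.Coprime t2) * (κ t1 * κ t2)) * ∑ n1 ∈ Ioc N (2 * N), ∑ n2 ∈ Ioc N (2 * N),
    ind (n1 ≠ n2 ∧ n1 ≡ n2 [MOD r]) * (β n1 * β n2 * Jr G1 M r t1 t2 h (c t1) (c t2) n1 n2)| ≤
      2 * ℓ ^ 2 * (M / (r : ℝ) ^ 2) * ((N : ℝ) ^ 2 * (ind (¬ t1.Coprime t2) * (1 / ((t1 : ℝ) * t2))) +
        N * (1 / (Nat.lcm t1 t2 : ℝ))) +
      2 * ℓ ^ 2 * (1 / r) * ((N : ℝ) ^ 2 * (ind (G1 < Nat.gcd t1 t2) * (1 / (Nat.gcd t1 t2 : ℝ))) +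
        N * ind (G1 < Nat.gcd t1 t2)) := by
    intro t1 ht1 t2 ht2
    set L := Nat.lcm t1 t2 with hL
    set g := Nat.gcd t1 t2 with hg
    have hL0 : 0 < L := Nat.lcm_pos (hT t1 ht1).1 (hT t2 ht2).1
    have hg0 : 0 < g := Nat.gcd_pos_of_pos_left _ (hT t1 ht1).1
    have hLr : (0 : ℝ) < L := by exact_mod_cast hL0
    have hgr : (0 : ℝ) < g := by exact_mod_cast hg0
    have hgL : (g : ℝ) * L = t1 * t2 := by
      rw [hg, hL]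
      exact_mod_cast Nat.gcd_mul_lcm t1 t2
    have hgt1 : g ∣ t1 := Nat.gcd_dvd_left _ _
    have hbig := ind_nonneg (G1 < g)
    rw [abs_mul, abs_mul, abs_of_nonneg (ind_nonneg _)]
    have d1 : |κ t1 * κ t2| ≤ 1 := by
      rw [abs_mul]
      exact mul_le_one₀ (hκ _) (abs_nonneg _) (hκ _)
    have d2 : |∑ n1 ∈ Ioc N (2 * N), ∑ n2 ∈ Ioc N (2 * N),
      ind (n1 ≠ n2 ∧ n1 ≡ n2 [MOD r]) * (β n1 * β n2 * Jr G1 M r t1 t2 h (c t1) (c t2) n1 n2)| ≤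
      ℓ ^ 2 * ((M / ((r * L : ℕ) : ℝ) + ind (G1 < g)) * (2 * ((N : ℝ) ^ 2 / (r * g) + N / r))) := by
      refine (abs_sum_le_sum_abs _ _).trans ?_
      have h3 : ∀ n1 ∈ Ioc N (2 * N), |∑ n2 ∈ Ioc N (2 * N),
          ind (n1 ≠ n2 ∧ n1 ≡ n2 [MOD r]) * (β n1 * β n2 * Jr G1 M r t1 t2 h (c t1) (c t2) n1 n2)| ≤
          ∑ n2 ∈ Ioc N (2 * N), (ℓ ^ 2 * (M / ((r * L : ℕ) : ℝ) + ind (G1 < g))) *
            (ind (n1 ≠ n2 ∧ n1 ≡ n2 [MOD r]) * ind ((g : ℤ) ∣ (c t1) * n2 - (c t2) * n1)) := by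
        intro n1 hn1
        refine (abs_sum_le_sum_abs _ _).trans (sum_le_sum fun n2 hn2 => ?_)
        have hJ := Jr_le (hlcm t1 ht1 t2 ht2) hh (hc t1 ht1) (hc t2 ht2) G1 M n1 n2
        rw [← hL, ← hg] at hJ
        rw [abs_mul, abs_of_nonneg (ind_nonneg _), abs_mul, abs_mul, abs_of_nonneg hJ.1]
        have d2 : |β n1| * |β n2| ≤ ℓ * ℓ := mul_le_mul (hβ _ hn1) (hβ _ hn2) (abs_nonneg _) hℓ.le
        have d3 := ind_nonneg (n1 ≠ n2 ∧ n1 ≡ n2 [MOD r])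
        calc ind (n1 ≠ n2 ∧ n1 ≡ n2 [MOD r]) * (|β n1| * |β n2| * Jr G1 M r t1 t2 h (c t1) (c t2) n1 n2)
            ≤ ind (n1 ≠ n2 ∧ n1 ≡ n2 [MOD r]) * (ℓ * ℓ * ((M / ((r * L : ℕ) : ℝ) + ind (G1 < g)) *
              ind ((g : ℤ) ∣ (c t1) * n2 - (c t2) * n1))) := by
              apply mul_le_mul_of_nonneg_left _ d3
              exact mul_le_mul d2 hJ.2 hJ.1 (by positivity)
          _ = _ := by ring
      refine (sum_le_sum h3).trans ?_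
      simp only [← mul_sum]
      have h4 := cnt_pairs N r g P.r0 ((hst t1 ht1).2.2.squarefree_of_dvd hgt1)
        ((hst t1 ht1).1.coprime_dvd_right hgt1) (c t1) (c t2)
        ((hc t1 ht1).of_isCoprime_of_dvd_right (Int.natCast_dvd_natCast.2 hgt1))
      calc _ ≤ (ℓ ^ 2 * (M / ((r * L : ℕ) : ℝ) + ind (G1 < g))) * (2 * ((N : ℝ) ^ 2 / (r * g) + N / r)) :=
            mul_le_mul_of_nonneg_left h4 (by positivity)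
        _ = _ := by ring
    have hi := ind_nonneg (¬ t1.Coprime t2)
    have hi1 := ind_le_one (¬ t1.Coprime t2)
    have e5 : ℓ ^ 2 * ((M / ((r * L : ℕ) : ℝ) + ind (G1 < g)) * (2 * ((N : ℝ) ^ 2 / (r * g) + N / r))) =
        2 * ℓ ^ 2 * (M / (r : ℝ) ^ 2) * ((N : ℝ) ^ 2 * (1 / ((t1 : ℝ) * t2)) + N * (1 / (L : ℝ))) +
        2 * ℓ ^ 2 * (1 / r) * ((N : ℝ) ^ 2 * (ind (G1 < g) * (1 / (g : ℝ))) + N * ind (G1 < g)) := by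
      rw [← hgL]
      push_cast
      field_simp
    have h6 : ind (¬ t1.Coprime t2) * (N * (1 / (L : ℝ))) ≤ N * (1 / (L : ℝ)) :=
      mul_le_of_le_one_left (by positivity) hi1
    have h7 : ind (¬ t1.Coprime t2) * (2 * ℓ ^ 2 * (1 / r) * ((N : ℝ) ^ 2 * (ind (G1 < g) * (1 / (g : ℝ))) +
        N * ind (G1 < g))) ≤ 2 * ℓ ^ 2 * (1 / r) * ((N : ℝ) ^ 2 * (ind (G1 < g) * (1 / (g : ℝ))) +
        N * ind (G1 < g)) := mul_le_of_le_one_left (by positivity) hi1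
    calc ind (¬ t1.Coprime t2) * |κ t1 * κ t2| * _ ≤ ind (¬ t1.Coprime t2) * 1 *
          (ℓ ^ 2 * ((M / ((r * L : ℕ) : ℝ) + ind (G1 < g)) * (2 * ((N : ℝ) ^ 2 / (r * g) + N / r)))) := by
          apply mul_le_mul _ d2 (abs_nonneg _) (by positivity)
          exact mul_le_mul_of_nonneg_left d1 hi
      _ = 2 * ℓ ^ 2 * (M / (r : ℝ) ^ 2) * ((N : ℝ) ^ 2 * (ind (¬ t1.Coprime t2) * (1 / ((t1 : ℝ) * t2))) +
            ind (¬ t1.Coprime t2) * (N * (1 / (L : ℝ)))) +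
          ind (¬ t1.Coprime t2) * (2 * ℓ ^ 2 * (1 / r) * ((N : ℝ) ^ 2 * (ind (G1 < g) * (1 / (g : ℝ))) +
            N * ind (G1 < g))) := by
          rw [e5]; ring
      _ ≤ _ := by
          apply add_le_add _ h7
          gcongr
  refine (abs_sum_le_sum_abs _ _).trans ?_
  refine (sum_le_sum fun t1 ht1 => (abs_sum_le_sum_abs _ _).trans (sum_le_sum fun t2 ht2 => h1 t1 ht1 t2 ht2)).trans ?_
  simp only [← mul_sum, sum_add_distrib]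
  have h2 := sum_ncop P T G hT hG0 hG
  have h3 := sum_lcm T 1 Q ℓ one_pos (fun t ht => ⟨(hT t ht).1, (hT t ht).2, one_dvd _⟩) P.t2 P.hl
  rw [Nat.cast_one, div_one] at h3
  obtain ⟨h4, h5⟩ := sum_big T Q G1 hG1 hT
  have hNG : (N : ℝ) ≤ (N : ℝ) ^ 2 * (G : ℝ)⁻¹ := by
    rw [← div_eq_mul_inv, le_div_iff₀ hGr]
    have : (G : ℝ) ≤ N := (le_mul_of_one_le_left hGr.le hr1).trans hrG
    nlinarith
  have hG1Nr : (G1 : ℝ) ≤ N := by exact_mod_cast hG1N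
  have hQ2 : (Q : ℝ) ^ 2 / (G1 : ℝ) ^ 2 ≤ M / r * Λ⁻¹ := by
    rw [div_le_iff₀ (by positivity)]
    have e : (M : ℝ) / r * Λ⁻¹ * (G1 : ℝ) ^ 2 = ((G1 : ℝ) ^ 2 * M) / (r * Λ) := by
      field_simp
    rw [e, le_div_iff₀ (by positivity)]
    calc (Q : ℝ) ^ 2 * (r * Λ) = r * (Q : ℝ) ^ 2 * Λ := by ring
      _ ≤ _ := hQ1
  have hQ3 : (Q : ℝ) ^ 2 / G1 ≤ N * (M / r * Λ⁻¹) := by
    calc (Q : ℝ) ^ 2 / G1 = G1 * ((Q : ℝ) ^ 2 / (G1 : ℝ) ^ 2) := by field_simp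
      _ ≤ N * (M / r * Λ⁻¹) := by gcongr
  calc 2 * ℓ ^ 2 * (M / (r : ℝ) ^ 2) * ((N : ℝ) ^ 2 * ∑ t1 ∈ T, ∑ t2 ∈ T, ind (¬ t1.Coprime t2) * (1 / ((t1 : ℝ) * t2)) +
        N * ∑ t1 ∈ T, ∑ t2 ∈ T, (1 / (Nat.lcm t1 t2 : ℝ))) +
        2 * ℓ ^ 2 * (1 / r) * ((N : ℝ) ^ 2 * ∑ t1 ∈ T, ∑ t2 ∈ T, ind (G1 < Nat.gcd t1 t2) * (1 / (Nat.gcd t1 t2 : ℝ)) +
        N * ∑ t1 ∈ T, ∑ t2 ∈ T, ind (G1 < Nat.gcd t1 t2))
      ≤ 2 * ℓ ^ 2 * (M / (r : ℝ) ^ 2) * ((N : ℝ) ^ 2 * (ℓ ^ 2 * (G : ℝ)⁻¹) + ((N : ℝ) ^ 2 * (G : ℝ)⁻¹) * ℓ ^ 2) +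
        2 * ℓ ^ 2 * (1 / r) * ((N : ℝ) ^ 2 * (M / r * Λ⁻¹) + N * (N * (M / r * Λ⁻¹))) := by
        have h4' := h4.trans hQ2
        have h5' := h5.trans hQ3
        gcongr
    _ = _ := by
        field_simp
        ring

/-- the second moment and its main part -/
theorem trivc {r M N Q G G1 : ℕ} {ℓ Λ : ℝ} (P : Par r M N Q ℓ) (h : ℤ) (c : ℕ → ℤ) (hh : IsCoprime h (r : ℤ))
    (T : Finset ℕ) (κ β : ℕ → ℝ) (hT : ∀ t ∈ T, 0 < t ∧ t ≤ Q) (hsf : ∀ t ∈ T, Squarefree (r * t))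
    (hc : ∀ t ∈ T, IsCoprime (c t) (t : ℤ))
    (hG0 : 0 < G) (hG : ∀ t ∈ T, ∀ p : ℕ, p.Prime → p ∣ t → G < p) (hG1 : 0 < G1) (hΛ : 0 < Λ)
    (hQ1 : (r : ℝ) * (Q : ℝ) ^ 2 * Λ ≤ (G1 : ℝ) ^ 2 * M) (hG1N : G1 ≤ N)
    (hrG : (r : ℝ) * G ≤ N) (hκ : ∀ t, |κ t| ≤ 1) (hβ : ∀ n ∈ Ioc N (2 * N), |β n| ≤ ℓ) :
    |SStc r M N h c T κ β - Sofc r M N h c T κ β| ≤
      39 * ℓ ^ 7 * (M * (N : ℝ) ^ 2 / (r : ℝ) ^ 2) / G + 4 * ℓ ^ 2 * Λ⁻¹ * (M * (N : ℝ) ^ 2 / (r : ℝ) ^ 2) +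
        ∑ g ∈ Ioc 1 G1, |EG r M N h c T κ β g| := by
  have hGr : (0 : ℝ) < G := by exact_mod_cast hG0
  have h1 := diffc2 P h c hh T κ β hT (fun t ht => (Nat.squarefree_mul_iff.1 (hsf t ht)).1) hG0 hG hrG hκ hβ
  have h2 := Jr_sum P h c hh T κ β hT hsf hc hG0 hG hG1 hΛ hQ1 hG1N hrG hκ hβ
  rw [Cc_split G1 r M N h c T κ β (fun t ht => (hT t ht).1)] at h1
  have h3 := abs_sum_le_sum_abs (fun g => EG r M N h c T κ β g) (Ioc 1 G1)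
  have h4 : 4 * ℓ ^ 4 * (M * (N : ℝ) ^ 2 / (r : ℝ) ^ 2) / G ≤ 4 * ℓ ^ 7 * (M * (N : ℝ) ^ 2 / (r : ℝ) ^ 2) / G := by
    have : ℓ ^ 4 ≤ ℓ ^ 7 := pow_le_pow_right₀ P.l1 (by norm_num)
    gcongr
  have e : 39 * ℓ ^ 7 * (M * (N : ℝ) ^ 2 / (r : ℝ) ^ 2) / G = 35 * ℓ ^ 7 * (M * (N : ℝ) ^ 2 / (r : ℝ) ^ 2) / G +
      4 * ℓ ^ 7 * (M * (N : ℝ) ^ 2 / (r : ℝ) ^ 2) / G := by ring
  rw [e]
  have a1 := abs_le.1 h1
  have a2 := abs_le.1 h2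
  have a3 := abs_le.1 h3
  rw [abs_le]
  constructor
  · linarith [a1.1, a2.1, a3.1]
  · linarith [a1.2, a2.2, a3.2]

end Pool.Agent.Helper91K1.T
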