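import Mathlib
import Pool.Agent.R503.N.BlkA
import Pool.Agent.R503.N.ParA
import Pool.Agent.Helper91K1.T.TrG3
import Pool.Agent.Helper91K1.T.OffG

/-! The second moment with classes depending on the modulus: the dispersion bounds. -/

set_option autoImplicit false

open Finset

namespace Pool.Agent.Helper91K1.T

open Pool.Agent.Y826.Z Pool.Agent.Y826.Z.OB Pool.Agent.R503.N

lemma Dr_coh (u w : ℕ) (cu c x : ℤ) (huw : u.Coprime w) (hcu : (u : ℤ) ∣ c - cu) :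
    Dr u w cu c x = Dc (u * w) c x := by
  rw [← Dr_same u w c x huw]
  have h : (cu : ZMod u) = (c : ZMod u) := ((zmod_iff u cu c).2 hcu).symm
  unfold Dr
  rw [h]

/-- the coefficients -/
noncomputable def kr (T : Finset ℕ) (E : ℕ → ℕ × ℕ) (V : ℕ → ℕ) (ρ : ℕ × ℕ → ℕ → ℕ) (κ : ℕ → ℝ)
    (o : ℕ × ℕ) (w : Tp) : ℝ :=
  ind (ρ o (Pr w) ∈ T ∧ E (ρ o (Pr w)) = o ∧ V (ρ o (Pr w)) = Pr w) * κ (ρ o (Pr w))

lemma kr_ne {T : Finset ℕ} {E : ℕ → ℕ × ℕ} {V : ℕ → ℕ} {ρ : ℕ × ℕ → ℕ → ℕ} {κ : ℕ → ℝ}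
    {o : ℕ × ℕ} {w : Tp} (h : kr T E V ρ κ o w ≠ 0) :
    ρ o (Pr w) ∈ T ∧ E (ρ o (Pr w)) = o ∧ V (ρ o (Pr w)) = Pr w := by
  by_contra hcon
  apply h
  unfold kr
  rw [ind_false hcon, zero_mul]

lemma kr_abs (T : Finset ℕ) (E : ℕ → ℕ × ℕ) (V : ℕ → ℕ) (ρ : ℕ × ℕ → ℕ → ℕ) (κ : ℕ → ℝ)
    (hκ : ∀ t, |κ t| ≤ 1) (o : ℕ × ℕ) (w : Tp) : |kr T E V ρ κ o w| ≤ 1 := by
  unfold kr
  rw [abs_mul, abs_of_nonneg (ind_nonneg _)]
  exact mul_le_one₀ (ind_le_one _) (abs_nonneg _) (hκ _)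

lemma sum_kr (T : Finset ℕ) (E : ℕ → ℕ × ℕ) (V : ℕ → ℕ) (ρ : ℕ × ℕ → ℕ → ℕ) (κ : ℕ → ℝ)
    (hρ : ∀ t ∈ T, ρ (E t) (V t) = t) (F : ℕ × ℕ → Tp → ℝ) :
    ∑ o ∈ T.image E, ∑ w ∈ T.image (fun t => tp (V t)), kr T E V ρ κ o w * F o w =
      ∑ t ∈ T, κ t * F (E t) (tp (V t)) := by
  classical
  rw [← sum_product' (T.image E) (T.image (fun t => tp (V t))) (fun o w => kr T E V ρ κ o w * F o w)]
  symm
  have h1 : ∑ t ∈ T, κ t * F (E t) (tp (V t)) =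
      ∑ x ∈ T.image (fun t => (E t, tp (V t))), kr T E V ρ κ x.1 x.2 * F x.1 x.2 := by
    rw [sum_image]
    · refine sum_congr rfl fun t ht => ?_
      have h2 : ρ (E t) (Pr (tp (V t))) = t := by rw [Pr_tp]; exact hρ t ht
      simp only [kr]
      rw [h2, ind_true ⟨ht, rfl, (Pr_tp _).symm⟩, one_mul]
    · intro a ha b hb hab
      simp only [Prod.mk.injEq] at hab
      have h3 : V a = V b := by
        have := congrArg Pr hab.2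
        rwa [Pr_tp, Pr_tp] at this
      rw [← hρ a ha, ← hρ b hb, hab.1, h3]
  rw [h1]
  apply sum_subset
  · intro x hx
    rw [mem_image] at hx
    obtain ⟨t, ht, rfl⟩ := hx
    rw [mem_product]
    exact ⟨mem_image_of_mem _ ht, mem_image_of_mem _ ht⟩
  · intro x _ hx
    have h4 : kr T E V ρ κ x.1 x.2 = 0 := by
      by_contra h5
      obtain ⟨a1, a2, a3⟩ := kr_ne h5
      apply hx
      rw [mem_image]
      refine ⟨_, a1, ?_⟩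
      rw [a2, a3, tp_Pr]
    rw [h4, zero_mul]

/-- the coprime pairs -/
lemma Soff_eq_Sofc (r M N : ℕ) (h : ℤ) (c : ℕ → ℤ) (co : ℕ × ℕ → ℤ) (T : Finset ℕ) (e u v : ℕ → ℕ) (κ β : ℕ → ℝ)
    (hdec : ∀ t ∈ T, e t * u t * v t = t) (hsf : ∀ t ∈ T, Squarefree t)
    (hco : ∀ t ∈ T, ((u t : ℕ) : ℤ) ∣ c t - co (e t, u t)) :
    Soff 1 r M N h (T.image (fun t => (e t, u t))) (T.image (fun t => tp (v t))) (kq T e u v κ)
      co (fun o w => c (o.1 * o.2 * Pr w)) β = Sofc r M N h c T κ β := by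
  classical
  set SO := T.image (fun t => (e t, u t)) with hSO
  set SV := T.image (fun t => tp (v t)) with hSV
  set dv : ℕ × ℕ → Tp → ℤ := fun o w => c (o.1 * o.2 * Pr w) with hdv
  set Φ : ℕ × ℕ → ℕ × ℕ → Tp → Tp → ℝ := fun o1 o2 v1 v2 =>
    ind ((o1.1 * o1.2 * Pr v1).Coprime (o2.1 * o2.2 * Pr v2)) *
    ∑ n1 ∈ Ioc N (2 * N), ∑ n2 ∈ Ioc N (2 * N), ind (n1 ≠ n2 ∧ n1 ≡ n2 [MOD (1 * r)]) *
      (β n1 * β n2 * inn 1 r M h co dv o1 o2 v1 v2 n1 n2) with hΦ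
  have e1 : Soff 1 r M N h SO SV (kq T e u v κ) co dv β =
      ∑ o1 ∈ SO, ∑ v1 ∈ SV, kq T e u v κ o1 v1 * ∑ o2 ∈ SO, ∑ v2 ∈ SV, kq T e u v κ o2 v2 *
        Φ o1 o2 v1 v2 := by
    unfold Pool.Agent.R503.N.Soff
    refine sum_congr rfl fun o1 _ => ?_
    rw [sum_comm]
    refine sum_congr rfl fun v1 _ => ?_
    rw [mul_sum]
    refine sum_congr rfl fun o2 _ => ?_
    rw [mul_sum]
    refine sum_congr rfl fun v2 _ => ?_
    rw [hΦ]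
    simp only [Pool.Agent.R503.N.kap]
    ring
  rw [e1, sum_dec T e u v κ hdec (fun o1 v1 => ∑ o2 ∈ SO, ∑ v2 ∈ SV, kq T e u v κ o2 v2 * Φ o1 o2 v1 v2)]
  unfold Sofc
  refine sum_congr rfl fun t1 ht1 => ?_
  rw [sum_dec T e u v κ hdec (fun o2 v2 => Φ (e t1, u t1) o2 (tp (v t1)) v2), mul_sum]
  refine sum_congr rfl fun t2 ht2 => ?_
  rw [hΦ]
  simp only [Pr_tp, hdec t1 ht1, hdec t2 ht2, one_mul]
  have hD : ∀ t ∈ T, ∀ x : ℤ, Dr (u t) (e t * v t) (co (e t, u t)) (c t) x = Dc t (c t) x := by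
    intro t ht x
    have h1 : t = u t * (e t * v t) := by
      calc t = e t * u t * v t := (hdec t ht).symm
        _ = _ := by ring
    have h2 := hsf t ht
    rw [h1, Nat.squarefree_mul_iff] at h2
    rw [Dr_coh _ _ _ _ _ h2.1 (hco t ht), ← h1]
  have hin : ∀ n1 n2, inn 1 r M h co dv (e t1, u t1) (e t2, u t2) (tp (v t1)) (tp (v t2))
      n1 n2 = ∑ m ∈ Ioc M (2 * M), Pl r h (m * n1) *
      Dc t1 (c t1) ((m * n1 : ℕ) : ℤ) * Dc t2 (c t2) ((m * n2 : ℕ) : ℤ) := by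
    intro n1 n2
    unfold inn
    refine sum_congr rfl fun m _ => ?_
    simp only [hdv, Pr_tp]
    rw [hdec t1 ht1, hdec t2 ht2, hD t1 ht1, hD t2 ht2, propext (Lr_one r h _)]
    rfl
  simp only [hin]
  ring

lemma ind3 {a b d : ℕ} (h1 : a.Coprime b) (h2 : (a * b).Coprime d) (x : ℤ) :
    ind ((a : ℤ) ∣ x) * ind ((b : ℤ) ∣ x) * ind ((d : ℤ) ∣ x) = ind (((a * b * d : ℕ) : ℤ) ∣ x) := by
  rw [ind_mul, ind_mul]
  congr 1
  rw [eq_iff_iff]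
  push_cast
  constructor
  · rintro ⟨⟨h3, h4⟩, h5⟩
    refine IsCoprime.mul_dvd ?_ ((Nat.isCoprime_iff_coprime.2 h1).mul_dvd h3 h4) h5
    have := Nat.isCoprime_iff_coprime.2 h2
    push_cast at this
    exact this
  · intro h3
    exact ⟨⟨(Dvd.intro _ (mul_assoc _ _ _).symm).trans h3, ((Dvd.intro_left _ rfl).trans (Dvd.intro _ rfl)).trans h3⟩,
      (Dvd.intro_left _ rfl).trans h3⟩

/-- the two forms of the indicator -/
lemma Fr_Phi (g r u1 u2 w1 w2 : ℕ) (h k1 k2 c1 c2 : ℤ) (n1 n2 m : ℕ)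
    (hs1 : Squarefree (u1 * g * w1)) (hs2 : Squarefree (u2 * g * w2))
    (h1 : (u1 : ℤ) ∣ c1 - k1) (h2 : (u2 : ℤ) ∣ c2 - k2) :
    Fr g r u1 u2 w1 w2 h k1 k2 c1 c2 c1 c2 n1 n2 m = Phi r (u1 * g * w1) (u2 * g * w2) h c1 c2 n1 n2 m := by
  unfold Fr Phi Pl
  have a1 := Nat.squarefree_mul_iff.1 hs1
  have a2 := Nat.squarefree_mul_iff.1 a1.2.1
  have b1 := Nat.squarefree_mul_iff.1 hs2
  have b2 := Nat.squarefree_mul_iff.1 b1.2.1
  rw [← ind3 a2.1 a1.1, ← ind3 b2.1 b1.1]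
  have e1 : ((u1 : ℤ) ∣ ((m * n1 : ℕ) : ℤ) - k1) = ((u1 : ℤ) ∣ ((m * n1 : ℕ) : ℤ) - c1) := by
    rw [eq_iff_iff]
    have : ((m * n1 : ℕ) : ℤ) - k1 = (((m * n1 : ℕ) : ℤ) - c1) + (c1 - k1) := by ring
    rw [this]
    exact (dvd_add_left h1)
  have e2 : ((u2 : ℤ) ∣ ((m * n2 : ℕ) : ℤ) - k2) = ((u2 : ℤ) ∣ ((m * n2 : ℕ) : ℤ) - c2) := by
    rw [eq_iff_iff]
    have : ((m * n2 : ℕ) : ℤ) - k2 = (((m * n2 : ℕ) : ℤ) - c2) + (c2 - k2) := by ring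
    rw [this]
    exact (dvd_add_left h2)
  rw [e1, e2]
  ring

lemma sqf_lcm {r t1 t2 : ℕ} (h1 : Squarefree (r * t1)) (h2 : Squarefree (r * t2)) :
    Squarefree (r * Nat.lcm t1 t2) := by
  have a1 := Nat.squarefree_mul_iff.1 h1
  have a2 := Nat.squarefree_mul_iff.1 h2
  have hne1 := a1.2.2.ne_zero
  have hne2 := a2.2.2.ne_zero
  rw [Nat.squarefree_mul_iff]
  refine ⟨?_, a1.2.1, ?_⟩
  · exact Nat.Coprime.coprime_dvd_right (Nat.lcm_dvd_mul _ _) (Nat.Coprime.mul_right a1.1 a2.1)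
  · rw [Nat.squarefree_iff_prime_squarefree]
    intro p hp hd
    have h2 : 2 ≤ (Nat.lcm t1 t2).factorization p := by
      rw [← hp.pow_dvd_iff_le_factorization (Nat.lcm_ne_zero hne1 hne2), pow_two]
      exact hd
    rw [Nat.factorization_lcm hne1 hne2, Finsupp.sup_apply] at h2
    have h3 := (Nat.squarefree_iff_factorization_le_one hne1).1 a1.2.2 p
    have h4 := (Nat.squarefree_iff_factorization_le_one hne2).1 a2.2.2 p
    have h5 : t1.factorization p ⊔ t2.factorization p ≤ 1 := sup_le h3 h4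
    omega

lemma gcd_self_dvd {t1 t2 g : ℕ} (h : Nat.gcd t1 t2 = g) : g ∣ t1 ∧ g ∣ t2 := by
  rw [← h]
  exact ⟨Nat.gcd_dvd_left _ _, Nat.gcd_dvd_right _ _⟩

/-- the factors of the greatest common divisor -/
lemma gcd_dec {g e u v t : ℕ} (hdec : e * u * v = t) (ht : Squarefree t) (hg : g ∣ t) :
    Nat.gcd e g * Nat.gcd u g * Nat.gcd v g = g := by
  have hs := ht
  rw [← hdec] at hs
  have a1 := Nat.squarefree_mul_iff.1 hs
  have a2 := Nat.squarefree_mul_iff.1 a1.2.1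
  have hgt : Nat.gcd g (e * u * v) = g := by
    rw [hdec]
    exact Nat.gcd_eq_left hg
  rw [Nat.Coprime.gcd_mul g a1.1, Nat.Coprime.gcd_mul g a2.1, Nat.gcd_comm g e, Nat.gcd_comm g u,
    Nat.gcd_comm g v] at hgt
  exact hgt

section
variable (r M N : ℕ) (h : ℤ) (c : ℕ → ℤ) (co : ℕ × ℕ → ℤ) (T : Finset ℕ) (e u v : ℕ → ℕ) (κ β : ℕ → ℝ)
  (g ge gu gv : ℕ)

/-- reconstruction of the modulus -/
def rho (o : ℕ × ℕ) (n : ℕ) : ℕ := o.2 * g * (o.1 * n)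

/-- the weights -/
noncomputable def kgg (T' : Finset ℕ) (o1 o2 : ℕ × ℕ) (w1 w2 : Tp) : ℝ :=
  ind (Nat.gcd (rho g o1 (Pr w1)) (rho g o2 (Pr w2)) = g) *
    (kr T' (fun t => (e t / ge, u t / gu)) (fun t => v t / gv) (rho g) κ o1 w1 *
      kr T' (fun t => (e t / ge, u t / gu)) (fun t => v t / gv) (rho g) κ o2 w2)

lemma EG_eq (hdec : ∀ t ∈ T, e t * u t * v t = t) (hsf : ∀ t ∈ T, Squarefree (r * t))
    (hco : ∀ t ∈ T, ((u t : ℕ) : ℤ) ∣ c t - co (e t, u t)) (hgg : ge * gu * gv = g)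
    (hd : ∀ t ∈ T, g ∣ t → ge ∣ e t ∧ gu ∣ u t ∧ gv ∣ v t) :
    EG r M N h c T κ β g =
      SoffG g r M N h ((T.filter (fun t => g ∣ t)).image (fun t => (e t / ge, u t / gu)))
        ((T.filter (fun t => g ∣ t)).image (fun t => tp (v t / gv)))
        Prod.fst Prod.snd
        (kgg e u v κ g ge gu gv (T.filter (fun t => g ∣ t))) (fun o => co (ge * o.1, gu * o.2))
          (fun o w => c (rho g o (Pr w))) (fun o w => c (rho g o (Pr w))) β := by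
  classical
  set Tg := T.filter (fun t => g ∣ t) with hTg
  set E : ℕ → ℕ × ℕ := fun t => (e t / ge, u t / gu) with hE
  set V : ℕ → ℕ := fun t => v t / gv with hV
  set SO := Tg.image E with hSO
  set SV := Tg.image (fun t => tp (V t)) with hSV
  set γ : ℕ × ℕ → Tp → ℤ := fun o w => c (rho g o (Pr w)) with hγ
  set co2 : ℕ × ℕ → ℤ := fun o => co (ge * o.1, gu * o.2) with hco2
  set K := kr Tg E V (rho g) κ with hK
  set Φ : ℕ × ℕ → ℕ × ℕ → Tp → Tp → ℝ := fun o1 o2 v1 v2 =>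
    ind (Nat.gcd (rho g o1 (Pr v1)) (rho g o2 (Pr v2)) = g) *
    ∑ n1 ∈ Ioc N (2 * N), ∑ n2 ∈ Ioc N (2 * N), ind (n1 ≠ n2 ∧ n1 ≡ n2 [MOD r]) *
      (β n1 * β n2 * enn g r M h Prod.fst Prod.snd co2 γ γ o1 o2 v1 v2 n1 n2) with hΦ
  have e1 : SoffG g r M N h SO SV Prod.fst Prod.snd (kgg e u v κ g ge gu gv Tg) co2 γ γ β =
      ∑ o1 ∈ SO, ∑ v1 ∈ SV, K o1 v1 * ∑ o2 ∈ SO, ∑ v2 ∈ SV, K o2 v2 * Φ o1 o2 v1 v2 := by
    unfold SoffG
    refine sum_congr rfl fun o1 _ => ?_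
    rw [sum_comm]
    refine sum_congr rfl fun v1 _ => ?_
    rw [mul_sum]
    refine sum_congr rfl fun o2 _ => ?_
    rw [mul_sum]
    refine sum_congr rfl fun v2 _ => ?_
    rw [hΦ]
    simp only [kgg]
    ring
  have hmem : ∀ t ∈ Tg, t ∈ T ∧ g ∣ t := fun t ht => mem_filter.1 ht
  have hst : ∀ t ∈ T, Squarefree t := fun t ht => (Nat.squarefree_mul_iff.1 (hsf t ht)).2.2
  have hcan : ∀ t ∈ Tg, ge * (e t / ge) = e t ∧ gu * (u t / gu) = u t ∧ gv * (v t / gv) = v t := by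
    intro t ht
    obtain ⟨h1, h2⟩ := hmem t ht
    obtain ⟨d1, d2, d3⟩ := hd t h1 h2
    exact ⟨Nat.mul_div_cancel' d1, Nat.mul_div_cancel' d2, Nat.mul_div_cancel' d3⟩
  have hρ : ∀ t ∈ Tg, rho g (E t) (V t) = t := by
    intro t ht
    obtain ⟨h1, h2⟩ := hmem t ht
    obtain ⟨c1, c2, c3⟩ := hcan t ht
    calc rho g (E t) (V t) = (u t / gu) * (ge * gu * gv) * ((e t / ge) * (v t / gv)) := by rw [hgg]; rfl
      _ = (ge * (e t / ge)) * (gu * (u t / gu)) * (gv * (v t / gv)) := by ring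
      _ = e t * u t * v t := by rw [c1, c2, c3]
      _ = t := hdec t h1
  rw [e1, sum_kr Tg E V (rho g) κ hρ (fun o1 v1 => ∑ o2 ∈ SO, ∑ v2 ∈ SV, K o2 v2 * Φ o1 o2 v1 v2)]
  have e2 : ∀ t1, ∑ o2 ∈ SO, ∑ v2 ∈ SV, K o2 v2 * Φ (E t1) o2 (tp (V t1)) v2 =
      ∑ t2 ∈ Tg, κ t2 * Φ (E t1) (E t2) (tp (V t1)) (tp (V t2)) := fun t1 =>
    sum_kr Tg E V (rho g) κ hρ (fun o2 v2 => Φ (E t1) o2 (tp (V t1)) v2)
  simp only [e2]
  -- restriction to multiples of `g`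
  have e3 : EG r M N h c T κ β g = ∑ t1 ∈ Tg, ∑ t2 ∈ Tg, (ind (Nat.gcd t1 t2 = g) * (κ t1 * κ t2)) *
      ∑ n1 ∈ Ioc N (2 * N), ∑ n2 ∈ Ioc N (2 * N),
      ind (n1 ≠ n2 ∧ n1 ≡ n2 [MOD r]) * (β n1 * β n2 * EnP M r t1 t2 h (c t1) (c t2) n1 n2) := by
    unfold EG
    symm
    rw [hTg]
    rw [sum_filter_of_ne]
    · refine sum_congr rfl fun t1 ht1 => ?_
      rw [sum_filter_of_ne]
      intro t2 ht2 hne
      by_contra hcon
      apply hne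
      rw [ind_false (fun hh => hcon (gcd_self_dvd hh).2), zero_mul, zero_mul]
    · intro t1 ht1 hne
      by_contra hcon
      apply hne
      refine sum_eq_zero fun t2 _ => ?_
      rw [ind_false (fun hh => hcon (gcd_self_dvd hh).1), zero_mul, zero_mul]
  rw [e3]
  refine sum_congr rfl fun t1 ht1 => ?_
  rw [mul_sum]
  refine sum_congr rfl fun t2 ht2 => ?_
  obtain ⟨ht1T, hg1⟩ := hmem t1 ht1
  obtain ⟨ht2T, hg2⟩ := hmem t2 ht2
  rw [hΦ]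
  simp only [Pr_tp, hρ t1 ht1, hρ t2 ht2]
  by_cases hgcd : Nat.gcd t1 t2 = g
  swap
  · rw [ind_false hgcd]
    ring
  rw [ind_true hgcd]
  have hen : ∀ n1 n2, enn g r M h Prod.fst Prod.snd co2 γ γ (E t1) (E t2) (tp (V t1)) (tp (V t2)) n1 n2 =
      EnP M r t1 t2 h (c t1) (c t2) n1 n2 := by
    intro n1 n2
    have f1 : (E t1).2 * g * ((E t1).1 * V t1) = t1 := hρ t1 ht1
    have f2 : (E t2).2 * g * ((E t2).1 * V t2) = t2 := hρ t2 ht2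
    have s1 := hst t1 ht1T
    have s2 := hst t2 ht2T
    have j1 : co2 (E t1) = co (e t1, u t1) := by
      rw [hco2, hE]
      simp only
      rw [(hcan t1 ht1).1, (hcan t1 ht1).2.1]
    have j2 : co2 (E t2) = co (e t2, u t2) := by
      rw [hco2, hE]
      simp only
      rw [(hcan t2 ht2).1, (hcan t2 ht2).2.1]
    have k1 : (((E t1).2 : ℕ) : ℤ) ∣ c t1 - co2 (E t1) := by
      rw [j1]
      exact (Int.natCast_dvd_natCast.2 (Nat.div_dvd_of_dvd (hd t1 ht1T hg1).2.1)).trans (hco t1 ht1T)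
    have k2 : (((E t2).2 : ℕ) : ℤ) ∣ c t2 - co2 (E t2) := by
      rw [j2]
      exact (Int.natCast_dvd_natCast.2 (Nat.div_dvd_of_dvd (hd t2 ht2T hg2).2.1)).trans (hco t2 ht2T)
    have hFr : ∀ m, Fr g r ((E t1).2) ((E t2).2) ((E t1).1 * V t1) ((E t2).1 * V t2) h (co2 (E t1))
        (co2 (E t2)) (c t1) (c t2) (c t1) (c t2) n1 n2 m = Phi r t1 t2 h (c t1) (c t2) n1 n2 m := by
      intro m
      rw [Fr_Phi g r _ _ _ _ h (co2 (E t1)) (co2 (E t2)) (c t1) (c t2) n1 n2 m (by rw [f1]; exact s1)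
        (by rw [f2]; exact s2) k1 k2, f1, f2]
    have hq : g * r * (E t1).2 * (E t2).2 * ((E t1).1 * V t1) * ((E t2).1 * V t2) =
        r * Nat.lcm t1 t2 := by
      have hg0 : 0 < g := by
        rw [← hgcd]
        exact Nat.gcd_pos_of_pos_left _ (Nat.pos_of_ne_zero s1.ne_zero)
      apply Nat.eq_of_mul_eq_mul_left hg0
      calc g * (g * r * (E t1).2 * (E t2).2 * ((E t1).1 * V t1) * ((E t2).1 * V t2))
          = r * (((E t1).2 * g * ((E t1).1 * V t1)) * ((E t2).2 * g * ((E t2).1 * V t2))) := by ring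
        _ = r * (t1 * t2) := by rw [f1, f2]
        _ = r * (Nat.gcd t1 t2 * Nat.lcm t1 t2) := by rw [Nat.gcd_mul_lcm]
        _ = g * (r * Nat.lcm t1 t2) := by rw [hgcd]; ring
    unfold enn En EnP
    simp only [hγ, Pr_tp, hρ t1 ht1, hρ t2 ht2]
    rw [hq]
    simp only [hFr]
  simp only [hen]
  ring

end

/-- all the parameters -/
structure EnvY (X Λ ℓ C : ℝ) : Prop where
  E : EnvX X Λ ℓ C
  hoa : ∀ (g r M N : ℕ) (h : ℤ) (SV : Finset Tp) (β : ℕ → ℝ), 0 < N → (N : ℝ) ≤ X ^ 3 → (M : ℝ) ≤ X ^ 3 →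
    IsCoprime h (r : ℤ) → OAG g r M N h (X ^ 3) C Λ SV β

/-- the error terms of the pairs with the greatest common divisor `g` -/
theorem EG_le {X Λ ℓ C : ℝ} (EE : EnvY X Λ ℓ C) (G1 r M N : ℕ) (h : ℤ) (c : ℕ → ℤ)
    (co : ℕ × ℕ → ℤ) (T : Finset ℕ) (e u v : ℕ → ℕ)
    (W U V : ℝ) (κ β : ℕ → ℝ) (hM : 0 < M) (hN : 0 < N) (hMN : (M : ℝ) * N ≤ 16 * X) (hr : 0 < r)
    (hW : 0 < W) (hU : 0 < U) (hV : 0 < V) (hdec : ∀ t ∈ T, e t * u t * v t = t)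
    (hsf : ∀ t ∈ T, Squarefree (r * t)) (hc : IsCoprime h (r : ℤ)) (hct : ∀ t ∈ T, IsCoprime (c t) (t : ℤ))
    (hco : ∀ t ∈ T, ((u t : ℕ) : ℤ) ∣ c t - co (e t, u t))
    (we : ∀ t ∈ T, W / Λ ≤ e t ∧ (e t : ℝ) ≤ W * Λ) (wu : ∀ t ∈ T, U / Λ ≤ u t ∧ (u t : ℝ) ≤ U * Λ)
    (wv : ∀ t ∈ T, V / Λ ≤ v t ∧ (v t : ℝ) ≤ V * Λ) (hG1 : 0 < G1)
    (l1 : r * W ^ 2 * U ^ 2 * V ^ 2 ≤ (G1 : ℝ) ^ 2 * M)
    (l2 : (G1 : ℝ) * r * W ^ 2 * U ^ 2 * Λ ^ 1000 ≤ M) (l3 : W ^ 2 * V ^ 4 * (G1 : ℝ) ^ 9 * Λ ^ 1000 ≤ N)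
    (l4 : r * U ^ 2 * (G1 : ℝ) ^ 16 * Λ ^ 1000 ≤ (N : ℝ) ^ 2) (l5 : (G1 : ℝ) ^ 18 * Λ ^ 1000 ≤ r * U ^ 2)
    (hκ : ∀ t, |κ t| ≤ 1) (hβ : ∀ n ∈ Ioc N (2 * N), |β n| ≤ ℓ) (g : ℕ) (hg0 : 0 < g) (hg : g ≤ G1)
    (hcol : ∀ t1 ∈ T, ∀ t2 ∈ T, g ∣ t1 → g ∣ t2 →
      Nat.gcd (e t1) g = Nat.gcd (e t2) g ∧ Nat.gcd (u t1) g = Nat.gcd (u t2) g ∧
      Nat.gcd (v t1) g = Nat.gcd (v t2) g) :
    |EG r M N h c T κ β g| ≤ Λ⁻¹ * (M * (N : ℝ) ^ 2 / (g * (r : ℝ) ^ 2)) := by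
  classical
  have E := EE.E
  have hX := E.hX
  have hΛ4 := E.hΛ
  have hΛ0 : 0 < Λ := by linarith
  have hΛ1 : 1 ≤ Λ := by linarith
  have hMr : (0 : ℝ) < M := by exact_mod_cast hM
  have hNr : (0 : ℝ) < N := by exact_mod_cast hN
  have hrr : (0 : ℝ) < r := by exact_mod_cast hr
  have hM1 : (1 : ℝ) ≤ M := by exact_mod_cast hM
  have hN1 : (1 : ℝ) ≤ N := by exact_mod_cast hN
  have hgr : (0 : ℝ) < g := by exact_mod_cast hg0
  have hG1r : (1 : ℝ) ≤ G1 := by exact_mod_cast hG1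
  have hG10 : (0 : ℝ) < G1 := by linarith
  have hgG : (g : ℝ) ≤ G1 := by exact_mod_cast hg
  have hN3 : (N : ℝ) ≤ X ^ 3 := by
    have : (N : ℝ) ≤ M * N := le_mul_of_one_le_left hNr.le hM1
    nlinarith [sq_nonneg X]
  have hM3 : (M : ℝ) ≤ X ^ 3 := by
    have : (M : ℝ) ≤ M * N := le_mul_of_one_le_right hMr.le hN1
    nlinarith [sq_nonneg X]
  have hT0 : ∀ t ∈ T, 0 < t := fun t ht =>
    Nat.pos_of_ne_zero (fun h0 => by
      have := (hsf t ht).ne_zero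
      rw [h0, mul_zero] at this
      exact this rfl)
  have hpos : ∀ t ∈ T, 0 < e t ∧ 0 < u t ∧ 0 < v t := by
    intro t ht
    have h1 := hdec t ht
    have h2 := hT0 t ht
    refine ⟨Nat.pos_of_ne_zero fun h0 => ?_, Nat.pos_of_ne_zero fun h0 => ?_, Nat.pos_of_ne_zero fun h0 => ?_⟩
    · rw [h0] at h1; simp at h1; omega
    · rw [h0] at h1; simp at h1; omega
    · rw [h0] at h1; simp at h1; omega
  set Tg := T.filter (fun t => g ∣ t) with hTg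
  have hmem : ∀ t ∈ Tg, t ∈ T := fun t ht => (mem_filter.1 ht).1
  by_cases hne : Tg.Nonempty
  swap
  · have h0 : EG r M N h c T κ β g = 0 := by
      unfold EG
      refine sum_eq_zero fun t1 ht1 => sum_eq_zero fun t2 _ => ?_
      rw [ind_false, zero_mul, zero_mul]
      intro hh
      exact hne ⟨t1, mem_filter.2 ⟨ht1, (gcd_self_dvd hh).1⟩⟩
    rw [h0, abs_zero]
    positivity
  obtain ⟨t0, ht0⟩ := hne
  have ht0T := hmem t0 ht0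
  have hgt0 : g ∣ t0 := (mem_filter.1 ht0).2
  set ge := Nat.gcd (e t0) g with hge
  set gu := Nat.gcd (u t0) g with hgu
  set gv := Nat.gcd (v t0) g with hgv
  have hge0 : 0 < ge := Nat.gcd_pos_of_pos_right _ hg0
  have hgu0 : 0 < gu := Nat.gcd_pos_of_pos_right _ hg0
  have hgv0 : 0 < gv := Nat.gcd_pos_of_pos_right _ hg0
  have hgg : ge * gu * gv = g := gcd_dec (hdec t0 ht0T) (Nat.squarefree_mul_iff.1 (hsf t0 ht0T)).2.2 hgt0
  have hd : ∀ t ∈ T, g ∣ t → ge ∣ e t ∧ gu ∣ u t ∧ gv ∣ v t := by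
    intro t ht hgt
    obtain ⟨a1, a2, a3⟩ := hcol t0 ht0T t ht hgt0 hgt
    rw [hge, hgu, hgv, a1, a2, a3]
    exact ⟨Nat.gcd_dvd_left _ _, Nat.gcd_dvd_left _ _, Nat.gcd_dvd_left _ _⟩
  rw [EG_eq r M N h c co T e u v κ β g ge gu gv hdec hsf hco hgg hd]
  rw [← hTg]
  have er : (1 : ℝ) ≤ ge := by exact_mod_cast hge0
  have ur : (1 : ℝ) ≤ gu := by exact_mod_cast hgu0
  have vr : (1 : ℝ) ≤ gv := by exact_mod_cast hgv0
  have er0 : (0 : ℝ) < ge := by linarith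
  have ur0 : (0 : ℝ) < gu := by linarith
  have vr0 : (0 : ℝ) < gv := by linarith
  have hgu1 : (gu : ℝ) ≤ G1 := by
    have : gu ≤ g := Nat.le_of_dvd hg0 (Nat.gcd_dvd_right _ _)
    exact_mod_cast this.trans hg
  have hW' : W / ge ≤ W := div_le_self hW.le er
  have hU' : U / gu ≤ U := div_le_self hU.le ur
  have hV' : V / gv ≤ V := div_le_self hV.le vr
  have hW0 : 0 < W / ge := by positivity
  have hU0 : 0 < U / gu := by positivity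
  have hV0 : 0 < V / gv := by positivity
  have s2 : (g : ℝ) * r * (W / ge) ^ 2 * (U / gu) ^ 2 * Λ ^ 1000 ≤ M := by
    calc (g : ℝ) * r * (W / ge) ^ 2 * (U / gu) ^ 2 * Λ ^ 1000 ≤ (G1 : ℝ) * r * W ^ 2 * U ^ 2 * Λ ^ 1000 := by gcongr
      _ ≤ (M : ℝ) := l2
  have s3 : (g : ℝ) * (W / ge) ^ 2 * (V / gv) ^ 4 * ((G1 : ℝ) ^ 2) ^ 4 * Λ ^ 1000 ≤ N := by
    calc (g : ℝ) * (W / ge) ^ 2 * (V / gv) ^ 4 * ((G1 : ℝ) ^ 2) ^ 4 * Λ ^ 1000 ≤
          (G1 : ℝ) * W ^ 2 * V ^ 4 * ((G1 : ℝ) ^ 2) ^ 4 * Λ ^ 1000 := by gcongr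
      _ = W ^ 2 * V ^ 4 * (G1 : ℝ) ^ 9 * Λ ^ 1000 := by ring
      _ ≤ N := l3
  have s4 : r * (U / gu) ^ 2 * ((G1 : ℝ) ^ 2) ^ 8 * Λ ^ 1000 ≤ (N : ℝ) ^ 2 := by
    calc r * (U / gu) ^ 2 * ((G1 : ℝ) ^ 2) ^ 8 * Λ ^ 1000 ≤ r * U ^ 2 * ((G1 : ℝ) ^ 2) ^ 8 * Λ ^ 1000 := by gcongr
      _ = r * U ^ 2 * (G1 : ℝ) ^ 16 * Λ ^ 1000 := by ring
      _ ≤ _ := l4
  have s5 : ((G1 : ℝ) ^ 2) ^ 8 * Λ ^ 1000 ≤ r * (U / gu) ^ 2 := by
    rw [div_pow, mul_div_assoc', le_div_iff₀ (by positivity)]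
    calc ((G1 : ℝ) ^ 2) ^ 8 * Λ ^ 1000 * (gu : ℝ) ^ 2 ≤ ((G1 : ℝ) ^ 2) ^ 8 * Λ ^ 1000 * (G1 : ℝ) ^ 2 := by gcongr
      _ = (G1 : ℝ) ^ 18 * Λ ^ 1000 := by ring
      _ ≤ _ := l5
  have hcan : ∀ (A : ℝ) (n d : ℕ), 0 < d → d ∣ n → A / Λ ≤ n ∧ (n : ℝ) ≤ A * Λ →
      A / d / Λ ≤ ((n / d : ℕ) : ℝ) ∧ ((n / d : ℕ) : ℝ) ≤ A / d * Λ := by
    intro A n d hd0 hdn hw
    have hdr : (0 : ℝ) < d := by exact_mod_cast hd0
    rw [Nat.cast_div hdn hdr.ne']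
    constructor
    · rw [div_right_comm]
      exact div_le_div_of_nonneg_right hw.1 hdr.le
    · rw [div_mul_eq_mul_div]
      exact div_le_div_of_nonneg_right hw.2 hdr.le
  have hwd : ∀ t ∈ Tg, ge ∣ e t ∧ gu ∣ u t ∧ gv ∣ v t := fun t ht => hd t (hmem t ht) (mem_filter.1 ht).2
  apply off_g g r M N h _ _ _ _ _ _ _ _ β Λ X C (W / ge) (U / gu) (V / gv) ((G1 : ℝ) ^ 2) hX hΛ4 E.hΛX E.hC1 E.hCΛ
    E.hI E.t2 hMN hM hN hg0 hr hW0 hU0 hV0 (one_le_pow₀ hG1r)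
  · -- hH
    rw [div_le_iff₀ hMr]
    have e1 : (g : ℝ) * r * (W / ge) ^ 2 * (U / gu) ^ 2 * (V / gv) ^ 2 = (r * W ^ 2 * U ^ 2 * V ^ 2) / g := by
      have e2 : (g : ℝ) = ge * gu * gv := by
        rw [← hgg]
        push_cast
        ring
      rw [e2]
      field_simp
    rw [e1, div_le_iff₀ hgr]
    have hg1 : (1 : ℝ) ≤ g := by exact_mod_cast hg0
    calc r * W ^ 2 * U ^ 2 * V ^ 2 ≤ (G1 : ℝ) ^ 2 * M := l1
      _ ≤ (G1 : ℝ) ^ 2 * M * g := le_mul_of_one_le_right (by positivity) hg1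
  · exact s2
  · exact s3
  · exact s4
  · exact s5
  · intro o1 o2 w1 w2
    unfold kgg
    rw [abs_mul, abs_of_nonneg (ind_nonneg _), abs_mul]
    have k1 := kr_abs Tg (fun t => (e t / ge, u t / gu)) (fun t => v t / gv) (rho g) κ hκ o1 w1
    have k2 := kr_abs Tg (fun t => (e t / ge, u t / gu)) (fun t => v t / gv) (rho g) κ hκ o2 w2
    exact mul_le_one₀ (ind_le_one _) (by positivity) (mul_le_one₀ k1 (abs_nonneg _) k2)
  · -- the arithmetic conditions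
    intro o1 o2 w1 w2 hk
    have hgcd : Nat.gcd (rho g o1 (Pr w1)) (rho g o2 (Pr w2)) = g := by
      by_contra hcon
      apply hk
      unfold kgg
      rw [ind_false hcon, zero_mul]
    have hk1 : kr Tg (fun t => (e t / ge, u t / gu)) (fun t => v t / gv) (rho g) κ o1 w1 ≠ 0 := by
      intro h0
      apply hk
      unfold kgg
      rw [h0, zero_mul, mul_zero]
    have hk2 : kr Tg (fun t => (e t / ge, u t / gu)) (fun t => v t / gv) (rho g) κ o2 w2 ≠ 0 := by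
      intro h0
      apply hk
      unfold kgg
      rw [h0, mul_zero, mul_zero]
    obtain ⟨a1, a2, -⟩ := kr_ne hk1
    obtain ⟨b1, b2, -⟩ := kr_ne hk2
    set t1 := rho g o1 (Pr w1) with ht1
    set t2 := rho g o2 (Pr w2) with ht2
    have a1T := hmem _ a1
    have b1T := hmem _ b1
    have f1 : o1.2 * g * (o1.1 * Pr w1) = t1 := ht1.symm
    have f2 : o2.2 * g * (o2.1 * Pr w2) = t2 := ht2.symm
    have c1 := hct _ a1T
    have c2 := hct _ b1T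
    have hcu : ∀ t ∈ Tg, ∀ o : ℕ × ℕ, (e t / ge, u t / gu) = o →
        IsCoprime (co (ge * o.1, gu * o.2)) ((o.2 : ℕ) : ℤ) := by
      intro t ht o ho
      have htT := hmem t ht
      obtain ⟨d1, d2, d3⟩ := hwd t ht
      have h1 : IsCoprime (c t) ((u t : ℕ) : ℤ) := (hct t htT).of_isCoprime_of_dvd_right
        (Int.natCast_dvd_natCast.2 ⟨e t * v t, by
          calc t = e t * u t * v t := (hdec t htT).symm
            _ = _ := by ring⟩)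
      obtain ⟨k, hk⟩ := hco t htT
      have h2 : co (e t, u t) = c t + ((u t : ℕ) : ℤ) * (-k) := by linarith
      have h3 : IsCoprime (co (e t, u t)) ((u t : ℕ) : ℤ) := by
        rw [h2]
        exact IsCoprime.add_mul_left_left h1 _
      rw [← ho]
      simp only
      rw [Nat.mul_div_cancel' d1, Nat.mul_div_cancel' d2]
      exact h3.of_isCoprime_of_dvd_right (Int.natCast_dvd_natCast.2 (Nat.div_dvd_of_dvd d2))
    refine ⟨?_, hcu t1 a1 o1 a2, hcu t2 b1 o2 b2, ?_, ?_, ?_⟩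
    · have hq : g * r * o1.2 * o2.2 * (o1.1 * Pr w1) * (o2.1 * Pr w2) = r * Nat.lcm t1 t2 := by
        apply Nat.eq_of_mul_eq_mul_left hg0
        calc g * (g * r * o1.2 * o2.2 * (o1.1 * Pr w1) * (o2.1 * Pr w2))
            = r * ((o1.2 * g * (o1.1 * Pr w1)) * (o2.2 * g * (o2.1 * Pr w2))) := by ring
          _ = r * (t1 * t2) := by rw [f1, f2]
          _ = r * (Nat.gcd t1 t2 * Nat.lcm t1 t2) := by rw [Nat.gcd_mul_lcm]
          _ = g * (r * Nat.lcm t1 t2) := by rw [hgcd]; ring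
      rw [hq]
      exact sqf_lcm (hsf t1 a1T) (hsf t2 b1T)
    · exact c1.of_isCoprime_of_dvd_right (Int.natCast_dvd_natCast.2 (gcd_self_dvd hgcd).1)
    · exact c1.of_isCoprime_of_dvd_right (Int.natCast_dvd_natCast.2 ⟨o1.2 * g, by
        rw [← f1]; ring⟩)
    · exact c2.of_isCoprime_of_dvd_right (Int.natCast_dvd_natCast.2 ⟨o2.2 * g, by
        rw [← f2]; ring⟩)
  · intro o ho
    rw [mem_image] at ho
    obtain ⟨t, ht, rfl⟩ := ho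
    exact Nat.div_pos (Nat.le_of_dvd (hpos t (hmem t ht)).1 (hwd t ht).1) hge0
  · intro o ho
    rw [mem_image] at ho
    obtain ⟨t, ht, rfl⟩ := ho
    exact Nat.div_pos (Nat.le_of_dvd (hpos t (hmem t ht)).2.1 (hwd t ht).2.1) hgu0
  · intro o _
    exact le_rfl
  · intro o _
    exact dvd_rfl
  · intro o ho
    rw [mem_image] at ho
    obtain ⟨t, ht, rfl⟩ := ho
    exact (hcan W (e t) ge hge0 (hwd t ht).1 (we t (hmem t ht))).2
  · intro o ho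
    rw [mem_image] at ho
    obtain ⟨t, ht, rfl⟩ := ho
    exact (hcan W (e t) ge hge0 (hwd t ht).1 (we t (hmem t ht))).1
  · intro o ho
    rw [mem_image] at ho
    obtain ⟨t, ht, rfl⟩ := ho
    exact (hcan U (u t) gu hgu0 (hwd t ht).2.1 (wu t (hmem t ht))).2
  · intro o ho
    rw [mem_image] at ho
    obtain ⟨t, ht, rfl⟩ := ho
    exact (hcan U (u t) gu hgu0 (hwd t ht).2.1 (wu t (hmem t ht))).1
  · intro w hw
    rw [mem_image] at hw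
    obtain ⟨t, ht, rfl⟩ := hw
    rw [Pr_tp]
    exact (hcan V (v t) gv hgv0 (hwd t ht).2.2 (wv t (hmem t ht))).2
  · intro w hw
    rw [mem_image] at hw
    obtain ⟨t, ht, rfl⟩ := hw
    rw [Pr_tp]
    exact (hcan V (v t) gv hgv0 (hwd t ht).2.2 (wv t (hmem t ht))).1
  · intro n hn
    exact (hβ n hn).trans E.hℓΛ
  · exact EE.hoa g r M N h _ β hN hN3 hM3 hc

end Pool.Agent.Helper91K1.T
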