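import Mathlib
import Pool.Agent.Helper91K1.T.TrG4

/-! Colourings of the primes. -/

set_option autoImplicit false

open Finset

namespace Pool.Agent.Helper91K1.T

open Pool.Agent.Y826.Z Pool.Agent.Y826.Z.OB Pool.Agent.R503.N

/-- a factorisation compatible with a colouring -/
def Col (χ : ℕ → Fin 3) (e u v : ℕ) : Prop :=
  ∀ p : ℕ, p.Prime → (p ∣ e → χ p = 0) ∧ (p ∣ u → χ p = 1) ∧ (p ∣ v → χ p = 2)

lemma sqf_dvd_nat {a b : ℕ} (ha : Squarefree a) (h : ∀ p : ℕ, p.Prime → p ∣ a → p ∣ b) : a ∣ b := by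
  have := dvd_of_primes a ha (b : ℤ) (fun p hp hd => Int.natCast_dvd_natCast.2 (h p hp hd))
  exact Int.natCast_dvd_natCast.1 this

lemma col_gcd {χ : ℕ → Fin 3} {g e1 u1 v1 t1 e2 u2 v2 t2 : ℕ} (h1 : e1 * u1 * v1 = t1) (h2 : e2 * u2 * v2 = t2)
    (s1 : Squarefree t1) (c1 : Col χ e1 u1 v1) (c2 : Col χ e2 u2 v2)
    (g2 : g ∣ t2) : Nat.gcd e1 g ∣ Nat.gcd e2 g ∧ Nat.gcd u1 g ∣ Nat.gcd u2 g ∧
      Nat.gcd v1 g ∣ Nat.gcd v2 g := by
  have hd : e1 ∣ t1 ∧ u1 ∣ t1 ∧ v1 ∣ t1 := by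
    refine ⟨⟨u1 * v1, ?_⟩, ⟨e1 * v1, ?_⟩, ⟨e1 * u1, ?_⟩⟩ <;> rw [← h1] <;> ring
  have key : ∀ p : ℕ, p.Prime → p ∣ g → p ∣ e2 ∨ p ∣ u2 ∨ p ∣ v2 := by
    intro p hp hpg
    have h3 := hpg.trans g2
    rw [← h2] at h3
    rcases (hp.dvd_mul).1 h3 with h4 | h4
    · rcases (hp.dvd_mul).1 h4 with h5 | h5
      · exact Or.inl h5
      · exact Or.inr (Or.inl h5)
    · exact Or.inr (Or.inr h4)
  refine ⟨?_, ?_, ?_⟩
  · apply sqf_dvd_nat (s1.squarefree_of_dvd ((Nat.gcd_dvd_left _ _).trans hd.1))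
    intro p hp hpd
    have k1 := (c1 p hp).1 (hpd.trans (Nat.gcd_dvd_left _ _))
    have hpg := hpd.trans (Nat.gcd_dvd_right _ _)
    apply Nat.dvd_gcd _ hpg
    rcases key p hp hpg with k | k | k
    · exact k
    · have := (c2 p hp).2.1 k
      rw [k1] at this
      exact absurd this (by decide)
    · have := (c2 p hp).2.2 k
      rw [k1] at this
      exact absurd this (by decide)
  · apply sqf_dvd_nat (s1.squarefree_of_dvd ((Nat.gcd_dvd_left _ _).trans hd.2.1))
    intro p hp hpd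
    have k1 := (c1 p hp).2.1 (hpd.trans (Nat.gcd_dvd_left _ _))
    have hpg := hpd.trans (Nat.gcd_dvd_right _ _)
    apply Nat.dvd_gcd _ hpg
    rcases key p hp hpg with k | k | k
    · have := (c2 p hp).1 k
      rw [k1] at this
      exact absurd this (by decide)
    · exact k
    · have := (c2 p hp).2.2 k
      rw [k1] at this
      exact absurd this (by decide)
  · apply sqf_dvd_nat (s1.squarefree_of_dvd ((Nat.gcd_dvd_left _ _).trans hd.2.2))
    intro p hp hpd
    have k1 := (c1 p hp).2.2 (hpd.trans (Nat.gcd_dvd_left _ _))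
    have hpg := hpd.trans (Nat.gcd_dvd_right _ _)
    apply Nat.dvd_gcd _ hpg
    rcases key p hp hpg with k | k | k
    · have := (c2 p hp).1 k
      rw [k1] at this
      exact absurd this (by decide)
    · have := (c2 p hp).2.1 k
      rw [k1] at this
      exact absurd this (by decide)
    · exact k

lemma col_gcd_eq {χ : ℕ → Fin 3} {g e1 u1 v1 t1 e2 u2 v2 t2 : ℕ} (h1 : e1 * u1 * v1 = t1) (h2 : e2 * u2 * v2 = t2)
    (s1 : Squarefree t1) (s2 : Squarefree t2) (c1 : Col χ e1 u1 v1) (c2 : Col χ e2 u2 v2)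
    (g1 : g ∣ t1) (g2 : g ∣ t2) : Nat.gcd e1 g = Nat.gcd e2 g ∧ Nat.gcd u1 g = Nat.gcd u2 g ∧
      Nat.gcd v1 g = Nat.gcd v2 g := by
  obtain ⟨a1, a2, a3⟩ := col_gcd h1 h2 s1 c1 c2 g2
  obtain ⟨b1, b2, b3⟩ := col_gcd h2 h1 s2 c2 c1 g1
  exact ⟨Nat.dvd_antisymm a1 b1, Nat.dvd_antisymm a2 b2, Nat.dvd_antisymm a3 b3⟩

/-- averaging over the colourings -/
lemma col_avg (T : Finset ℕ) (e u v : ℕ → ℕ) (k : ℕ) (a : ℕ → ℝ) (ha : ∀ t, 0 ≤ a t) (B : ℝ)
    (hdec : ∀ t ∈ T, e t * u t * v t = t) (hsf : ∀ t ∈ T, Squarefree t)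
    (hk : ∀ t ∈ T, t.primeFactors.card ≤ k)
    (hB : ∀ χ : ℕ → Fin 3, ∀ T' : Finset ℕ, T' ⊆ T → (∀ t ∈ T', Col χ (e t) (u t) (v t)) → ∑ t ∈ T', a t ≤ B) :
    ∑ t ∈ T, a t ≤ 3 ^ k * B := by
  classical
  set P : Finset ℕ := T.biUnion Nat.primeFactors with hP
  set ext : (P → Fin 3) → ℕ → Fin 3 := fun χ p => if h : p ∈ P then χ ⟨p, h⟩ else 0 with hext
  set cl : ℕ → ℕ → Fin 3 := fun t p => if p ∣ e t then 0 else if p ∣ u t then 1 else 2 with hcl
  set S : ℕ → (P → Finset (Fin 3)) := fun t p => if (p : ℕ) ∣ t then {cl t p} else univ with hS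
  have hmemP : ∀ t ∈ T, ∀ p : ℕ, p.Prime → p ∣ t → p ∈ P := by
    intro t ht p hp hd
    rw [hP, mem_biUnion]
    exact ⟨t, ht, Nat.mem_primeFactors.2 ⟨hp, hd, (hsf t ht).ne_zero⟩⟩
  have hprime : ∀ p ∈ P, p.Prime := by
    intro p hp
    rw [hP, mem_biUnion] at hp
    obtain ⟨t', -, h5⟩ := hp
    exact Nat.prime_of_mem_primeFactors h5
  -- compatible colourings
  have hcomp : ∀ t ∈ T, ∀ χ ∈ Fintype.piFinset (S t), Col (ext χ) (e t) (u t) (v t) := by
    intro t ht χ hχ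
    rw [Fintype.mem_piFinset] at hχ
    have hd := hdec t ht
    have hsq := hsf t ht
    rw [← hd] at hsq
    have q1 := Nat.squarefree_mul_iff.1 hsq
    have q2 := Nat.squarefree_mul_iff.1 q1.2.1
    have hval : ∀ p : ℕ, p.Prime → p ∣ t → ext χ p = cl t p := by
      intro p hp hpt
      have hpP := hmemP t ht p hp hpt
      have h1 := hχ ⟨p, hpP⟩
      simp only [hS] at h1
      rw [if_pos hpt, mem_singleton] at h1
      simp only [hext]
      rw [dif_pos hpP, h1]
    have he : e t ∣ t := ⟨u t * v t, by rw [← mul_assoc]; exact hd.symm⟩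
    have hu : u t ∣ t := ⟨e t * v t, by
      calc t = e t * u t * v t := hd.symm
        _ = _ := by ring⟩
    have hv : v t ∣ t := ⟨e t * u t, by
      calc t = e t * u t * v t := hd.symm
        _ = _ := by ring⟩
    intro p hp
    refine ⟨fun h1 => ?_, fun h1 => ?_, fun h1 => ?_⟩
    · rw [hval p hp (h1.trans he)]
      simp only [hcl]
      rw [if_pos h1]
    · rw [hval p hp (h1.trans hu)]
      simp only [hcl]
      rw [if_neg, if_pos h1]
      intro h2
      exact Nat.Prime.not_coprime_iff_dvd.2 ⟨p, hp, h2, h1⟩ q2.1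
    · rw [hval p hp (h1.trans hv)]
      simp only [hcl]
      rw [if_neg, if_neg]
      · intro h2
        exact Nat.Prime.not_coprime_iff_dvd.2 ⟨p, hp, h2.mul_left _, h1⟩ q1.1
      · intro h2
        exact Nat.Prime.not_coprime_iff_dvd.2 ⟨p, hp, h2.mul_right _, h1⟩ q1.1
  -- counting
  have hcount : ∀ t ∈ T, (3 : ℝ) ^ P.card ≤ 3 ^ k * ((Fintype.piFinset (S t)).card : ℝ) := by
    intro t ht
    rw [Fintype.card_piFinset]
    have h1 : ∏ p : P, (S t p).card = 3 ^ (univ.filter (fun p : P => ¬ (p : ℕ) ∣ t)).card := by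
      have h2 : ∀ p : P, (S t p).card = if (p : ℕ) ∣ t then 1 else 3 := by
        intro p
        simp only [hS]
        split_ifs
        · simp
        · simp
      rw [prod_congr rfl (fun p _ => h2 p), prod_ite, prod_const, prod_const, one_pow, one_mul]
    rw [h1]
    have h3 : (univ.filter (fun p : P => (p : ℕ) ∣ t)).card ≤ k := by
      refine le_trans ?_ (hk t ht)
      apply card_le_card_of_injOn (fun p : P => (p : ℕ))
      · intro p hp
        rw [mem_coe, mem_filter] at hp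
        rw [mem_coe, Nat.mem_primeFactors]
        refine ⟨?_, hp.2, (hsf t ht).ne_zero⟩
        exact hprime p p.2
      · intro a _ b _ hab
        exact Subtype.ext hab
    have h4 : (univ.filter (fun p : P => (p : ℕ) ∣ t)).card + (univ.filter (fun p : P => ¬ (p : ℕ) ∣ t)).card = P.card := by
      rw [card_filter_add_card_filter_not, card_univ, Fintype.card_coe]
    push_cast
    rw [← pow_add]
    apply pow_le_pow_right₀ (by norm_num)
    omega
  -- averaging
  have h1 : (3 : ℝ) ^ P.card * ∑ t ∈ T, a t ≤ 3 ^ k * (3 ^ P.card * B) := by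
    calc (3 : ℝ) ^ P.card * ∑ t ∈ T, a t = ∑ t ∈ T, (3 : ℝ) ^ P.card * a t := by rw [mul_sum]
      _ ≤ ∑ t ∈ T, (3 ^ k * ((Fintype.piFinset (S t)).card : ℝ)) * a t :=
          sum_le_sum fun t ht => mul_le_mul_of_nonneg_right (hcount t ht) (ha t)
      _ = 3 ^ k * ∑ t ∈ T, ∑ χ : (P → Fin 3), (if χ ∈ Fintype.piFinset (S t) then a t else 0) := by
          rw [mul_sum]
          refine sum_congr rfl fun t _ => ?_
          rw [← sum_filter, sum_const, nsmul_eq_mul]
          have e9 : (univ.filter (fun χ : (P → Fin 3) => χ ∈ Fintype.piFinset (S t))) = Fintype.piFinset (S t) := by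
            ext χ
            rw [mem_filter]
            exact ⟨fun h => h.2, fun h => ⟨mem_univ _, h⟩⟩
          rw [e9]
          ring
      _ = 3 ^ k * ∑ χ : (P → Fin 3), ∑ t ∈ T.filter (fun t => χ ∈ Fintype.piFinset (S t)), a t := by
          rw [sum_comm]
          congr 1
          refine sum_congr rfl fun χ _ => ?_
          rw [sum_filter]
      _ ≤ 3 ^ k * ∑ _χ : (P → Fin 3), B := by
          apply mul_le_mul_of_nonneg_left _ (by positivity)
          refine sum_le_sum fun χ _ => ?_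
          exact hB (ext χ) _ (filter_subset _ _) (fun t ht => by
            rw [mem_filter] at ht
            exact hcomp t ht.1 χ ht.2)
      _ = 3 ^ k * (3 ^ P.card * B) := by
          rw [sum_const, card_univ, Fintype.card_fun, Fintype.card_coe, Fintype.card_fin, nsmul_eq_mul]
          push_cast
          ring
  have h3 : (0 : ℝ) < 3 ^ P.card := by positivity
  have h4 : (3 : ℝ) ^ P.card * ∑ t ∈ T, a t ≤ 3 ^ P.card * (3 ^ k * B) := by
    refine h1.trans (le_of_eq ?_)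
    ring
  exact le_of_mul_le_mul_left h4 h3

end Pool.Agent.Helper91K1.T
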