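import Mathlib
import Pool.Agent.R503.N.BlkC
import Pool.Agent.Helper91K1.T.Col

/-! The bilinear sums for one left modulus and classes depending on the modulus
(adapted from `Pool.Agent.R503.N.BlkB`, `BlkC`). -/

set_option autoImplicit false

open Finset

namespace Pool.Agent.Helper91K1.T

open Pool.Agent.Y826.Z Pool.Agent.Y826.Z.OB Pool.Agent.R503.N

/-- the second moment, with windows -/
theorem SStc_le {X Λ ℓ C : ℝ} (EE : EnvY X Λ ℓ C) (G1 r M N G Q : ℕ) (h : ℤ) (c : ℕ → ℤ)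
    (co : ℕ × ℕ → ℤ) (T : Finset ℕ) (e u v : ℕ → ℕ) (χ : ℕ → Fin 3)
    (W U V : ℝ) (κ β : ℕ → ℝ) (hM : 0 < M) (hN : 0 < N) (hMN : (M : ℝ) * N ≤ 16 * X) (hr : 0 < r)
    (hW : 0 < W) (hU : 0 < U) (hV : 0 < V) (hdec : ∀ t ∈ T, e t * u t * v t = t)
    (hsf : ∀ t ∈ T, Squarefree (r * t)) (hc : IsCoprime h (r : ℤ)) (hct : ∀ t ∈ T, IsCoprime (c t) (t : ℤ))
    (hco : ∀ t ∈ T, ((u t : ℕ) : ℤ) ∣ c t - co (e t, u t)) (hχ : ∀ t ∈ T, Col χ (e t) (u t) (v t))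
    (hG0 : 0 < G) (hG : ∀ t ∈ T, ∀ p : ℕ, p.Prime → p ∣ t → G < p) (hrG : (r : ℝ) * G ≤ N)
    (we : ∀ t ∈ T, W / Λ ≤ e t ∧ (e t : ℝ) ≤ W * Λ) (wu : ∀ t ∈ T, U / Λ ≤ u t ∧ (u t : ℝ) ≤ U * Λ)
    (wv : ∀ t ∈ T, V / Λ ≤ v t ∧ (v t : ℝ) ≤ V * Λ)
    (hG1 : 0 < G1) (hG1N : G1 ≤ N) (l0 : (r : ℝ) * (Q : ℝ) ^ 2 * Λ ≤ (G1 : ℝ) ^ 2 * M)
    (l1 : r * W ^ 2 * U ^ 2 * V ^ 2 ≤ (G1 : ℝ) ^ 2 * M)
    (l2 : (G1 : ℝ) * r * W ^ 2 * U ^ 2 * Λ ^ 1000 ≤ M) (l3 : W ^ 2 * V ^ 4 * (G1 : ℝ) ^ 9 * Λ ^ 1000 ≤ N)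
    (l4 : r * U ^ 2 * (G1 : ℝ) ^ 16 * Λ ^ 1000 ≤ (N : ℝ) ^ 2) (l5 : (G1 : ℝ) ^ 18 * Λ ^ 1000 ≤ r * U ^ 2)
    (hQ : 0 < Q) (hTQ : ∀ t ∈ T, t ≤ Q) (hrQ : (r : ℝ) * Q ^ 2 ≤ M * N)
    (hκ : ∀ t, |κ t| ≤ 1) (hβ : ∀ n ∈ Ioc N (2 * N), |β n| ≤ ℓ) :
    SStc r M N h c T κ β ≤ (39 * ℓ ^ 7 / G + 6 * ℓ ^ 2 * Λ⁻¹) * (M * (N : ℝ) ^ 2 / (r : ℝ) ^ 2) := by
  classical
  have E := EE.E
  have P := E.par r M N Q hr hM hN hQ hMN hrQ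
  have hℓ1 := E.l1
  have hΛ1 : 1 ≤ Λ := by linarith [E.hΛ]
  have hΛ0 : 0 < Λ := by linarith
  have hX := E.hX
  have hX1 : 1 ≤ X := by linarith
  have hMr : (0 : ℝ) < M := by exact_mod_cast hM
  have hNr : (0 : ℝ) < N := by exact_mod_cast hN
  have hrr : (0 : ℝ) < r := by exact_mod_cast hr
  have hM1 : (1 : ℝ) ≤ M := by exact_mod_cast hM
  have hN1 : (1 : ℝ) ≤ N := by exact_mod_cast hN
  have hG1r : (1 : ℝ) ≤ G1 := by exact_mod_cast hG1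
  have hT0 : ∀ t ∈ T, 0 < t ∧ t ≤ Q := fun t ht =>
    ⟨Nat.pos_of_ne_zero (fun h0 => by
      have := (hsf t ht).ne_zero
      rw [h0, mul_zero] at this
      exact this rfl), hTQ t ht⟩
  have hst : ∀ t ∈ T, Squarefree t := fun t ht => (Nat.squarefree_mul_iff.1 (hsf t ht)).2.2
  have hN3 : (N : ℝ) ≤ X ^ 3 := by
    have : (N : ℝ) ≤ M * N := le_mul_of_one_le_left hNr.le hM1
    nlinarith [sq_nonneg X]
  have hM3 : (M : ℝ) ≤ X ^ 3 := by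
    have : (M : ℝ) ≤ M * N := le_mul_of_one_le_right hMr.le hN1
    nlinarith [sq_nonneg X]
  set Z : ℝ := M * (N : ℝ) ^ 2 / (r : ℝ) ^ 2 with hZ
  have hZ0 : 0 ≤ Z := by rw [hZ]; positivity
  -- the trivial part
  have h1 := trivc (G := G) (G1 := G1) P h c hc T κ β hT0 hsf hct hG0 hG hG1 hΛ0 l0 hG1N hrG hκ hβ
  have h1' : ∑ g ∈ Ioc 1 G1, |EG r M N h c T κ β g| ≤ ℓ * (Λ⁻¹ * Z) := by
    have h3 : ∀ g ∈ Ioc 1 G1, |EG r M N h c T κ β g| ≤ (Λ⁻¹ * Z) * (1 / (g : ℝ)) := by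
      intro g hg
      rw [mem_Ioc] at hg
      have hg0 : 0 < g := by omega
      have hgr : (0 : ℝ) < g := by exact_mod_cast hg0
      have h4 := EG_le EE G1 r M N h c co T e u v W U V κ β hM hN hMN hr hW hU hV hdec hsf hc hct hco we wu wv
        hG1 l1 l2 l3 l4 l5 hκ hβ g hg0 hg.2 (fun t1 ht1 t2 ht2 g1 g2 =>
          col_gcd_eq (hdec t1 ht1) (hdec t2 ht2) (hst t1 ht1) (hst t2 ht2) (hχ t1 ht1) (hχ t2 ht2) g1 g2)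
      refine h4.trans (le_of_eq ?_)
      rw [hZ]
      field_simp
    refine (sum_le_sum h3).trans ?_
    rw [← mul_sum]
    have h5 := sum_mult 1 G1 one_pos (Ioc 1 G1) (fun g hg => by
      rw [mem_Ioc] at hg
      exact ⟨by omega, hg.2, one_dvd _⟩)
    rw [Nat.cast_one, div_one] at h5
    have h6 : 1 + Real.log (G1 : ℝ) ≤ ℓ := by
      refine le_trans ?_ E.hl
      have h7 : (G1 : ℝ) ≤ X ^ 10 := by
        have h8 : (G1 : ℝ) ≤ N := by exact_mod_cast hG1N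
        exact h8.trans (hN3.trans (pow_le_pow_right₀ hX1 (by norm_num)))
      have := Real.log_le_log (by linarith : (0 : ℝ) < G1) h7
      linarith
    calc (Λ⁻¹ * Z) * ∑ g ∈ Ioc 1 G1, (1 / (g : ℝ)) ≤ (Λ⁻¹ * Z) * ℓ :=
          mul_le_mul_of_nonneg_left (h5.trans h6) (by positivity)
      _ = _ := by ring
  -- the coprime pairs
  have h2 : |Pool.Agent.R503.N.Soff 1 r M N h (T.image (fun t => (e t, u t))) (T.image (fun t => tp (v t))) (kq T e u v κ)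
      co (fun o w => c (o.1 * o.2 * Pr w)) β| ≤ Λ⁻¹ * (M * (N : ℝ) ^ 2 / (((1 : ℕ) : ℝ) * r) ^ 2) := by
    apply off_det 1 r M N h _ _ _ _ _ β Λ X C W U V ((G1 : ℝ) ^ 2) hX E.hΛ E.hΛX E.hC1 E.hCΛ E.hI
      E.t2 hMN hM hN one_pos hr hW hU hV (one_le_pow₀ hG1r)
    · rw [Nat.cast_one, one_mul, div_le_iff₀ hMr]
      exact l1
    · rw [Nat.cast_one, one_mul]
      calc (r : ℝ) * W ^ 2 * U ^ 2 * Λ ^ 1000 = 1 * r * W ^ 2 * U ^ 2 * Λ ^ 1000 := by ring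
        _ ≤ (G1 : ℝ) * r * W ^ 2 * U ^ 2 * Λ ^ 1000 := by gcongr
        _ ≤ (M : ℝ) := l2
    · rw [Nat.cast_one, one_mul]
      calc W ^ 2 * V ^ 4 * ((G1 : ℝ) ^ 2) ^ 4 * Λ ^ 1000 = W ^ 2 * V ^ 4 * (G1 : ℝ) ^ 8 * Λ ^ 1000 := by ring
        _ ≤ W ^ 2 * V ^ 4 * (G1 : ℝ) ^ 9 * Λ ^ 1000 := by
            have : (G1 : ℝ) ^ 8 ≤ (G1 : ℝ) ^ 9 := pow_le_pow_right₀ hG1r (by norm_num)
            gcongr
        _ ≤ (N : ℝ) := l3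
    · calc r * U ^ 2 * ((G1 : ℝ) ^ 2) ^ 8 * Λ ^ 1000 = r * U ^ 2 * (G1 : ℝ) ^ 16 * Λ ^ 1000 := by ring
        _ ≤ _ := l4
    · calc ((G1 : ℝ) ^ 2) ^ 8 * Λ ^ 1000 = (G1 : ℝ) ^ 16 * Λ ^ 1000 := by ring
        _ ≤ (G1 : ℝ) ^ 18 * Λ ^ 1000 := by
            have : (G1 : ℝ) ^ 16 ≤ (G1 : ℝ) ^ 18 := pow_le_pow_right₀ hG1r (by norm_num)
            gcongr
        _ ≤ _ := l5
    · intro o w
      unfold kq
      rw [abs_mul, abs_of_nonneg (ind_nonneg _)]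
      exact mul_le_one₀ (ind_le_one _) (abs_nonneg _) (hκ _)
    · intro o w hk
      have hmem : o.1 * o.2 * Pr w ∈ T ∧ e (o.1 * o.2 * Pr w) = o.1 ∧ u (o.1 * o.2 * Pr w) = o.2 ∧
          v (o.1 * o.2 * Pr w) = Pr w := by
        by_contra hcon
        apply hk
        unfold kq
        rw [ind_false hcon, zero_mul]
      have hmt := hmem.1
      have hcc := hct _ hmt
      refine ⟨?_, ?_, ?_⟩
      · rw [one_mul]; exact hsf _ hmt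
      · have h1 : IsCoprime (c (o.1 * o.2 * Pr w)) (o.2 : ℤ) :=
          hcc.of_isCoprime_of_dvd_right (Int.natCast_dvd_natCast.2 ⟨o.1 * Pr w, by ring⟩)
        obtain ⟨k, hk⟩ := hco _ hmt
        have h3 : (e (o.1 * o.2 * Pr w), u (o.1 * o.2 * Pr w)) = o := Prod.ext hmem.2.1 hmem.2.2.1
        rw [h3, hmem.2.2.1] at hk
        have h2 : co o = c (o.1 * o.2 * Pr w) + (o.2 : ℤ) * (-k) := by linarith
        rw [h2]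
        exact IsCoprime.add_mul_left_left h1 _
      · exact hcc.of_isCoprime_of_dvd_right (Int.natCast_dvd_natCast.2 ⟨o.2, by ring⟩)
    · intro o ho
      rw [mem_image] at ho
      obtain ⟨t, ht, rfl⟩ := ho
      exact (we t ht).2
    · intro o ho
      rw [mem_image] at ho
      obtain ⟨t, ht, rfl⟩ := ho
      exact (we t ht).1
    · intro o ho
      rw [mem_image] at ho
      obtain ⟨t, ht, rfl⟩ := ho
      exact (wu t ht).2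
    · intro o ho
      rw [mem_image] at ho
      obtain ⟨t, ht, rfl⟩ := ho
      exact (wu t ht).1
    · intro w hw
      rw [mem_image] at hw
      obtain ⟨t, ht, rfl⟩ := hw
      rw [Pr_tp]
      exact (wv t ht).2
    · intro w hw
      rw [mem_image] at hw
      obtain ⟨t, ht, rfl⟩ := hw
      rw [Pr_tp]
      exact (wv t ht).1
    · intro n hn
      exact (hβ n hn).trans E.hℓΛ
    · exact E.hoa r M N h _ β hN hN3 hM3 hc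
  rw [Soff_eq_Sofc r M N h c co T e u v κ β hdec hst hco, Nat.cast_one, one_mul] at h2
  have h3 := abs_le.1 h1
  have h4 := abs_le.1 h2
  have hLZ : 0 ≤ Λ⁻¹ * Z := by positivity
  have k1 : ℓ * (Λ⁻¹ * Z) ≤ ℓ ^ 2 * (Λ⁻¹ * Z) := by
    apply mul_le_mul_of_nonneg_right _ hLZ
    nlinarith
  have k2 : Λ⁻¹ * Z ≤ ℓ ^ 2 * (Λ⁻¹ * Z) := le_mul_of_one_le_left hLZ (one_le_pow₀ hℓ1)
  calc SStc r M N h c T κ β = (SStc r M N h c T κ β - Sofc r M N h c T κ β) + Sofc r M N h c T κ β := by ring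
    _ ≤ (39 * ℓ ^ 7 * Z / G + 4 * ℓ ^ 2 * Λ⁻¹ * Z + ℓ ^ 2 * (Λ⁻¹ * Z)) + ℓ ^ 2 * (Λ⁻¹ * Z) :=
        add_le_add (h3.2.trans (add_le_add le_rfl (h1'.trans k1))) (h4.2.trans k2)
    _ = _ := by ring

/-- the bilinear sums for one left modulus, with windows -/
theorem blkc1 {X Λ ℓ C : ℝ} (EE : EnvY X Λ ℓ C) (G1 r M N G Q : ℕ) (h : ℤ) (c : ℕ → ℤ)
    (co : ℕ × ℕ → ℤ) (T : Finset ℕ) (e u v : ℕ → ℕ) (χ : ℕ → Fin 3)
    (W U V : ℝ) (α β : ℕ → ℝ) (hM : 0 < M) (hN : 0 < N) (hMN : (M : ℝ) * N ≤ 16 * X) (hr : 0 < r)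
    (hW : 0 < W) (hU : 0 < U) (hV : 0 < V) (hdec : ∀ t ∈ T, e t * u t * v t = t)
    (hsf : ∀ t ∈ T, Squarefree (r * t)) (hc : IsCoprime h (r : ℤ)) (hct : ∀ t ∈ T, IsCoprime (c t) (t : ℤ))
    (hco : ∀ t ∈ T, ((u t : ℕ) : ℤ) ∣ c t - co (e t, u t)) (hχ : ∀ t ∈ T, Col χ (e t) (u t) (v t))
    (hG0 : 0 < G) (hG : ∀ t ∈ T, ∀ p : ℕ, p.Prime → p ∣ t → G < p) (hrG : (r : ℝ) * G ≤ N)
    (we : ∀ t ∈ T, W / Λ ≤ e t ∧ (e t : ℝ) ≤ W * Λ) (wu : ∀ t ∈ T, U / Λ ≤ u t ∧ (u t : ℝ) ≤ U * Λ)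
    (wv : ∀ t ∈ T, V / Λ ≤ v t ∧ (v t : ℝ) ≤ V * Λ)
    (hG1 : 0 < G1) (hG1N : G1 ≤ N) (l0 : (r : ℝ) * (Q : ℝ) ^ 2 * Λ ≤ (G1 : ℝ) ^ 2 * M)
    (l1 : r * W ^ 2 * U ^ 2 * V ^ 2 ≤ (G1 : ℝ) ^ 2 * M)
    (l2 : (G1 : ℝ) * r * W ^ 2 * U ^ 2 * Λ ^ 1000 ≤ M) (l3 : W ^ 2 * V ^ 4 * (G1 : ℝ) ^ 9 * Λ ^ 1000 ≤ N)
    (l4 : r * U ^ 2 * (G1 : ℝ) ^ 16 * Λ ^ 1000 ≤ (N : ℝ) ^ 2) (l5 : (G1 : ℝ) ^ 18 * Λ ^ 1000 ≤ r * U ^ 2)
    (hQ : 0 < Q) (hTQ : ∀ t ∈ T, t ≤ Q) (hrQ : (r : ℝ) * Q ^ 2 ≤ M * N)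
    (hα : ∀ m ∈ Ioc M (2 * M), |α m| ≤ ℓ) (hβ : ∀ n ∈ Ioc N (2 * N), |β n| ≤ ℓ) :
    ∑ t ∈ T, |∑ m ∈ Ioc M (2 * M), ∑ n ∈ Ioc N (2 * N), α m * β n *
      (Pl r h (m * n) * Dc t (c t) ((m * n : ℕ) : ℤ))| ≤
      ℓ * Real.sqrt (39 * ℓ ^ 7 / G + 6 * ℓ ^ 2 * Λ⁻¹) * (M * N / r) := by
  classical
  have hℓ0 : 0 ≤ ℓ := le_trans zero_le_one EE.E.l1
  have hMr : (0 : ℝ) < M := by exact_mod_cast hM
  have hNr : (0 : ℝ) < N := by exact_mod_cast hN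
  have hrr : (0 : ℝ) < r := by exact_mod_cast hr
  have hΛ0 : 0 < Λ := by linarith [EE.E.hΛ]
  set Bt : ℕ → ℝ := fun t => ∑ m ∈ Ioc M (2 * M), ∑ n ∈ Ioc N (2 * N), α m * β n *
      (Pl r h (m * n) * Dc t (c t) ((m * n : ℕ) : ℤ)) with hB
  set κ : ℕ → ℝ := fun t => if 0 ≤ Bt t then 1 else -1 with hκ
  have hκ1 : ∀ t, |κ t| ≤ 1 := by
    intro t
    simp only [hκ]
    split_ifs <;> simp
  have hBk : ∀ t, |Bt t| = κ t * Bt t := by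
    intro t
    simp only [hκ]
    split_ifs with h
    · rw [one_mul, abs_of_nonneg h]
    · rw [neg_one_mul, abs_of_neg (not_le.1 h)]
  have e1 : ∑ t ∈ T, |Bt t| = ∑ m ∈ Ioc M (2 * M), α m * (∑ t ∈ T, κ t * ∑ n ∈ Ioc N (2 * N), β n *
      (Pl r h (m * n) * Dc t (c t) ((m * n : ℕ) : ℤ))) := by
    rw [sum_congr rfl (fun t _ => hBk t)]
    simp only [hB, mul_sum]
    rw [sum_comm]
    refine sum_congr rfl fun m _ => sum_congr rfl fun t _ => sum_congr rfl fun n _ => ?_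
    ring
  have hS := SStc_le EE G1 r M N G Q h c co T e u v χ W U V κ β hM hN hMN hr hW hU hV hdec hsf hc hct hco hχ hG0 hG hrG
    we wu wv hG1 hG1N l0 l1 l2 l3 l4 l5 hQ hTQ hrQ hκ1 hβ
  change ∑ t ∈ T, |Bt t| ≤ _
  rw [e1]
  have h1 : (∑ m ∈ Ioc M (2 * M), α m * (∑ t ∈ T, κ t * ∑ n ∈ Ioc N (2 * N), β n *
      (Pl r h (m * n) * Dc t (c t) ((m * n : ℕ) : ℤ)))) ^ 2 ≤
      (∑ m ∈ Ioc M (2 * M), α m ^ 2) * SStc r M N h c T κ β := sum_mul_sq_le_sq_mul_sq _ _ _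
  have h2 : ∑ m ∈ Ioc M (2 * M), α m ^ 2 ≤ ℓ ^ 2 * M := by
    have : ∀ m ∈ Ioc M (2 * M), α m ^ 2 ≤ ℓ ^ 2 := fun m hm => by
      rw [← sq_abs]
      exact pow_le_pow_left₀ (abs_nonneg _) (hα m hm) 2
    refine (sum_le_sum this).trans ?_
    rw [sum_const, nsmul_eq_mul, Nat.card_Ioc, mul_comm]
    have e : 2 * M - M = M := by omega
    rw [e]
  have hR : 0 ≤ 39 * ℓ ^ 7 / G + 6 * ℓ ^ 2 * Λ⁻¹ := by positivity
  have h3 : (∑ m ∈ Ioc M (2 * M), α m * (∑ t ∈ T, κ t * ∑ n ∈ Ioc N (2 * N), β n *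
      (Pl r h (m * n) * Dc t (c t) ((m * n : ℕ) : ℤ)))) ^ 2 ≤
      (ℓ * Real.sqrt (39 * ℓ ^ 7 / G + 6 * ℓ ^ 2 * Λ⁻¹) * (M * N / r)) ^ 2 := by
    refine h1.trans ?_
    calc (∑ m ∈ Ioc M (2 * M), α m ^ 2) * SStc r M N h c T κ β
        ≤ (ℓ ^ 2 * M) * ((39 * ℓ ^ 7 / G + 6 * ℓ ^ 2 * Λ⁻¹) * (M * (N : ℝ) ^ 2 / (r : ℝ) ^ 2)) := by
          apply mul_le_mul h2 hS _ (by positivity)
          exact sum_nonneg fun _ _ => sq_nonneg _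
      _ = _ := by
          rw [mul_pow, mul_pow, Real.sq_sqrt hR]
          field_simp
  exact abs_le_of_sq_le_sq' h3 (by positivity) |>.2

/-- admissible factorisations -/
structure Adm2 (Λ : ℝ) (G1 r M N : ℕ) (t e u v : ℕ) : Prop where
  dec : e * u * v = t
  a0 : (r : ℝ) * (t : ℝ) ^ 2 * Λ ^ 100 ≤ (G1 : ℝ) ^ 2 * M
  a1 : (G1 : ℝ) * r * ((e : ℝ) * u) ^ 2 * Λ ^ 1010 ≤ M
  a2 : (e : ℝ) ^ 2 * (v : ℝ) ^ 4 * (G1 : ℝ) ^ 9 * Λ ^ 1010 ≤ N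
  a3 : (r : ℝ) * (u : ℝ) ^ 2 * (G1 : ℝ) ^ 16 * Λ ^ 1010 ≤ (N : ℝ) ^ 2
  a4 : (G1 : ℝ) ^ 18 * Λ ^ 1010 ≤ (r : ℝ) * (u : ℝ) ^ 2

lemma Adm2.g1 {Λ : ℝ} {G1 r M N t e u v : ℕ} (hΛ : 1 ≤ Λ) (ht : 0 < t) (hG1 : 0 < G1)
    (A : Adm2 Λ G1 r M N t e u v) : (G1 : ℝ) ^ 9 ≤ N := by
  have hd := A.dec
  have he : 0 < e := Nat.pos_of_ne_zero (by rintro rfl; simp at hd; omega)
  have hv : 0 < v := Nat.pos_of_ne_zero (by rintro rfl; simp at hd; omega)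
  have he1 : (1 : ℝ) ≤ (e : ℝ) ^ 2 := one_le_pow₀ (by exact_mod_cast he)
  have hv1 : (1 : ℝ) ≤ (v : ℝ) ^ 4 := one_le_pow₀ (by exact_mod_cast hv)
  have h1000 : 1 ≤ Λ ^ 1010 := one_le_pow₀ hΛ
  calc (G1 : ℝ) ^ 9 = 1 * 1 * (G1 : ℝ) ^ 9 * 1 := by ring
    _ ≤ (e : ℝ) ^ 2 * (v : ℝ) ^ 4 * (G1 : ℝ) ^ 9 * Λ ^ 1010 := by gcongr
    _ ≤ N := A.a2

lemma Adm2.sq {Λ : ℝ} {G1 r M N t e u v : ℕ} (hΛ : 1 ≤ Λ) (ht : 0 < t) (hG1 : 0 < G1)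
    (A : Adm2 Λ G1 r M N t e u v) : (r : ℝ) * (t : ℝ) ^ 2 ≤ M * N := by
  have h1 := A.g1 hΛ ht hG1
  have hG1r : (1 : ℝ) ≤ G1 := by exact_mod_cast hG1
  have h2 : (G1 : ℝ) ^ 2 ≤ N := (pow_le_pow_right₀ hG1r (by norm_num)).trans h1
  have h100 : 1 ≤ Λ ^ 100 := one_le_pow₀ hΛ
  calc (r : ℝ) * (t : ℝ) ^ 2 ≤ (r : ℝ) * (t : ℝ) ^ 2 * Λ ^ 100 := le_mul_of_one_le_right (by positivity) h100
    _ ≤ (G1 : ℝ) ^ 2 * M := A.a0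
    _ ≤ N * M := by gcongr
    _ = _ := mul_comm _ _

/-- the bilinear sums for one left modulus and one kind of moduli -/
theorem blkc2a {X Λ ℓ C : ℝ} (EE : EnvY X Λ ℓ C) (G1 r M N G R : ℕ) (h : ℤ) (c : ℕ → ℤ)
    (co : ℕ × ℕ → ℤ) (T : Finset ℕ) (e u v : ℕ → ℕ) (χ : ℕ → Fin 3)
    (α β : ℕ → ℝ) (hM : 0 < M) (hN : 0 < N) (hMN : (M : ℝ) * N ≤ 16 * X) (hr : 0 < r) (hG1 : 0 < G1)
    (hA : ∀ t ∈ T, Adm2 Λ G1 r M N t (e t) (u t) (v t))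
    (hsf : ∀ t ∈ T, Squarefree (r * t)) (hc : IsCoprime h (r : ℤ)) (hct : ∀ t ∈ T, IsCoprime (c t) (t : ℤ))
    (hco : ∀ t ∈ T, ((u t : ℕ) : ℤ) ∣ c t - co (e t, u t)) (hχ : ∀ t ∈ T, Col χ (e t) (u t) (v t))
    (hG0 : 0 < G) (hG : ∀ t ∈ T, ∀ p : ℕ, p.Prime → p ∣ t → G < p) (hrG : (r : ℝ) * G ≤ N)
    (hR : 16 * X < Λ ^ R)
    (hα : ∀ m ∈ Ioc M (2 * M), |α m| ≤ ℓ) (hβ : ∀ n ∈ Ioc N (2 * N), |β n| ≤ ℓ) :
    ∑ t ∈ T, |∑ m ∈ Ioc M (2 * M), ∑ n ∈ Ioc N (2 * N), α m * β n *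
      (Pl r h (m * n) * Dc t (c t) ((m * n : ℕ) : ℤ))| ≤
      (R : ℝ) ^ 3 * (ℓ * Real.sqrt (39 * ℓ ^ 7 / G + 6 * ℓ ^ 2 * Λ⁻¹) * (M * N / r)) := by
  classical
  have E := EE.E
  have hΛ4 := E.hΛ
  have hΛ1 : 1 < Λ := by linarith
  have hΛ0 : 0 < Λ := by linarith
  have hX := E.hX
  choose kf hkf using fun n => exists_win hΛ1 n
  have hrr : (1 : ℝ) ≤ r := by exact_mod_cast hr
  have hpos : ∀ t ∈ T, 0 < t := fun t ht => Nat.pos_of_ne_zero (fun h0 => by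
      have := (hsf t ht).ne_zero
      rw [h0, mul_zero] at this
      exact this rfl)
  have hsq : ∀ t ∈ T, (r : ℝ) * (t : ℝ) ^ 2 ≤ M * N := fun t ht => (hA t ht).sq hΛ1.le (hpos t ht) hG1
  have htX : ∀ t ∈ T, (t : ℝ) ≤ 16 * X := by
    intro t ht
    have h1 : (1 : ℝ) ≤ t := by exact_mod_cast hpos t ht
    calc (t : ℝ) ≤ (t : ℝ) ^ 2 := by nlinarith
      _ = 1 * (t : ℝ) ^ 2 := (one_mul _).symm
      _ ≤ r * (t : ℝ) ^ 2 := by gcongr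
      _ ≤ M * N := hsq t ht
      _ ≤ 16 * X := hMN
  have hdv : ∀ t ∈ T, e t ∣ t ∧ u t ∣ t ∧ v t ∣ t := by
    intro t ht
    have hd := (hA t ht).dec
    refine ⟨⟨u t * v t, ?_⟩, ⟨e t * v t, ?_⟩, ⟨e t * u t, ?_⟩⟩
    · calc t = e t * u t * v t := hd.symm
        _ = _ := by ring
    · calc t = e t * u t * v t := hd.symm
        _ = _ := by ring
    · calc t = e t * u t * v t := hd.symm
        _ = _ := by ring
  have hfac : ∀ t ∈ T, ∀ d, d ∣ t → 0 < d ∧ kf d < R := by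
    intro t ht d hd
    have h0 : 0 < d := Nat.pos_of_dvd_of_pos hd (hpos t ht)
    refine ⟨h0, ?_⟩
    have h1 := (hkf d h0).1
    have h2 : (d : ℝ) ≤ t := by exact_mod_cast Nat.le_of_dvd (hpos t ht) hd
    have h3 : Λ ^ kf d < Λ ^ R := lt_of_le_of_lt (h1.trans (h2.trans (htX t ht))) hR
    exact (pow_lt_pow_iff_right₀ hΛ1).1 h3
  set ix : ℕ → ℕ × ℕ × ℕ := fun t => (kf (e t), kf (u t), kf (v t)) with hix
  set J : Finset (ℕ × ℕ × ℕ) := range R ×ˢ range R ×ˢ range R with hJ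
  have hmaps : ∀ t ∈ T, ix t ∈ J := by
    intro t ht
    obtain ⟨a1, a2, a3⟩ := hdv t ht
    rw [hJ, mem_product, mem_product, mem_range, mem_range, mem_range]
    exact ⟨(hfac t ht _ a1).2, (hfac t ht _ a2).2, (hfac t ht _ a3).2⟩
  rw [← sum_fiberwise_of_maps_to hmaps]
  have hK : 0 ≤ ℓ * Real.sqrt (39 * ℓ ^ 7 / G + 6 * ℓ ^ 2 * Λ⁻¹) * (M * N / r) := by
    have := E.l1
    positivity
  have hcls : ∀ y ∈ J, ∑ t ∈ T.filter (fun t => ix t = y), |∑ m ∈ Ioc M (2 * M), ∑ n ∈ Ioc N (2 * N), α m * β n *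
      (Pl r h (m * n) * Dc t (c t) ((m * n : ℕ) : ℤ))| ≤
      ℓ * Real.sqrt (39 * ℓ ^ 7 / G + 6 * ℓ ^ 2 * Λ⁻¹) * (M * N / r) := by
    intro y _
    set T' := T.filter (fun t => ix t = y) with hT'
    by_cases hne : T'.Nonempty
    swap
    · rw [not_nonempty_iff_eq_empty] at hne
      rw [hne, sum_empty]
      exact hK
    obtain ⟨t0, ht0⟩ := hne
    have hsub : ∀ t ∈ T', t ∈ T ∧ kf (e t) = y.1 ∧ kf (u t) = y.2.1 ∧ kf (v t) = y.2.2 := by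
      intro t ht
      rw [hT', mem_filter] at ht
      refine ⟨ht.1, ?_, ?_, ?_⟩
      · rw [← ht.2]
      · rw [← ht.2]
      · rw [← ht.2]
    obtain ⟨m0, w1, w2, w3⟩ := hsub t0 ht0
    obtain ⟨d1, d2, d3⟩ := hdv t0 m0
    have hwin : ∀ n k : ℕ, 0 < n → kf n = k → Λ ^ k / Λ ≤ n ∧ (n : ℝ) ≤ Λ ^ k * Λ ∧ Λ ^ k ≤ n := by
      intro n k hn hk
      have h1 := hkf n hn
      rw [hk] at h1
      refine ⟨(div_le_self (by positivity) hΛ1.le).trans h1.1, ?_, h1.1⟩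
      rw [← pow_succ]
      exact h1.2.le
    have we0 := hwin _ _ (hfac t0 m0 _ d1).1 w1
    have wu0 := hwin _ _ (hfac t0 m0 _ d2).1 w2
    have wv0 := hwin _ _ (hfac t0 m0 _ d3).1 w3
    have A0 := hA t0 m0
    have hrp : (0 : ℝ) < r := by linarith
    have g1 := we0.2.2
    have g2 := wu0.2.2
    have g3 := wv0.2.2
    have hpw : ∀ {m n : ℕ}, m ≤ n → Λ ^ m ≤ Λ ^ n := fun hh => pow_le_pow_right₀ hΛ1.le hh
    -- the largest modulus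
    obtain ⟨tm, htm, hmax⟩ := exists_max_image T' id ⟨t0, ht0⟩
    have htmT := (hsub tm htm).1
    have hG1N : G1 ≤ N := by
      have h9 := A0.g1 hΛ1.le (hpos t0 m0) hG1
      have hG1r : (1 : ℝ) ≤ G1 := by exact_mod_cast hG1
      have h10 : (G1 : ℝ) ≤ N := by
        calc (G1 : ℝ) = (G1 : ℝ) ^ 1 := (pow_one _).symm
          _ ≤ (G1 : ℝ) ^ 9 := pow_le_pow_right₀ hG1r (by norm_num)
          _ ≤ N := h9
      exact_mod_cast h10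
    refine blkc1 EE G1 r M N G tm h c co T' e u v χ (Λ ^ y.1) (Λ ^ y.2.1) (Λ ^ y.2.2) α β hM hN hMN hr (by positivity)
      (by positivity) (by positivity) (fun t ht => (hA t (hsub t ht).1).dec)
      (fun t ht => hsf t (hsub t ht).1) hc (fun t ht => hct t (hsub t ht).1)
      (fun t ht => hco t (hsub t ht).1) (fun t ht => hχ t (hsub t ht).1) hG0
      (fun t ht => hG t (hsub t ht).1) hrG ?_ ?_ ?_ hG1 hG1N ?_ ?_ ?_ ?_ ?_ ?_ (hpos tm htmT) hmax (hsq tm htmT) hα hβ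
    · intro t ht
      obtain ⟨mt, w, -, -⟩ := hsub t ht
      have := hwin _ _ (hfac t mt _ (hdv t mt).1).1 w
      exact ⟨this.1, this.2.1⟩
    · intro t ht
      obtain ⟨mt, -, w, -⟩ := hsub t ht
      have := hwin _ _ (hfac t mt _ (hdv t mt).2.1).1 w
      exact ⟨this.1, this.2.1⟩
    · intro t ht
      obtain ⟨mt, -, -, w⟩ := hsub t ht
      have := hwin _ _ (hfac t mt _ (hdv t mt).2.2).1 w
      exact ⟨this.1, this.2.1⟩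
    · -- l0
      calc (r : ℝ) * (tm : ℝ) ^ 2 * Λ = (r : ℝ) * (tm : ℝ) ^ 2 * Λ ^ 1 := by rw [pow_one]
        _ ≤ (r : ℝ) * (tm : ℝ) ^ 2 * Λ ^ 100 := mul_le_mul_of_nonneg_left (hpw (by norm_num)) (by positivity)
        _ ≤ _ := (hA tm htmT).a0
    · -- l1
      have e5 : (t0 : ℝ) = e t0 * u t0 * v t0 := by
        rw [← (hA t0 m0).dec]
        push_cast
        rw [(hA t0 m0).dec]
      have e6 := A0.a0
      have h100 : 1 ≤ Λ ^ 100 := one_le_pow₀ hΛ1.le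
      calc r * (Λ ^ y.1) ^ 2 * (Λ ^ y.2.1) ^ 2 * (Λ ^ y.2.2) ^ 2
          ≤ r * (e t0 : ℝ) ^ 2 * (u t0 : ℝ) ^ 2 * (v t0 : ℝ) ^ 2 := by gcongr
        _ = (r : ℝ) * (t0 : ℝ) ^ 2 := by rw [e5]; ring
        _ ≤ (r : ℝ) * (t0 : ℝ) ^ 2 * Λ ^ 100 := le_mul_of_one_le_right (by positivity) h100
        _ ≤ _ := e6
    · -- l2
      refine le_trans ?_ A0.a1
      calc (G1 : ℝ) * r * (Λ ^ y.1) ^ 2 * (Λ ^ y.2.1) ^ 2 * Λ ^ 1000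
          ≤ (G1 : ℝ) * r * (e t0 : ℝ) ^ 2 * (u t0 : ℝ) ^ 2 * Λ ^ 1010 := by
            have := hpw (m := 1000) (n := 1010) (by norm_num)
            gcongr
        _ = _ := by ring
    · -- l3
      refine le_trans ?_ A0.a2
      have := hpw (m := 1000) (n := 1010) (by norm_num)
      gcongr
    · -- l4
      refine le_trans ?_ A0.a3
      have := hpw (m := 1000) (n := 1010) (by norm_num)
      gcongr
    · -- l5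
      have h1 : (G1 : ℝ) ^ 18 * Λ ^ 1000 * Λ ^ 2 ≤ r * (Λ ^ y.2.1) ^ 2 * Λ ^ 2 := by
        calc (G1 : ℝ) ^ 18 * Λ ^ 1000 * Λ ^ 2 = (G1 : ℝ) ^ 18 * Λ ^ 1002 := by ring
          _ ≤ (G1 : ℝ) ^ 18 * Λ ^ 1010 := mul_le_mul_of_nonneg_left (hpw (by norm_num)) (by positivity)
          _ ≤ r * (u t0 : ℝ) ^ 2 := A0.a4
          _ ≤ r * (Λ ^ y.2.1 * Λ) ^ 2 := by
              have := wu0.2.1
              gcongr
          _ = _ := by ring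
      exact le_of_mul_le_mul_right h1 (by positivity)
  refine (sum_le_sum hcls).trans (le_of_eq ?_)
  rw [sum_const, nsmul_eq_mul, hJ, card_product, card_product, card_range]
  push_cast
  ring

/-- the bilinear sums for one left modulus -/
theorem blkc2 {X Λ ℓ C : ℝ} (EE : EnvY X Λ ℓ C) (G1 r M N G R k : ℕ) (h : ℤ) (c : ℕ → ℤ)
    (co : ℕ × ℕ → ℤ) (T : Finset ℕ) (e u v : ℕ → ℕ)
    (α β : ℕ → ℝ) (hM : 0 < M) (hN : 0 < N) (hMN : (M : ℝ) * N ≤ 16 * X) (hr : 0 < r) (hG1 : 0 < G1)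
    (hA : ∀ t ∈ T, Adm2 Λ 1 r M N t (e t) (u t) (v t) ∨ Adm2 Λ G1 r M N t (e t) (u t) (v t))
    (hsf : ∀ t ∈ T, Squarefree (r * t)) (hc : IsCoprime h (r : ℤ)) (hct : ∀ t ∈ T, IsCoprime (c t) (t : ℤ))
    (hco : ∀ t ∈ T, ((u t : ℕ) : ℤ) ∣ c t - co (e t, u t)) (hk : ∀ t ∈ T, t.primeFactors.card ≤ k)
    (hG0 : 0 < G) (hG : ∀ t ∈ T, ∀ p : ℕ, p.Prime → p ∣ t → G < p) (hrG : (r : ℝ) * G ≤ N)
    (hR : 16 * X < Λ ^ R)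
    (hα : ∀ m ∈ Ioc M (2 * M), |α m| ≤ ℓ) (hβ : ∀ n ∈ Ioc N (2 * N), |β n| ≤ ℓ) :
    ∑ t ∈ T, |∑ m ∈ Ioc M (2 * M), ∑ n ∈ Ioc N (2 * N), α m * β n *
      (Pl r h (m * n) * Dc t (c t) ((m * n : ℕ) : ℤ))| ≤
      3 ^ k * (2 * ((R : ℝ) ^ 3 * (ℓ * Real.sqrt (39 * ℓ ^ 7 / G + 6 * ℓ ^ 2 * Λ⁻¹) * (M * N / r)))) := by
  classical
  have hst : ∀ t ∈ T, Squarefree t := fun t ht => (Nat.squarefree_mul_iff.1 (hsf t ht)).2.2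
  have hdec : ∀ t ∈ T, e t * u t * v t = t := by
    intro t ht
    rcases hA t ht with h1 | h1
    · exact h1.dec
    · exact h1.dec
  apply col_avg T e u v k (fun t => |∑ m ∈ Ioc M (2 * M), ∑ n ∈ Ioc N (2 * N), α m * β n *
      (Pl r h (m * n) * Dc t (c t) ((m * n : ℕ) : ℤ))|) (fun t => abs_nonneg _) _ hdec hst hk
  intro χ T' hT' hχ
  rw [← sum_filter_add_sum_filter_not T' (fun t => Adm2 Λ 1 r M N t (e t) (u t) (v t))]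
  have hin : ∀ t ∈ T'.filter (fun t => Adm2 Λ 1 r M N t (e t) (u t) (v t)), t ∈ T := fun t ht =>
    hT' (mem_filter.1 ht).1
  have hin2 : ∀ t ∈ T'.filter (fun t => ¬ Adm2 Λ 1 r M N t (e t) (u t) (v t)), t ∈ T := fun t ht =>
    hT' (mem_filter.1 ht).1
  have h1 := blkc2a EE 1 r M N G R h c co (T'.filter (fun t => Adm2 Λ 1 r M N t (e t) (u t) (v t))) e u v χ α β
    hM hN hMN hr one_pos
    (fun t ht => (mem_filter.1 ht).2) (fun t ht => hsf t (hin t ht)) hc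
    (fun t ht => hct t (hin t ht)) (fun t ht => hco t (hin t ht)) (fun t ht => hχ t (mem_filter.1 ht).1) hG0
    (fun t ht => hG t (hin t ht)) hrG hR hα hβ
  have h2 := blkc2a EE G1 r M N G R h c co (T'.filter (fun t => ¬ Adm2 Λ 1 r M N t (e t) (u t) (v t))) e u v χ α β
    hM hN hMN hr hG1
    (fun t ht => (hA t (hin2 t ht)).resolve_left (mem_filter.1 ht).2) (fun t ht => hsf t (hin2 t ht)) hc
    (fun t ht => hct t (hin2 t ht)) (fun t ht => hco t (hin2 t ht)) (fun t ht => hχ t (mem_filter.1 ht).1) hG0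
    (fun t ht => hG t (hin2 t ht)) hrG hR hα hβ
  linarith

end Pool.Agent.Helper91K1.T
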