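import Mathlib
import Pool.Agent.R503.N.Tel
import Pool.Agent.Helper91K1.T.BlkG

/-! Telescoping over the factors of the modulus, with classes depending on the modulus
(adapted from `Pool.Agent.R503.N.Tel`). -/

set_option autoImplicit false

open Finset

namespace Pool.Agent.Helper91K1.T

open Pool.Agent.Y826.Z Pool.Agent.Y826.Z.OB Pool.Agent.R503.N

lemma Pl_congr (q : ℕ) (c c' : ℤ) (h : (q : ℤ) ∣ c - c') (x : ℕ) : Pl q c x = Pl q c' x := by
  unfold Pl
  congr 1
  rw [eq_iff_iff]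
  have : (x : ℤ) - c' = ((x : ℤ) - c) + (c - c') := by ring
  rw [this]
  exact (dvd_add_left h).symm

lemma Dc_congr (t : ℕ) (c c' : ℤ) (h : (t : ℤ) ∣ c - c') (x : ℤ) : Dc t c x = Dc t c' x := by
  unfold Dc
  congr 2
  rw [eq_iff_iff]
  have : x - c' = (x - c) + (c - c') := by ring
  rw [this]
  exact (dvd_add_left h).symm

lemma bil_congr (M N : ℕ) (α β : ℕ → ℝ) (c c' : ℤ) (q t : ℕ) (h : ((q * t : ℕ) : ℤ) ∣ c - c') :
    bil M N α β c q t = bil M N α β c' q t := by
  have h1 : (q : ℤ) ∣ c - c' := (Int.natCast_dvd_natCast.2 (Dvd.intro _ rfl)).trans h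
  have h2 : (t : ℤ) ∣ c - c' := (Int.natCast_dvd_natCast.2 (Dvd.intro_left _ rfl)).trans h
  unfold bil
  refine sum_congr rfl fun m _ => sum_congr rfl fun n _ => ?_
  rw [Pl_congr q c c' h1, Dc_congr t c c' h2]

/-- families of moduli -/
structure FamG (X Λ : ℝ) (G1 q0 M N G k0 : ℕ) (c : ℕ → ℤ) (D : Set ℕ) : Prop where
  q0p : 0 < q0
  sf : ∀ t ∈ D, Squarefree (q0 * t)
  cc : ∀ t ∈ D, IsCoprime (c t) ((q0 * t : ℕ) : ℤ)
  pr : ∀ t ∈ D, ∀ p : ℕ, p.Prime → p ∣ t → G < p
  kk : ∀ t ∈ D, t.primeFactors.card ≤ k0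
  dc : ∀ t ∈ D, t ≠ 1 → ∃ t1 e u v : ℕ, t1 * (e * u * v) = t ∧ e * u * v ≠ 1 ∧ t1 ∈ D ∧
    (Adm2 Λ 1 (q0 * t1) M N (e * u * v) e u v ∨ Adm2 Λ G1 (q0 * t1) M N (e * u * v) e u v) ∧
    ((q0 * t1 : ℕ) : ℝ) * G ≤ N ∧
    ((q0 * t1 : ℕ) : ℤ) ∣ c t - c t1 ∧ (u : ℤ) ∣ c t - c (t1 * (e * u))
  bd : ∀ t ∈ D, (t : ℝ) ≤ X ^ 10

theorem telG {X Λ ℓ C : ℝ} (EE : EnvY X Λ ℓ C) (G1 q0 M N G k0 R : ℕ) (c : ℕ → ℤ) (D : Set ℕ)
    (hM : 0 < M) (hN : 0 < N) (hMN : (M : ℝ) * N ≤ 16 * X) (F : FamG X Λ G1 q0 M N G k0 c D)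
    (hG1 : 0 < G1) (hG0 : 0 < G) (hR : 16 * X < Λ ^ R) (K : ℝ)
    (hK : 3 ^ k0 * (2 * ((R : ℝ) ^ 3 * (ℓ * Real.sqrt (39 * ℓ ^ 7 / G + 6 * ℓ ^ 2 * Λ⁻¹)))) ≤ K) (k : ℕ) :
    ∀ (T : Finset ℕ) (α β : ℕ → ℝ), (∀ t ∈ T, t ∈ D) → (∀ t ∈ T, t.primeFactors.card ≤ k) →
    (∀ m ∈ Ioc M (2 * M), |α m| ≤ ℓ) → (∀ n ∈ Ioc N (2 * N), |β n| ≤ ℓ) →
    ∑ t ∈ T, |bil M N α β (c t) q0 t| ≤ k * (ℓ ^ 2) ^ k * K * (M * N / q0) := by
  classical
  have E := EE.E
  have hℓ1 := E.l1
  have hℓ0 : 0 ≤ ℓ := le_trans zero_le_one hℓ1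
  have hK0 : 0 ≤ K := le_trans (by positivity) hK
  have hq0 : (0 : ℝ) < q0 := by exact_mod_cast F.q0p
  have hX := E.hX
  have hdpos : ∀ t ∈ D, 0 < t := by
    intro t ht
    refine Nat.pos_of_ne_zero fun h0 => ?_
    have := (F.sf t ht).ne_zero
    rw [h0, mul_zero] at this
    exact this rfl
  induction k with
  | zero =>
    intro T α β hT hk _ _
    have : ∑ t ∈ T, |bil M N α β (c t) q0 t| = 0 := by
      refine sum_eq_zero fun t ht => ?_
      have h1 := hk t ht
      have h2 : t.primeFactors = ∅ := card_eq_zero.1 (Nat.le_zero.1 h1)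
      have h4 := (hdpos t (hT t ht)).ne'
      rw [Nat.primeFactors_eq_empty] at h2
      have h5 : t = 1 := by omega
      rw [h5, bil_one, abs_zero]
    rw [this]
    positivity
  | succ k ih =>
    intro T α β hT hk hα hβ
    choose! t1 e u v hdec using F.dc
    set t2 : ℕ → ℕ := fun t => e t * u t * v t with ht2
    set T0 := T.filter (fun t => t ≠ 1) with hT0
    have hm0 : ∀ t ∈ T0, t ∈ T ∧ t ∈ D ∧ t ≠ 1 := by
      intro t ht
      rw [hT0, mem_filter] at ht
      exact ⟨ht.1, hT t ht.1, ht.2⟩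
    have hprod : ∀ t ∈ T0, t1 t * t2 t = t := fun t ht => (hdec t (hm0 t ht).2.1 (hm0 t ht).2.2).1
    have e0 : ∑ t ∈ T, |bil M N α β (c t) q0 t| = ∑ t ∈ T0, |bil M N α β (c t) q0 t| := by
      rw [hT0, sum_filter]
      refine sum_congr rfl fun t _ => ?_
      by_cases h : t = 1
      · rw [h, bil_one, abs_zero]; simp
      · rw [if_pos h]
    have hd1 : ∀ t ∈ T0, t1 t ∈ D := fun t ht => (hdec t (hm0 t ht).2.1 (hm0 t ht).2.2).2.2.1
    have hcg : ∀ t ∈ T0, ((q0 * t1 t : ℕ) : ℤ) ∣ c t - c (t1 t) := fun t ht =>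
      (hdec t (hm0 t ht).2.1 (hm0 t ht).2.2).2.2.2.2.2.1
    have e1 : ∀ t ∈ T0, |bil M N α β (c t) q0 t| ≤ |bil M N α β (c t) (q0 * t1 t) (t2 t)| +
        (1 / (Nat.totient (t2 t) : ℝ)) * |bil M N (rs α (t2 t)) (rs β (t2 t)) (c (t1 t)) q0 (t1 t)| := by
      intro t ht
      have h1 := hprod t ht
      have h2 := F.sf t (hm0 t ht).2.1
      have h3 := bil_tel M N α β (c t) q0 (t1 t) (t2 t) (by rw [h1]; exact h2)
      rw [h1, bil_congr M N (rs α (t2 t)) (rs β (t2 t)) (c t) (c (t1 t)) q0 (t1 t) (hcg t ht)] at h3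
      rw [h3]
      refine (abs_add_le _ _).trans ?_
      rw [abs_mul, abs_of_nonneg (by positivity : (0 : ℝ) ≤ 1 / (Nat.totient (t2 t) : ℝ))]
    rw [e0]
    refine (sum_le_sum e1).trans ?_
    rw [sum_add_distrib]
    set Y : ℕ := ⌊X ^ 10⌋₊ with hY
    have hX10 : 1 ≤ X ^ 10 := one_le_pow₀ (by linarith)
    have hYr : (Y : ℝ) ≤ X ^ 10 := Nat.floor_le (by positivity)
    have hY0 : 0 < Y := Nat.floor_pos.2 hX10
    have hlogY : 1 + Real.log (Y : ℝ) ≤ ℓ := by
      refine le_trans ?_ E.hl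
      have := Real.log_le_log (by exact_mod_cast hY0 : (0 : ℝ) < Y) hYr
      linarith
    have hD1 : ∀ t ∈ D, 0 < t ∧ t ≤ Y ∧ 1 ∣ t := fun t ht => ⟨hdpos t ht, Nat.le_floor (F.bd t ht), one_dvd _⟩
    have hd2 : ∀ t ∈ T0, 0 < t2 t ∧ t2 t ≤ Y := by
      intro t ht
      have h1 := hprod t ht
      have h2 := hD1 t (hm0 t ht).2.1
      have h3 : t2 t ∣ t := Dvd.intro_left _ h1
      exact ⟨Nat.pos_of_dvd_of_pos h3 h2.1, (Nat.le_of_dvd h2.1 h3).trans h2.2.1⟩
    -- first part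
    have P1 : ∑ t ∈ T0, |bil M N α β (c t) (q0 * t1 t) (t2 t)| ≤ ℓ ^ 2 * K * (M * N / q0) := by
      have hmaps : ∀ t ∈ T0, t1 t ∈ T0.image t1 := fun t ht => mem_image_of_mem _ ht
      rw [← sum_fiberwise_of_maps_to hmaps]
      have hs : ∀ s ∈ T0.image t1, ∑ t ∈ T0.filter (fun t => t1 t = s), |bil M N α β (c t) (q0 * t1 t) (t2 t)| ≤
          (K * (M * N / q0)) * (1 / (s : ℝ)) := by
        intro s hs
        have hsD : s ∈ D := by
          rw [mem_image] at hs
          obtain ⟨t, ht, rfl⟩ := hs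
          exact hd1 t ht
        have hspos := hdpos s hsD
        set Fi := T0.filter (fun t => t1 t = s) with hFi
        have hfi : ∀ t ∈ Fi, t ∈ T0 ∧ s * t2 t = t := by
          intro t ht
          rw [hFi, mem_filter] at ht
          refine ⟨ht.1, ?_⟩
          rw [← ht.2]
          exact hprod t ht.1
        have e2 : ∑ t ∈ Fi, |bil M N α β (c t) (q0 * t1 t) (t2 t)| =
            ∑ w ∈ Fi.image t2, |∑ m ∈ Ioc M (2 * M), ∑ n ∈ Ioc N (2 * N), α m * β n *
              (Pl (q0 * s) (c s) (m * n) * Dc w (c (s * w)) ((m * n : ℕ) : ℤ))| := by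
          rw [sum_image]
          · refine sum_congr rfl fun t ht => ?_
            have h5 := (hfi t ht).2
            rw [hFi, mem_filter] at ht
            have h6 := hcg t ht.1
            rw [ht.2] at h6 ⊢
            rw [h5]
            unfold bil
            congr 1
            refine sum_congr rfl fun m _ => sum_congr rfl fun n _ => ?_
            rw [Pl_congr (q0 * s) (c t) (c s) h6]
          · intro a ha b hb hab
            rw [← (hfi a ha).2, ← (hfi b hb).2, hab]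
        rw [e2]
        have hw : ∀ w ∈ Fi.image t2, s * w ∈ T0 ∧ t1 (s * w) = s ∧ t2 (s * w) = w := by
          intro w hw
          rw [mem_image] at hw
          obtain ⟨t, ht, rfl⟩ := hw
          have h1 := hfi t ht
          rw [h1.2]
          refine ⟨h1.1, ?_, rfl⟩
          rw [hFi, mem_filter] at ht
          exact ht.2
        have hA : ∀ w ∈ Fi.image t2, (Adm2 Λ 1 (q0 * s) M N w (e (s * w)) (u (s * w)) (v (s * w)) ∨
            Adm2 Λ G1 (q0 * s) M N w (e (s * w)) (u (s * w)) (v (s * w))) ∧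
            ((q0 * s : ℕ) : ℝ) * G ≤ N ∧
            ((u (s * w) : ℕ) : ℤ) ∣ c (s * w) - c (s * (e (s * w) * u (s * w))) := by
          intro w hwm
          obtain ⟨a1, a2, a3⟩ := hw w hwm
          have h1 := hdec (s * w) (hm0 _ a1).2.1 (hm0 _ a1).2.2
          rw [a2] at h1
          have a4 : e (s * w) * u (s * w) * v (s * w) = w := a3
          rw [a4] at h1
          exact ⟨h1.2.2.2.1, h1.2.2.2.2.1, h1.2.2.2.2.2.2⟩
        by_cases hne : (Fi.image t2).Nonempty
        swap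
        · rw [not_nonempty_iff_eq_empty] at hne
          rw [hne, sum_empty]
          positivity
        obtain ⟨w0, hw0⟩ := hne
        have hb := blkc2 EE G1 (q0 * s) M N G R k0 (c s) (fun w => c (s * w)) (fun o => c (s * (o.1 * o.2)))
          (Fi.image t2) (fun w => e (s * w)) (fun w => u (s * w))
          (fun w => v (s * w)) α β hM hN hMN (Nat.mul_pos F.q0p hspos) hG1 (fun w hwm => (hA w hwm).1)
          (fun w hwm => by
            obtain ⟨a1, a2, a3⟩ := hw w hwm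
            rw [mul_assoc]
            exact F.sf _ (hm0 _ a1).2.1)
          (F.cc s hsD)
          (fun w hwm => by
            obtain ⟨a1, a2, a3⟩ := hw w hwm
            exact (F.cc _ (hm0 _ a1).2.1).of_isCoprime_of_dvd_right
              (Int.natCast_dvd_natCast.2 ⟨q0 * s, by ring⟩))
          (fun w hwm => (hA w hwm).2.2)
          (fun w hwm => by
            obtain ⟨a1, a2, a3⟩ := hw w hwm
            have h1 := F.kk _ (hm0 _ a1).2.1
            refine le_trans (card_le_card (Nat.primeFactors_mono (Dvd.intro_left _ rfl) ?_)) h1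
            exact (hdpos _ (hm0 _ a1).2.1).ne')
          hG0
          (fun w hwm p hp hpw => by
            obtain ⟨a1, a2, a3⟩ := hw w hwm
            exact F.pr _ (hm0 _ a1).2.1 p hp (hpw.mul_left s))
          (hA w0 hw0).2.1 hR hα hβ
        refine hb.trans ?_
        have hsr : (0 : ℝ) < s := by exact_mod_cast hspos
        calc 3 ^ k0 * (2 * ((R : ℝ) ^ 3 * (ℓ * Real.sqrt (39 * ℓ ^ 7 / G + 6 * ℓ ^ 2 * Λ⁻¹) * (M * N / ((q0 * s : ℕ) : ℝ)))))
            = (3 ^ k0 * (2 * ((R : ℝ) ^ 3 * (ℓ * Real.sqrt (39 * ℓ ^ 7 / G + 6 * ℓ ^ 2 * Λ⁻¹))))) *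
                ((M * N / q0) * (1 / (s : ℝ))) := by
              push_cast
              field_simp
          _ ≤ K * ((M * N / q0) * (1 / (s : ℝ))) := mul_le_mul_of_nonneg_right hK (by positivity)
          _ = _ := by ring
      refine (sum_le_sum hs).trans ?_
      rw [← mul_sum]
      have hS := sum_mult 1 Y one_pos (T0.image t1) (fun s hs => by
        rw [mem_image] at hs
        obtain ⟨t, ht, rfl⟩ := hs
        exact hD1 _ (hd1 t ht))
      rw [Nat.cast_one, div_one] at hS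
      have hS2 : ∑ s ∈ T0.image t1, (1 / (s : ℝ)) ≤ ℓ ^ 2 := by
        refine (hS.trans hlogY).trans ?_
        nlinarith
      calc K * (M * N / q0) * ∑ s ∈ T0.image t1, (1 / (s : ℝ)) ≤ K * (M * N / q0) * ℓ ^ 2 :=
            mul_le_mul_of_nonneg_left hS2 (by positivity)
        _ = _ := by ring
    -- second part
    have P2 : ∑ t ∈ T0, (1 / (Nat.totient (t2 t) : ℝ)) * |bil M N (rs α (t2 t)) (rs β (t2 t)) (c (t1 t)) q0 (t1 t)| ≤
        ℓ ^ 2 * (k * (ℓ ^ 2) ^ k * K * (M * N / q0)) := by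
      have hmaps : ∀ t ∈ T0, t2 t ∈ T0.image t2 := fun t ht => mem_image_of_mem _ ht
      rw [← sum_fiberwise_of_maps_to hmaps]
      have hs : ∀ w ∈ T0.image t2, ∑ t ∈ T0.filter (fun t => t2 t = w),
          (1 / (Nat.totient (t2 t) : ℝ)) * |bil M N (rs α (t2 t)) (rs β (t2 t)) (c (t1 t)) q0 (t1 t)| ≤
          (k * (ℓ ^ 2) ^ k * K * (M * N / q0)) * (1 / (Nat.totient w : ℝ)) := by
        intro w hw
        set Fi := T0.filter (fun t => t2 t = w) with hFi
        have hfi : ∀ t ∈ Fi, t ∈ T0 ∧ t2 t = w ∧ t1 t * w = t := by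
          intro t ht
          rw [hFi, mem_filter] at ht
          refine ⟨ht.1, ht.2, ?_⟩
          have := hprod t ht.1
          rw [ht.2] at this
          exact this
        have e2 : ∑ t ∈ Fi, (1 / (Nat.totient (t2 t) : ℝ)) * |bil M N (rs α (t2 t)) (rs β (t2 t)) (c (t1 t)) q0 (t1 t)| =
            (∑ s ∈ Fi.image t1, |bil M N (rs α w) (rs β w) (c s) q0 s|) * (1 / (Nat.totient w : ℝ)) := by
          rw [sum_image, sum_mul]
          · refine sum_congr rfl fun t ht => ?_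
            rw [(hfi t ht).2.1, mul_comm]
          · intro a ha b hb hab
            rw [← (hfi a ha).2.2, ← (hfi b hb).2.2, hab]
        rw [e2]
        apply mul_le_mul_of_nonneg_right _ (by positivity)
        apply ih
        · intro s hs
          rw [mem_image] at hs
          obtain ⟨t, ht, rfl⟩ := hs
          exact hd1 t (hfi t ht).1
        · intro s hs
          rw [mem_image] at hs
          obtain ⟨t, ht, rfl⟩ := hs
          obtain ⟨a1, a2, a3⟩ := hfi t ht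
          have h1 := hk t (hm0 t a1).1
          have h2 : Squarefree t := (Nat.squarefree_mul_iff.1 (F.sf t (hm0 t a1).2.1)).2.2
          rw [← a3, Nat.squarefree_mul_iff] at h2
          rw [← a3, h2.1.primeFactors_mul, card_union_of_disjoint h2.1.disjoint_primeFactors] at h1
          have h3 : 0 < w.primeFactors.card := by
            rw [card_pos, Nat.nonempty_primeFactors]
            have h4 := (hdec t (hm0 t a1).2.1 (hm0 t a1).2.2).2.1
            have h5 : t2 t ≠ 1 := h4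
            rw [a2] at h5
            have h6 := (hd2 t a1).1
            rw [a2] at h6
            omega
          omega
        · intro m hm; exact rs_abs (hα m hm)
        · intro n hn; exact rs_abs (hβ n hn)
      refine (sum_le_sum hs).trans ?_
      rw [← mul_sum]
      have hS := sum_phi (T0.image t2) 1 Y ℓ one_pos (fun s hs => by
        rw [mem_image] at hs
        obtain ⟨t, ht, rfl⟩ := hs
        exact ⟨(hd2 t ht).1, (hd2 t ht).2, one_dvd _⟩) (fun n hn hnY => by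
          have h1 := E.ht n hn ((Nat.cast_le.2 hnY).trans hYr)
          calc tau n = tau n ^ 1 := (pow_one _).symm
            _ ≤ tau n ^ 3 := pow_le_pow_right₀ (tau_ge_one hn) (by norm_num)
            _ ≤ ℓ := h1) hlogY
      rw [Nat.cast_one, div_one] at hS
      calc (k * (ℓ ^ 2) ^ k * K * (M * N / q0)) * ∑ w ∈ T0.image t2, (1 / (Nat.totient w : ℝ))
          ≤ (k * (ℓ ^ 2) ^ k * K * (M * N / q0)) * ℓ ^ 2 := mul_le_mul_of_nonneg_left hS (by positivity)
        _ = _ := by ring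
    refine (add_le_add P1 P2).trans ?_
    have h1 : 1 ≤ (ℓ ^ 2) ^ k := one_le_pow₀ (one_le_pow₀ hℓ1)
    have h2 : 0 ≤ K * (M * N / q0) := by positivity
    calc ℓ ^ 2 * K * (M * N / q0) + ℓ ^ 2 * (k * (ℓ ^ 2) ^ k * K * (M * N / q0))
        = ℓ ^ 2 * (1 + k * (ℓ ^ 2) ^ k) * (K * (M * N / q0)) := by ring
      _ ≤ ℓ ^ 2 * ((ℓ ^ 2) ^ k + k * (ℓ ^ 2) ^ k) * (K * (M * N / q0)) := by gcongr
      _ = _ := by
          push_cast
          ring

end Pool.Agent.Helper91K1.T
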