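import Mathlib
import Pool.Agent.R503.N.Vau
import Pool.Agent.Helper91K1.T.TelG

/-! Factorisations of smooth moduli along chains of ancestors. -/

set_option autoImplicit false

open Finset

namespace Pool.Agent.Helper91K1.T

open Pool.Agent.Y826.Z Pool.Agent.Y826.Z.OB Pool.Agent.R503.N

/-- `t` is reached from `d` inside `D` by steps along which the classes are compatible -/
inductive Anc (q0 : ℕ) (z : ℝ) (c : ℕ → ℤ) (D : Set ℕ) (d : ℕ) : ℕ → Prop
  | refl : d ∈ D → Anc q0 z c D d d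
  | step (t b : ℕ) : Anc q0 z c D d t → 1 < b → (b : ℝ) ≤ z → t * b ∈ D →
      ((q0 * t : ℕ) : ℤ) ∣ c (t * b) - c t → Anc q0 z c D d (t * b)

section
variable {q0 : ℕ} {z : ℝ} {c : ℕ → ℤ} {D : Set ℕ} {d t : ℕ}

lemma Anc.mem (h : Anc q0 z c D d t) : t ∈ D := by
  cases h with
  | refl h => exact h
  | step t b _ _ _ h _ => exact h

lemma Anc.mem_left (h : Anc q0 z c D d t) : d ∈ D := by
  induction h with
  | refl h => exact h
  | step t b _ _ _ _ _ ih => exact ih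

lemma Anc.dvd (h : Anc q0 z c D d t) : d ∣ t := by
  induction h with
  | refl h => exact dvd_rfl
  | step t b _ _ _ _ _ ih => exact ih.mul_right b

lemma Anc.cong (h : Anc q0 z c D d t) : ((q0 * d : ℕ) : ℤ) ∣ c t - c d := by
  induction h with
  | refl h => simp
  | step t b h1 _ _ _ h2 ih =>
    have h3 : ((q0 * d : ℕ) : ℤ) ∣ ((q0 * t : ℕ) : ℤ) :=
      Int.natCast_dvd_natCast.2 (Nat.mul_dvd_mul_left q0 h1.dvd)
    have h4 := dvd_add (h3.trans h2) ih
    rwa [sub_add_sub_cancel] at h4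

lemma Anc.greedy (h : Anc q0 z c D d t) {Y : ℝ} (hY : 1 ≤ Y) :
    ∃ s, Anc q0 z c D d s ∧ Anc q0 z c D s t ∧ (s : ℝ) ≤ d * Y ∧ (s = t ∨ (d : ℝ) * Y < s * z) := by
  induction h with
  | refl h =>
    exact ⟨d, Anc.refl h, Anc.refl h, le_mul_of_one_le_right (Nat.cast_nonneg d) hY, Or.inl rfl⟩
  | step t b h1 h2 h3 h4 h5 ih =>
    obtain ⟨s, s1, s2, s3, s4⟩ := ih
    have s5 := Anc.step t b s2 h2 h3 h4 h5
    rcases s4 with h6 | h6
    · by_cases h7 : ((t * b : ℕ) : ℝ) ≤ d * Y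
      · exact ⟨t * b, Anc.step t b h1 h2 h3 h4 h5, Anc.refl h4, h7, Or.inl rfl⟩
      · refine ⟨s, s1, s5, s3, Or.inr ?_⟩
        rw [not_le] at h7
        push_cast at h7
        refine h7.trans_le ?_
        rw [h6]
        exact mul_le_mul_of_nonneg_left h3 (Nat.cast_nonneg t)
    · exact ⟨s, s1, s5, s3, Or.inr h6⟩

end

/-- coherent families of moduli and classes -/
structure CohD (q0 G : ℕ) (z P : ℝ) (c : ℕ → ℤ) (D : Set ℕ) : Prop where
  mem : ∀ t ∈ D, t ∈ DD0 q0 G z P (c t) ∧ IsCoprime (c t) (q0 : ℤ)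
  par : ∀ t ∈ D, t ≠ 1 → ∃ b : ℕ, 1 < b ∧ (b : ℝ) ≤ z ∧ b ∣ t ∧ t / b ∈ D ∧
    ((q0 * (t / b) : ℕ) : ℤ) ∣ c t - c (t / b)

lemma CohD.one_anc {q0 G : ℕ} {z P : ℝ} {c : ℕ → ℤ} {D : Set ℕ} (H : CohD q0 G z P c D) :
    ∀ t ∈ D, Anc q0 z c D 1 t := by
  intro t
  induction t using Nat.strong_induction_on with
  | _ t ih =>
    intro ht
    by_cases h1 : t = 1
    · rw [h1] at ht ⊢
      exact Anc.refl ht
    obtain ⟨b, b1, b2, b3, b4, b5⟩ := H.par t ht h1
    have ht0 : 0 < t := D_pos (H.mem t ht).1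
    have e : t / b * b = t := Nat.div_mul_cancel b3
    have h2 := ih (t / b) (Nat.div_lt_self ht0 b1) b4
    have h3 := Anc.step (t / b) b h2 b1 b2 (by rw [e]; exact ht) (by rw [e]; exact b5)
    rwa [e] at h3

theorem fam_mkG (X Λ z P G' Vm Rm : ℝ) (G1 q0 M N G k0 : ℕ) (c : ℕ → ℤ) (D : Set ℕ) (H : CohD q0 G z P c D)
    (hΛ : 1 ≤ Λ) (hz : 1 ≤ z) (hG' : z ^ 2 * Λ ^ 1010 ≤ G')
    (hG : Λ ^ 1010 ≤ (G : ℝ) ^ 2) (hGG : (G : ℝ) ≤ G') (hM : 0 < M) (hN : 0 < N) (hNM : N ≤ M) (hq : 0 < q0)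
    (hG1 : 0 < G1) (hR1 : (q0 : ℝ) ≤ Rm) (hR2 : Rm * G' ≤ N) (hR3 : (G1 : ℝ) * Rm * Λ ^ 1010 ≤ M)
    (hR4 : (G1 : ℝ) ^ 18 * Λ ^ 1010 * z ≤ Rm) (hV : 1 ≤ Vm)
    (hPR : P ^ 2 * z * Λ ^ 100 ≤ (G1 : ℝ) ^ 2 * M * Rm)
    (hPV : P ^ 2 * G1 * z ^ 3 * Λ ^ 1010 ≤ Vm ^ 2 * (M * Rm))
    (hVN : Vm ^ 4 * (G1 : ℝ) ^ 16 * Λ ^ 1010 ≤ N)
    (hVE : M * z ^ 2 * (G1 : ℝ) ^ 24 * Vm ^ 4 * Λ ^ 1010 ≤ (N : ℝ) ^ 3)
    (hPX : P ≤ X ^ 10) (hk : ∀ t ∈ D, t.primeFactors.card ≤ k0) :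
    FamG X Λ G1 q0 M N G k0 c D := by
  have hz0 : 0 < z := by linarith
  have hΛ0 : 0 < Λ := by linarith
  have hV0 : 0 < Vm := by linarith
  have hpw : ∀ n : ℕ, 1 ≤ Λ ^ n := fun n => one_le_pow₀ hΛ
  have hzz : 1 ≤ z ^ 2 := one_le_pow₀ hz
  have hG'1 : 1 ≤ G' := by
    refine le_trans ?_ hG'
    exact one_le_mul_of_one_le_of_one_le hzz (hpw _)
  have hG'0 : 0 < G' := by linarith
  have hMr : (0 : ℝ) < M := by exact_mod_cast hM
  have hNr : (0 : ℝ) < N := by exact_mod_cast hN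
  have hN1 : (1 : ℝ) ≤ N := by exact_mod_cast hN
  have hNMr : (N : ℝ) ≤ M := by exact_mod_cast hNM
  have hqr : (1 : ℝ) ≤ q0 := by exact_mod_cast hq
  have hqr0 : (0 : ℝ) < q0 := by linarith
  have hRm0 : 0 < Rm := by linarith
  have hΓ1 : (1 : ℝ) ≤ G1 := by exact_mod_cast hG1
  have hΓ0 : (0 : ℝ) < G1 := by linarith
  have hLN : Λ ^ 1010 ≤ N := by
    calc Λ ^ 1010 = 1 * 1 * Λ ^ 1010 := by ring
      _ ≤ Vm ^ 4 * (G1 : ℝ) ^ 16 * Λ ^ 1010 := by
          have h1 : 1 ≤ Vm ^ 4 := one_le_pow₀ hV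
          have h2 : 1 ≤ (G1 : ℝ) ^ 16 := one_le_pow₀ hΓ1
          gcongr
      _ ≤ N := hVN
  have hpos : ∀ t ∈ D, 0 < t := fun t ht => D_pos (H.mem t ht).1
  refine ⟨hq, fun t ht => (H.mem t ht).1.1, ?_, fun t ht p hp hd => ((H.mem t ht).1.2.2.1 p hp hd).1, hk, ?_, ?_⟩
  · intro t ht
    obtain ⟨h1, h2⟩ := H.mem t ht
    push_cast
    exact IsCoprime.mul_right h2 h1.2.1
  · -- factorisations
    intro t ht ht1
    have ht0 := hpos t ht
    have htr : (0 : ℝ) < t := by exact_mod_cast ht0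
    by_cases hcase : (q0 : ℝ) * t ≤ Rm
    · -- small moduli: the parent
      obtain ⟨b, b1, b2, b3, b4, b5⟩ := H.par t ht ht1
      have hGb : (G : ℝ) ≤ b := by
        obtain ⟨p, hp, hpb⟩ := Nat.exists_prime_and_dvd b1.ne'
        have h1 := ((H.mem t ht).1.2.2.1 p hp (hpb.trans b3)).1
        have h2 := Nat.le_of_dvd (by omega) hpb
        exact_mod_cast (h1.le.trans h2)
      have hd1 : t / b * b = t := Nat.div_mul_cancel b3
      have hr1 : 0 < t / b := hpos _ b4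
      have hrt : ((t / b : ℕ) : ℝ) ≤ t := by exact_mod_cast Nat.div_le_self t b
      have hr2 : (1 : ℝ) ≤ ((t / b : ℕ) : ℝ) := by exact_mod_cast hr1
      have hrR : ((q0 * (t / b) : ℕ) : ℝ) ≤ Rm := by
        push_cast
        refine le_trans ?_ hcase
        gcongr
      have hrN : ((q0 * (t / b) : ℕ) : ℝ) * G' ≤ N := le_trans (by gcongr) hR2
      have hr3 : (1 : ℝ) ≤ ((q0 * (t / b) : ℕ) : ℝ) := by
        exact_mod_cast Nat.mul_pos hq hr1
      have hb0 : (0 : ℝ) ≤ b := Nat.cast_nonneg b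
      have key : ((q0 * (t / b) : ℕ) : ℝ) * (b : ℝ) ^ 2 * Λ ^ 1010 ≤ N := by
        calc ((q0 * (t / b) : ℕ) : ℝ) * (b : ℝ) ^ 2 * Λ ^ 1010
            ≤ ((q0 * (t / b) : ℕ) : ℝ) * z ^ 2 * Λ ^ 1010 := by gcongr
          _ = ((q0 * (t / b) : ℕ) : ℝ) * (z ^ 2 * Λ ^ 1010) := by ring
          _ ≤ ((q0 * (t / b) : ℕ) : ℝ) * G' := by gcongr
          _ ≤ N := hrN
      refine ⟨t / b, 1, b, 1, ?_, ?_, b4, Or.inl ⟨rfl, ?_, ?_, ?_, ?_, ?_⟩, ?_, b5, ?_⟩
      · simpa using hd1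
      · simpa using b1.ne'
      · simp only [one_mul, mul_one, Nat.cast_one, one_pow]
        refine le_trans ?_ (key.trans hNMr)
        have : Λ ^ 100 ≤ Λ ^ 1010 := pow_le_pow_right₀ hΛ (by norm_num)
        gcongr
      · simp only [one_mul, Nat.cast_one]
        exact key.trans hNMr
      · simpa only [one_mul, mul_one, Nat.cast_one, one_pow] using hLN
      · simp only [mul_one, Nat.cast_one, one_pow]
        refine key.trans ?_
        nlinarith
      · simp only [one_mul, Nat.cast_one, one_pow]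
        calc Λ ^ 1010 ≤ (G : ℝ) ^ 2 := hG
          _ ≤ (b : ℝ) ^ 2 := by gcongr
          _ = 1 * (b : ℝ) ^ 2 := (one_mul _).symm
          _ ≤ ((q0 * (t / b) : ℕ) : ℝ) * (b : ℝ) ^ 2 := by gcongr
      · refine le_trans ?_ hrN
        gcongr
      · rw [one_mul, hd1, sub_self]
        exact dvd_zero _
    · -- large moduli
      rw [not_le] at hcase
      have hA := H.one_anc t ht
      have hY1 : 1 ≤ Rm / q0 := by
        rw [one_le_div hqr0]
        exact hR1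
      obtain ⟨t1, a1, a2, ht1Y, ht1z⟩ := hA.greedy hY1
      rw [Nat.cast_one, one_mul] at ht1Y ht1z
      rw [le_div_iff₀ hqr0] at ht1Y
      have ht1ne : t1 ≠ t := by
        rintro h
        rw [h] at ht1Y
        linarith [mul_comm (q0 : ℝ) t]
      have ht1z' : Rm < t1 * z * q0 := by
        rcases ht1z with h | h
        · exact absurd h ht1ne
        · rwa [div_lt_iff₀ hqr0] at h
      have ht10 : 0 < t1 := hpos t1 a1.mem
      have ht1r : (0 : ℝ) < t1 := by exact_mod_cast ht10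
      set r : ℝ := ((q0 * t1 : ℕ) : ℝ) with hr
      have hre : r = q0 * t1 := by rw [hr]; push_cast; ring
      have hr0 : 0 < r := by rw [hr]; exact_mod_cast Nat.mul_pos hq ht10
      have hrR : r ≤ Rm := by rw [hre]; linarith [mul_comm (q0 : ℝ) t1]
      have hrN : r * G' ≤ N := le_trans (by gcongr) hR2
      have hrz : Rm < r * z := by
        rw [hre]
        have : (t1 : ℝ) * z * q0 = q0 * t1 * z := by ring
        linarith
      -- the factor `e u`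
      have hrM : (G1 : ℝ) * r * Λ ^ 1010 ≤ M := le_trans (by gcongr) hR3
      have hZ1 : 1 ≤ Real.sqrt (M / (G1 * r * Λ ^ 1010)) := by
        rw [Real.one_le_sqrt, one_le_div (by positivity)]
        exact hrM
      obtain ⟨s, a3, a4, hsY, hsz⟩ := a2.greedy hZ1
      obtain ⟨b, hsb⟩ := a3.dvd
      obtain ⟨v, hv⟩ := a4.dvd
      have hs0 : 0 < s := hpos s a4.mem_left
      have hb0 : 0 < b := Nat.pos_of_ne_zero (by rintro rfl; rw [mul_zero] at hsb; omega)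
      have hv0 : 0 < v := Nat.pos_of_ne_zero (by rintro rfl; rw [mul_zero] at hv; omega)
      have hbr : (0 : ℝ) < b := by exact_mod_cast hb0
      have hvr : (0 : ℝ) < v := by exact_mod_cast hv0
      have hv1 : (1 : ℝ) ≤ v := by exact_mod_cast hv0
      have hsr : (s : ℝ) = t1 * b := by rw [hsb]; push_cast; ring
      have hbY : (b : ℝ) ≤ Real.sqrt (M / (G1 * r * Λ ^ 1010)) := by
        rw [hsr] at hsY
        exact le_of_mul_le_mul_left hsY ht1r
      have hb2 : (G1 : ℝ) * r * (b : ℝ) ^ 2 * Λ ^ 1010 ≤ M := by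
        have h1 : (b : ℝ) ^ 2 ≤ M / (G1 * r * Λ ^ 1010) := by
          calc (b : ℝ) ^ 2 ≤ (Real.sqrt (M / (G1 * r * Λ ^ 1010))) ^ 2 := pow_le_pow_left₀ hbr.le hbY 2
            _ = M / (G1 * r * Λ ^ 1010) := Real.sq_sqrt (by positivity)
        rw [le_div_iff₀ (by positivity)] at h1
        calc (G1 : ℝ) * r * (b : ℝ) ^ 2 * Λ ^ 1010 = (b : ℝ) ^ 2 * (G1 * r * Λ ^ 1010) := by ring
          _ ≤ (M : ℝ) := h1
      have htb : t = t1 * b * v := by rw [hv, hsb]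
      have hrbv : r * (b * v) ≤ P := by
        refine le_trans (le_of_eq ?_) (H.mem t ht).1.2.2.2
        rw [hre, htb]
        push_cast
        ring
      have hvV : (v : ℝ) ≤ Vm := by
        rcases hsz with h | h
        · have : v = 1 := by
            rw [h] at hv
            exact Nat.eq_of_mul_eq_mul_left ht0 (by rw [mul_one]; exact hv.symm)
          rw [this, Nat.cast_one]
          exact hV
        · have h0 : Real.sqrt (M / (G1 * r * Λ ^ 1010)) < b * z := by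
            have h' : (t1 : ℝ) * Real.sqrt (M / (G1 * r * Λ ^ 1010)) < t1 * (b * z) := by
              rw [← mul_assoc, ← hsr]
              exact h
            exact lt_of_mul_lt_mul_left h' ht1r.le
          have h1 : M / (G1 * r * Λ ^ 1010) < (b * z) ^ 2 := by
            have := Real.sqrt_lt' (x := M / (G1 * r * Λ ^ 1010)) (by positivity : (0 : ℝ) < b * z)
            exact this.1 h0
          rw [div_lt_iff₀ (by positivity)] at h1
          have h3 : (v : ℝ) ^ 2 * (M * Rm) ≤ Vm ^ 2 * (M * Rm) := by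
            calc (v : ℝ) ^ 2 * (M * Rm) ≤ (v : ℝ) ^ 2 * (((b * z) ^ 2 * (G1 * r * Λ ^ 1010)) * (r * z)) := by
                  gcongr
              _ = (r * (b * v)) ^ 2 * G1 * z ^ 3 * Λ ^ 1010 := by ring
              _ ≤ P ^ 2 * G1 * z ^ 3 * Λ ^ 1010 := by gcongr
              _ ≤ _ := hPV
          have h4 : (v : ℝ) ^ 2 ≤ Vm ^ 2 := le_of_mul_le_mul_right h3 (by positivity)
          exact (abs_le_of_sq_le_sq' h4 hV0.le).2
      -- the factor `u`
      have hRN : Rm ≤ N := (le_mul_of_one_le_right hRm0.le hG'1).trans hR2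
      have hY2 : 1 ≤ Real.sqrt ((N : ℝ) ^ 2 / (r * (G1 : ℝ) ^ 16 * Λ ^ 1010)) := by
        rw [Real.one_le_sqrt, one_le_div (by positivity)]
        have h2 : (G1 : ℝ) ^ 16 * Λ ^ 1010 ≤ N := by
          calc (G1 : ℝ) ^ 16 * Λ ^ 1010 = 1 * (G1 : ℝ) ^ 16 * Λ ^ 1010 := by ring
            _ ≤ Vm ^ 4 * (G1 : ℝ) ^ 16 * Λ ^ 1010 := by
                have h1 : 1 ≤ Vm ^ 4 := one_le_pow₀ hV
                gcongr
            _ ≤ N := hVN
        calc r * (G1 : ℝ) ^ 16 * Λ ^ 1010 = r * ((G1 : ℝ) ^ 16 * Λ ^ 1010) := by ring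
          _ ≤ (N : ℝ) * N := by
              have := hrR.trans hRN
              gcongr
          _ = (N : ℝ) ^ 2 := by ring
      obtain ⟨u, hud, huY, huz⟩ := Pool.Agent.R503.N.greedy z _ b hb0 (fun p hp hd =>
        ((H.mem t ht).1.2.2.1 p hp (by
          rw [htb]
          exact (hd.mul_left t1).mul_right v)).2) hY2
      obtain ⟨e, he⟩ := hud
      have hu0 : 0 < u := Nat.pos_of_ne_zero (by rintro rfl; rw [zero_mul] at he; omega)
      have he0 : 0 < e := Nat.pos_of_ne_zero (by rintro rfl; rw [mul_zero] at he; omega)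
      have hur : (0 : ℝ) < u := by exact_mod_cast hu0
      have hu1 : (1 : ℝ) ≤ u := by exact_mod_cast hu0
      have her : (0 : ℝ) < e := by exact_mod_cast he0
      have hu2 : r * (u : ℝ) ^ 2 * (G1 : ℝ) ^ 16 * Λ ^ 1010 ≤ (N : ℝ) ^ 2 := by
        have h1 : (u : ℝ) ^ 2 ≤ (N : ℝ) ^ 2 / (r * (G1 : ℝ) ^ 16 * Λ ^ 1010) := by
          calc (u : ℝ) ^ 2 ≤ (Real.sqrt ((N : ℝ) ^ 2 / (r * (G1 : ℝ) ^ 16 * Λ ^ 1010))) ^ 2 :=
                pow_le_pow_left₀ hur.le huY 2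
            _ = _ := Real.sq_sqrt (by positivity)
        rw [le_div_iff₀ (by positivity)] at h1
        calc r * (u : ℝ) ^ 2 * (G1 : ℝ) ^ 16 * Λ ^ 1010 = (u : ℝ) ^ 2 * (r * (G1 : ℝ) ^ 16 * Λ ^ 1010) := by ring
          _ ≤ _ := h1
      have hbe : (b : ℝ) = u * e := by rw [he]; push_cast; ring
      have hw : t1 * (e * u * v) = t := by rw [htb, he]; ring
      have hs : t1 * (e * u) = s := by rw [hsb, he]; ring
      refine ⟨t1, e, u, v, hw, ?_, a1.mem, Or.inr ⟨rfl, ?_, ?_, ?_, ?_, ?_⟩, ?_, a2.cong, ?_⟩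
      · intro h1
        rw [h1, mul_one] at hw
        exact ht1ne hw
      · -- a0
        have h1 : r * ((e * u * v : ℕ) : ℝ) ≤ P := by
          refine le_trans (le_of_eq ?_) hrbv
          rw [hbe]
          push_cast
          ring
        have h2 : (r * ((e * u * v : ℕ) : ℝ) ^ 2 * Λ ^ 100) * Rm ≤ ((G1 : ℝ) ^ 2 * M) * Rm := by
          calc (r * ((e * u * v : ℕ) : ℝ) ^ 2 * Λ ^ 100) * Rm
              ≤ (r * ((e * u * v : ℕ) : ℝ) ^ 2 * Λ ^ 100) * (r * z) := by gcongr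
            _ = (r * ((e * u * v : ℕ) : ℝ)) ^ 2 * z * Λ ^ 100 := by ring
            _ ≤ P ^ 2 * z * Λ ^ 100 := by gcongr
            _ ≤ _ := hPR
        exact le_of_mul_le_mul_right h2 hRm0
      · -- a1
        refine le_trans (le_of_eq ?_) hb2
        rw [hbe, ← hr]
        ring
      · -- a2
        rcases huz with h | h
        · have : e = 1 := by
            rw [h] at he
            exact Nat.eq_of_mul_eq_mul_left hb0 (by rw [mul_one]; exact he.symm)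
          rw [this, Nat.cast_one, one_pow, one_mul]
          calc (v : ℝ) ^ 4 * (G1 : ℝ) ^ 9 * Λ ^ 1010 ≤ Vm ^ 4 * (G1 : ℝ) ^ 16 * Λ ^ 1010 := by
                have h2 : (G1 : ℝ) ^ 9 ≤ (G1 : ℝ) ^ 16 := pow_le_pow_right₀ hΓ1 (by norm_num)
                gcongr
            _ ≤ (N : ℝ) := hVN
        · have h1 : (N : ℝ) ^ 2 / (r * (G1 : ℝ) ^ 16 * Λ ^ 1010) < (u * z) ^ 2 := by
            have := Real.sqrt_lt' (x := (N : ℝ) ^ 2 / (r * (G1 : ℝ) ^ 16 * Λ ^ 1010))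
              (by positivity : (0 : ℝ) < u * z)
            exact this.1 h
          rw [div_lt_iff₀ (by positivity)] at h1
          have h2 : (G1 : ℝ) * r * ((u : ℝ) * e) ^ 2 * Λ ^ 1010 ≤ M := by rw [← hbe]; exact hb2
          have h3 : ((e : ℝ) ^ 2 * v ^ 4 * (G1 : ℝ) ^ 9 * Λ ^ 1010) * (N : ℝ) ^ 2 ≤ N * (N : ℝ) ^ 2 := by
            calc ((e : ℝ) ^ 2 * v ^ 4 * (G1 : ℝ) ^ 9 * Λ ^ 1010) * (N : ℝ) ^ 2
                ≤ ((e : ℝ) ^ 2 * v ^ 4 * (G1 : ℝ) ^ 9 * Λ ^ 1010) * ((u * z) ^ 2 * (r * (G1 : ℝ) ^ 16 * Λ ^ 1010)) := by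
                  gcongr
              _ = ((G1 : ℝ) * r * ((u : ℝ) * e) ^ 2 * Λ ^ 1010) * z ^ 2 * (G1 : ℝ) ^ 24 * v ^ 4 * Λ ^ 1010 := by ring
              _ ≤ (M : ℝ) * z ^ 2 * (G1 : ℝ) ^ 24 * Vm ^ 4 * Λ ^ 1010 := by gcongr
              _ ≤ (N : ℝ) ^ 3 := hVE
              _ = N * (N : ℝ) ^ 2 := by ring
          exact le_of_mul_le_mul_right h3 (by positivity)
      · exact hu2
      · -- a4
        have h1 : (G1 : ℝ) ^ 18 * Λ ^ 1010 * z ≤ r * z := hR4.trans hrz.le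
        have h2 : (G1 : ℝ) ^ 18 * Λ ^ 1010 ≤ r := le_of_mul_le_mul_right h1 hz0
        refine h2.trans ?_
        exact le_mul_of_one_le_right hr0.le (one_le_pow₀ hu1)
      · refine le_trans ?_ hrN
        gcongr
      · rw [hs]
        have h1 := a4.cong
        refine dvd_trans (Int.natCast_dvd_natCast.2 ?_) h1
        rw [hsb, he]
        exact ⟨q0 * t1 * e, by ring⟩
  · intro t ht
    refine le_trans ?_ hPX
    refine le_trans ?_ (H.mem t ht).1.2.2.2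
    exact le_mul_of_one_le_left (Nat.cast_nonneg t) hqr

end Pool.Agent.Helper91K1.T
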