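import Mathlib
import Pool.Agent.Helper91K1.T.FacG

/-! Sharp cutoffs, with classes depending on the modulus (adapted from `Pool.Agent.R503.N.Cut`). -/

set_option autoImplicit false

open Finset

namespace Pool.Agent.Helper91K1.T

open Pool.Agent.Y826.Z Pool.Agent.Y826.Z.OB Pool.Agent.R503.N

/-- the trivial bound -/
lemma tbG (q : ℕ) (c : ℕ → ℤ) (ℓ : ℝ) (Y : ℕ) (T : Finset ℕ) (A B : ℕ) (hq : 0 < q) (hℓ : 1 ≤ ℓ)
    (hT : ∀ t ∈ T, 0 < t ∧ t ≤ Y ∧ q.Coprime t) (hτ : ∀ n : ℕ, n ≠ 0 → n ≤ Y → tau n ≤ ℓ)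
    (hlog : 1 + Real.log (Y : ℝ) ≤ ℓ) :
    ∑ t ∈ T, ∑ n ∈ Ioc A B, |ww q (c t) t n| ≤ 2 * ℓ ^ 2 * (((B - A : ℕ) : ℝ) / q + 1) + T.card := by
  have hq0 : (0 : ℝ) < q := by exact_mod_cast hq
  have h1 : ∀ t ∈ T, ∑ n ∈ Ioc A B, |ww q (c t) t n| ≤
      (((B - A : ℕ) : ℝ) / q) * (1 / (t : ℝ)) + 1 + (1 / (Nat.totient t : ℝ)) * (((B - A : ℕ) : ℝ) / q + 1) := by
    intro t ht
    obtain ⟨t0, tY, tc⟩ := hT t ht
    refine (sum_le_sum fun n _ => ww_abs q (c t) t n tc).trans ?_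
    rw [sum_add_distrib, ← mul_sum]
    have h2 := sum_cls A B (q * t) (Nat.mul_pos hq t0) (c t)
    have h3 := sum_cls A B q hq (c t)
    have e : ((B - A : ℕ) : ℝ) / ((q * t : ℕ) : ℝ) = (((B - A : ℕ) : ℝ) / q) * (1 / (t : ℝ)) := by
      push_cast
      rw [div_mul_div_comm, mul_one]
    rw [e] at h2
    exact add_le_add h2 (mul_le_mul_of_nonneg_left h3 (by positivity))
  refine (sum_le_sum h1).trans ?_
  rw [sum_add_distrib, sum_add_distrib, ← mul_sum, ← sum_mul, sum_const, nsmul_eq_mul, mul_one]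
  have h4 := sum_mult 1 Y one_pos T (fun t ht => ⟨(hT t ht).1, (hT t ht).2.1, one_dvd _⟩)
  have h5 := sum_phi T 1 Y ℓ one_pos (fun t ht => ⟨(hT t ht).1, (hT t ht).2.1, one_dvd _⟩) hτ hlog
  rw [Nat.cast_one, div_one] at h4 h5
  have h6 : ∑ t ∈ T, (1 / (t : ℝ)) ≤ ℓ ^ 2 := (h4.trans hlog).trans (by nlinarith)
  have hBA : 0 ≤ ((B - A : ℕ) : ℝ) / q := by positivity
  calc _ ≤ (((B - A : ℕ) : ℝ) / q) * ℓ ^ 2 + T.card + ℓ ^ 2 * (((B - A : ℕ) : ℝ) / q + 1) := by gcongr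
    _ ≤ _ := by nlinarith

/-- removal of the cutoff -/
lemma cutG (x M N R0 : ℕ) (α β : ℕ → ℝ) (c : ℕ → ℤ) (q : ℕ) (ℓ A : ℝ) (T : Finset ℕ) (hN : 0 < N) (hR0 : 0 < R0)
    (hℓ : 0 ≤ ℓ) (hα : ∀ m ∈ Ioc M (2 * M), |α m| ≤ ℓ) (hβ : ∀ n ∈ Ioc N (2 * N), |β n| ≤ ℓ)
    (hA : ∀ α' β' : ℕ → ℝ, (∀ m ∈ Ioc M (2 * M), |α' m| ≤ ℓ) → (∀ n ∈ Ioc N (2 * N), |β' n| ≤ ℓ) →
      ∑ t ∈ T, |bil M N α' β' (c t) q t| ≤ A)
    (hτ : ∀ n : ℕ, n ≠ 0 → n ≤ 4 * M * N → tau n ^ 3 ≤ ℓ) :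
    ∑ t ∈ T, |cb x M N α β (c t) q t| ≤ R0 * A +
      ℓ ^ 3 * ∑ t ∈ T, ∑ n ∈ Ioc (x * R0 / (R0 + 1)) x, |ww q (c t) t n| := by
  classical
  set kp : ℕ → ℕ := fun n => (n - N - 1) * R0 / N with hkp
  set nt : ℕ → ℕ := fun k => N + 1 + (k + 1) * N / R0 with hnt
  have hkR : ∀ n ∈ Ioc N (2 * N), kp n < R0 := by
    intro n hn
    rw [mem_Ioc] at hn
    rw [hkp]
    simp only
    rw [Nat.div_lt_iff_lt_mul hN, mul_comm R0 N]
    exact Nat.mul_lt_mul_of_pos_right (by omega) hR0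
  have hup : ∀ n ∈ Ioc N (2 * N), n ≤ nt (kp n) := by
    intro n hn
    rw [mem_Ioc] at hn
    have h1 : (n - N - 1) * R0 < (kp n + 1) * N := by
      rw [hkp]
      simp only
      have := Nat.lt_div_mul_add (a := (n - N - 1) * R0) hN
      linarith [this, (by ring : ((n - N - 1) * R0 / N + 1) * N = (n - N - 1) * R0 / N * N + N)]
    have h2 : n - N - 1 ≤ (kp n + 1) * N / R0 := by
      rw [Nat.le_div_iff_mul_le hR0]
      exact h1.le
    rw [hnt]
    simp only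
    omega
  have hlo : ∀ n ∈ Ioc N (2 * N), nt (kp n) * R0 ≤ n * R0 + n := by
    intro n hn
    rw [mem_Ioc] at hn
    have h1 : kp n * N ≤ (n - N - 1) * R0 := by
      rw [hkp]
      exact Nat.div_mul_le_self _ _
    have h2 : (kp n + 1) * N / R0 * R0 ≤ (kp n + 1) * N := Nat.div_mul_le_self _ _
    have h3 : N + 1 + (n - N - 1) = n := by omega
    calc nt (kp n) * R0 = (N + 1) * R0 + (kp n + 1) * N / R0 * R0 := by rw [hnt]; ring
      _ ≤ (N + 1) * R0 + (kp n + 1) * N := by omega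
      _ = (N + 1) * R0 + (kp n * N + N) := by ring
      _ ≤ (N + 1) * R0 + ((n - N - 1) * R0 + N) := by omega
      _ = (N + 1 + (n - N - 1)) * R0 + N := by ring
      _ = n * R0 + N := by rw [h3]
      _ ≤ n * R0 + n := by omega
  -- the main part
  set αk : ℕ → ℕ → ℝ := fun k m => ind (m * nt k ≤ x) * α m with hαk
  set βk : ℕ → ℕ → ℝ := fun k n => ind (kp n = k) * β n with hβk
  have hmain : ∑ t ∈ T, |∑ k ∈ range R0, bil M N (αk k) (βk k) (c t) q t| ≤ R0 * A := by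
    calc ∑ t ∈ T, |∑ k ∈ range R0, bil M N (αk k) (βk k) (c t) q t|
        ≤ ∑ t ∈ T, ∑ k ∈ range R0, |bil M N (αk k) (βk k) (c t) q t| := sum_le_sum fun _ _ => abs_sum_le_sum_abs _ _
      _ = ∑ k ∈ range R0, ∑ t ∈ T, |bil M N (αk k) (βk k) (c t) q t| := sum_comm
      _ ≤ ∑ k ∈ range R0, A := by
          refine sum_le_sum fun k _ => hA _ _ ?_ ?_
          · intro m hm
            rw [hαk]
            simp only
            rw [abs_mul, abs_of_nonneg (ind_nonneg _)]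
            exact (mul_le_of_le_one_left (abs_nonneg _) (ind_le_one _)).trans (hα m hm)
          · intro n hn
            rw [hβk]
            simp only
            rw [abs_mul, abs_of_nonneg (ind_nonneg _)]
            exact (mul_le_of_le_one_left (abs_nonneg _) (ind_le_one _)).trans (hβ n hn)
      _ = R0 * A := by rw [sum_const, card_range, nsmul_eq_mul]
  have hbk : ∀ t, ∑ k ∈ range R0, bil M N (αk k) (βk k) (c t) q t =
      ∑ m ∈ Ioc M (2 * M), ∑ n ∈ Ioc N (2 * N), ind (m * nt (kp n) ≤ x) * (α m * β n * ww q (c t) t (m * n)) := by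
    intro t
    unfold bil
    rw [sum_comm]
    refine sum_congr rfl fun m _ => ?_
    rw [sum_comm]
    refine sum_congr rfl fun n hn => ?_
    have e1 : ∀ k ∈ range R0, αk k m * βk k n * (Pl q (c t) (m * n) * Dc t (c t) ((m * n : ℕ) : ℤ)) =
        ind (kp n = k) * (ind (m * nt (kp n) ≤ x) * (α m * β n * ww q (c t) t (m * n))) := by
      intro k _
      rw [hαk, hβk]
      simp only
      unfold ww
      by_cases h : kp n = k
      · rw [← h]; ring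
      · rw [ind_false h]; ring
    rw [sum_congr rfl e1, ← sum_mul, sum_range_eq R0 _ (hkR n hn), one_mul]
  -- the error
  have herr : ∀ t ∈ T, |cb x M N α β (c t) q t - ∑ k ∈ range R0, bil M N (αk k) (βk k) (c t) q t| ≤
      ℓ ^ 3 * ∑ n ∈ Ioc (x * R0 / (R0 + 1)) x, |ww q (c t) t n| := by
    intro t _
    rw [hbk]
    unfold cb
    rw [← sum_sub_distrib]
    refine (abs_sum_le_sum_abs _ _).trans ?_
    have h1 : ∀ m ∈ Ioc M (2 * M), |∑ n ∈ Ioc N (2 * N), ind (m * n ≤ x) * (α m * β n * ww q (c t) t (m * n)) -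
        ∑ n ∈ Ioc N (2 * N), ind (m * nt (kp n) ≤ x) * (α m * β n * ww q (c t) t (m * n))| ≤
        ∑ n ∈ Ioc N (2 * N), ℓ ^ 2 * (ind (m * n ∈ Ioc (x * R0 / (R0 + 1)) x) * |ww q (c t) t (m * n)|) := by
      intro m hm
      rw [← sum_sub_distrib]
      refine (abs_sum_le_sum_abs _ _).trans (sum_le_sum fun n hn => ?_)
      rw [← sub_mul, abs_mul]
      have h2 : |ind (m * n ≤ x) - ind (m * nt (kp n) ≤ x)| ≤ ind (m * n ∈ Ioc (x * R0 / (R0 + 1)) x) := by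
        by_cases a1 : m * nt (kp n) ≤ x
        · have a2 : m * n ≤ x := (Nat.mul_le_mul_left m (hup n hn)).trans a1
          rw [ind_true a1, ind_true a2, sub_self, abs_zero]
          exact ind_nonneg _
        · by_cases a2 : m * n ≤ x
          · have a3 : m * n ∈ Ioc (x * R0 / (R0 + 1)) x := by
              rw [mem_Ioc]
              refine ⟨?_, a2⟩
              rw [Nat.div_lt_iff_lt_mul (by omega)]
              have a4 := hlo n hn
              have a5 : x * R0 < m * nt (kp n) * R0 := Nat.mul_lt_mul_of_pos_right (by omega) hR0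
              calc x * R0 < m * nt (kp n) * R0 := a5
                _ = m * (nt (kp n) * R0) := by ring
                _ ≤ m * (n * R0 + n) := Nat.mul_le_mul_left m a4
                _ = m * n * (R0 + 1) := by ring
            rw [ind_false a1, ind_true a2, ind_true a3, sub_zero, abs_one]
          · rw [ind_false a1, ind_false a2, sub_zero, abs_zero]
            exact ind_nonneg _
      have h3 : |α m * β n * ww q (c t) t (m * n)| ≤ ℓ ^ 2 * |ww q (c t) t (m * n)| := by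
        rw [abs_mul, abs_mul]
        apply mul_le_mul_of_nonneg_right _ (abs_nonneg _)
        calc |α m| * |β n| ≤ ℓ * ℓ := mul_le_mul (hα m hm) (hβ n hn) (abs_nonneg _) hℓ
          _ = ℓ ^ 2 := by ring
      calc _ ≤ ind (m * n ∈ Ioc (x * R0 / (R0 + 1)) x) * (ℓ ^ 2 * |ww q (c t) t (m * n)|) :=
            mul_le_mul h2 h3 (abs_nonneg _) (ind_nonneg _)
        _ = _ := by ring
    refine (sum_le_sum h1).trans ?_
    simp only [← mul_sum]
    have h4 := conv_box M N ℓ hτ (fun y => ind (y ∈ Ioc (x * R0 / (R0 + 1)) x) * |ww q (c t) t y|)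
      (fun y => mul_nonneg (ind_nonneg _) (abs_nonneg _))
    have h5 : ∑ y ∈ Icc 1 (4 * M * N), ind (y ∈ Ioc (x * R0 / (R0 + 1)) x) * |ww q (c t) t y| ≤
        ∑ n ∈ Ioc (x * R0 / (R0 + 1)) x, |ww q (c t) t n| := by
      have e1 : ∑ y ∈ Icc 1 (4 * M * N), ind (y ∈ Ioc (x * R0 / (R0 + 1)) x) * |ww q (c t) t y| =
          ∑ y ∈ (Icc 1 (4 * M * N)).filter (fun y => y ∈ Ioc (x * R0 / (R0 + 1)) x), |ww q (c t) t y| := by
        rw [sum_filter]
        refine sum_congr rfl fun y _ => ?_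
        by_cases h : y ∈ Ioc (x * R0 / (R0 + 1)) x
        · rw [ind_true h, if_pos h, one_mul]
        · rw [ind_false h, if_neg h, zero_mul]
      rw [e1]
      apply sum_le_sum_of_subset_of_nonneg _ (fun _ _ _ => abs_nonneg _)
      intro y hy
      exact (mem_filter.1 hy).2
    calc ℓ ^ 2 * ∑ m ∈ Ioc M (2 * M), ∑ n ∈ Ioc N (2 * N),
          ind (m * n ∈ Ioc (x * R0 / (R0 + 1)) x) * |ww q (c t) t (m * n)|
        ≤ ℓ ^ 2 * (ℓ * ∑ n ∈ Ioc (x * R0 / (R0 + 1)) x, |ww q (c t) t n|) :=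
          mul_le_mul_of_nonneg_left (h4.trans (mul_le_mul_of_nonneg_left h5 hℓ)) (by positivity)
      _ = _ := by ring
  calc ∑ t ∈ T, |cb x M N α β (c t) q t|
      ≤ ∑ t ∈ T, (|∑ k ∈ range R0, bil M N (αk k) (βk k) (c t) q t| +
        |cb x M N α β (c t) q t - ∑ k ∈ range R0, bil M N (αk k) (βk k) (c t) q t|) := by
        refine sum_le_sum fun t _ => ?_
        have := abs_add_le (∑ k ∈ range R0, bil M N (αk k) (βk k) (c t) q t)
          (cb x M N α β (c t) q t - ∑ k ∈ range R0, bil M N (αk k) (βk k) (c t) q t)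
        rwa [add_sub_cancel] at this
    _ ≤ R0 * A + ∑ t ∈ T, ℓ ^ 3 * ∑ n ∈ Ioc (x * R0 / (R0 + 1)) x, |ww q (c t) t n| := by
        rw [sum_add_distrib]
        exact add_le_add hmain (sum_le_sum herr)
    _ = _ := by rw [mul_sum]

/-- blocks by the trivial bound -/
lemma cb_trivG (x M N : ℕ) (α β : ℕ → ℝ) (c : ℕ → ℤ) (q : ℕ) (ℓ : ℝ) (T : Finset ℕ) (hℓ : 0 ≤ ℓ)
    (hα : ∀ m ∈ Ioc M (2 * M), |α m| ≤ ℓ) (hβ : ∀ n ∈ Ioc N (2 * N), |β n| ≤ ℓ)
    (hτ : ∀ n : ℕ, n ≠ 0 → n ≤ 4 * M * N → tau n ^ 3 ≤ ℓ) (B : ℕ) (hB : x ≤ B ∨ 4 * M * N ≤ B) :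
    ∑ t ∈ T, |cb x M N α β (c t) q t| ≤ ℓ ^ 3 * ∑ t ∈ T, ∑ n ∈ Ioc 0 B, |ww q (c t) t n| := by
  classical
  rw [mul_sum]
  refine sum_le_sum fun t _ => ?_
  unfold cb
  have h1 : |∑ m ∈ Ioc M (2 * M), ∑ n ∈ Ioc N (2 * N), ind (m * n ≤ x) * (α m * β n * ww q (c t) t (m * n))| ≤
      ∑ m ∈ Ioc M (2 * M), ∑ n ∈ Ioc N (2 * N), ℓ ^ 2 * (ind (m * n ≤ x) * |ww q (c t) t (m * n)|) := by
    refine (abs_sum_le_sum_abs _ _).trans (sum_le_sum fun m hm => ?_)
    refine (abs_sum_le_sum_abs _ _).trans (sum_le_sum fun n hn => ?_)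
    rw [abs_mul, abs_of_nonneg (ind_nonneg _), abs_mul, abs_mul]
    have : |α m| * |β n| ≤ ℓ * ℓ := mul_le_mul (hα m hm) (hβ n hn) (abs_nonneg _) hℓ
    have h2 := ind_nonneg (m * n ≤ x)
    have h3 := abs_nonneg (ww q (c t) t (m * n))
    calc ind (m * n ≤ x) * (|α m| * |β n| * |ww q (c t) t (m * n)|)
        ≤ ind (m * n ≤ x) * (ℓ * ℓ * |ww q (c t) t (m * n)|) := by gcongr
      _ = _ := by ring
  refine h1.trans ?_
  simp only [← mul_sum]
  have h4 := conv_box M N ℓ hτ (fun y => ind (y ≤ x) * |ww q (c t) t y|)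
      (fun y => mul_nonneg (ind_nonneg _) (abs_nonneg _))
  have h5 : ∑ y ∈ Icc 1 (4 * M * N), ind (y ≤ x) * |ww q (c t) t y| ≤ ∑ n ∈ Ioc 0 B, |ww q (c t) t n| := by
    have e1 : ∑ y ∈ Icc 1 (4 * M * N), ind (y ≤ x) * |ww q (c t) t y| =
        ∑ y ∈ (Icc 1 (4 * M * N)).filter (fun y => y ≤ x), |ww q (c t) t y| := by
      rw [sum_filter]
      refine sum_congr rfl fun y _ => ?_
      by_cases h : y ≤ x
      · rw [ind_true h, if_pos h, one_mul]
      · rw [ind_false h, if_neg h, zero_mul]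
    rw [e1]
    apply sum_le_sum_of_subset_of_nonneg _ (fun _ _ _ => abs_nonneg _)
    intro y hy
    rw [mem_filter, mem_Icc] at hy
    rw [mem_Ioc]
    rcases hB with h | h <;> omega
  calc ℓ ^ 2 * ∑ m ∈ Ioc M (2 * M), ∑ n ∈ Ioc N (2 * N), ind (m * n ≤ x) * |ww q (c t) t (m * n)|
      ≤ ℓ ^ 2 * (ℓ * ∑ n ∈ Ioc 0 B, |ww q (c t) t n|) :=
        mul_le_mul_of_nonneg_left (h4.trans (mul_le_mul_of_nonneg_left h5 hℓ)) (by positivity)
    _ = _ := by ring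

end Pool.Agent.Helper91K1.T
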