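import Mathlib
import Pool.Agent.Helper91K1.T.CutG

/-! Blocks, with classes depending on the modulus (adapted from `Pool.Agent.R503.N.Blo`). -/

set_option autoImplicit false

open Finset

namespace Pool.Agent.Helper91K1.T

open Pool.Agent.Y826.Z Pool.Agent.Y826.Z.OB Pool.Agent.R503.N

/-- the parameters of a block -/
structure Blk (x : ℕ) (Λ Qm z P G' : ℝ) (M N G1 : ℕ) (Rm Vm : ℝ) : Prop where
  g1 : 0 < G1
  r1 : Qm ≤ Rm
  r2 : Rm * G' ≤ N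
  r3 : (G1 : ℝ) * Rm * Λ ^ 1010 ≤ M
  r4 : (G1 : ℝ) ^ 18 * Λ ^ 1010 * z ≤ Rm
  v1 : 1 ≤ Vm
  pr : P ^ 2 * z * Λ ^ 100 ≤ (G1 : ℝ) ^ 2 * M * Rm
  pv : P ^ 2 * G1 * z ^ 3 * Λ ^ 1010 ≤ Vm ^ 2 * (M * Rm)
  vn : Vm ^ 4 * (G1 : ℝ) ^ 16 * Λ ^ 1010 ≤ N
  ve : M * z ^ 2 * (G1 : ℝ) ^ 24 * Vm ^ 4 * Λ ^ 1010 ≤ (N : ℝ) ^ 3

/-- parameters -/
structure Env2Y (x : ℕ) (Λ ℓ C Qm z P G' W : ℝ) (G R R0 U k L B1 : ℕ) : Prop where
  E : EnvY x Λ ℓ C
  hz : 1 ≤ z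
  hG' : z ^ 2 * Λ ^ 1010 ≤ G'
  hG : Λ ^ 1010 ≤ (G : ℝ) ^ 2
  hG2 : 2 ≤ G
  hGG : (G : ℝ) ≤ G'
  hU : 0 < U
  hblk : ∀ M N : ℕ, U ≤ N → N ≤ M → M * N ≤ x → B1 ≤ 4 * (M * N) →
    ∃ (G1 : ℕ) (Rm Vm : ℝ), Blk x Λ Qm z P G' M N G1 Rm Vm
  hP0 : 0 ≤ P
  hPX : P ≤ (x : ℝ) ^ 10
  hR : 16 * (x : ℝ) < Λ ^ R
  hR0 : 0 < R0
  hk : P < (G : ℝ) ^ (k + 1)
  hW1 : ((x - x * R0 / (R0 + 1) : ℕ) : ℝ) ≤ W
  hW2 : (B1 : ℝ) ≤ W
  hW3 : ((U * U * U : ℕ) : ℝ) ≤ W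
  hU3 : U * U * U ≤ x
  hL : x ≤ U * 2 ^ L
  hL2 : (L : ℝ) ≤ ℓ

/-- the constant of the bilinear bound -/
noncomputable def KKG (Λ ℓ : ℝ) (G R k : ℕ) : ℝ :=
  3 ^ k * (2 * ((R : ℝ) ^ 3 * (ℓ * Real.sqrt (39 * ℓ ^ 7 / G + 6 * ℓ ^ 2 * Λ⁻¹))))

/-- the bound for a block -/
noncomputable def BBG (x : ℕ) (Λ ℓ P W : ℝ) (G R R0 k q0 : ℕ) : ℝ :=
  R0 * (k * (ℓ ^ 2) ^ k * KKG Λ ℓ G R k * (x / q0)) + ℓ ^ 3 * (2 * ℓ ^ 2 * (W / q0 + 1) + P / q0)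

section
variable {x : ℕ} {Λ ℓ C Qm z P G' W : ℝ} {G R R0 U k L B1 : ℕ} {q0 : ℕ} {c : ℕ → ℤ} {D : Set ℕ}

lemma card_TG (hq : 0 < q0) (hP : 0 ≤ P) (T : Finset ℕ)
    (hT : ∀ t ∈ T, t ∈ DD0 q0 G z P (c t)) : (T.card : ℝ) ≤ P / q0 := by
  have hqr : (0 : ℝ) < q0 := by exact_mod_cast hq
  have h1 : T ⊆ Icc 1 ⌊P / q0⌋₊ := by
    intro t ht
    rw [mem_Icc]
    refine ⟨D_pos (hT t ht), Nat.le_floor ?_⟩
    rw [le_div_iff₀ hqr, mul_comm]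
    exact (hT t ht).2.2.2
  have h2 := card_le_card h1
  rw [Nat.card_Icc, Nat.add_sub_cancel] at h2
  calc (T.card : ℝ) ≤ (⌊P / q0⌋₊ : ℝ) := by exact_mod_cast h2
    _ ≤ _ := Nat.floor_le (by positivity)

lemma card_pfG (hG2 : 2 ≤ G) (hk : P < (G : ℝ) ^ (k + 1)) (hq : 0 < q0) {c : ℤ} {t : ℕ}
    (ht : t ∈ DD0 q0 G z P c) : t.primeFactors.card ≤ k := by
  have h0 := D_pos ht
  have hsf : Squarefree t := (Nat.squarefree_mul_iff.1 ht.1).2.2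
  have h1 : G ^ t.primeFactors.card ≤ t := by
    calc G ^ t.primeFactors.card ≤ ∏ p ∈ t.primeFactors, p :=
          pow_card_le_prod _ _ _ (fun p hp => (ht.2.2.1 p (Nat.prime_of_mem_primeFactors hp)
            (Nat.dvd_of_mem_primeFactors hp)).1.le)
      _ = t := Nat.prod_primeFactors_of_squarefree hsf
  have hqr : (1 : ℝ) ≤ q0 := by exact_mod_cast hq
  have h2 : (G : ℝ) ^ t.primeFactors.card < (G : ℝ) ^ (k + 1) := by
    calc (G : ℝ) ^ t.primeFactors.card ≤ t := by exact_mod_cast h1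
      _ ≤ q0 * t := le_mul_of_one_le_left (Nat.cast_nonneg t) hqr
      _ ≤ P := ht.2.2.2
      _ < _ := hk
  have h3 : (1 : ℝ) < G := by
    exact_mod_cast (by omega : 1 < G)
  have := (pow_lt_pow_iff_right₀ h3).1 h2
  omega

variable (h : Env2Y x Λ ℓ C Qm z P G' W G R R0 U k L B1) (H : CohD q0 G z P c D)
include h

lemma KKG_nonneg : 0 ≤ KKG Λ ℓ G R k := by
  unfold KKG
  have := h.E.E.l1
  positivity

lemma W_nonnegG : 0 ≤ W := le_trans (Nat.cast_nonneg _) h.hW3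

include H

/-- the trivial bound -/
lemma tb2G (hq : 0 < q0) (T : Finset ℕ) (hT : ∀ t ∈ T, t ∈ D) (A B : ℕ)
    (hAB : ((B - A : ℕ) : ℝ) ≤ W) :
    ∑ t ∈ T, ∑ n ∈ Ioc A B, |ww q0 (c t) t n| ≤ 2 * ℓ ^ 2 * (W / q0 + 1) + P / q0 := by
  have hE := h.E.E
  have hX := hE.hX
  have hqr : (1 : ℝ) ≤ q0 := by exact_mod_cast hq
  have hY : 1 ≤ ⌊(x : ℝ) ^ 10⌋₊ := Nat.floor_pos.2 (one_le_pow₀ (by linarith))
  have hYr : ((⌊(x : ℝ) ^ 10⌋₊ : ℕ) : ℝ) ≤ (x : ℝ) ^ 10 := Nat.floor_le (by positivity)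
  have hT' : ∀ t ∈ T, t ∈ DD0 q0 G z P (c t) := fun t ht => (H.mem t (hT t ht)).1
  have h1 := tbG q0 c ℓ ⌊(x : ℝ) ^ 10⌋₊ T A B hq hE.l1 (fun t ht => ⟨D_pos (hT' t ht), Nat.le_floor (by
    refine le_trans ?_ h.hPX
    exact (le_mul_of_one_le_left (Nat.cast_nonneg t) hqr).trans (hT' t ht).2.2.2),
    (Nat.squarefree_mul_iff.1 (hT' t ht).1).1⟩)
    (fun n hn hnY => by
      have h1 := hE.ht n hn ((Nat.cast_le.2 hnY).trans hYr)
      calc tau n = tau n ^ 1 := (pow_one _).symm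
        _ ≤ tau n ^ 3 := pow_le_pow_right₀ (tau_ge_one hn) (by norm_num)
        _ ≤ ℓ := h1)
    (by
      refine le_trans ?_ hE.hl
      have := Real.log_le_log (by exact_mod_cast hY : (0 : ℝ) < (⌊(x : ℝ) ^ 10⌋₊ : ℕ)) hYr
      linarith)
  refine h1.trans ?_
  have h2 := card_TG hq h.hP0 T hT'
  have hq0 : (0 : ℝ) < q0 := by linarith
  have hℓ := hE.l1
  gcongr

/-- a block with the longer variable first -/
lemma blk_mainG (hq : 0 < q0) (hqQ : (q0 : ℝ) ≤ Qm) (T : Finset ℕ)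
    (hT : ∀ t ∈ T, t ∈ D) (M N : ℕ) (hUN : U ≤ N) (hNM : N ≤ M) (hMN : M * N ≤ x)
    (hB : B1 ≤ 4 * (M * N)) (α β : ℕ → ℝ)
    (hα : ∀ m ∈ Ioc M (2 * M), |α m| ≤ ℓ) (hβ : ∀ n ∈ Ioc N (2 * N), |β n| ≤ ℓ) :
    ∑ t ∈ T, |cb x M N α β (c t) q0 t| ≤ BBG x Λ ℓ P W G R R0 k q0 := by
  have hE := h.E.E
  have hN0 : 0 < N := lt_of_lt_of_le h.hU hUN
  have hM0 : 0 < M := lt_of_lt_of_le hN0 hNM
  have hNr : (0 : ℝ) < N := by exact_mod_cast hN0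
  have hMr : (0 : ℝ) < M := by exact_mod_cast hM0
  have hMNr : (M : ℝ) * N ≤ x := by exact_mod_cast hMN
  have hX := hE.hX
  have hx0 : (0 : ℝ) < x := by linarith
  have hΛ1 : 1 ≤ Λ := by linarith [hE.hΛ]
  have hG'0 : 0 ≤ G' := le_trans (Nat.cast_nonneg _) h.hGG
  have hℓ1 := hE.l1
  have hq0 : (0 : ℝ) < q0 := by exact_mod_cast hq
  obtain ⟨G1, Rm, Vm, B⟩ := h.hblk M N hUN hNM hMN hB
  have F := fam_mkG x Λ z P G' Vm Rm G1 q0 M N G k c D H hΛ1 h.hz h.hG' h.hG h.hGG hM0 hN0 hNM hq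
    B.g1 (hqQ.trans B.r1) B.r2 B.r3 B.r4 B.v1 B.pr B.pv B.vn B.ve h.hPX
    (fun t ht => card_pfG h.hG2 h.hk hq (H.mem t ht).1)
  have hK0 := KKG_nonneg h
  have htel := telG h.E G1 q0 M N G k R c D hM0 hN0 (by linarith) F B.g1 (by have := h.hG2; omega)
    h.hR (KKG Λ ℓ G R k) le_rfl k
  have hcut := cutG x M N R0 α β c q0 ℓ (k * (ℓ ^ 2) ^ k * KKG Λ ℓ G R k * (x / q0)) T hN0 h.hR0 (by linarith) hα hβ
    (fun α' β' hα' hβ' => by
      refine (htel T α' β' hT (fun t ht => F.kk t (hT t ht)) hα' hβ').trans ?_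
      gcongr)
    (fun n hn hle => hE.ht n hn (by
      have h1 : (n : ℝ) ≤ ((4 * M * N : ℕ) : ℝ) := by exact_mod_cast hle
      push_cast at h1
      have := hE.bigX
      linarith))
  refine hcut.trans ?_
  unfold BBG
  have h2 := tb2G h H hq T hT (x * R0 / (R0 + 1)) x h.hW1
  gcongr

/-- a block -/
lemma blk_leG (hq : 0 < q0) (hqQ : (q0 : ℝ) ≤ Qm) (T : Finset ℕ)
    (hT : ∀ t ∈ T, t ∈ D) (y : ℕ) (hy : y = x ∨ y = U * U * U) (M N : ℕ) (hUM : U ≤ M) (hUN : U ≤ N)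
    (α β : ℕ → ℝ)
    (hα : ∀ m ∈ Ioc M (2 * M), |α m| ≤ ℓ) (hβ : ∀ n ∈ Ioc N (2 * N), |β n| ≤ ℓ) :
    ∑ t ∈ T, |cb y M N α β (c t) q0 t| ≤ BBG x Λ ℓ P W G R R0 k q0 := by
  have hE := h.E.E
  have hℓ1 := hE.l1
  have hq0 : (0 : ℝ) < q0 := by exact_mod_cast hq
  have hX := hE.hX
  have hK0 := KKG_nonneg h
  have hW0 := W_nonnegG h
  have hP0 := h.hP0
  have hBB : ℓ ^ 3 * (2 * ℓ ^ 2 * (W / q0 + 1) + P / q0) ≤ BBG x Λ ℓ P W G R R0 k q0 := by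
    unfold BBG
    have : 0 ≤ (R0 : ℝ) * (k * (ℓ ^ 2) ^ k * KKG Λ ℓ G R k * (x / q0)) := by positivity
    linarith
  by_cases hz : y ≤ M * N
  · have : ∑ t ∈ T, |cb y M N α β (c t) q0 t| = 0 :=
      sum_eq_zero fun t _ => by rw [cb_zero y M N α β (c t) q0 t hz, abs_zero]
    rw [this]
    exact le_trans (by positivity) hBB
  rw [not_le] at hz
  have hyx : y ≤ x := by
    rcases hy with h1 | h1
    · exact h1.le
    · rw [h1]; exact h.hU3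
  have hτ : ∀ n : ℕ, n ≠ 0 → n ≤ 4 * M * N → tau n ^ 3 ≤ ℓ := fun n hn hle => hE.ht n hn (by
      have h1 : (n : ℝ) ≤ ((4 * M * N : ℕ) : ℝ) := by exact_mod_cast hle
      have h2 : (4 * M * N : ℕ) ≤ 4 * x := by
        calc 4 * M * N = 4 * (M * N) := by ring
          _ ≤ 4 * x := Nat.mul_le_mul_left 4 (hz.le.trans hyx)
      have h3 : ((4 * M * N : ℕ) : ℝ) ≤ ((4 * x : ℕ) : ℝ) := by exact_mod_cast h2
      push_cast at h1 h3
      have := hE.bigX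
      linarith)
  rcases hy with hy | hy
  · subst hy
    by_cases hB : B1 ≤ 4 * (M * N)
    · rcases le_total N M with hNM | hNM
      · exact blk_mainG h H hq hqQ T hT M N hUN hNM hz.le hB α β hα hβ
      · simp only [cb_swap _ M N]
        exact blk_mainG h H hq hqQ T hT N M hUM hNM (by rw [mul_comm]; exact hz.le)
          (by rw [mul_comm N M]; exact hB) β α hβ hα
    · refine (cb_trivG y M N α β c q0 ℓ T (by linarith) hα hβ hτ B1 (Or.inr (by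
        rw [mul_assoc]; omega))).trans ?_
      refine le_trans ?_ hBB
      have := tb2G h H hq T hT 0 B1 (by rw [Nat.sub_zero]; exact h.hW2)
      gcongr
  · subst hy
    refine (cb_trivG (U * U * U) M N α β c q0 ℓ T (by linarith) hα hβ hτ (U * U * U) (Or.inl le_rfl)).trans ?_
    refine le_trans ?_ hBB
    have := tb2G h H hq T hT 0 (U * U * U) (by rw [Nat.sub_zero]; exact h.hW3)
    gcongr

/-- all blocks -/
lemma blksG (hq : 0 < q0) (hqQ : (q0 : ℝ) ≤ Qm) (T : Finset ℕ)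
    (hT : ∀ t ∈ T, t ∈ D) (y : ℕ) (hy : y = x ∨ y = U * U * U) (α β : ℕ → ℝ)
    (hα : ∀ m : ℕ, 0 < m → (m : ℝ) ≤ (x : ℝ) ^ 10 → |α m| ≤ ℓ)
    (hβ : ∀ m : ℕ, 0 < m → (m : ℝ) ≤ (x : ℝ) ^ 10 → |β m| ≤ ℓ) :
    ∑ t ∈ T, |∑ m ∈ Ioc U x, ∑ n ∈ Ioc U x, ind (m * n ≤ y) * (α m * β n * ww q0 (c t) t (m * n))| ≤
      L ^ 2 * BBG x Λ ℓ P W G R R0 k q0 := by
  have hE := h.E.E
  have hX := hE.hX
  have hyx : y ≤ x := by
    rcases hy with h1 | h1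
    · exact h1.le
    · rw [h1]; exact h.hU3
  have hU := h.hU
  have e1 : ∀ t, ∑ m ∈ Ioc U x, ∑ n ∈ Ioc U x, ind (m * n ≤ y) * (α m * β n * ww q0 (c t) t (m * n)) =
      ∑ i ∈ range L, ∑ j ∈ range L, cb y (U * 2 ^ i) (U * 2 ^ j) α β (c t) q0 t := by
    intro t
    have hsub : Ioc U x ⊆ Ioc U (U * 2 ^ L) := Ioc_subset_Ioc_right h.hL
    have e2 : ∀ m, 0 < m → ∑ n ∈ Ioc U x, ind (m * n ≤ y) * (α m * β n * ww q0 (c t) t (m * n)) =
        ∑ n ∈ Ioc U (U * 2 ^ L), ind (m * n ≤ y) * (α m * β n * ww q0 (c t) t (m * n)) := by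
      intro m hm
      apply sum_subset hsub
      intro n hn hn'
      have h1 : ¬ (m * n ≤ y) := by
        rw [mem_Ioc] at hn hn'
        have h2 : n ≤ m * n := Nat.le_mul_of_pos_left n hm
        omega
      rw [ind_false h1, zero_mul]
    have e3 : ∑ m ∈ Ioc U x, ∑ n ∈ Ioc U x, ind (m * n ≤ y) * (α m * β n * ww q0 (c t) t (m * n)) =
        ∑ m ∈ Ioc U (U * 2 ^ L), ∑ n ∈ Ioc U (U * 2 ^ L), ind (m * n ≤ y) * (α m * β n * ww q0 (c t) t (m * n)) := by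
      rw [sum_congr rfl (fun m hm => e2 m (by rw [mem_Ioc] at hm; omega))]
      apply sum_subset hsub
      intro m hm hm'
      apply sum_eq_zero
      intro n hn
      have h1 : ¬ (m * n ≤ y) := by
        rw [mem_Ioc] at hn hm hm'
        have h2 : m ≤ m * n := Nat.le_mul_of_pos_right m (by omega)
        omega
      rw [ind_false h1, zero_mul]
    rw [e3, dyad]
    refine sum_congr rfl fun i _ => ?_
    have e4 : ∀ m ∈ Ioc (U * 2 ^ i) (2 * (U * 2 ^ i)),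
        ∑ n ∈ Ioc U (U * 2 ^ L), ind (m * n ≤ y) * (α m * β n * ww q0 (c t) t (m * n)) =
        ∑ j ∈ range L, ∑ n ∈ Ioc (U * 2 ^ j) (2 * (U * 2 ^ j)), ind (m * n ≤ y) * (α m * β n * ww q0 (c t) t (m * n)) :=
      fun m _ => dyad U L _
    rw [sum_congr rfl e4, sum_comm]
    rfl
  simp only [e1]
  calc ∑ t ∈ T, |∑ i ∈ range L, ∑ j ∈ range L, cb y (U * 2 ^ i) (U * 2 ^ j) α β (c t) q0 t|
      ≤ ∑ t ∈ T, ∑ i ∈ range L, ∑ j ∈ range L, |cb y (U * 2 ^ i) (U * 2 ^ j) α β (c t) q0 t| :=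
        sum_le_sum fun t _ => (abs_sum_le_sum_abs _ _).trans (sum_le_sum fun i _ => abs_sum_le_sum_abs _ _)
    _ = ∑ i ∈ range L, ∑ j ∈ range L, ∑ t ∈ T, |cb y (U * 2 ^ i) (U * 2 ^ j) α β (c t) q0 t| := by
        rw [sum_comm]
        refine sum_congr rfl fun i _ => ?_
        rw [sum_comm]
    _ ≤ ∑ i ∈ range L, ∑ j ∈ range L, BBG x Λ ℓ P W G R R0 k q0 := by
        refine sum_le_sum fun i _ => sum_le_sum fun j _ => ?_
        have hUi : ∀ i : ℕ, U ≤ U * 2 ^ i := fun i => Nat.le_mul_of_pos_right U (by positivity)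
        -- blocks beyond `x` vanish
        by_cases hbig : U * 2 ^ i ≤ x ∧ U * 2 ^ j ≤ x
        · have hr : ∀ i : ℕ, U * 2 ^ i ≤ x → ∀ m ∈ Ioc (U * 2 ^ i) (2 * (U * 2 ^ i)),
              0 < m ∧ (m : ℝ) ≤ (x : ℝ) ^ 10 := by
            intro i hi m hm
            rw [mem_Ioc] at hm
            refine ⟨by omega, ?_⟩
            have h1 : (m : ℝ) ≤ ((2 * x : ℕ) : ℝ) := by exact_mod_cast (by omega : m ≤ 2 * x)
            push_cast at h1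
            have := hE.bigX
            linarith
          exact blk_leG h H hq hqQ T hT y hy _ _ (hUi i) (hUi j) α β
            (fun m hm => hα m (hr i hbig.1 m hm).1 (hr i hbig.1 m hm).2)
            (fun m hm => hβ m (hr j hbig.2 m hm).1 (hr j hbig.2 m hm).2)
        · have hz : y ≤ U * 2 ^ i * (U * 2 ^ j) := by
            rw [not_and_or, not_le, not_le] at hbig
            have h1 : 0 < U * 2 ^ i := by positivity
            have h2 : 0 < U * 2 ^ j := by positivity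
            rcases hbig with hb | hb
            · calc y ≤ U * 2 ^ i := by omega
                _ ≤ U * 2 ^ i * (U * 2 ^ j) := Nat.le_mul_of_pos_right _ h2
            · calc y ≤ U * 2 ^ j := by omega
                _ ≤ U * 2 ^ i * (U * 2 ^ j) := Nat.le_mul_of_pos_left _ h1
          have h0 : ∑ t ∈ T, |cb y (U * 2 ^ i) (U * 2 ^ j) α β (c t) q0 t| = 0 :=
            sum_eq_zero fun t _ => by rw [cb_zero y _ _ α β (c t) q0 t hz, abs_zero]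
          rw [h0]
          unfold BBG
          have hℓ1 := hE.l1
          have hq0 : (0 : ℝ) < q0 := by exact_mod_cast hq
          have hK0 := KKG_nonneg h
          have hW0 := W_nonnegG h
          have hP0 := h.hP0
          positivity
    _ = _ := by
        rw [sum_const, sum_const, card_range, nsmul_eq_mul, nsmul_eq_mul]
        ring

end

end Pool.Agent.Helper91K1.T
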