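import Mathlib
import Pool.Agent.Helper91K1.T.BloG

/-! Vaughan's identity, with classes depending on the modulus (adapted from `Pool.Agent.R503.N.Vau`). -/

set_option autoImplicit false

open Finset

namespace Pool.Agent.Helper91K1.T

open Pool.Agent.Y826.Z Pool.Agent.Y826.Z.OB Pool.Agent.R503.N
open Pool.Agent.Helper112 (betaV)
open Pool.Agent.Helper112.TI (mu1)
open Pool.Agent.Y818.YZ (nuL vau_id mu1_le nuL_abs)

section
variable {x : ℕ} {Λ ℓ C Qm z P G' W : ℝ} {G R R0 U k L B1 : ℕ} {q0 : ℕ} {c : ℕ → ℤ} {D : Set ℕ}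

/-- the von Mangoldt function -/
theorem vauG (h : Env2Y x Λ ℓ C Qm z P G' W G R R0 U k L B1) (H : CohD q0 G z P c D) (hq : 0 < q0)
    (hqQ : (q0 : ℝ) ≤ Qm) (T : Finset ℕ) (hT : ∀ t ∈ T, t ∈ D) :
    ∑ t ∈ T, |∑ n ∈ Icc 1 x, ArithmeticFunction.vonMangoldt n * ww q0 (c t) t n| ≤
      4 * (L ^ 2 * BBG x Λ ℓ P W G R R0 k q0) + 16 * ℓ ^ 2 * U * (P / q0) +
        ℓ * (2 * ℓ ^ 2 * (W / q0 + 1) + P / q0) := by
  have hE := h.E.E
  have hℓ1 := hE.l1
  have hX := hE.hX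
  have hU3 := h.hU3
  have hUx : U ≤ x := by
    have hU := h.hU
    have h1 : U * 1 ≤ U * U := Nat.mul_le_mul_left U hU
    have h2 : U * U * 1 ≤ U * U * U := Nat.mul_le_mul_left (U * U) hU
    omega
  have hx10 : (x : ℝ) ≤ (x : ℝ) ^ 10 := by
    have := hE.bigX
    linarith
  have hlog : ∀ n : ℕ, 0 < n → (n : ℝ) ≤ (x : ℝ) ^ 10 → Real.log n ≤ ℓ := by
    intro n hn hle
    have h1 := Real.log_le_log (by exact_mod_cast hn : (0 : ℝ) < n) hle
    have := hE.hl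
    linarith
  have htau : ∀ n : ℕ, 0 < n → (n : ℝ) ≤ (x : ℝ) ^ 10 → tau n ≤ ℓ := by
    intro n hn hle
    calc tau n = tau n ^ 1 := (pow_one _).symm
      _ ≤ tau n ^ 3 := pow_le_pow_right₀ (tau_ge_one hn.ne') (by norm_num)
      _ ≤ ℓ := hE.ht n hn.ne' hle
  have b1 : ∀ m : ℕ, 0 < m → (m : ℝ) ≤ (x : ℝ) ^ 10 → |betaV U m| ≤ ℓ := by
    intro m hm hle
    refine le_trans ?_ (htau m hm hle)
    exact Pool.Agent.Helper112.TII.betaV_abs U m
  have b2 : ∀ m : ℕ, 0 < m → (m : ℝ) ≤ (x : ℝ) ^ 10 → |ArithmeticFunction.vonMangoldt m| ≤ ℓ := by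
    intro m hm hle
    rw [abs_of_nonneg ArithmeticFunction.vonMangoldt_nonneg]
    exact ArithmeticFunction.vonMangoldt_le_log.trans (hlog m hm hle)
  have b3 : ∀ m : ℕ, 0 < m → (m : ℝ) ≤ (x : ℝ) ^ 10 → |nuL U m| ≤ ℓ := fun m hm hle =>
    (nuL_abs U m).trans (hlog m hm hle)
  have b4 : ∀ m : ℕ, 0 < m → (m : ℝ) ≤ (x : ℝ) ^ 10 → |(fun _ : ℕ => (1 : ℝ)) m| ≤ ℓ := by
    intro m _ _
    simpa using hℓ1
  -- the four parts
  have key : ∀ t ∈ T, |∑ n ∈ Icc 1 x, ArithmeticFunction.vonMangoldt n * ww q0 (c t) t n| ≤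
      (|∑ m ∈ Ioc U x, ∑ n ∈ Ioc U x, ind (m * n ≤ x) * (betaV U m * ArithmeticFunction.vonMangoldt n * ww q0 (c t) t (m * n))| +
       |∑ m ∈ Ioc U x, ∑ n ∈ Ioc U x, ind (m * n ≤ U * U * U) *
        (betaV U m * ArithmeticFunction.vonMangoldt n * ww q0 (c t) t (m * n))|) +
      (|∑ m ∈ Ioc U x, ∑ n ∈ Ioc U x, ind (m * n ≤ x) * (nuL U m * (fun _ : ℕ => (1 : ℝ)) n * ww q0 (c t) t (m * n))| +
       |∑ m ∈ Ioc U x, ∑ n ∈ Ioc U x, ind (m * n ≤ U * U * U) *
        (nuL U m * (fun _ : ℕ => (1 : ℝ)) n * ww q0 (c t) t (m * n))|) +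
      16 * ℓ ^ 2 * U + ℓ * ∑ n ∈ Ioc 0 (U * U * U), |ww q0 (c t) t n| := by
    intro t ht
    have hD := (H.mem t (hT t ht)).1
    have hc := (H.mem t (hT t ht)).2
    have hsf := hD.1
    have hct := hD.2.1
    have e0 : ∑ n ∈ Icc 1 x, ArithmeticFunction.vonMangoldt n * ww q0 (c t) t n =
        ∑ n ∈ Icc 1 x, ArithmeticFunction.vonMangoldt n * wc x U q0 (c t) t n +
        ∑ n ∈ Ioc 0 (U * U * U), ArithmeticFunction.vonMangoldt n * ww q0 (c t) t n := by
      have e1 : ∑ n ∈ Ioc 0 (U * U * U), ArithmeticFunction.vonMangoldt n * ww q0 (c t) t n =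
          ∑ n ∈ Icc 1 x, ind (n ≤ U * U * U) * (ArithmeticFunction.vonMangoldt n * ww q0 (c t) t n) := by
        have hsub : Ioc 0 (U * U * U) ⊆ Icc 1 x := by
          intro n hn
          rw [mem_Ioc] at hn
          rw [mem_Icc]
          omega
        rw [← sum_subset hsub]
        · refine sum_congr rfl fun n hn => ?_
          rw [mem_Ioc] at hn
          rw [ind_true hn.2, one_mul]
        · intro n hn hn'
          rw [mem_Icc] at hn
          rw [mem_Ioc] at hn'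
          rw [ind_false (by omega), zero_mul]
      rw [e1, ← sum_add_distrib]
      refine sum_congr rfl fun n hn => ?_
      rw [mem_Icc] at hn
      unfold wc
      by_cases h2 : n ≤ U * U * U
      · rw [ind_true h2, ind_false (by omega)]; ring
      · rw [ind_false h2, ind_true (⟨by omega, hn.2⟩ : U * U * U < n ∧ n ≤ x)]; ring
    have hv := vau_id (wc x U q0 (c t) t) x U hUx (fun n hn => by
        unfold wc; rw [ind_false (by omega), zero_mul]) (fun n hn => by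
        unfold wc; rw [ind_false (by omega), zero_mul])
    rw [e0, hv]
    rw [bil_cut x U hU3 q0 (c t) t (betaV U) ArithmeticFunction.vonMangoldt]
    have e5 : ∑ m ∈ Ioc U x, ∑ n ∈ Ioc U x, nuL U m * wc x U q0 (c t) t (m * n) =
        ∑ m ∈ Ioc U x, ∑ n ∈ Ioc U x, nuL U m * (fun _ : ℕ => (1 : ℝ)) n * wc x U q0 (c t) t (m * n) := by
      refine sum_congr rfl fun m _ => sum_congr rfl fun n _ => ?_
      rw [mul_one]
    rw [e5, bil_cut x U hU3 q0 (c t) t (nuL U) (fun _ => 1)]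
    -- type I
    have t1 : |∑ d ∈ Icc 1 U, mu1 U d * ∑ l ∈ Icc 1 x, Real.log l * wc x U q0 (c t) t (d * l)| ≤ 8 * ℓ ^ 2 * U := by
      refine (abs_sum_le_sum_abs _ _).trans ?_
      have : ∀ d ∈ Icc 1 U, |mu1 U d * ∑ l ∈ Icc 1 x, Real.log l * wc x U q0 (c t) t (d * l)| ≤ 8 * ℓ ^ 2 := by
        intro d hd
        rw [mem_Icc] at hd
        rw [abs_mul]
        have h1 := ti3 x U hU3 q0 t (c t) hsf hc hct d (by omega) (fun l => Real.log l)
          (fun l => Real.log_natCast_nonneg l) (fun l hl => Real.log_le_log (by exact_mod_cast hl) (by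
            exact_mod_cast Nat.le_succ l)) ℓ (by linarith) (fun l hl => by
            rcases Nat.eq_zero_or_pos l with h0 | h0
            · rw [h0]; simp; linarith
            · exact hlog l h0 ((by exact_mod_cast hl : (l : ℝ) ≤ x).trans hx10))
        calc |mu1 U d| * |∑ l ∈ Icc 1 x, Real.log l * wc x U q0 (c t) t (d * l)| ≤ 1 * (8 * ℓ) :=
              mul_le_mul (mu1_le U d) h1 (abs_nonneg _) zero_le_one
          _ ≤ 8 * ℓ ^ 2 := by nlinarith
      refine (sum_le_sum this).trans (le_of_eq ?_)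
      rw [sum_const, Nat.card_Icc, Nat.add_sub_cancel, nsmul_eq_mul]
      ring
    have t2 : |∑ d ∈ Icc 1 U, nuL U d * ∑ l ∈ Icc 1 x, wc x U q0 (c t) t (d * l)| ≤ 8 * ℓ ^ 2 * U := by
      refine (abs_sum_le_sum_abs _ _).trans ?_
      have : ∀ d ∈ Icc 1 U, |nuL U d * ∑ l ∈ Icc 1 x, wc x U q0 (c t) t (d * l)| ≤ 8 * ℓ ^ 2 := by
        intro d hd
        rw [mem_Icc] at hd
        rw [abs_mul]
        have h1 := ti3 x U hU3 q0 t (c t) hsf hc hct d (by omega) (fun _ => 1)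
          (fun l => zero_le_one) (fun l hl => le_rfl) 1 zero_le_one (fun l hl => le_rfl)
        simp only [one_mul] at h1
        have h2 : |nuL U d| ≤ ℓ := b3 d (by omega) (by
          have : (d : ℝ) ≤ x := by exact_mod_cast hd.2.trans hUx
          linarith)
        calc |nuL U d| * |∑ l ∈ Icc 1 x, wc x U q0 (c t) t (d * l)| ≤ ℓ * (8 * 1) :=
              mul_le_mul h2 h1 (abs_nonneg _) (by linarith)
          _ ≤ 8 * ℓ ^ 2 := by nlinarith
      refine (sum_le_sum this).trans (le_of_eq ?_)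
      rw [sum_const, Nat.card_Icc, Nat.add_sub_cancel, nsmul_eq_mul]
      ring
    have t3 : |∑ n ∈ Ioc 0 (U * U * U), ArithmeticFunction.vonMangoldt n * ww q0 (c t) t n| ≤
        ℓ * ∑ n ∈ Ioc 0 (U * U * U), |ww q0 (c t) t n| := by
      refine (abs_sum_le_sum_abs _ _).trans ?_
      rw [mul_sum]
      refine sum_le_sum fun n hn => ?_
      rw [mem_Ioc] at hn
      rw [abs_mul]
      apply mul_le_mul_of_nonneg_right _ (abs_nonneg _)
      apply b2 n hn.1
      have : (n : ℝ) ≤ x := by exact_mod_cast hn.2.trans hU3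
      linarith
    set S1 := ∑ m ∈ Ioc U x, ∑ n ∈ Ioc U x, ind (m * n ≤ x) * (betaV U m * ArithmeticFunction.vonMangoldt n * ww q0 (c t) t (m * n))
    set S2 := ∑ m ∈ Ioc U x, ∑ n ∈ Ioc U x, ind (m * n ≤ U * U * U) *
        (betaV U m * ArithmeticFunction.vonMangoldt n * ww q0 (c t) t (m * n))
    set S3 := ∑ m ∈ Ioc U x, ∑ n ∈ Ioc U x, ind (m * n ≤ x) * (nuL U m * (fun _ : ℕ => (1 : ℝ)) n * ww q0 (c t) t (m * n))
    set S4 := ∑ m ∈ Ioc U x, ∑ n ∈ Ioc U x, ind (m * n ≤ U * U * U) *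
        (nuL U m * (fun _ : ℕ => (1 : ℝ)) n * ww q0 (c t) t (m * n))
    have a1 := abs_le.1 t1
    have a2 := abs_le.1 t2
    have a3 := abs_le.1 t3
    have c1 := abs_le.1 (le_refl |S1|)
    have c2 := abs_le.1 (le_refl |S2|)
    have c3 := abs_le.1 (le_refl |S3|)
    have c4 := abs_le.1 (le_refl |S4|)
    refine abs_le.2 ⟨?_, ?_⟩
    · linarith [a1.1, a2.2, a3.1, c1.1, c2.2, c3.2, c4.1]
    · linarith [a1.2, a2.1, a3.2, c1.2, c2.1, c3.1, c4.2]
  refine (sum_le_sum key).trans ?_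
  rw [sum_add_distrib, sum_add_distrib, sum_add_distrib, sum_add_distrib, sum_add_distrib, sum_const,
    nsmul_eq_mul, ← mul_sum]
  have k1 := blksG h H hq hqQ T hT x (Or.inl rfl) _ _ b1 b2
  have k2 := blksG h H hq hqQ T hT (U * U * U) (Or.inr rfl) _ _ b1 b2
  have k3 := blksG h H hq hqQ T hT x (Or.inl rfl) _ _ b3 b4
  have k4 := blksG h H hq hqQ T hT (U * U * U) (Or.inr rfl) _ _ b3 b4
  have k5 := card_TG hq h.hP0 T (fun t ht => (H.mem t (hT t ht)).1)
  have k6 := tb2G h H hq T hT 0 (U * U * U) (by rw [Nat.sub_zero]; exact h.hW3)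
  have k7 : (T.card : ℝ) * (16 * ℓ ^ 2 * U) ≤ 16 * ℓ ^ 2 * U * (P / q0) := by
    rw [mul_comm]
    exact mul_le_mul_of_nonneg_left k5 (by positivity)
  have k8 := mul_le_mul_of_nonneg_left k6 (by linarith : (0 : ℝ) ≤ ℓ)
  beta_reduce
  linarith

end

end Pool.Agent.Helper91K1.T
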