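import Mathlib
import Pool.Agent.R503.N.ParC
import Pool.Agent.Helper91K1.T.VauG

/-! Choice of the parameters, part A. -/

set_option autoImplicit false

open Finset Filter

namespace Pool.Agent.Helper91K1.T

open Pool.Agent.Y826.Z Pool.Agent.Y826.Z.OB Pool.Agent.R503.N

lemma mono_c {C1 C A b S : ℝ} (h : C1 ≤ C) (hA : 0 ≤ A) (hb : 0 ≤ b) (hS : 0 ≤ S) :
    C1 * A * b * S ≤ C * A * b * S := by gcongr

theorem env1G (lam l' : ℝ) (h0 : 0 < lam) (h1 : lam ≤ 1 / 2) (h2 : 0 < l') (h3 : l' ≤ lam) :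
    ∃ C : ℝ, ∀ᶠ X : ℝ in atTop, EnvY X (X ^ lam) (X ^ l') C := by
  obtain ⟨C1, hC1, hoa1⟩ := oa (lam / 3) (by positivity)
  obtain ⟨C2, hC2, hoa2⟩ := oaG (lam / 3) (by positivity)
  set C : ℝ := max C1 C2 with hCdef
  have hC : 1 ≤ C := hC1.trans (le_max_left _ _)
  refine ⟨C, ?_⟩
  have htau : ∀ᶠ X : ℝ in atTop, ∀ n : ℕ, 1 ≤ n → (n : ℝ) ≤ X ^ 10 →
      tau n * Real.log (X ^ 10) ≤ (X ^ 10) ^ (l' / 30) := by
    have ht : Tendsto (fun X : ℝ => X ^ 10) atTop atTop := tendsto_pow_atTop (by norm_num)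
    exact ht.eventually (Pool.Agent.Y61.Z.ev_tau (by positivity : 0 < l' / 30))
  filter_upwards [eventually_ge_atTop 256, Pool.Agent.Y61.Z.ev_rpow 4 h0, Pool.Agent.Y61.Z.ev_rpow C h0,
    Pool.Agent.Y814.Z.ev_log lam h0, htau, Pool.Agent.Y61.Z.ev_log_rpow 11 1 h2,
    Pool.Agent.Y61.Z.ev_log 1] with X hX hΛ hCΛ hI ht hlog hl1
  have hX0 : 0 < X := by linarith
  have hX1 : 1 ≤ X := by linarith
  have e : (X ^ 3) ^ (lam / 3) = X ^ lam := by
    rw [← Real.rpow_natCast X 3, ← Real.rpow_mul hX0.le]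
    congr 1
    push_cast
    ring
  refine ⟨⟨hX, hΛ, ?_, hC, hCΛ, hI, ?_, ?_, ?_, ?_, ?_⟩, ?_⟩
  · rw [← Real.rpow_natCast, ← Real.rpow_mul hX0.le]
    calc X ^ (lam * ((2 : ℕ) : ℝ)) ≤ X ^ (1 : ℝ) := by
          apply Real.rpow_le_rpow_of_exponent_le hX1
          push_cast
          linarith
      _ = X := Real.rpow_one X
  · exact Real.one_le_rpow hX1 h2.le
  · exact Real.rpow_le_rpow_of_exponent_le hX1 h3
  · intro n hn hle
    have h4 := ht n (by omega) hle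
    have h5 : 1 ≤ Real.log (X ^ 10) := by
      rw [Real.log_pow]
      push_cast
      linarith
    have h6 : tau n ≤ (X ^ 10) ^ (l' / 30) := by
      refine le_trans ?_ h4
      exact le_mul_of_one_le_right (OB.tau_nonneg n) h5
    calc tau n ^ 3 ≤ ((X ^ 10) ^ (l' / 30)) ^ 3 := pow_le_pow_left₀ (OB.tau_nonneg n) h6 3
      _ = X ^ l' := by
          rw [← Real.rpow_natCast X 10, ← Real.rpow_mul hX0.le, ← Real.rpow_natCast, ← Real.rpow_mul hX0.le]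
          congr 1
          push_cast
          ring
  · rw [Real.log_pow]
    push_cast
    rw [pow_one] at hlog
    linarith
  · intro r M N h SV β hN hNX hMX hhr
    intro u1 u2 e1 e2 c1 c2 l d1 d2 κ V1 q0 b0 hsf hc1 hc2 hSV hW hq0 hκ hκ2 hβ
    have h7 := hoa1 (X ^ 3) M N 1 r u1 u2 e1 e2 h c1 c2 l SV d1 d2 κ V1 q0 b0 β (one_le_pow₀ hX1) hN hNX hMX hsf
      (by simp [isCoprime_one_right]) hhr hc1 hc2 hSV hW hq0 hκ hκ2 hβ
    rw [e] at h7
    refine h7.trans (mono_c (le_max_left _ _) (Real.rpow_nonneg hX0.le _) (sq_nonneg _) ?_)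
    exact sum_nonneg fun i _ => mul_nonneg (le_min (by positivity) (by positivity)) (Real.sqrt_nonneg _)
  · intro g r M N h SV β hN hNX hMX hhr
    intro u1 u2 e1 e2 c1 c2 l γ1 γ2 d1 d2 κ V1 q0 b0 hc1 hc2 hSV hW hq0 hκ hκ2 hβ
    have h7 := hoa2 (X ^ 3) M N g r u1 u2 e1 e2 h c1 c2 l SV γ1 γ2 d1 d2 κ V1 q0 b0 β (one_le_pow₀ hX1) hN hNX hMX
      hhr hc1 hc2 hSV hW hq0 hκ hκ2 hβ
    rw [e] at h7
    refine h7.trans (mono_c (le_max_right _ _) (Real.rpow_nonneg hX0.le _) (sq_nonneg _) ?_)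
    exact sum_nonneg fun i _ => mul_nonneg (le_min (by positivity) (by positivity)) (Real.sqrt_nonneg _)

end Pool.Agent.Helper91K1.T
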