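import Mathlib
import Pool.Agent.Helper91K1.T.ParAG

/-! Choice of the parameters, part B. -/

set_option autoImplicit false

open Finset Filter

namespace Pool.Agent.Helper91K1.T

open Pool.Agent.Y826.Z Pool.Agent.Y826.Z.OB Pool.Agent.R503.N

/-- unbalanced blocks -/
lemma blkA {x : ℕ} {κ e δ lam τ : ℝ} (hX : (256 : ℝ) ≤ x) (hτ : 0 ≤ τ) (hδ : 0 < δ)
    (hδθ : 30 * τ + 200 * δ ≤ 1 / 3) (hκ : κ + 6 * δ ≤ 1 / 3) (he : 0 < e) (heδ : e ≤ δ)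
    (hlam : lam = e / 2000) (M N : ℕ) (hU : (x : ℝ) ^ (1 / 3 - 3 / 2 * δ) ≤ N)
    (hMN : (M : ℝ) * N ≤ x) (hB : (x : ℝ) ^ (1 - 3 / 2 * δ) ≤ M * N)
    (hG1 : 1 * (x : ℝ) ^ (τ + 7 / 2 * δ) ≤ (⌊(x : ℝ) ^ (τ + 4 * δ)⌋₊ : ℝ))
    (hcase : (N : ℝ) * (x : ℝ) ^ (τ + δ) ≤ M) :
    Blk x ((x : ℝ) ^ lam) ((x : ℝ) ^ κ) ((x : ℝ) ^ δ) ((x : ℝ) ^ (1 / 2 + τ)) ((x : ℝ) ^ (4 * δ)) M N
      ⌊(x : ℝ) ^ (τ + 4 * δ)⌋₊ (N * (x : ℝ) ^ (-(4 * δ))) ((x : ℝ) ^ (3 / 2 * τ + 7 * δ)) := by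
  have hlam0 : 0 < lam := by rw [hlam]; positivity
  set X : ℝ := (x : ℝ) with hXdef
  have hX0 : 0 < X := by linarith
  have hX1 : 1 ≤ X := by linarith
  have rle : ∀ {a b : ℝ}, a ≤ b → X ^ a ≤ X ^ b := fun h => Real.rpow_le_rpow_of_exponent_le hX1 h
  have radd : ∀ a b : ℝ, X ^ a * X ^ b = X ^ (a + b) := fun a b => (Real.rpow_add hX0 a b).symm
  have rpos : ∀ a : ℝ, 0 < X ^ a := fun a => Real.rpow_pos_of_pos hX0 a
  have r1 : ∀ {a : ℝ}, 0 ≤ a → 1 ≤ X ^ a := fun h => Real.one_le_rpow hX1 h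
  set G1 : ℕ := ⌊X ^ (τ + 4 * δ)⌋₊ with hG1def
  have hG1le : (G1 : ℝ) ≤ X ^ (τ + 4 * δ) := Nat.floor_le (rpos _).le
  rw [one_mul] at hG1
  have hG1pos : (0 : ℝ) < G1 := lt_of_lt_of_le (rpos _) hG1
  have hN0 : (0 : ℝ) < N := lt_of_lt_of_le (rpos _) hU
  have hM0 : (0 : ℝ) < M := lt_of_lt_of_le (by have := rpos (τ + δ); positivity) hcase
  have hpos4 := rpos (-(4 * δ))
  refine
    { g1 := by exact_mod_cast hG1pos
      r1 := ?_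
      r2 := ?_
      r3 := ?_
      r4 := ?_
      v1 := r1 (by positivity)
      pr := ?_
      pv := ?_
      vn := ?_
      ve := ?_ }
  · calc X ^ κ ≤ X ^ ((1 / 3 - 3 / 2 * δ) + -(4 * δ)) := rle (by linarith)
      _ = X ^ (1 / 3 - 3 / 2 * δ) * X ^ (-(4 * δ)) := (radd _ _).symm
      _ ≤ N * X ^ (-(4 * δ)) := mul_le_mul_of_nonneg_right hU hpos4.le
  · rw [mul_assoc, radd, neg_add_cancel, Real.rpow_zero, mul_one]
  · rw [pw hX0]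
    calc (G1 : ℝ) * (N * X ^ (-(4 * δ))) * X ^ (lam * ((1010 : ℕ) : ℝ))
        ≤ X ^ (τ + 4 * δ) * (N * X ^ (-(4 * δ))) * X ^ (lam * ((1010 : ℕ) : ℝ)) := by
          have := (rpos (lam * ((1010 : ℕ) : ℝ))).le
          gcongr
      _ = N * (X ^ (τ + 4 * δ) * X ^ (-(4 * δ)) * X ^ (lam * ((1010 : ℕ) : ℝ))) := by ring
      _ ≤ N * X ^ (τ + δ) := by
          apply mul_le_mul_of_nonneg_left _ hN0.le
          rw [radd, radd]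
          apply rle
          push_cast
          rw [hlam]; linarith
      _ ≤ M := hcase
  · rw [pw hX0]
    calc (G1 : ℝ) ^ 18 * X ^ (lam * ((1010 : ℕ) : ℝ)) * X ^ δ
        ≤ (X ^ (τ + 4 * δ)) ^ 18 * X ^ (lam * ((1010 : ℕ) : ℝ)) * X ^ δ := by
          have h1 := (rpos (lam * ((1010 : ℕ) : ℝ))).le
          have h2 := (rpos δ).le
          gcongr
      _ ≤ X ^ ((1 / 3 - 3 / 2 * δ) + -(4 * δ)) := by
          rw [pw hX0, radd, radd]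
          apply rle
          push_cast
          rw [hlam]; linarith
      _ = X ^ (1 / 3 - 3 / 2 * δ) * X ^ (-(4 * δ)) := (radd _ _).symm
      _ ≤ N * X ^ (-(4 * δ)) := mul_le_mul_of_nonneg_right hU hpos4.le
  · rw [pw hX0, pw hX0, radd, radd]
    calc X ^ ((1 / 2 + τ) * ((2 : ℕ) : ℝ) + δ + lam * ((100 : ℕ) : ℝ))
        ≤ X ^ ((τ + 7 / 2 * δ) * ((2 : ℕ) : ℝ) + (1 - 3 / 2 * δ) + -(4 * δ)) := by
          apply rle
          push_cast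
          rw [hlam]; linarith
      _ = (X ^ (τ + 7 / 2 * δ)) ^ 2 * X ^ (1 - 3 / 2 * δ) * X ^ (-(4 * δ)) := by rw [pw hX0, radd, radd]
      _ ≤ (G1 : ℝ) ^ 2 * (M * N) * X ^ (-(4 * δ)) := by
          have h1 := (rpos (τ + 7 / 2 * δ)).le
          have h2 := (rpos (1 - 3 / 2 * δ)).le
          gcongr
      _ = _ := by ring
  · rw [pw hX0, pw hX0, pw hX0, pw hX0]
    calc X ^ ((1 / 2 + τ) * ((2 : ℕ) : ℝ)) * G1 * X ^ (δ * ((3 : ℕ) : ℝ)) * X ^ (lam * ((1010 : ℕ) : ℝ))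
        ≤ X ^ ((1 / 2 + τ) * ((2 : ℕ) : ℝ)) * X ^ (τ + 4 * δ) * X ^ (δ * ((3 : ℕ) : ℝ)) *
            X ^ (lam * ((1010 : ℕ) : ℝ)) := by
          have h1 := (rpos ((1 / 2 + τ) * ((2 : ℕ) : ℝ))).le
          have h2 := (rpos (δ * ((3 : ℕ) : ℝ))).le
          have h3 := (rpos (lam * ((1010 : ℕ) : ℝ))).le
          gcongr
      _ ≤ X ^ ((3 / 2 * τ + 7 * δ) * ((2 : ℕ) : ℝ) + (1 - 3 / 2 * δ) + -(4 * δ)) := by
          rw [radd, radd, radd]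
          apply rle
          push_cast
          rw [hlam]; linarith
      _ = X ^ ((3 / 2 * τ + 7 * δ) * ((2 : ℕ) : ℝ)) * X ^ (1 - 3 / 2 * δ) * X ^ (-(4 * δ)) := by rw [radd, radd]
      _ ≤ X ^ ((3 / 2 * τ + 7 * δ) * ((2 : ℕ) : ℝ)) * (M * N) * X ^ (-(4 * δ)) := by
          have h1 := (rpos ((3 / 2 * τ + 7 * δ) * ((2 : ℕ) : ℝ))).le
          gcongr
      _ = _ := by ring
  · rw [pw hX0, pw hX0]
    calc X ^ ((3 / 2 * τ + 7 * δ) * ((4 : ℕ) : ℝ)) * (G1 : ℝ) ^ 16 * X ^ (lam * ((1010 : ℕ) : ℝ))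
        ≤ X ^ ((3 / 2 * τ + 7 * δ) * ((4 : ℕ) : ℝ)) * (X ^ (τ + 4 * δ)) ^ 16 * X ^ (lam * ((1010 : ℕ) : ℝ)) := by
          have h1 := (rpos ((3 / 2 * τ + 7 * δ) * ((4 : ℕ) : ℝ))).le
          have h3 := (rpos (lam * ((1010 : ℕ) : ℝ))).le
          gcongr
      _ ≤ X ^ (1 / 3 - 3 / 2 * δ) := by
          rw [pw hX0, radd, radd]
          apply rle
          push_cast
          rw [hlam]; linarith
      _ ≤ N := hU
  · have h1 : (M * (X ^ δ) ^ 2 * (G1 : ℝ) ^ 24 * (X ^ (3 / 2 * τ + 7 * δ)) ^ 4 * (X ^ lam) ^ 1010) * N ≤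
        (N : ℝ) ^ 3 * N := by
      calc (M * (X ^ δ) ^ 2 * (G1 : ℝ) ^ 24 * (X ^ (3 / 2 * τ + 7 * δ)) ^ 4 * (X ^ lam) ^ 1010) * N
          = (M * N) * (X ^ δ) ^ 2 * (G1 : ℝ) ^ 24 * (X ^ (3 / 2 * τ + 7 * δ)) ^ 4 * (X ^ lam) ^ 1010 := by ring
        _ ≤ X * (X ^ δ) ^ 2 * (X ^ (τ + 4 * δ)) ^ 24 * (X ^ (3 / 2 * τ + 7 * δ)) ^ 4 * (X ^ lam) ^ 1010 := by
            have h1 := (rpos δ).le
            have h2 := (rpos (3 / 2 * τ + 7 * δ)).le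
            have h3 := (rpos lam).le
            gcongr
        _ = X ^ (1 + δ * ((2 : ℕ) : ℝ) + (τ + 4 * δ) * ((24 : ℕ) : ℝ) + (3 / 2 * τ + 7 * δ) * ((4 : ℕ) : ℝ) +
              lam * ((1010 : ℕ) : ℝ)) := by
            rw [pw hX0, pw hX0, pw hX0, pw hX0, ← radd, ← radd, ← radd, ← radd, Real.rpow_one]
        _ ≤ X ^ ((1 / 3 - 3 / 2 * δ) * ((4 : ℕ) : ℝ)) := by
            apply rle
            push_cast
            rw [hlam]; linarith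
        _ = (X ^ (1 / 3 - 3 / 2 * δ)) ^ 4 := (pw hX0 _ _).symm
        _ ≤ (N : ℝ) ^ 4 := pow_le_pow_left₀ (rpos _).le hU 4
        _ = (N : ℝ) ^ 3 * N := by ring
    exact le_of_mul_le_mul_right h1 hN0

/-- balanced blocks -/
lemma blkB {x : ℕ} {κ e δ lam τ : ℝ} (hX : (256 : ℝ) ≤ x) (hτ : 0 ≤ τ) (hδ : 0 < δ)
    (hδθ : 30 * τ + 200 * δ ≤ 1 / 3) (hκ : κ + 6 * δ ≤ 1 / 3) (he : 0 < e) (heδ : e ≤ δ)
    (hlam : lam = e / 2000) (M N : ℕ) (hU : (x : ℝ) ^ (1 / 3 - 3 / 2 * δ) ≤ N) (hNM : N ≤ M)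
    (hB : (x : ℝ) ^ (1 - 3 / 2 * δ) ≤ M * N)
    (hG1 : 1 * (x : ℝ) ^ (2 * τ + 11 / 2 * δ) ≤ (⌊(x : ℝ) ^ (2 * τ + 6 * δ)⌋₊ : ℝ))
    (hcase : (M : ℝ) ≤ (N : ℝ) * (x : ℝ) ^ (τ + δ)) :
    Blk x ((x : ℝ) ^ lam) ((x : ℝ) ^ κ) ((x : ℝ) ^ δ) ((x : ℝ) ^ (1 / 2 + τ)) ((x : ℝ) ^ (4 * δ)) M N
      ⌊(x : ℝ) ^ (2 * τ + 6 * δ)⌋₊ (M * (x : ℝ) ^ (-(2 * τ + 7 * δ))) ((x : ℝ) ^ (3 * τ + 10 * δ)) := by
  have hlam0 : 0 < lam := by rw [hlam]; positivity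
  set X : ℝ := (x : ℝ) with hXdef
  have hX0 : 0 < X := by linarith
  have hX1 : 1 ≤ X := by linarith
  have rle : ∀ {a b : ℝ}, a ≤ b → X ^ a ≤ X ^ b := fun h => Real.rpow_le_rpow_of_exponent_le hX1 h
  have radd : ∀ a b : ℝ, X ^ a * X ^ b = X ^ (a + b) := fun a b => (Real.rpow_add hX0 a b).symm
  have rpos : ∀ a : ℝ, 0 < X ^ a := fun a => Real.rpow_pos_of_pos hX0 a
  have r1 : ∀ {a : ℝ}, 0 ≤ a → 1 ≤ X ^ a := fun h => Real.one_le_rpow hX1 h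
  set G1 : ℕ := ⌊X ^ (2 * τ + 6 * δ)⌋₊ with hG1def
  have hG1le : (G1 : ℝ) ≤ X ^ (2 * τ + 6 * δ) := Nat.floor_le (rpos _).le
  rw [one_mul] at hG1
  have hG1pos : (0 : ℝ) < G1 := lt_of_lt_of_le (rpos _) hG1
  have hN0 : (0 : ℝ) < N := lt_of_lt_of_le (rpos _) hU
  have hNMr : (N : ℝ) ≤ M := by exact_mod_cast hNM
  have hM0 : (0 : ℝ) < M := by linarith
  have hM2 : X ^ (1 - 3 / 2 * δ) ≤ (M : ℝ) ^ 2 := by
    refine hB.trans ?_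
    rw [sq]
    exact mul_le_mul_of_nonneg_left hNMr hM0.le
  have hMl : X ^ (1 / 2 - 3 / 4 * δ) ≤ M := by
    have h1 : (X ^ (1 / 2 - 3 / 4 * δ)) ^ 2 ≤ (M : ℝ) ^ 2 := by
      refine le_trans (le_of_eq ?_) hM2
      rw [pw hX0]
      congr 1
      push_cast
      ring
    exact (abs_le_of_sq_le_sq' h1 hM0.le).2
  have hNl : X ^ (1 / 2 - τ - 7 / 4 * δ) ≤ N := by
    have h1 : X ^ (1 / 2 - τ - 7 / 4 * δ) * X ^ (τ + δ) ≤ N * X ^ (τ + δ) := by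
      rw [radd]
      refine le_trans (le_trans (rle (by linarith)) hMl) hcase
    exact le_of_mul_le_mul_right h1 (rpos _)
  have hpos4 := rpos (-(2 * τ + 7 * δ))
  refine
    { g1 := by exact_mod_cast hG1pos
      r1 := ?_
      r2 := ?_
      r3 := ?_
      r4 := ?_
      v1 := r1 (by positivity)
      pr := ?_
      pv := ?_
      vn := ?_
      ve := ?_ }
  · calc X ^ κ ≤ X ^ ((1 / 2 - 3 / 4 * δ) + -(2 * τ + 7 * δ)) := rle (by linarith)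
      _ = X ^ (1 / 2 - 3 / 4 * δ) * X ^ (-(2 * τ + 7 * δ)) := (radd _ _).symm
      _ ≤ M * X ^ (-(2 * τ + 7 * δ)) := mul_le_mul_of_nonneg_right hMl hpos4.le
  · calc M * X ^ (-(2 * τ + 7 * δ)) * X ^ (4 * δ)
        ≤ (N * X ^ (τ + δ)) * X ^ (-(2 * τ + 7 * δ)) * X ^ (4 * δ) := by
          have := (rpos (4 * δ)).le
          gcongr
      _ = N * (X ^ (τ + δ) * X ^ (-(2 * τ + 7 * δ)) * X ^ (4 * δ)) := by ring
      _ ≤ N * 1 := by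
          apply mul_le_mul_of_nonneg_left _ hN0.le
          rw [radd, radd]
          calc X ^ (τ + δ + -(2 * τ + 7 * δ) + 4 * δ) ≤ X ^ (0 : ℝ) := rle (by linarith)
            _ = 1 := Real.rpow_zero X
      _ = N := mul_one _
  · rw [pw hX0]
    calc (G1 : ℝ) * (M * X ^ (-(2 * τ + 7 * δ))) * X ^ (lam * ((1010 : ℕ) : ℝ))
        ≤ X ^ (2 * τ + 6 * δ) * (M * X ^ (-(2 * τ + 7 * δ))) * X ^ (lam * ((1010 : ℕ) : ℝ)) := by
          have := (rpos (lam * ((1010 : ℕ) : ℝ))).le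
          gcongr
      _ = M * (X ^ (2 * τ + 6 * δ) * X ^ (-(2 * τ + 7 * δ)) * X ^ (lam * ((1010 : ℕ) : ℝ))) := by ring
      _ ≤ M * 1 := by
          apply mul_le_mul_of_nonneg_left _ hM0.le
          rw [radd, radd]
          calc X ^ (2 * τ + 6 * δ + -(2 * τ + 7 * δ) + lam * ((1010 : ℕ) : ℝ)) ≤ X ^ (0 : ℝ) := by
                apply rle
                push_cast
                rw [hlam]; linarith
            _ = 1 := Real.rpow_zero X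
      _ = M := mul_one _
  · rw [pw hX0]
    calc (G1 : ℝ) ^ 18 * X ^ (lam * ((1010 : ℕ) : ℝ)) * X ^ δ
        ≤ (X ^ (2 * τ + 6 * δ)) ^ 18 * X ^ (lam * ((1010 : ℕ) : ℝ)) * X ^ δ := by
          have h1 := (rpos (lam * ((1010 : ℕ) : ℝ))).le
          have h2 := (rpos δ).le
          gcongr
      _ ≤ X ^ ((1 / 2 - 3 / 4 * δ) + -(2 * τ + 7 * δ)) := by
          rw [pw hX0, radd, radd]
          apply rle
          push_cast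
          rw [hlam]; linarith
      _ = X ^ (1 / 2 - 3 / 4 * δ) * X ^ (-(2 * τ + 7 * δ)) := (radd _ _).symm
      _ ≤ M * X ^ (-(2 * τ + 7 * δ)) := mul_le_mul_of_nonneg_right hMl hpos4.le
  · rw [pw hX0, pw hX0, radd, radd]
    calc X ^ ((1 / 2 + τ) * ((2 : ℕ) : ℝ) + δ + lam * ((100 : ℕ) : ℝ))
        ≤ X ^ ((2 * τ + 11 / 2 * δ) * ((2 : ℕ) : ℝ) + (1 - 3 / 2 * δ) + -(2 * τ + 7 * δ)) := by
          apply rle
          push_cast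
          rw [hlam]; linarith
      _ = (X ^ (2 * τ + 11 / 2 * δ)) ^ 2 * X ^ (1 - 3 / 2 * δ) * X ^ (-(2 * τ + 7 * δ)) := by rw [pw hX0, radd, radd]
      _ ≤ (G1 : ℝ) ^ 2 * (M : ℝ) ^ 2 * X ^ (-(2 * τ + 7 * δ)) := by
          have h1 := (rpos (2 * τ + 11 / 2 * δ)).le
          have h2 := (rpos (1 - 3 / 2 * δ)).le
          gcongr
      _ = _ := by ring
  · rw [pw hX0, pw hX0, pw hX0, pw hX0]
    calc X ^ ((1 / 2 + τ) * ((2 : ℕ) : ℝ)) * G1 * X ^ (δ * ((3 : ℕ) : ℝ)) * X ^ (lam * ((1010 : ℕ) : ℝ))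
        ≤ X ^ ((1 / 2 + τ) * ((2 : ℕ) : ℝ)) * X ^ (2 * τ + 6 * δ) * X ^ (δ * ((3 : ℕ) : ℝ)) *
            X ^ (lam * ((1010 : ℕ) : ℝ)) := by
          have h1 := (rpos ((1 / 2 + τ) * ((2 : ℕ) : ℝ))).le
          have h2 := (rpos (δ * ((3 : ℕ) : ℝ))).le
          have h3 := (rpos (lam * ((1010 : ℕ) : ℝ))).le
          gcongr
      _ ≤ X ^ ((3 * τ + 10 * δ) * ((2 : ℕ) : ℝ) + (1 - 3 / 2 * δ) + -(2 * τ + 7 * δ)) := by
          rw [radd, radd, radd]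
          apply rle
          push_cast
          rw [hlam]; linarith
      _ = X ^ ((3 * τ + 10 * δ) * ((2 : ℕ) : ℝ)) * X ^ (1 - 3 / 2 * δ) * X ^ (-(2 * τ + 7 * δ)) := by rw [radd, radd]
      _ ≤ X ^ ((3 * τ + 10 * δ) * ((2 : ℕ) : ℝ)) * (M : ℝ) ^ 2 * X ^ (-(2 * τ + 7 * δ)) := by
          have h1 := (rpos ((3 * τ + 10 * δ) * ((2 : ℕ) : ℝ))).le
          gcongr
      _ = _ := by ring
  · rw [pw hX0, pw hX0]
    calc X ^ ((3 * τ + 10 * δ) * ((4 : ℕ) : ℝ)) * (G1 : ℝ) ^ 16 * X ^ (lam * ((1010 : ℕ) : ℝ))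
        ≤ X ^ ((3 * τ + 10 * δ) * ((4 : ℕ) : ℝ)) * (X ^ (2 * τ + 6 * δ)) ^ 16 * X ^ (lam * ((1010 : ℕ) : ℝ)) := by
          have h1 := (rpos ((3 * τ + 10 * δ) * ((4 : ℕ) : ℝ))).le
          have h3 := (rpos (lam * ((1010 : ℕ) : ℝ))).le
          gcongr
      _ ≤ X ^ (1 / 2 - τ - 7 / 4 * δ) := by
          rw [pw hX0, radd, radd]
          apply rle
          push_cast
          rw [hlam]; linarith
      _ ≤ N := hNl
  · calc M * (X ^ δ) ^ 2 * (G1 : ℝ) ^ 24 * (X ^ (3 * τ + 10 * δ)) ^ 4 * (X ^ lam) ^ 1010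
        ≤ (N * X ^ (τ + δ)) * (X ^ δ) ^ 2 * (X ^ (2 * τ + 6 * δ)) ^ 24 * (X ^ (3 * τ + 10 * δ)) ^ 4 *
            (X ^ lam) ^ 1010 := by
          have h1 := (rpos δ).le
          have h2 := (rpos (3 * τ + 10 * δ)).le
          have h3 := (rpos lam).le
          gcongr
      _ = N * (X ^ (τ + δ) * X ^ (δ * ((2 : ℕ) : ℝ)) * X ^ ((2 * τ + 6 * δ) * ((24 : ℕ) : ℝ)) *
            X ^ ((3 * τ + 10 * δ) * ((4 : ℕ) : ℝ)) * X ^ (lam * ((1010 : ℕ) : ℝ))) := by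
          rw [pw hX0, pw hX0, pw hX0, pw hX0]
          ring
      _ = N * X ^ ((τ + δ) + δ * ((2 : ℕ) : ℝ) + (2 * τ + 6 * δ) * ((24 : ℕ) : ℝ) +
            (3 * τ + 10 * δ) * ((4 : ℕ) : ℝ) + lam * ((1010 : ℕ) : ℝ)) := by
          rw [radd, radd, radd, radd]
      _ ≤ N * X ^ ((1 / 2 - τ - 7 / 4 * δ) * ((2 : ℕ) : ℝ)) := by
          apply mul_le_mul_of_nonneg_left _ hN0.le
          apply rle
          push_cast
          rw [hlam]; linarith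
      _ = N * (X ^ (1 / 2 - τ - 7 / 4 * δ)) ^ 2 := by rw [pw hX0]
      _ ≤ N * (N : ℝ) ^ 2 := by
          have := (rpos (1 / 2 - τ - 7 / 4 * δ)).le
          gcongr
      _ = (N : ℝ) ^ 3 := by ring

end Pool.Agent.Helper91K1.T
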