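import Mathlib
import Pool.Agent.R503.N.Hts
import Pool.Agent.Helper91K1.T.ParBG

/-! The main estimate for the von Mangoldt function, with classes depending on the modulus. -/

set_option autoImplicit false

open Finset Filter

namespace Pool.Agent.Helper91K1.T

open Pool.Agent.Y826.Z Pool.Agent.Y826.Z.OB Pool.Agent.R503.N

theorem env2G (τ κ e δ lam l' : ℝ) (hτ : 0 ≤ τ) (hδ : 0 < δ) (hδ1 : δ ≤ 1 / 1000)
    (hδθ : 30 * τ + 200 * δ ≤ 1 / 3) (hκ : κ + 6 * δ ≤ 1 / 3) (he : 0 < e) (heδ : e ≤ δ)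
    (hlam : lam = e / 2000) (hl0 : 0 < l') (hl : l' ≤ lam) :
    ∃ (C : ℝ) (R k : ℕ), (R : ℝ) ≤ 2 / lam + 1 ∧ (k : ℝ) ≤ 2 / e + 1 ∧ ∀ᶠ x : ℕ in atTop,
      Env2Y x ((x : ℝ) ^ lam) ((x : ℝ) ^ l') C ((x : ℝ) ^ κ) ((x : ℝ) ^ δ) ((x : ℝ) ^ (1 / 2 + τ)) ((x : ℝ) ^ (4 * δ))
        (2 * (x : ℝ) ^ (1 - lam / 4)) ⌊(x : ℝ) ^ e⌋₊ R ⌈(x : ℝ) ^ (lam / 4)⌉₊
        ⌊(x : ℝ) ^ (1 / 3 - δ)⌋₊ k (Nat.log 2 x + 1) ⌊(x : ℝ) ^ (1 - δ)⌋₊ := by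
  have hlam0 : 0 < lam := by rw [hlam]; positivity
  have hlam1 : lam ≤ 1 / 2 := by rw [hlam]; linarith
  obtain ⟨C, hC⟩ := env1G lam l' hlam0 hlam1 hl0 hl
  refine ⟨C, ⌈2 / lam⌉₊, ⌈2 / e⌉₊, (Nat.ceil_lt_add_one (by positivity)).le, (Nat.ceil_lt_add_one (by positivity)).le, ?_⟩
  have hev : ∀ᶠ X : ℝ in atTop, EnvY X (X ^ lam) (X ^ l') C ∧
      1 * X ^ (1 / 3 - 3 / 2 * δ) ≤ (⌊X ^ (1 / 3 - δ)⌋₊ : ℝ) ∧
      4 * X ^ (1 - 3 / 2 * δ) ≤ (⌊X ^ (1 - δ)⌋₊ : ℝ) ∧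
      2 * X ^ (3 / 5 * e) ≤ (⌊X ^ e⌋₊ : ℝ) ∧
      1 * X ^ (τ + 7 / 2 * δ) ≤ (⌊X ^ (τ + 4 * δ)⌋₊ : ℝ) ∧
      1 * X ^ (2 * τ + 11 / 2 * δ) ≤ (⌊X ^ (2 * τ + 6 * δ)⌋₊ : ℝ) ∧ 256 ≤ X := by
    filter_upwards [hC, ev_fl 1 zero_le_one (by linarith : 0 ≤ 1 / 3 - 3 / 2 * δ) (by linarith : 1 / 3 - 3 / 2 * δ < 1 / 3 - δ),
      ev_fl 4 (by norm_num) (by linarith : 0 ≤ 1 - 3 / 2 * δ) (by linarith : 1 - 3 / 2 * δ < 1 - δ),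
      ev_fl 2 (by norm_num) (by positivity : 0 ≤ 3 / 5 * e) (by linarith : 3 / 5 * e < e),
      ev_fl 1 zero_le_one (by positivity : 0 ≤ τ + 7 / 2 * δ) (by linarith : τ + 7 / 2 * δ < τ + 4 * δ),
      ev_fl 1 zero_le_one (by positivity : 0 ≤ 2 * τ + 11 / 2 * δ) (by linarith : 2 * τ + 11 / 2 * δ < 2 * τ + 6 * δ),
      eventually_ge_atTop 256]
      with X h1 h2 h3 h4 h5 h6 h7
    exact ⟨h1, h2, h3, h4, h5, h6, h7⟩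
  have hev2 : ∀ᶠ x : ℕ in atTop, EnvY (x : ℝ) ((x : ℝ) ^ lam) ((x : ℝ) ^ l') C ∧
      1 * (x : ℝ) ^ (1 / 3 - 3 / 2 * δ) ≤ (⌊(x : ℝ) ^ (1 / 3 - δ)⌋₊ : ℝ) ∧
      4 * (x : ℝ) ^ (1 - 3 / 2 * δ) ≤ (⌊(x : ℝ) ^ (1 - δ)⌋₊ : ℝ) ∧
      2 * (x : ℝ) ^ (3 / 5 * e) ≤ (⌊(x : ℝ) ^ e⌋₊ : ℝ) ∧
      1 * (x : ℝ) ^ (τ + 7 / 2 * δ) ≤ (⌊(x : ℝ) ^ (τ + 4 * δ)⌋₊ : ℝ) ∧
      1 * (x : ℝ) ^ (2 * τ + 11 / 2 * δ) ≤ (⌊(x : ℝ) ^ (2 * τ + 6 * δ)⌋₊ : ℝ) ∧ (256 : ℝ) ≤ x :=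
    tendsto_natCast_atTop_atTop.eventually hev
  filter_upwards [hev2] with x hx
  obtain ⟨hE, hU, hB, hG, hGA, hGB, hX⟩ := hx
  have hBlkA := fun (M N : ℕ) => blkA (x := x) (κ := κ) (e := e) (δ := δ) (lam := lam) (τ := τ) hX hτ hδ hδθ hκ he
    heδ hlam M N
  have hBlkB := fun (M N : ℕ) => blkB (x := x) (κ := κ) (e := e) (δ := δ) (lam := lam) (τ := τ) hX hτ hδ hδθ hκ he
    heδ hlam M N
  set X : ℝ := (x : ℝ) with hXdef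
  have hX0 : 0 < X := by linarith
  have hX1 : 1 ≤ X := by linarith
  have hX1' : 1 < X := by linarith
  have rle : ∀ {a b : ℝ}, a ≤ b → X ^ a ≤ X ^ b := fun h => Real.rpow_le_rpow_of_exponent_le hX1 h
  have radd : ∀ a b : ℝ, X ^ a * X ^ b = X ^ (a + b) := fun a b => (Real.rpow_add hX0 a b).symm
  have rpos : ∀ a : ℝ, 0 < X ^ a := fun a => Real.rpow_pos_of_pos hX0 a
  have r1 : ∀ {a : ℝ}, 0 ≤ a → 1 ≤ X ^ a := fun h => Real.one_le_rpow hX1 h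
  have hUle : (⌊X ^ (1 / 3 - δ)⌋₊ : ℝ) ≤ X ^ (1 / 3 - δ) := Nat.floor_le (rpos _).le
  have hBle : (⌊X ^ (1 - δ)⌋₊ : ℝ) ≤ X ^ (1 - δ) := Nat.floor_le (rpos _).le
  have hGle : (⌊X ^ e⌋₊ : ℝ) ≤ X ^ e := Nat.floor_le (rpos _).le
  rw [one_mul] at hU
  have hU3r : ((⌊X ^ (1 / 3 - δ)⌋₊ * ⌊X ^ (1 / 3 - δ)⌋₊ * ⌊X ^ (1 / 3 - δ)⌋₊ : ℕ) : ℝ) ≤ X ^ (1 - 3 * δ) := by
    push_cast
    calc (⌊X ^ (1 / 3 - δ)⌋₊ : ℝ) * ⌊X ^ (1 / 3 - δ)⌋₊ * ⌊X ^ (1 / 3 - δ)⌋₊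
        ≤ X ^ (1 / 3 - δ) * X ^ (1 / 3 - δ) * X ^ (1 / 3 - δ) := by
          have := (rpos (1 / 3 - δ)).le
          gcongr
      _ = X ^ (1 - 3 * δ) := by rw [radd, radd]; congr 1; ring
  have hR0pos : 0 < ⌈X ^ (lam / 4)⌉₊ := Nat.ceil_pos.2 (rpos _)
  have hUpos : (0 : ℝ) < (⌊X ^ (1 / 3 - δ)⌋₊ : ℝ) := lt_of_lt_of_le (rpos _) hU
  have hUposN : 0 < ⌊X ^ (1 / 3 - δ)⌋₊ := by exact_mod_cast hUpos
  have hle41 : X ^ (1 - δ) ≤ X ^ (1 - lam / 4) := rle (by rw [hlam]; linarith)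
  have hle43 : X ^ (1 - 3 * δ) ≤ X ^ (1 - lam / 4) := rle (by rw [hlam]; linarith)
  refine
    { E := hE
      hz := r1 hδ.le
      hG' := ?_
      hG := ?_
      hG2 := ?_
      hGG := ?_
      hU := hUposN
      hblk := ?_
      hP0 := (rpos _).le
      hPX := ?_
      hR := ?_
      hR0 := hR0pos
      hk := ?_
      hW1 := ?_
      hW2 := ?_
      hW3 := ?_
      hU3 := ?_
      hL := ?_
      hL2 := ?_ }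
  · rw [pw hX0, pw hX0, radd]
    apply rle
    push_cast
    rw [hlam]; linarith
  · rw [pw hX0]
    calc X ^ (lam * ((1010 : ℕ) : ℝ)) ≤ X ^ (3 / 5 * e * ((2 : ℕ) : ℝ)) := by
          apply rle; push_cast; rw [hlam]; linarith
      _ = (X ^ (3 / 5 * e)) ^ 2 := (pw hX0 _ _).symm
      _ ≤ (⌊X ^ e⌋₊ : ℝ) ^ 2 := by
          apply pow_le_pow_left₀ (rpos _).le
          linarith [rpos (3 / 5 * e)]
  · have h1 : (2 : ℝ) ≤ (⌊X ^ e⌋₊ : ℝ) := by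
      have := r1 (by positivity : 0 ≤ 3 / 5 * e)
      linarith
    exact_mod_cast h1
  · exact hGle.trans (rle (by linarith))
  · -- blocks
    intro M N hUN hNM hMN hB1
    have hUN' : X ^ (1 / 3 - 3 / 2 * δ) ≤ N := hU.trans (by exact_mod_cast hUN)
    have hMN' : (M : ℝ) * N ≤ X := by rw [hXdef]; exact_mod_cast hMN
    have hB' : X ^ (1 - 3 / 2 * δ) ≤ M * N := by
      have h1 : ((⌊X ^ (1 - δ)⌋₊ : ℕ) : ℝ) ≤ ((4 * (M * N) : ℕ) : ℝ) := by exact_mod_cast hB1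
      push_cast at h1
      linarith
    rcases le_total ((N : ℝ) * X ^ (τ + δ)) M with hc | hc
    · exact ⟨_, _, _, hBlkA M N hUN' hMN' hB' hGA hc⟩
    · exact ⟨_, _, _, hBlkB M N hUN' hNM hB' hGB hc⟩
  · rw [← Real.rpow_natCast X 10]
    apply rle
    push_cast
    linarith
  · rw [pw hX0]
    have h1 : 2 ≤ lam * (⌈2 / lam⌉₊ : ℝ) := by
      have := Nat.le_ceil (2 / lam)
      calc (2 : ℝ) = lam * (2 / lam) := by field_simp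
        _ ≤ _ := mul_le_mul_of_nonneg_left this hlam0.le
    calc 16 * X < X * X := by nlinarith
      _ = X ^ (2 : ℝ) := by rw [Real.rpow_two]; ring
      _ ≤ _ := rle h1
  · have h2 : 2 / e ≤ (⌈2 / e⌉₊ : ℝ) := Nat.le_ceil (2 / e)
    have h3 : 1 < 3 / 5 * e * ((⌈2 / e⌉₊ + 1 : ℕ) : ℝ) := by
      push_cast
      have h4 : 3 / 5 * e * (2 / e) = 6 / 5 := by field_simp; norm_num
      have h5 : 3 / 5 * e * (2 / e) ≤ 3 / 5 * e * (⌈2 / e⌉₊ : ℝ) := mul_le_mul_of_nonneg_left h2 (by positivity)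
      nlinarith
    calc X ^ (1 / 2 + τ) ≤ X ^ (1 : ℝ) := rle (by linarith)
      _ < X ^ (3 / 5 * e * ((⌈2 / e⌉₊ + 1 : ℕ) : ℝ)) := Real.rpow_lt_rpow_of_exponent_lt hX1' h3
      _ = (X ^ (3 / 5 * e)) ^ (⌈2 / e⌉₊ + 1) := (pw hX0 _ _).symm
      _ ≤ _ := by
          apply pow_le_pow_left₀ (rpos _).le
          linarith [rpos (3 / 5 * e)]
  · -- hW1
    set r0 := ⌈X ^ (lam / 4)⌉₊ with hr0
    have h1 : X ^ (lam / 4) ≤ r0 := Nat.le_ceil _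
    have h2 : x * r0 / (r0 + 1) ≤ x := by
      apply Nat.div_le_of_le_mul
      calc x * r0 ≤ x * (r0 + 1) := Nat.mul_le_mul_left x (Nat.le_succ _)
        _ = (r0 + 1) * x := mul_comm _ _
    rw [Nat.cast_sub h2]
    have h3 : (X * r0) / (r0 + 1) - 1 ≤ ((x * r0 / (r0 + 1) : ℕ) : ℝ) := by
      have h4 := Nat.lt_div_mul_add (a := x * r0) (b := r0 + 1) (Nat.succ_pos _)
      have h5 : (X * r0) < ((x * r0 / (r0 + 1) : ℕ) : ℝ) * (r0 + 1) + (r0 + 1) := by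
        have : ((x * r0 : ℕ) : ℝ) < ((x * r0 / (r0 + 1) * (r0 + 1) + (r0 + 1) : ℕ) : ℝ) := by exact_mod_cast h4
        push_cast at this
        linarith
      have h6 : (0 : ℝ) < (r0 : ℝ) + 1 := by positivity
      rw [sub_le_iff_le_add, div_le_iff₀ h6]
      nlinarith
    have h7 : X - (X * r0) / (r0 + 1) ≤ X ^ (1 - lam / 4) := by
      have h6 : (0 : ℝ) < (r0 : ℝ) + 1 := by positivity
      have e1 : X - (X * r0) / (r0 + 1) = X / (r0 + 1) := by field_simp; ring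
      rw [e1, div_le_iff₀ h6]
      calc X = X ^ (1 - lam / 4) * X ^ (lam / 4) := by rw [radd]; simp
        _ ≤ X ^ (1 - lam / 4) * (r0 + 1) := by
            apply mul_le_mul_of_nonneg_left _ (rpos _).le
            linarith
    have h8 : 1 ≤ X ^ (1 - lam / 4) := r1 (by linarith)
    linarith
  · have := (rpos (1 - lam / 4)).le
    linarith
  · have := (rpos (1 - lam / 4)).le
    linarith
  · have h1 : X ^ (1 - 3 * δ) ≤ X := by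
      calc X ^ (1 - 3 * δ) ≤ X ^ (1 : ℝ) := rle (by linarith)
        _ = X := Real.rpow_one X
    exact (Nat.cast_le (α := ℝ)).1 (hU3r.trans h1)
  · have h1 : x < 2 ^ (Nat.log 2 x + 1) := Nat.lt_pow_succ_log_self (by norm_num) x
    calc x ≤ 2 ^ (Nat.log 2 x + 1) := h1.le
      _ ≤ _ := Nat.le_mul_of_pos_left _ hUposN
  · have h1 : ((Nat.log 2 x : ℕ) : ℝ) ≤ Real.logb 2 X := Real.natLog_le_logb x 2
    have h2 : Real.logb 2 X ≤ 2 * Real.log X := by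
      unfold Real.logb
      rw [div_le_iff₀ (Real.log_pos (by norm_num))]
      have h3 := Real.log_two_gt_d9
      have h4 : 0 ≤ Real.log X := Real.log_nonneg hX1
      nlinarith
    have h5 := hE.E.hl
    rw [Real.log_pow] at h5
    push_cast at h5 ⊢
    have h4 : 0 ≤ Real.log X := Real.log_nonneg hX1
    linarith

/-- families of moduli with coherent classes -/
structure Tree (x q0 : ℕ) (θ ε1 η : ℝ) (c : ℕ → ℤ) (D : Set ℕ) : Prop where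
  mo : ∀ t ∈ D, Mo x q0 (c t) θ ε1 η t
  cc : ∀ t ∈ D, IsCoprime (c t) (q0 : ℤ)
  par : ∀ t ∈ D, t ≠ 1 → ∃ b : ℕ, 1 < b ∧ (b : ℝ) ≤ (x : ℝ) ^ η ∧ b ∣ t ∧ t / b ∈ D ∧
    ((q0 * (t / b) : ℕ) : ℤ) ∣ c t - c (t / b)

/-- the main estimate -/
theorem main_psiG (θ κ : ℝ) (hθ1 : 1 / 2 ≤ θ) (hθ : θ < 23 / 45) (hκ0 : 0 ≤ κ) (hκ : κ < 1 / 3) :
    ∃ η : ℝ, 0 < η ∧ ∀ ε1 : ℝ, 0 < ε1 → ∃ ε : ℝ, 0 < ε ∧ ∀ᶠ x : ℕ in atTop, ∀ q0 : ℕ, 0 < q0 →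
      (q0 : ℝ) ≤ (x : ℝ) ^ κ → ∀ (c : ℕ → ℤ) (D : Set ℕ), Tree x q0 θ ε1 η c D → ∀ T : Finset ℕ,
      (∀ t ∈ T, t ∈ D) →
      ∑ t ∈ T, |∑ n ∈ Icc 1 x, ArithmeticFunction.vonMangoldt n * ww q0 (c t) t n| ≤ (x : ℝ) ^ (1 - ε) / q0 := by
  set τ : ℝ := θ - 1 / 2 with hτdef
  have hτ0 : 0 ≤ τ := by rw [hτdef]; linarith
  have hθτ : θ = 1 / 2 + τ := by rw [hτdef]; ring
  set δ : ℝ := min (1 / 1000) (min ((1 / 3 - 30 * τ) / 200) ((1 / 3 - κ) / 6)) with hδdef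
  have hδ : 0 < δ := by
    rw [hδdef]
    refine lt_min (by norm_num) (lt_min ?_ ?_)
    · apply div_pos _ (by norm_num)
      linarith
    · apply div_pos _ (by norm_num)
      linarith
  have hδ1 : δ ≤ 1 / 1000 := min_le_left _ _
  have hδθ : 30 * τ + 200 * δ ≤ 1 / 3 := by
    have : δ ≤ (1 / 3 - 30 * τ) / 200 := (min_le_right _ _).trans (min_le_left _ _)
    linarith
  have hδκ : κ + 6 * δ ≤ 1 / 3 := by
    have : δ ≤ (1 / 3 - κ) / 6 := (min_le_right _ _).trans (min_le_right _ _)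
    linarith
  refine ⟨δ, hδ, fun ε1 hε1 => ?_⟩
  set e : ℝ := min ε1 δ with he
  have he0 : 0 < e := lt_min hε1 hδ
  have heδ : e ≤ δ := min_le_right _ _
  have he1 : e ≤ ε1 := min_le_left _ _
  set lam : ℝ := e / 2000 with hlam
  have hlam0 : 0 < lam := by rw [hlam]; positivity
  set l' : ℝ := lam / (8 * (4 / e + 10)) with hl'
  have hden : 0 < 8 * (4 / e + 10) := by positivity
  have hl0 : 0 < l' := by rw [hl']; positivity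
  have hl : l' ≤ lam := by
    rw [hl']
    apply div_le_self hlam0.le
    have : 0 < 4 / e := by positivity
    linarith
  obtain ⟨C, R, k, hR, hk, hev⟩ := env2G τ κ e δ lam l' hτ0 hδ hδ1 hδθ hδκ he0 heδ hlam hl0 hl
  refine ⟨lam / 8, by positivity, ?_⟩
  have hev2 : ∀ᶠ x : ℕ in atTop, 112 * 3 ^ k * (k : ℝ) * (R : ℝ) ^ 3 + 51 ≤ (x : ℝ) ^ l' :=
    tendsto_natCast_atTop_atTop.eventually (Pool.Agent.Y61.Z.ev_rpow _ hl0)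
  filter_upwards [hev, hev2] with x hx hx2 q0 hq hqκ c D hD T hT
  have hE := hx.E.E
  have hX := hE.hX
  set X : ℝ := (x : ℝ) with hXdef
  have hX0 : 0 < X := by linarith
  have hX1 : 1 ≤ X := by linarith
  have rle : ∀ {a b : ℝ}, a ≤ b → X ^ a ≤ X ^ b := fun h => Real.rpow_le_rpow_of_exponent_le hX1 h
  have radd : ∀ a b : ℝ, X ^ a * X ^ b = X ^ (a + b) := fun a b => (Real.rpow_add hX0 a b).symm
  have rpos : ∀ a : ℝ, 0 < X ^ a := fun a => Real.rpow_pos_of_pos hX0 a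
  have r1 : ∀ {a : ℝ}, 0 ≤ a → 1 ≤ X ^ a := fun h => Real.one_le_rpow hX1 h
  have hqr : (0 : ℝ) < q0 := by exact_mod_cast hq
  have hH : CohD q0 ⌊X ^ e⌋₊ (X ^ δ) (X ^ (1 / 2 + τ)) c D := by
    refine ⟨fun t ht => ⟨?_, hD.cc t ht⟩, hD.par⟩
    obtain ⟨h1, h2, h3, h4⟩ := hD.mo t ht
    refine ⟨h1, h2, fun p hp hd => ⟨?_, (h3 p hp hd).2⟩, ?_⟩
    · have h5 : (⌊X ^ e⌋₊ : ℝ) < p := by
        calc (⌊X ^ e⌋₊ : ℝ) ≤ X ^ e := Nat.floor_le (rpos _).le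
          _ ≤ X ^ ε1 := rle he1
          _ < p := (h3 p hp hd).1
      exact_mod_cast h5
    · rw [← hθτ]; exact h4
  have hmain := vauG hx hH hq hqκ T hT
  refine hmain.trans ?_
  set ℓ : ℝ := X ^ l' with hℓdef
  set Λ : ℝ := X ^ lam with hΛdef
  set Wd : ℝ := X ^ (1 - lam / 4) with hWd
  set G : ℕ := ⌊X ^ e⌋₊ with hGdef
  set R0 : ℕ := ⌈X ^ (lam / 4)⌉₊ with hR0def
  set U : ℕ := ⌊X ^ (1 / 3 - δ)⌋₊ with hUdef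
  set L : ℕ := Nat.log 2 x + 1 with hLdef
  have hℓ1 : 1 ≤ ℓ := hE.l1
  have hℓ0 : 0 < ℓ := by linarith
  have hΛ0 : 0 < Λ := rpos _
  have hΛ1 : 1 ≤ Λ := by linarith [hE.hΛ]
  have hWd0 : 0 < Wd := rpos _
  have hLℓ := hx.hL2
  have hL0 : (0 : ℝ) ≤ L := Nat.cast_nonneg _
  have hL2 : (L : ℝ) ^ 2 ≤ ℓ ^ 2 := pow_le_pow_left₀ hL0 hLℓ 2
  -- elementary sizes
  have hqW : (q0 : ℝ) ≤ Wd := hqκ.trans (rle (by rw [hlam]; linarith))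
  have hP : X ^ (1 / 2 + τ) ≤ Wd := rle (by rw [hlam]; linarith)
  have hUP : (U : ℝ) * X ^ (1 / 2 + τ) ≤ Wd := by
    calc (U : ℝ) * X ^ (1 / 2 + τ) ≤ X ^ (1 / 3 - δ) * X ^ (1 / 2 + τ) :=
          mul_le_mul_of_nonneg_right (Nat.floor_le (rpos _).le) (rpos _).le
      _ = X ^ (1 / 3 - δ + (1 / 2 + τ)) := radd _ _
      _ ≤ Wd := rle (by rw [hlam]; linarith)
  have hWq : 2 * Wd / q0 + 1 ≤ 3 * (Wd / q0) := by
    have h1 : 1 ≤ Wd / q0 := (one_le_div hqr).2 hqW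
    have h2 : 2 * Wd / q0 = 2 * (Wd / q0) := by ring
    linarith
  have hPq : X ^ (1 / 2 + τ) / q0 ≤ Wd / q0 := div_le_div_of_nonneg_right hP hqr.le
  have hG2 : Λ ≤ G := by
    have h1 := hx.hG
    have h2 : Λ ^ 2 ≤ (G : ℝ) ^ 2 := (pow_le_pow_right₀ hΛ1 (by norm_num)).trans h1
    exact (abs_le_of_sq_le_sq' h2 (Nat.cast_nonneg _)).2
  have hG0 : (0 : ℝ) < G := lt_of_lt_of_le hΛ0 hG2
  -- the constant
  have hKK : KKG Λ ℓ G R k ≤ 3 ^ k * (2 * ((R : ℝ) ^ 3 * (7 * ℓ ^ 5 * X ^ (-(lam / 2))))) := by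
    unfold KKG
    have h1 : 39 * ℓ ^ 7 / G + 6 * ℓ ^ 2 * Λ⁻¹ ≤ (7 * ℓ ^ 4 * X ^ (-(lam / 2))) ^ 2 := by
      have e1 : (7 * ℓ ^ 4 * X ^ (-(lam / 2))) ^ 2 = 49 * ℓ ^ 8 * Λ⁻¹ := by
        rw [mul_pow, mul_pow, pw hX0 (-(lam / 2)) 2]
        have : X ^ (-(lam / 2) * ((2 : ℕ) : ℝ)) = Λ⁻¹ := by
          rw [hΛdef, ← Real.rpow_neg hX0.le]
          congr 1
          push_cast
          ring
        rw [this]
        ring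
      rw [e1]
      have h2 : 39 * ℓ ^ 7 / G ≤ 39 * ℓ ^ 8 * Λ⁻¹ := by
        rw [← div_eq_mul_inv]
        have h3 : ℓ ^ 7 ≤ ℓ ^ 8 := pow_le_pow_right₀ hℓ1 (by norm_num)
        gcongr
      have h4 : 6 * ℓ ^ 2 * Λ⁻¹ ≤ 10 * ℓ ^ 8 * Λ⁻¹ := by
        have h5 : ℓ ^ 2 ≤ ℓ ^ 8 := pow_le_pow_right₀ hℓ1 (by norm_num)
        have h6 : 0 < Λ⁻¹ := by positivity
        apply mul_le_mul_of_nonneg_right _ h6.le
        have : 0 ≤ ℓ ^ 8 := by positivity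
        linarith
      linarith
    have h6 : Real.sqrt (39 * ℓ ^ 7 / G + 6 * ℓ ^ 2 * Λ⁻¹) ≤ 7 * ℓ ^ 4 * X ^ (-(lam / 2)) := by
      have := Real.sqrt_le_sqrt h1
      rwa [Real.sqrt_sq (by have := (rpos (-(lam / 2))).le; positivity)] at this
    apply mul_le_mul_of_nonneg_left _ (by positivity)
    apply mul_le_mul_of_nonneg_left _ (by positivity)
    apply mul_le_mul_of_nonneg_left _ (by positivity)
    calc ℓ * Real.sqrt (39 * ℓ ^ 7 / G + 6 * ℓ ^ 2 * Λ⁻¹) ≤ ℓ * (7 * ℓ ^ 4 * X ^ (-(lam / 2))) :=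
          mul_le_mul_of_nonneg_left h6 hℓ0.le
      _ = _ := by ring
  have hKK0 : 0 ≤ KKG Λ ℓ G R k := KKG_nonneg hx
  have hR0le : (R0 : ℝ) ≤ 2 * X ^ (lam / 4) := by
    have h1 : (R0 : ℝ) < X ^ (lam / 4) + 1 := Nat.ceil_lt_add_one (rpos _).le
    have h2 : 1 ≤ X ^ (lam / 4) := r1 (by positivity)
    linarith
  have hBB : BBG x Λ ℓ (X ^ (1 / 2 + τ)) (2 * Wd) G R R0 k q0 ≤
      28 * 3 ^ k * k * (R : ℝ) ^ 3 * ℓ ^ (2 * k + 5) * (Wd / q0) + 7 * ℓ ^ 5 * (Wd / q0) := by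
    unfold BBG
    have h1 : (R0 : ℝ) * (k * (ℓ ^ 2) ^ k * KKG Λ ℓ G R k * (X / q0)) ≤
        28 * 3 ^ k * k * (R : ℝ) ^ 3 * ℓ ^ (2 * k + 5) * (Wd / q0) := by
      have e1 : X ^ (lam / 4) * X ^ (-(lam / 2)) * X = Wd := by
        calc X ^ (lam / 4) * X ^ (-(lam / 2)) * X = X ^ (lam / 4) * X ^ (-(lam / 2)) * X ^ (1 : ℝ) := by
              rw [Real.rpow_one]
          _ = Wd := by rw [radd, radd]; congr 1; ring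
      calc (R0 : ℝ) * (k * (ℓ ^ 2) ^ k * KKG Λ ℓ G R k * (X / q0))
          ≤ (2 * X ^ (lam / 4)) * (k * (ℓ ^ 2) ^ k *
              (3 ^ k * (2 * ((R : ℝ) ^ 3 * (7 * ℓ ^ 5 * X ^ (-(lam / 2)))))) * (X / q0)) := by
            gcongr
        _ = 28 * 3 ^ k * k * (R : ℝ) ^ 3 * ((ℓ ^ 2) ^ k * ℓ ^ 5) *
              ((X ^ (lam / 4) * X ^ (-(lam / 2)) * X) / q0) := by ring
        _ = _ := by rw [e1, ← pow_mul, ← pow_add]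
    have h2 : ℓ ^ 3 * (2 * ℓ ^ 2 * (2 * Wd / q0 + 1) + X ^ (1 / 2 + τ) / q0) ≤ 7 * ℓ ^ 5 * (Wd / q0) := by
      have h3 : 1 ≤ ℓ ^ 2 := one_le_pow₀ hℓ1
      have h4 : 0 ≤ Wd / q0 := by positivity
      calc ℓ ^ 3 * (2 * ℓ ^ 2 * (2 * Wd / q0 + 1) + X ^ (1 / 2 + τ) / q0)
          ≤ ℓ ^ 3 * (2 * ℓ ^ 2 * (3 * (Wd / q0)) + 1 * (Wd / q0)) := by rw [one_mul]; gcongr
        _ ≤ ℓ ^ 3 * (2 * ℓ ^ 2 * (3 * (Wd / q0)) + ℓ ^ 2 * (Wd / q0)) := by gcongr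
        _ = _ := by ring
    exact add_le_add h1 h2
  have hlk : ∀ j : ℕ, j ≤ 2 * k + 7 → ℓ ^ j ≤ ℓ ^ (2 * k + 7) := fun j hj => pow_le_pow_right₀ hℓ1 hj
  have hZ : 0 ≤ Wd / q0 := by positivity
  have hBB0 : 0 ≤ 28 * 3 ^ k * k * (R : ℝ) ^ 3 * ℓ ^ (2 * k + 5) * (Wd / q0) + 7 * ℓ ^ 5 * (Wd / q0) := by positivity
  have t1 : 4 * ((L : ℝ) ^ 2 * BBG x Λ ℓ (X ^ (1 / 2 + τ)) (2 * Wd) G R R0 k q0) ≤
      (112 * 3 ^ k * k * (R : ℝ) ^ 3 + 28) * ℓ ^ (2 * k + 7) * (Wd / q0) := by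
    calc 4 * ((L : ℝ) ^ 2 * BBG x Λ ℓ (X ^ (1 / 2 + τ)) (2 * Wd) G R R0 k q0)
        ≤ 4 * (ℓ ^ 2 * (28 * 3 ^ k * k * (R : ℝ) ^ 3 * ℓ ^ (2 * k + 5) * (Wd / q0) + 7 * ℓ ^ 5 * (Wd / q0))) := by
          apply mul_le_mul_of_nonneg_left _ (by norm_num)
          exact (mul_le_mul_of_nonneg_left hBB (by positivity)).trans (mul_le_mul_of_nonneg_right hL2 hBB0)
      _ = 112 * 3 ^ k * k * (R : ℝ) ^ 3 * ℓ ^ (2 * k + 7) * (Wd / q0) + 28 * ℓ ^ 7 * (Wd / q0) := by ring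
      _ ≤ 112 * 3 ^ k * k * (R : ℝ) ^ 3 * ℓ ^ (2 * k + 7) * (Wd / q0) + 28 * ℓ ^ (2 * k + 7) * (Wd / q0) := by
          have := hlk 7 (by omega)
          gcongr
      _ = _ := by ring
  have t2 : 16 * ℓ ^ 2 * U * (X ^ (1 / 2 + τ) / q0) ≤ 16 * ℓ ^ (2 * k + 7) * (Wd / q0) := by
    calc 16 * ℓ ^ 2 * U * (X ^ (1 / 2 + τ) / q0) = 16 * ℓ ^ 2 * ((U * X ^ (1 / 2 + τ)) / q0) := by ring
      _ ≤ 16 * ℓ ^ 2 * (Wd / q0) := by gcongr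
      _ ≤ _ := by
          have := hlk 2 (by omega)
          gcongr
  have t3 : ℓ * (2 * ℓ ^ 2 * (2 * Wd / q0 + 1) + X ^ (1 / 2 + τ) / q0) ≤ 7 * ℓ ^ (2 * k + 7) * (Wd / q0) := by
    have h3 : 1 ≤ ℓ ^ 2 := one_le_pow₀ hℓ1
    calc ℓ * (2 * ℓ ^ 2 * (2 * Wd / q0 + 1) + X ^ (1 / 2 + τ) / q0)
        ≤ ℓ * (2 * ℓ ^ 2 * (3 * (Wd / q0)) + 1 * (Wd / q0)) := by rw [one_mul]; gcongr
      _ ≤ ℓ * (2 * ℓ ^ 2 * (3 * (Wd / q0)) + ℓ ^ 2 * (Wd / q0)) := by gcongr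
      _ = 7 * ℓ ^ 3 * (Wd / q0) := by ring
      _ ≤ _ := by
          have := hlk 3 (by omega)
          gcongr
  have hfin : ℓ ^ (2 * k + 8) ≤ X ^ (lam / 8) := by
    rw [hℓdef, pw hX0]
    apply rle
    push_cast
    have h1 : 2 * (k : ℝ) + 8 ≤ 4 / e + 10 := by
      have : 2 * (2 / e) = 4 / e := by ring
      linarith
    calc l' * (2 * (k : ℝ) + 8) ≤ l' * (4 / e + 10) := mul_le_mul_of_nonneg_left h1 hl0.le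
      _ = lam / 8 := by rw [hl']; field_simp
  calc _ ≤ (112 * 3 ^ k * k * (R : ℝ) ^ 3 + 28) * ℓ ^ (2 * k + 7) * (Wd / q0) + 16 * ℓ ^ (2 * k + 7) * (Wd / q0) +
        7 * ℓ ^ (2 * k + 7) * (Wd / q0) := add_le_add (add_le_add t1 t2) t3
    _ = (112 * 3 ^ k * k * (R : ℝ) ^ 3 + 51) * (ℓ ^ (2 * k + 7) * (Wd / q0)) := by ring
    _ ≤ ℓ * (ℓ ^ (2 * k + 7) * (Wd / q0)) := mul_le_mul_of_nonneg_right hx2 (by positivity)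
    _ = ℓ ^ (2 * k + 8) * (Wd / q0) := by ring
    _ ≤ X ^ (lam / 8) * (Wd / q0) := by gcongr
    _ = X ^ (1 - lam / 8) / q0 := by
        rw [mul_div_assoc', hWd, radd]
        congr 2
        ring

end Pool.Agent.Helper91K1.T
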