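import Mathlib
import Pool.Agent.R503.N.PiC
import Pool.Agent.Helper91K1.T.ParCG

/-! All heights, and primes, with classes depending on the modulus. -/

set_option autoImplicit false

open Finset Filter

namespace Pool.Agent.Helper91K1.T

open Pool.Agent.Y826.Z Pool.Agent.Y826.Z.OB Pool.Agent.R503.N

lemma card_Tree {x q0 : ℕ} {θ ε1 η : ℝ} {c : ℕ → ℤ} (hx : 0 < x) (hq : 0 < q0) (T : Finset ℕ)
    (hT : ∀ t ∈ T, Mo x q0 (c t) θ ε1 η t) : (T.card : ℝ) ≤ (x : ℝ) ^ θ / q0 := by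
  have hqr : (0 : ℝ) < q0 := by exact_mod_cast hq
  have hxr : (0 : ℝ) < x := by exact_mod_cast hx
  have h1 : T ⊆ Icc 1 ⌊(x : ℝ) ^ θ / q0⌋₊ := by
    intro t ht
    rw [mem_Icc]
    refine ⟨(hT t ht).pos, Nat.le_floor ?_⟩
    rw [le_div_iff₀ hqr, mul_comm]
    exact (hT t ht).2.2.2
  have h2 := card_le_card h1
  rw [Nat.card_Icc, Nat.add_sub_cancel] at h2
  calc (T.card : ℝ) ≤ (⌊(x : ℝ) ^ θ / q0⌋₊ : ℝ) := by exact_mod_cast h2
    _ ≤ _ := Nat.floor_le (by have := Real.rpow_nonneg hxr.le θ; positivity)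

/-- the main estimate at all heights -/
theorem psi_allG (θ κ : ℝ) (hθ1 : 1 / 2 ≤ θ) (hθ : θ < 23 / 45) (hκ0 : 0 ≤ κ) (hκ : κ < 1 / 3) :
    ∃ η : ℝ, 0 < η ∧ ∀ ε1 : ℝ, 0 < ε1 → ∃ ε : ℝ, 0 < ε ∧ ∀ᶠ x : ℕ in atTop, ∀ q0 : ℕ, 0 < q0 →
      (q0 : ℝ) ≤ (x : ℝ) ^ κ → ∀ (c : ℕ → ℤ) (D : Set ℕ), Tree x q0 θ ε1 η c D → ∀ T : Finset ℕ,
      (∀ t ∈ T, t ∈ D) → ∀ y : ℕ, y ≤ x →
      ∑ t ∈ T, |∑ n ∈ Icc 1 y, ArithmeticFunction.vonMangoldt n * ww q0 (c t) t n| ≤ (x : ℝ) ^ (1 - ε) / q0 := by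
  set θ' : ℝ := (θ + 23 / 45) / 2 with hθ'
  set κ' : ℝ := (κ + 1 / 3) / 2 with hκ'
  obtain ⟨η', hη', hmain⟩ := main_psiG θ' κ' (by linarith) (by linarith) (by linarith) (by linarith)
  refine ⟨η' / 2, by positivity, fun ε1 hε1 => ?_⟩
  obtain ⟨ε', hε', hev⟩ := hmain ε1 hε1
  have hθ'0 : 0 < θ' := by linarith
  have hκ'0 : 0 < κ' := by linarith
  set τ : ℝ := min (1 / 2) (min (1 - θ / θ') (1 - κ / κ')) with hτ
  have hτ0 : 0 < τ := by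
    rw [hτ]
    refine lt_min (by norm_num) (lt_min ?_ ?_)
    · rw [sub_pos, div_lt_one hθ'0]; linarith
    · rw [sub_pos, div_lt_one hκ'0]; linarith
  have hτ1 : τ ≤ 1 / 2 := min_le_left _ _
  have hτθ : θ ≤ (1 - τ) * θ' := by
    have h1 : τ ≤ 1 - θ / θ' := (min_le_right _ _).trans (min_le_left _ _)
    have h2 : θ / θ' ≤ 1 - τ := by linarith
    rwa [div_le_iff₀ hθ'0] at h2
  have hτκ : κ ≤ (1 - τ) * κ' := by
    have h1 : τ ≤ 1 - κ / κ' := (min_le_right _ _).trans (min_le_right _ _)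
    have h2 : κ / κ' ≤ 1 - τ := by linarith
    rwa [div_le_iff₀ hκ'0] at h2
  have hτη : η' / 2 ≤ (1 - τ) * η' := by nlinarith
  refine ⟨min ε' (τ / 4), lt_min hε' (by positivity), ?_⟩
  obtain ⟨x0, hx0⟩ := eventually_atTop.1 hev
  have hbig : ∀ᶠ x : ℕ in atTop, (x0 : ℝ) ≤ (x : ℝ) ^ (1 - τ) :=
    tendsto_natCast_atTop_atTop.eventually (Pool.Agent.Y61.Z.ev_rpow _ (by linarith))
  have h5 : ∀ᶠ x : ℕ in atTop, (5 : ℝ) ≤ (x : ℝ) ^ (τ / 8) :=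
    tendsto_natCast_atTop_atTop.eventually (Pool.Agent.Y61.Z.ev_rpow _ (by positivity))
  filter_upwards [hbig, ev_basic (τ / 16) (by positivity), h5] with x hx1 hx2 hx5 q0 hq hqκ c D hD T hTD y hy
  have hT : ∀ t ∈ T, Mo x q0 (c t) θ ε1 (η' / 2) t := fun t ht => hD.mo t (hTD t ht)
  obtain ⟨htau, hlog, hlog1, hx256⟩ := hx2
  have hX : (256 : ℝ) ≤ x := by exact_mod_cast hx256
  set X : ℝ := (x : ℝ) with hXdef
  have hX0 : 0 < X := by linarith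
  have hX1 : 1 ≤ X := by linarith
  have rle : ∀ {a b : ℝ}, a ≤ b → X ^ a ≤ X ^ b := fun h => Real.rpow_le_rpow_of_exponent_le hX1 h
  have radd : ∀ a b : ℝ, X ^ a * X ^ b = X ^ (a + b) := fun a b => (Real.rpow_add hX0 a b).symm
  have rpos : ∀ a : ℝ, 0 < X ^ a := fun a => Real.rpow_pos_of_pos hX0 a
  have hqr : (0 : ℝ) < q0 := by exact_mod_cast hq
  by_cases hyb : X ^ (1 - τ) ≤ y
  · -- large heights
    have hy0 : x0 ≤ y := by exact_mod_cast hx1.trans hyb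
    have hyr : (1 : ℝ) ≤ y := (Real.one_le_rpow hX1 (by linarith)).trans hyb
    have hy0' : (0 : ℝ) < y := by linarith
    have hpow : ∀ {a b : ℝ}, 0 ≤ b → a ≤ (1 - τ) * b → X ^ a ≤ (y : ℝ) ^ b := by
      intro a b hb hab
      calc X ^ a ≤ X ^ ((1 - τ) * b) := rle hab
        _ = (X ^ (1 - τ)) ^ b := by rw [Real.rpow_mul hX0.le]
        _ ≤ (y : ℝ) ^ b := Real.rpow_le_rpow (rpos _).le hyb hb
    have hyx : (y : ℝ) ≤ X := (Nat.cast_le (α := ℝ)).2 hy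
    have h1 := hx0 y hy0 q0 hq (hqκ.trans (hpow hκ'0.le hτκ)) c D (by
      refine ⟨?_, hD.cc, ?_⟩
      · intro t ht
        obtain ⟨a1, a2, a3, a4⟩ := hD.mo t ht
        refine ⟨a1, a2, fun p hp hd => ⟨?_, ?_⟩, a4.trans (hpow hθ'0.le hτθ)⟩
        · exact lt_of_le_of_lt (Real.rpow_le_rpow hy0'.le hyx hε1.le) (a3 p hp hd).1
        · exact (a3 p hp hd).2.trans (hpow hη'.le hτη)
      · intro t ht h1
        obtain ⟨b, b1, b2, b3, b4, b5⟩ := hD.par t ht h1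
        exact ⟨b, b1, b2.trans (hpow hη'.le hτη), b3, b4, b5⟩) T hTD
    refine h1.trans ?_
    apply div_le_div_of_nonneg_right _ hqr.le
    by_cases he : 0 ≤ 1 - ε'
    · calc (y : ℝ) ^ (1 - ε') ≤ X ^ (1 - ε') := Real.rpow_le_rpow hy0'.le hyx he
        _ ≤ X ^ (1 - min ε' (τ / 4)) := rle (by linarith [min_le_left ε' (τ / 4)])
    · calc (y : ℝ) ^ (1 - ε') ≤ 1 := Real.rpow_le_one_of_one_le_of_nonpos hyr (by linarith)
        _ ≤ X ^ (1 - min ε' (τ / 4)) := Real.one_le_rpow hX1 (by linarith [min_le_right ε' (τ / 4)])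
  · -- small heights
    rw [not_le] at hyb
    set ℓ : ℝ := X ^ (τ / 16) with hℓ
    have hℓ1 : 1 ≤ ℓ := Real.one_le_rpow hX1 (by positivity)
    have hθ2 : X ^ θ ≤ X := by
      calc X ^ θ ≤ X ^ (1 : ℝ) := rle (by linarith)
        _ = X := Real.rpow_one X
    have htb := tbG q0 c ℓ x T 0 y hq hℓ1 (fun t ht => ⟨(hT t ht).pos, by
        have h1 := (hT t ht).2.2.2
        have h2 : (t : ℝ) ≤ X := by
          have h3 : (t : ℝ) ≤ q0 * t := le_mul_of_one_le_left (Nat.cast_nonneg t) (by exact_mod_cast hq)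
          linarith
        exact (Nat.cast_le (α := ℝ)).1 h2, (Nat.squarefree_mul_iff.1 (hT t ht).1).1⟩) htau hlog
    have hΛ : ∀ n ∈ Ioc 0 y, ArithmeticFunction.vonMangoldt n ≤ ℓ := by
      intro n hn
      rw [mem_Ioc] at hn
      have h1 : Real.log n ≤ Real.log X := Real.log_le_log (by exact_mod_cast hn.1)
        ((Nat.cast_le (α := ℝ)).2 (hn.2.trans hy))
      exact (ArithmeticFunction.vonMangoldt_le_log.trans h1).trans (by linarith)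
    have e1 : Icc 1 y = Ioc 0 y := by ext n; simp only [mem_Icc, mem_Ioc]; omega
    have h1 : ∑ t ∈ T, |∑ n ∈ Icc 1 y, ArithmeticFunction.vonMangoldt n * ww q0 (c t) t n| ≤
        ℓ * ∑ t ∈ T, ∑ n ∈ Ioc 0 y, |ww q0 (c t) t n| := by
      rw [mul_sum, e1]
      refine sum_le_sum fun t _ => ?_
      refine (abs_sum_le_sum_abs _ _).trans ?_
      rw [mul_sum]
      refine sum_le_sum fun n hn => ?_
      rw [abs_mul, abs_of_nonneg ArithmeticFunction.vonMangoldt_nonneg]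
      exact mul_le_mul_of_nonneg_right (hΛ n hn) (abs_nonneg _)
    refine h1.trans ?_
    have hcard := card_Tree (by omega : 0 < x) hq T hT
    rw [Nat.sub_zero] at htb
    have hq1 : 1 ≤ X ^ (1 - τ) / q0 := by
      rw [one_le_div hqr]
      exact hqκ.trans (rle (by linarith))
    have hθ3 : X ^ θ / q0 ≤ X ^ (1 - τ / 4 * 3) / q0 := by
      apply div_le_div_of_nonneg_right _ hqr.le
      apply rle
      linarith
    have hτ3 : X ^ (1 - τ) / q0 ≤ X ^ (1 - τ / 4 * 3) / q0 := by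
      apply div_le_div_of_nonneg_right _ hqr.le
      apply rle
      linarith
    have hyq : (y : ℝ) / q0 ≤ X ^ (1 - τ) / q0 := div_le_div_of_nonneg_right hyb.le hqr.le
    set Z : ℝ := X ^ (1 - τ / 4 * 3) / q0 with hZ
    have hZ0 : 0 ≤ Z := by have := (rpos (1 - τ / 4 * 3)).le; positivity
    calc ℓ * ∑ t ∈ T, ∑ n ∈ Ioc 0 y, |ww q0 (c t) t n| ≤ ℓ * (2 * ℓ ^ 2 * ((y : ℝ) / q0 + 1) + T.card) :=
          mul_le_mul_of_nonneg_left htb (by linarith)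
      _ ≤ ℓ * (2 * ℓ ^ 2 * (Z + Z) + Z) := by
          have hc2 : (T.card : ℝ) ≤ Z := hcard.trans hθ3
          have hy2 : (y : ℝ) / q0 ≤ Z := hyq.trans hτ3
          have h12 : 1 ≤ Z := hq1.trans hτ3
          gcongr
      _ ≤ ℓ * (2 * ℓ ^ 2 * (Z + Z) + ℓ ^ 2 * Z) := by
          have : 1 ≤ ℓ ^ 2 := one_le_pow₀ hℓ1
          have h6 : Z ≤ ℓ ^ 2 * Z := le_mul_of_one_le_left hZ0 this
          gcongr
      _ = 5 * (ℓ ^ 3 * Z) := by ring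
      _ ≤ X ^ (τ / 8) * (ℓ ^ 3 * Z) := mul_le_mul_of_nonneg_right hx5 (by positivity)
      _ = X ^ (1 - τ / 16 * 7) / q0 := by
          rw [hℓ, hZ, pw hX0, mul_div_assoc', mul_div_assoc', radd, radd]
          congr 2
          push_cast
          ring
      _ ≤ X ^ (1 - min ε' (τ / 4)) / q0 := by
          apply div_le_div_of_nonneg_right _ hqr.le
          apply rle
          linarith [min_le_right ε' (τ / 4)]

/-- the main estimate for primes, at all heights -/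
theorem pi_allG (θ κ : ℝ) (hθ1 : 1 / 2 ≤ θ) (hθ : θ < 23 / 45) (hκ0 : 0 ≤ κ) (hκ : κ < 1 / 3) :
    ∃ η : ℝ, 0 < η ∧ ∀ ε1 : ℝ, 0 < ε1 → ∃ ε : ℝ, 0 < ε ∧ ∀ᶠ x : ℕ in atTop, ∀ q0 : ℕ, 0 < q0 →
      (q0 : ℝ) ≤ (x : ℝ) ^ κ → ∀ (c : ℕ → ℤ) (D : Set ℕ), Tree x q0 θ ε1 η c D → ∀ T : Finset ℕ,
      (∀ t ∈ T, t ∈ D) → ∀ y : ℕ, y ≤ x →
      ∑ t ∈ T, |pn y (q0 * t) (c t) - pn y q0 (c t) / (Nat.totient t : ℝ)| ≤ (x : ℝ) ^ (1 - ε) / q0 := by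
  obtain ⟨η, hη, hmain⟩ := psi_allG θ κ hθ1 hθ hκ0 hκ
  refine ⟨η, hη, fun ε1 hε1 => ?_⟩
  obtain ⟨ε', hε', hev⟩ := hmain ε1 hε1
  set δ : ℝ := min (ε' / 2) (1 / 20) with hδ
  have hδ0 : 0 < δ := lt_min (by positivity) (by norm_num)
  have hδ1 : δ ≤ ε' / 2 := min_le_left _ _
  have hδ2 : δ ≤ 1 / 20 := min_le_right _ _
  refine ⟨δ, hδ0, ?_⟩
  have h11 : ∀ᶠ x : ℕ in atTop, (11 : ℝ) ≤ (x : ℝ) ^ δ :=
    tendsto_natCast_atTop_atTop.eventually (Pool.Agent.Y61.Z.ev_rpow _ hδ0)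
  filter_upwards [hev, ev_basic (1 / 100) (by norm_num), h11] with x hx hx2 hx11 q0 hq hqκ c D hD T hTD y hy
  have hT : ∀ t ∈ T, Mo x q0 (c t) θ ε1 η t := fun t ht => hD.mo t (hTD t ht)
  obtain ⟨htau, hlog, hlog1, hx256⟩ := hx2
  have hX : (256 : ℝ) ≤ x := by exact_mod_cast hx256
  set X : ℝ := (x : ℝ) with hXdef
  have hX0 : 0 < X := by linarith
  have hX1 : 1 ≤ X := by linarith
  have rle : ∀ {a b : ℝ}, a ≤ b → X ^ a ≤ X ^ b := fun h => Real.rpow_le_rpow_of_exponent_le hX1 h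
  have radd : ∀ a b : ℝ, X ^ a * X ^ b = X ^ (a + b) := fun a b => (Real.rpow_add hX0 a b).symm
  have rpos : ∀ a : ℝ, 0 < X ^ a := fun a => Real.rpow_pos_of_pos hX0 a
  have hqr : (0 : ℝ) < q0 := by exact_mod_cast hq
  set ℓ : ℝ := X ^ (1 / 100 : ℝ) with hℓ
  have hℓ1 : 1 ≤ ℓ := Real.one_le_rpow hX1 (by norm_num)
  have hℓ0 : 0 ≤ ℓ := by linarith
  set Z : ℝ := X ^ θ / q0 with hZ
  have hZ0 : 0 ≤ Z := by have := (rpos θ).le; positivity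
  have hcard : (T.card : ℝ) ≤ Z := card_Tree (by omega : 0 < x) hq T hT
  have hθX : X ^ θ ≤ X := by
    calc X ^ θ ≤ X ^ (1 : ℝ) := rle (by linarith)
      _ = X := Real.rpow_one X
  have hqtx : ∀ t ∈ T, q0 * t ≤ x := by
    intro t ht
    have h1 := ((hT t ht).2.2.2).trans hθX
    have h2 : ((q0 * t : ℕ) : ℝ) ≤ (x : ℝ) := by push_cast; exact h1
    exact (Nat.cast_le (α := ℝ)).1 h2
  have htx : ∀ t ∈ T, 0 < t ∧ t ≤ x := by
    intro t ht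
    refine ⟨(hT t ht).pos, (Nat.le_mul_of_pos_left t hq).trans (hqtx t ht)⟩
  have hq0x : q0 ≤ x := by
    have h2 : (q0 : ℝ) ≤ (x : ℝ) := by
      refine hqκ.trans ?_
      calc X ^ κ ≤ X ^ (1 : ℝ) := rle (by linarith)
        _ = X := Real.rpow_one X
    exact (Nat.cast_le (α := ℝ)).1 h2
  have h1t := sum_mult 1 x one_pos T (fun t ht => ⟨(htx t ht).1, (htx t ht).2, one_dvd _⟩)
  have hphi := sum_phi T 1 x ℓ one_pos (fun t ht => ⟨(htx t ht).1, (htx t ht).2, one_dvd _⟩) htau hlog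
  rw [Nat.cast_one, div_one] at h1t hphi
  have h1t' : ∑ t ∈ T, (1 / (t : ℝ)) ≤ ℓ := h1t.trans hlog
  -- the sqrt
  have hs0 : (0 : ℝ) ≤ (Nat.sqrt y : ℝ) := Nat.cast_nonneg _
  have hs : (Nat.sqrt y : ℝ) ≤ X ^ θ := by
    have h1 : (Nat.sqrt y : ℝ) ≤ Real.sqrt y := Real.nat_sqrt_le_real_sqrt
    have h2 : Real.sqrt y ≤ Real.sqrt X := Real.sqrt_le_sqrt ((Nat.cast_le (α := ℝ)).2 hy)
    have h3 : Real.sqrt X = X ^ (1 / 2 : ℝ) := Real.sqrt_eq_rpow X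
    exact h1.trans (h2.trans (h3.le.trans (rle hθ1)))
  have hsq : (Nat.sqrt y : ℝ) / q0 ≤ Z := div_le_div_of_nonneg_right hs hqr.le
  have hq1 : 1 ≤ Z := by
    rw [hZ, one_le_div hqr]
    exact hqκ.trans (rle (by linarith))
  -- main part
  have hS1 : ∑ t ∈ T, |∑ n ∈ Icc 1 y, Fw n * (ArithmeticFunction.vonMangoldt n * ww q0 (c t) t n)| ≤
      2 * (X ^ (1 - ε') / q0) := by
    apply part_sum T (fun t n => ArithmeticFunction.vonMangoldt n * ww q0 (c t) t n) y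
    · have := (rpos (1 - ε')).le; positivity
    · intro y' hy'
      exact hx q0 hq hqκ c D hD T hTD y' (hy'.trans hy)
  have hS2 : ∑ t ∈ T, (tau (q0 * t) * ((Nat.sqrt y : ℝ) / ((q0 * t : ℕ) : ℝ) + 1)) ≤ 2 * (ℓ ^ 2 * Z) := by
    calc ∑ t ∈ T, (tau (q0 * t) * ((Nat.sqrt y : ℝ) / ((q0 * t : ℕ) : ℝ) + 1))
        ≤ ∑ t ∈ T, ℓ * (((Nat.sqrt y : ℝ) / q0) * (1 / (t : ℝ)) + 1) := by
          refine sum_le_sum fun t ht => ?_
          have h2 := htau (q0 * t) (Nat.mul_pos hq (htx t ht).1).ne' (hqtx t ht)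
          have e : (Nat.sqrt y : ℝ) / ((q0 * t : ℕ) : ℝ) = ((Nat.sqrt y : ℝ) / q0) * (1 / (t : ℝ)) := by
            push_cast
            rw [div_mul_div_comm, mul_one]
          rw [e]
          exact mul_le_mul_of_nonneg_right h2 (by positivity)
      _ = ℓ * (((Nat.sqrt y : ℝ) / q0) * ∑ t ∈ T, (1 / (t : ℝ)) + T.card) := by
          rw [← mul_sum, sum_add_distrib, ← mul_sum, sum_const, nsmul_eq_mul, mul_one]
      _ ≤ ℓ * (Z * ℓ + Z) := by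
          have : 0 ≤ ∑ t ∈ T, (1 / (t : ℝ)) := sum_nonneg fun t _ => by positivity
          gcongr
      _ ≤ 2 * (ℓ ^ 2 * Z) := by nlinarith [mul_nonneg hℓ0 hZ0, mul_nonneg (mul_nonneg hℓ0 hZ0) (by linarith : 0 ≤ ℓ - 1)]
  have hS3 : ∑ t ∈ T, ((1 / (Nat.totient t : ℝ)) * (tau q0 * ((Nat.sqrt y : ℝ) / q0 + 1))) ≤ 2 * (ℓ ^ 3 * Z) := by
    rw [← sum_mul]
    have h2 := htau q0 hq.ne' hq0x
    calc (∑ t ∈ T, (1 / (Nat.totient t : ℝ))) * (tau q0 * ((Nat.sqrt y : ℝ) / q0 + 1))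
        ≤ ℓ ^ 2 * (ℓ * (Z + Z)) := by
          have : 0 ≤ tau q0 := OB.tau_nonneg _
          gcongr
      _ = _ := by ring
  have hS4 : ∑ t ∈ T, (2 * (((⌊(y : ℝ) ^ (1 / 3 : ℝ)⌋₊ : ℕ) : ℝ) * (Nat.log 2 y : ℝ))) ≤
      4 * (ℓ * (X ^ (1 / 3 : ℝ) * Z)) := by
    rw [sum_const, nsmul_eq_mul]
    have h2 : ((⌊(y : ℝ) ^ (1 / 3 : ℝ)⌋₊ : ℕ) : ℝ) ≤ X ^ (1 / 3 : ℝ) := by
      refine (Nat.floor_le (Real.rpow_nonneg (Nat.cast_nonneg y) _)).trans ?_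
      exact Real.rpow_le_rpow (Nat.cast_nonneg y) ((Nat.cast_le (α := ℝ)).2 hy) (by norm_num)
    have h3 := log2_le y x hy ℓ (by omega) hlog
    calc (T.card : ℝ) * (2 * (((⌊(y : ℝ) ^ (1 / 3 : ℝ)⌋₊ : ℕ) : ℝ) * (Nat.log 2 y : ℝ)))
        ≤ Z * (2 * (X ^ (1 / 3 : ℝ) * (2 * ℓ))) := by
          have := (rpos (1 / 3)).le
          gcongr
      _ = _ := by ring
  have hS5 : ∑ t ∈ T, ((1 / (Nat.totient t : ℝ)) * tau t) ≤ ℓ ^ 3 * Z := by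
    calc ∑ t ∈ T, ((1 / (Nat.totient t : ℝ)) * tau t) ≤ ∑ t ∈ T, ((1 / (Nat.totient t : ℝ)) * ℓ) :=
          sum_le_sum fun t ht => mul_le_mul_of_nonneg_left (htau t (htx t ht).1.ne' (htx t ht).2) (by positivity)
      _ = (∑ t ∈ T, (1 / (Nat.totient t : ℝ))) * ℓ := by rw [← sum_mul]
      _ ≤ ℓ ^ 2 * ℓ := mul_le_mul_of_nonneg_right hphi hℓ0
      _ = ℓ ^ 3 * 1 := by ring
      _ ≤ ℓ ^ 3 * Z := mul_le_mul_of_nonneg_left hq1 (by positivity)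
  have htot : ∑ t ∈ T, |pn y (q0 * t) (c t) - pn y q0 (c t) / (Nat.totient t : ℝ)| ≤
      2 * (X ^ (1 - ε') / q0) + 9 * (ℓ ^ 3 * (X ^ (1 / 3 : ℝ) * Z)) := by
    refine (sum_le_sum fun t ht => pn_one y q0 t (c t) (hT t ht).1 (htx t ht).1 hq).trans ?_
    rw [sum_add_distrib, sum_add_distrib, sum_add_distrib, sum_add_distrib]
    have h3 : 1 ≤ X ^ (1 / 3 : ℝ) := Real.one_le_rpow hX1 (by norm_num)
    have hw : 0 ≤ ℓ ^ 3 * Z := by positivity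
    have h4 : ℓ ^ 2 * Z ≤ ℓ ^ 3 * (X ^ (1 / 3 : ℝ) * Z) := by
      have h5 : ℓ ^ 2 ≤ ℓ ^ 3 := pow_le_pow_right₀ hℓ1 (by norm_num)
      have h6 : Z ≤ X ^ (1 / 3 : ℝ) * Z := le_mul_of_one_le_left hZ0 h3
      exact mul_le_mul h5 h6 hZ0 (by positivity)
    have h5 : ℓ ^ 3 * Z ≤ ℓ ^ 3 * (X ^ (1 / 3 : ℝ) * Z) :=
      mul_le_mul_of_nonneg_left (le_mul_of_one_le_left hZ0 h3) (by positivity)
    have h6 : ℓ * (X ^ (1 / 3 : ℝ) * Z) ≤ ℓ ^ 3 * (X ^ (1 / 3 : ℝ) * Z) := by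
      apply mul_le_mul_of_nonneg_right _ (by positivity)
      calc ℓ = ℓ ^ 1 := (pow_one ℓ).symm
        _ ≤ ℓ ^ 3 := pow_le_pow_right₀ hℓ1 (by norm_num)
    linarith
  refine htot.trans ?_
  have h7 : ℓ ^ 3 * (X ^ (1 / 3 : ℝ) * Z) ≤ X ^ (9 / 10 : ℝ) / q0 := by
    rw [hZ, hℓ, pw hX0, mul_div_assoc', mul_div_assoc', radd, radd]
    apply div_le_div_of_nonneg_right _ hqr.le
    apply rle
    push_cast
    linarith
  have h8 : 11 * X ^ (9 / 10 : ℝ) ≤ X ^ (1 - δ) := by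
    calc 11 * X ^ (9 / 10 : ℝ) ≤ X ^ δ * X ^ (9 / 10 : ℝ) := mul_le_mul_of_nonneg_right hx11 (rpos _).le
      _ = X ^ (δ + 9 / 10) := radd _ _
      _ ≤ X ^ (1 - δ) := rle (by linarith)
  have h9 : 11 * X ^ (1 - ε') ≤ X ^ (1 - δ) := by
    calc 11 * X ^ (1 - ε') ≤ X ^ δ * X ^ (1 - ε') := mul_le_mul_of_nonneg_right hx11 (rpos _).le
      _ = X ^ (δ + (1 - ε')) := radd _ _
      _ ≤ X ^ (1 - δ) := rle (by linarith)
  calc 2 * (X ^ (1 - ε') / q0) + 9 * (ℓ ^ 3 * (X ^ (1 / 3 : ℝ) * Z))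
      ≤ 2 * (X ^ (1 - ε') / q0) + 9 * (X ^ (9 / 10 : ℝ) / q0) := by linarith
    _ = (2 * X ^ (1 - ε') + 9 * X ^ (9 / 10 : ℝ)) / q0 := by ring
    _ ≤ X ^ (1 - δ) / q0 := by
        apply div_le_div_of_nonneg_right _ hqr.le
        linarith

end Pool.Agent.Helper91K1.T
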