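import Mathlib
import Pool.Agent.Helper91K1.ManyB
import Pool.Agent.Helper91K1.T.HtsG

/-!
Coherent systems of classes, all heights: one left modulus, then the sum over the left moduli.
-/

set_option autoImplicit false

open Finset Filter

namespace Pool.Agent.Helper91K1.T

open Pool.Agent.Y826.Z Pool.Agent.Y826.Z.OB Pool.Agent.R503.N
open Pool.Agent.Helper91K1 (dd dd_grid bvh many_large liR)
open Pool.Agent.H300R2.WEH (gp)

/-- few systems and all heights, for one left modulus -/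
lemma fewG (x K q : ℕ) (I : Finset ℕ) (T : Finset ℕ) (c : ℕ → ℕ → ℤ) (j : ℕ → ℕ) (y : ℕ → ℕ) (B S : ℝ)
    (hJ : 1 ≤ K) (hq : 0 < q) (hy : ∀ t ∈ T, y t ≤ x) (ha : ∀ t ∈ T, j t ∈ I)
    (hB : ∀ i ∈ I, ∀ z ≤ x, ∑ t ∈ T.filter (fun t => j t = i), |dd z q t (c i t)| ≤ B)
    (hS : ∑ t ∈ T, 1 / (Nat.totient t : ℝ) ≤ S) :
    ∑ t ∈ T, |dd (y t) q t (c (j t) t)| ≤ I.card * (2 * (K + 1) * B) + (((x : ℝ) / K + 1) / q + 1) * S := by
  classical
  choose! i hi hd using fun t (ht : t ∈ T) => dd_grid x K (y t) q t (c (j t) t) hJ (hy t ht) hq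
  have hg : 0 ≤ ((x : ℝ) / K + 1) / q + 1 := by positivity
  have hgpx : ∀ l ∈ range (K + 1), gp x K l ≤ x := by
    intro l hl
    rw [mem_range] at hl
    unfold gp
    calc l * x / K ≤ K * x / K := Nat.div_le_div_right (Nat.mul_le_mul_right x (by omega))
      _ = x := Nat.mul_div_cancel_left x (by omega)
  have h1 : ∀ t ∈ T, |dd (y t) q t (c (j t) t)| ≤ 2 * ∑ l ∈ range (K + 1), |dd (gp x K l) q t (c (j t) t)| +
      (((x : ℝ) / K + 1) / q + 1) * (1 / (Nat.totient t : ℝ)) := by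
    intro t ht
    have hit := hi t ht
    have s1 : |dd (gp x K (i t)) q t (c (j t) t)| ≤ ∑ l ∈ range (K + 1), |dd (gp x K l) q t (c (j t) t)| :=
      single_le_sum (f := fun l => |dd (gp x K l) q t (c (j t) t)|) (fun _ _ => abs_nonneg _)
        (mem_range.2 (by omega))
    have s2 : |dd (gp x K (i t + 1)) q t (c (j t) t)| ≤ ∑ l ∈ range (K + 1), |dd (gp x K l) q t (c (j t) t)| :=
      single_le_sum (f := fun l => |dd (gp x K l) q t (c (j t) t)|) (fun _ _ => abs_nonneg _)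
        (mem_range.2 (by omega))
    linarith [hd t ht]
  refine (sum_le_sum h1).trans ?_
  rw [sum_add_distrib, ← mul_sum, ← mul_sum]
  have h2 : ∑ t ∈ T, ∑ l ∈ range (K + 1), |dd (gp x K l) q t (c (j t) t)| ≤ I.card * ((K + 1) * B) := by
    rw [← sum_fiberwise_of_maps_to ha]
    calc ∑ i ∈ I, ∑ t ∈ T.filter (fun t => j t = i), ∑ l ∈ range (K + 1), |dd (gp x K l) q t (c (j t) t)|
        ≤ ∑ _i ∈ I, ((K + 1) * B) := by
          apply sum_le_sum
          intro i hi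
          rw [sum_comm]
          calc ∑ l ∈ range (K + 1), ∑ t ∈ T.filter (fun t => j t = i), |dd (gp x K l) q t (c (j t) t)|
              ≤ ∑ _l ∈ range (K + 1), B := by
                apply sum_le_sum
                intro l hl
                refine le_trans (le_of_eq ?_) (hB i hi (gp x K l) (hgpx l hl))
                apply sum_congr rfl
                intro t ht
                rw [(mem_filter.1 ht).2]
            _ = (K + 1) * B := by
                rw [sum_const, card_range, nsmul_eq_mul]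
                push_cast
                ring
      _ = I.card * ((K + 1) * B) := by rw [sum_const, nsmul_eq_mul]
  have h3 := mul_le_mul_of_nonneg_left hS hg
  calc 2 * ∑ t ∈ T, ∑ l ∈ range (K + 1), |dd (gp x K l) q t (c (j t) t)| +
        (((x : ℝ) / K + 1) / q + 1) * ∑ t ∈ T, 1 / (Nat.totient t : ℝ)
      ≤ 2 * (I.card * ((K + 1) * B)) + (((x : ℝ) / K + 1) / q + 1) * S := by
        apply add_le_add _ h3
        linarith
    _ = _ := by ring

/-- the estimate for one left modulus -/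
theorem one_leftG (θ κ : ℝ) (hθ1 : 1 / 2 ≤ θ) (hθ : θ < 23 / 45) (hκ0 : 0 ≤ κ) (hκ : κ < 1 / 3) :
    ∃ η : ℝ, 0 < η ∧ ∀ ε1 : ℝ, 0 < ε1 → ∃ ν : ℝ, 0 < ν ∧ ∀ᶠ x : ℕ in atTop, ∀ q : ℕ, 0 < q →
      (q : ℝ) ≤ (x : ℝ) ^ κ → ∀ I : Finset ℕ, (I.card : ℝ) ≤ (x : ℝ) ^ ν → ∀ (c : ℕ → ℕ → ℤ) (D : ℕ → Set ℕ),
      (∀ i ∈ I, Tree x q θ ε1 η (c i) (D i)) → ∀ (T : Finset ℕ) (j : ℕ → ℕ) (y : ℕ → ℕ),
      (∀ t ∈ T, j t ∈ I) → (∀ t ∈ T, t ∈ D (j t)) → (∀ t ∈ T, y t ≤ x) →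
      ∑ t ∈ T, |dd (y t) q t (c (j t) t)| ≤ (x : ℝ) ^ (1 - ν) / q := by
  obtain ⟨η, hη, hmain⟩ := pi_allG θ κ hθ1 hθ hκ0 hκ
  refine ⟨η, hη, fun ε1 hε1 => ?_⟩
  obtain ⟨ε', hε', hev⟩ := hmain ε1 hε1
  set ε : ℝ := min ε' (1 / 2) with hεdef
  have hε : 0 < ε := lt_min hε' (by norm_num)
  have hεε : ε ≤ ε' := min_le_left _ _
  have hε2 : ε ≤ 1 / 2 := min_le_right _ _
  refine ⟨ε / 8, by positivity, ?_⟩
  have hL : ∀ᶠ x : ℕ in atTop, 16 * Real.log x ^ 2 ≤ (x : ℝ) ^ (ε / 16) :=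
    tendsto_natCast_atTop_atTop.eventually (Pool.Agent.Y61.Z.ev_log_rpow 16 2 (by positivity))
  have h32 : ∀ᶠ x : ℕ in atTop, (32 : ℝ) ≤ (x : ℝ) ^ (ε / 16) :=
    tendsto_natCast_atTop_atTop.eventually (Pool.Agent.Y61.Z.ev_rpow _ (by positivity))
  filter_upwards [hev, hL, h32, eventually_ge_atTop 3] with x hx hxL hx32 hx3 q hq hqκ I hI c D hD T j y hj hTD hy
  have hx1 : (1 : ℝ) ≤ x := by exact_mod_cast (by omega : 1 ≤ x)
  have hx0 : (0 : ℝ) < x := by linarith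
  have hq0 : (0 : ℝ) < q := by exact_mod_cast hq
  have rle : ∀ {a b : ℝ}, a ≤ b → (x : ℝ) ^ a ≤ (x : ℝ) ^ b := fun h => Real.rpow_le_rpow_of_exponent_le hx1 h
  have radd : ∀ a b : ℝ, (x : ℝ) ^ a * (x : ℝ) ^ b = (x : ℝ) ^ (a + b) := fun a b => (Real.rpow_add hx0 a b).symm
  have rpos : ∀ a : ℝ, 0 < (x : ℝ) ^ a := fun a => Real.rpow_pos_of_pos hx0 a
  have hMo : ∀ t ∈ T, Mo x q (c (j t) t) θ ε1 η t := fun t ht => (hD (j t) (hj t ht)).mo t (hTD t ht)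
  set K : ℕ := ⌊(x : ℝ) ^ (ε / 2)⌋₊ with hK
  have hK1 : 1 ≤ K := Nat.floor_pos.2 (Real.one_le_rpow hx1 (by positivity))
  have hKr : (1 : ℝ) ≤ K := by exact_mod_cast hK1
  have hKle : (K : ℝ) ≤ (x : ℝ) ^ (ε / 2) := Nat.floor_le (rpos _).le
  have hKge : (x : ℝ) ^ (ε / 2) ≤ 2 * K := by
    have := Nat.lt_floor_add_one ((x : ℝ) ^ (ε / 2))
    rw [← hK] at this
    linarith
  have hTx : T ⊆ Icc 1 x := by
    intro t ht
    rw [mem_Icc]
    refine ⟨(hMo t ht).pos, ?_⟩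
    have h1 : (t : ℝ) ≤ x := by
      have h2 : (t : ℝ) ≤ q * t := le_mul_of_one_le_left (Nat.cast_nonneg t) (by exact_mod_cast hq)
      refine h2.trans ((hMo t ht).2.2.2.trans ?_)
      calc (x : ℝ) ^ θ ≤ (x : ℝ) ^ (1 : ℝ) := rle (by linarith)
        _ = x := Real.rpow_one _
    exact_mod_cast h1
  have hS := sum_inv_phi x hx3 T hTx
  have h1 := fewG x K q I T c j y ((x : ℝ) ^ (1 - ε) / q) (4 * Real.log x ^ 2) hK1 hq hy hj (by
    intro i hi z hz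
    have h2 := hx q hq hqκ (c i) (D i) (hD i hi) (T.filter (fun t => j t = i)) (by
      intro t ht
      rw [mem_filter] at ht
      rw [← ht.2]
      exact hTD t ht.1) z hz
    refine h2.trans ?_
    apply div_le_div_of_nonneg_right _ hq0.le
    exact rle (by linarith)) hS
  refine h1.trans ?_
  have hA' : (I.card : ℝ) ≤ (x : ℝ) ^ (ε / 8) := hI
  have k1 : (I.card : ℝ) * (2 * (K + 1) * ((x : ℝ) ^ (1 - ε) / q)) ≤
      4 * ((x : ℝ) ^ (1 - 3 * ε / 8) / q) := by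
    calc (I.card : ℝ) * (2 * (K + 1) * ((x : ℝ) ^ (1 - ε) / q))
        ≤ (x : ℝ) ^ (ε / 8) * (2 * ((x : ℝ) ^ (ε / 2) + (x : ℝ) ^ (ε / 2)) * ((x : ℝ) ^ (1 - ε) / q)) := by
          have := (rpos (1 - ε)).le
          have h3 : (1 : ℝ) ≤ (x : ℝ) ^ (ε / 2) := Real.one_le_rpow hx1 (by positivity)
          gcongr
      _ = 4 * (((x : ℝ) ^ (ε / 8) * (x : ℝ) ^ (ε / 2) * (x : ℝ) ^ (1 - ε)) / q) := by ring
      _ = _ := by
          rw [radd, radd]
          have : ε / 8 + ε / 2 + (1 - ε) = 1 - 3 * ε / 8 := by ring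
          rw [this]
  have k2 : (((x : ℝ) / K + 1) / q + 1) * (4 * Real.log x ^ 2) ≤ (x : ℝ) ^ (1 - 3 * ε / 8) / q := by
    have hqx : (q : ℝ) ≤ (x : ℝ) ^ (1 - ε / 2) := hqκ.trans (rle (by linarith))
    have j1 : (x : ℝ) / K ≤ 2 * (x : ℝ) ^ (1 - ε / 2) := by
      rw [div_le_iff₀ (by linarith)]
      calc (x : ℝ) = (x : ℝ) ^ (1 - ε / 2) * (x : ℝ) ^ (ε / 2) := by
            rw [radd]
            have : 1 - ε / 2 + ε / 2 = 1 := by ring
            rw [this, Real.rpow_one]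
        _ ≤ (x : ℝ) ^ (1 - ε / 2) * (2 * K) := mul_le_mul_of_nonneg_left hKge (rpos _).le
        _ = _ := by ring
    have j2 : (1 : ℝ) ≤ (x : ℝ) ^ (1 - ε / 2) := Real.one_le_rpow hx1 (by linarith)
    have j3 : ((x : ℝ) / K + 1) / q + 1 ≤ 4 * ((x : ℝ) ^ (1 - ε / 2) / q) := by
      have : (1 : ℝ) ≤ (x : ℝ) ^ (1 - ε / 2) / q := by rw [le_div_iff₀ hq0]; linarith
      calc ((x : ℝ) / K + 1) / q + 1 ≤ (2 * (x : ℝ) ^ (1 - ε / 2) + (x : ℝ) ^ (1 - ε / 2)) / q +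
            (x : ℝ) ^ (1 - ε / 2) / q := by gcongr
        _ = _ := by ring
    calc (((x : ℝ) / K + 1) / q + 1) * (4 * Real.log x ^ 2)
        ≤ (4 * ((x : ℝ) ^ (1 - ε / 2) / q)) * (4 * Real.log x ^ 2) :=
          mul_le_mul_of_nonneg_right j3 (by positivity)
      _ = (16 * Real.log x ^ 2) * ((x : ℝ) ^ (1 - ε / 2) / q) := by ring
      _ ≤ (x : ℝ) ^ (ε / 16) * ((x : ℝ) ^ (1 - ε / 2) / q) :=
          mul_le_mul_of_nonneg_right hxL (div_nonneg (rpos _).le hq0.le)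
      _ = (x : ℝ) ^ (ε / 16 + (1 - ε / 2)) / q := by rw [mul_div_assoc', radd]
      _ ≤ _ := by
          apply div_le_div_of_nonneg_right _ hq0.le
          exact rle (by linarith)
  calc _ ≤ 4 * ((x : ℝ) ^ (1 - 3 * ε / 8) / q) + (x : ℝ) ^ (1 - 3 * ε / 8) / q := add_le_add k1 k2
    _ = 5 * ((x : ℝ) ^ (1 - 3 * ε / 8) / q) := by ring
    _ ≤ (x : ℝ) ^ (ε / 16) * ((x : ℝ) ^ (1 - 3 * ε / 8) / q) := by
        apply mul_le_mul_of_nonneg_right (by linarith) (div_nonneg (rpos _).le hq0.le)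
    _ = (x : ℝ) ^ (ε / 16 + (1 - 3 * ε / 8)) / q := by rw [mul_div_assoc', radd]
    _ ≤ _ := by
        apply div_le_div_of_nonneg_right _ hq0.le
        exact rle (by linarith)

/-- the sum over the left moduli -/
theorem manyG (θ κ : ℝ) (hθ1 : 1 / 2 ≤ θ) (hθ : θ < 23 / 45) (hκ0 : 0 ≤ κ) (hκ : κ < 1 / 3) :
    ∃ η : ℝ, 0 < η ∧ ∀ ε1 : ℝ, 0 < ε1 → ∃ ν : ℝ, 0 < ν ∧ ∀ U : ℕ, ∃ C : ℝ, 0 < C ∧ ∀ x : ℕ, 3 ≤ x →
      ∀ (I : ℕ → Finset ℕ) (S : Finset ℕ) (T : ℕ → Finset ℕ) (c : ℕ → ℕ → ℕ → ℤ) (D : ℕ → ℕ → Set ℕ)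
      (j : ℕ → ℕ → ℕ) (y : ℕ → ℕ → ℝ),
      (∀ q ∈ S, 0 < q ∧ (q : ℝ) ≤ (x : ℝ) ^ κ ∧ ((I q).card : ℝ) ≤ (x : ℝ) ^ ν) →
      (∀ q ∈ S, ∀ i ∈ I q, Tree x q θ ε1 η (c q i) (D q i)) →
      (∀ q ∈ S, ∀ t ∈ T q, j q t ∈ I q ∧ t ∈ D q (j q t) ∧ 2 ≤ y q t ∧ y q t ≤ x) →
      ∑ q ∈ S, ∑ t ∈ T q, |pn ⌊y q t⌋₊ (q * t) (c q (j q t) t) - liR (y q t) / (Nat.totient (q * t) : ℝ)| ≤
        C * (x / Real.log x ^ U) := by
  obtain ⟨η, hη, hmain⟩ := one_leftG θ κ hθ1 hθ hκ0 hκ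
  refine ⟨η, hη, fun ε1 hε1 => ?_⟩
  obtain ⟨ν, hν, hev⟩ := hmain ε1 hε1
  refine ⟨ν, hν, fun U => ?_⟩
  obtain ⟨C1, hC1, hbv⟩ := bvh κ hκ (U + 2)
  have hlog : ∀ᶠ x : ℕ in atTop, 2 * Real.log x ^ (U + 1) ≤ (x : ℝ) ^ ν :=
    tendsto_natCast_atTop_atTop.eventually (Pool.Agent.Y61.Z.ev_log_rpow 2 (U + 1) hν)
  obtain ⟨x0, hx0⟩ := eventually_atTop.1 (hev.and (hlog.and hbv))
  set Bd : ℕ → ℝ := fun x => (x : ℝ) * ((x : ℝ) * (3 * (x : ℝ))) * Real.log x ^ U / x with hBd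
  have hBd0 : ∀ x, 0 ≤ Bd x := by
    intro x
    have := Real.log_natCast_nonneg x
    rw [hBd]
    positivity
  refine ⟨(1 + 4 * C1) + ∑ x ∈ range x0, Bd x, ?_, ?_⟩
  · have : 0 ≤ ∑ x ∈ range x0, Bd x := sum_nonneg fun x _ => hBd0 x
    linarith
  intro x hx I S T c D j y hS hD hT
  have hl := log_ge1 hx
  have hl0 : 0 < Real.log x := by linarith
  have hx1 : (1 : ℝ) ≤ x := by exact_mod_cast (by omega : 1 ≤ x)
  have hxr : (0 : ℝ) < x := by linarith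
  have hsum0 : 0 ≤ ∑ x ∈ range x0, Bd x := sum_nonneg fun x _ => hBd0 x
  have hmain0 : 0 ≤ (x : ℝ) / Real.log x ^ U := by positivity
  have hMo : ∀ q ∈ S, ∀ t ∈ T q, Mo x q (c q (j q t) t) θ ε1 η t := fun q hq t ht =>
    (hD q hq _ (hT q hq t ht).1).mo t (hT q hq t ht).2.1
  have hSx : ∀ q ∈ S, q ≤ x := by
    intro q hq
    have h1 : (q : ℝ) ≤ x := by
      refine (hS q hq).2.1.trans ?_
      calc (x : ℝ) ^ κ ≤ (x : ℝ) ^ (1 : ℝ) := Real.rpow_le_rpow_of_exponent_le hx1 (by linarith)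
        _ = x := Real.rpow_one _
    exact_mod_cast h1
  have hTx : ∀ q ∈ S, T q ⊆ Icc 1 x := by
    intro q hq t ht
    have h3 := hMo q hq t ht
    rw [mem_Icc]
    refine ⟨h3.pos, ?_⟩
    have h1 : (t : ℝ) ≤ x := by
      have h2 : (t : ℝ) ≤ q * t := le_mul_of_one_le_left (Nat.cast_nonneg t) (by exact_mod_cast (hS q hq).1)
      refine h2.trans (h3.2.2.2.trans ?_)
      calc (x : ℝ) ^ θ ≤ (x : ℝ) ^ (1 : ℝ) := Real.rpow_le_rpow_of_exponent_le hx1 (by linarith)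
        _ = x := Real.rpow_one _
    exact_mod_cast h1
  rcases Nat.lt_or_ge x x0 with h | h
  · -- small `x`
    have h1 : ∑ q ∈ S, ∑ t ∈ T q, |pn ⌊y q t⌋₊ (q * t) (c q (j q t) t) - liR (y q t) / (Nat.totient (q * t) : ℝ)| ≤
        (x : ℝ) * ((x : ℝ) * (3 * (x : ℝ))) := by
      have h2 : ∀ q ∈ S, ∀ t ∈ T q,
          |pn ⌊y q t⌋₊ (q * t) (c q (j q t) t) - liR (y q t) / (Nat.totient (q * t) : ℝ)| ≤ 3 * (x : ℝ) := by
        intro q hq t ht
        obtain ⟨-, -, h4, h5⟩ := hT q hq t ht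
        have h3 := hMo q hq t ht
        obtain ⟨g1, g2⟩ := Pool.Agent.H441R3.BV.li_bound (y q t) h4
        have g3 : pn ⌊y q t⌋₊ (q * t) (c q (j q t) t) ≤ x := by
          have g4 : ⌊y q t⌋₊ ≤ x := by
            have := Nat.floor_le_floor h5
            rwa [Nat.floor_natCast] at this
          have g5 : pn ⌊y q t⌋₊ (q * t) (c q (j q t) t) ≤ (⌊y q t⌋₊ : ℝ) := by
            unfold pn
            exact_mod_cast (card_filter_le _ _).trans (by simp)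
          exact g5.trans (by exact_mod_cast g4)
        have g6 : (0 : ℝ) ≤ pn ⌊y q t⌋₊ (q * t) (c q (j q t) t) := by unfold pn; positivity
        have g7 : (1 : ℝ) ≤ (Nat.totient (q * t) : ℝ) := by
          exact_mod_cast Nat.totient_pos.2 (Nat.mul_pos (hS q hq).1 h3.pos)
        have g8 : liR (y q t) / (Nat.totient (q * t) : ℝ) ≤ 2 * x := by
          refine (div_le_self g1 g7).trans (g2.trans ?_)
          linarith
        have g9 : 0 ≤ liR (y q t) / (Nat.totient (q * t) : ℝ) := div_nonneg g1 (by linarith)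
        rw [abs_le]
        constructor <;> linarith
      have h3 : ∀ q ∈ S, ∑ t ∈ T q, |pn ⌊y q t⌋₊ (q * t) (c q (j q t) t) - liR (y q t) / (Nat.totient (q * t) : ℝ)| ≤
          (x : ℝ) * (3 * (x : ℝ)) := by
        intro q hq
        refine (sum_le_sum (h2 q hq)).trans ?_
        rw [sum_const, nsmul_eq_mul]
        apply mul_le_mul_of_nonneg_right _ (by positivity)
        have := card_le_card (hTx q hq)
        rw [Nat.card_Icc, Nat.add_sub_cancel] at this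
        exact_mod_cast this
      refine (sum_le_sum h3).trans ?_
      rw [sum_const, nsmul_eq_mul]
      apply mul_le_mul_of_nonneg_right _ (by positivity)
      have h5 : S ⊆ Icc 1 x := fun q hq => mem_Icc.2 ⟨(hS q hq).1, hSx q hq⟩
      have := card_le_card h5
      rw [Nat.card_Icc, Nat.add_sub_cancel] at this
      exact_mod_cast this
    refine h1.trans ?_
    have h2 : (x : ℝ) * ((x : ℝ) * (3 * (x : ℝ))) = Bd x * (x / Real.log x ^ U) := by
      rw [hBd]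
      field_simp
    rw [h2]
    have h3 : Bd x ≤ ∑ x ∈ range x0, Bd x := single_le_sum (fun i _ => hBd0 i) (mem_range.2 h)
    apply mul_le_mul_of_nonneg_right _ hmain0
    linarith
  · -- large `x`
    obtain ⟨h1, h2, hbvx⟩ := hx0 x h
    have h3 := many_large x hx U κ C1 ((x : ℝ) ^ (1 - ν)) S T (fun q t => c q (j q t) t) y
      (fun q hq => ⟨(hS q hq).1, hSx q hq, (hS q hq).2.1⟩) hTx
      (fun q hq t ht => (Nat.squarefree_mul_iff.1 (hMo q hq t ht).1).1)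
      (fun q hq t ht => (hD q hq _ (hT q hq t ht).1).cc t (hT q hq t ht).2.1)
      (fun q hq t ht => (hT q hq t ht).2.2)
      (fun q hq => h1 q (hS q hq).1 (hS q hq).2.1 (I q) (hS q hq).2.2 (c q) (D q) (hD q hq) (T q) (j q)
        (fun t => ⌊y q t⌋₊) (fun t ht => (hT q hq t ht).1) (fun t ht => (hT q hq t ht).2.1)
        (fun t ht => by
          have := Nat.floor_le_floor (hT q hq t ht).2.2.2
          rwa [Nat.floor_natCast] at this))
      (by positivity) (by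
        rw [le_div_iff₀ (by positivity)]
        have e : (x : ℝ) = (x : ℝ) ^ (1 - ν) * (x : ℝ) ^ ν := by
          rw [← Real.rpow_add hxr]
          have : 1 - ν + ν = 1 := by ring
          rw [this, Real.rpow_one]
        have h4 : (1 + Real.log x) * Real.log x ^ U ≤ (x : ℝ) ^ ν := by
          calc (1 + Real.log x) * Real.log x ^ U ≤ (2 * Real.log x) * Real.log x ^ U := by
                apply mul_le_mul_of_nonneg_right _ (by positivity)
                linarith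
            _ = 2 * Real.log x ^ (U + 1) := by ring
            _ ≤ _ := h2
        calc (x : ℝ) ^ (1 - ν) * (1 + Real.log x) * Real.log x ^ U
            = (x : ℝ) ^ (1 - ν) * ((1 + Real.log x) * Real.log x ^ U) := by ring
          _ ≤ (x : ℝ) ^ (1 - ν) * (x : ℝ) ^ ν := mul_le_mul_of_nonneg_left h4 (by positivity)
          _ = x := e.symm)
      hbvx
    refine h3.trans ?_
    apply mul_le_mul_of_nonneg_right _ hmain0
    linarith

end Pool.Agent.Helper91K1.T
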